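import Mathlib

/-!
Substitution of sums of `r` terms in a form.
-/

set_option autoImplicit false

namespace Pool.Agent.Q33.SP

open MvPolynomial

variable {n r : ℕ}

/-- the ring of the coefficients -/
abbrev CR (n r : ℕ) := MvPolynomial (Fin r × Fin (n + 1)) ℂ

/-- the generic substitution of a sum of `r` terms -/
noncomputable def gs (r : ℕ) (G : MvPolynomial (Fin (n + 1)) ℂ) : MvPolynomial (Fin r) (CR n r) :=
  aeval (fun i => ∑ j, C (X (j, i)) * X j : Fin (n + 1) → MvPolynomial (Fin r) (CR n r)) G

theorem gs_homog {G : MvPolynomial (Fin (n + 1)) ℂ} {d : ℕ} (hG : G.IsHomogeneous d) :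
    (gs r G).IsHomogeneous d := by
  unfold gs
  have h := hG.aeval (S := CR n r) (n := 1) (τ := Fin r)
    (fun i => ∑ j, C (X (j, i)) * X j) (fun i => by
      apply IsHomogeneous.sum
      intro j _
      exact isHomogeneous_C_mul_X _ _)
  rw [one_mul] at h
  exact h

theorem gs_degree {G : MvPolynomial (Fin (n + 1)) ℂ} {d : ℕ} (hG : G.IsHomogeneous d)
    {a : Fin r →₀ ℕ} (ha : a ∈ (gs r G).support) : ∑ j, a j = d := by
  have h := gs_homog (r := r) hG (mem_support_iff.1 ha)
  rw [← h, Finsupp.weight_apply, Finsupp.sum_fintype _ _ (fun i => by simp)]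
  simp

theorem gs_card {G : MvPolynomial (Fin (n + 1)) ℂ} {d : ℕ} (hG : G.IsHomogeneous d) :
    (gs r G).support.card ≤ (r + d - 1).choose d := by
  classical
  have h1 : (gs r G).support ⊆ (Finset.univ : Finset (Fin r)).finsuppAntidiag d := by
    intro a ha
    rw [Finset.mem_finsuppAntidiag]
    exact ⟨gs_degree hG ha, fun j _ => Finset.mem_univ j⟩
  refine (Finset.card_le_card h1).trans ?_
  rw [Finset.card_finsuppAntidiag_nat_eq_choose, Finset.card_univ, Fintype.card_fin]

theorem gs_expand {S : Type} [CommRing S] [Algebra ℂ S] (U : Fin r → Fin (n + 1) → S)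
    (x : Fin r → S) (G : MvPolynomial (Fin (n + 1)) ℂ) :
    aeval (fun i => ∑ j, U j i * x j) G =
      ∑ a ∈ (gs r G).support, aeval (fun p : Fin r × Fin (n + 1) => U p.1 p.2) ((gs r G).coeff a) *
        ∏ j, x j ^ a j := by
  let φ0 : CR n r →ₐ[ℂ] S := aeval (fun p : Fin r × Fin (n + 1) => U p.1 p.2)
  have h1 : eval₂ (φ0 : CR n r →+* S) x (gs r G) = aeval (fun i => ∑ j, U j i * x j) G := by
    unfold gs
    have h2 : ∀ G : MvPolynomial (Fin (n + 1)) ℂ, eval₂ (φ0 : CR n r →+* S) x
        (aeval (fun i => ∑ j, C (X (j, i)) * X j : Fin (n + 1) → MvPolynomial (Fin r) (CR n r)) G) =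
        aeval (fun i => ∑ j, U j i * x j) G := by
      intro G
      induction G using MvPolynomial.induction_on with
      | C a =>
        rw [algHom_C, algHom_C]
        change eval₂ (φ0 : CR n r →+* S) x (C (C a)) = _
        rw [eval₂_C]
        exact aeval_C _ a
      | add p q hp hq => rw [map_add, map_add, eval₂_add, hp, hq]
      | mul_X p i hp =>
        rw [map_mul, map_mul, eval₂_mul, hp, aeval_X, aeval_X, eval₂_sum]
        congr 1
        refine Finset.sum_congr rfl fun j _ => ?_
        rw [eval₂_mul, eval₂_C, eval₂_X]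
        congr 1
        exact aeval_X _ _
    exact h2 G
  rw [← h1, eval₂_eq']
  rfl

end Pool.Agent.Q33.SP
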