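import Pool.Agent.Q33.SP.Lat
import Pool.Agent.Q33.SP.GSub
import Pool.Agent.W603.BP.Rel

/-!
Sums of `r` terms on a variety: splitting of the equations.
-/

set_option autoImplicit false

namespace Pool.Agent.Q33.SP

open Filter Topology Pool.Agent.W603.BP MvPolynomial

variable {n r : ℕ}

section gen

/-- the differences of the exponents of bounded degree -/
noncomputable def diffs (r D : ℕ) : Finset (Fin r → ℤ) := by
  classical
  exact (Fintype.piFinset fun _ : Fin r => Finset.Icc (-(D : ℤ)) D).filter fun v => ∑ j, v j = 0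

theorem mem_diffs {D : ℕ} {a b : Fin r →₀ ℕ} (h : ∑ j, a j = ∑ j, b j) (ha : ∑ j, a j ≤ D) :
    (fun j => (a j : ℤ) - b j) ∈ diffs r D := by
  classical
  have h1 : ∀ j, a j ≤ D := fun j => le_trans (Finset.single_le_sum (f := fun j => a j)
    (fun _ _ => Nat.zero_le _) (Finset.mem_univ j)) ha
  have h2 : ∀ j, b j ≤ D := fun j => le_trans (Finset.single_le_sum (f := fun j => b j)
    (fun _ _ => Nat.zero_le _) (Finset.mem_univ j)) (h ▸ ha)
  unfold diffs
  rw [Finset.mem_filter, Fintype.mem_piFinset]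
  refine ⟨fun j => ?_, ?_⟩
  · rw [Finset.mem_Icc]
    have := h1 j
    have := h2 j
    constructor
    · omega
    · omega
  · rw [Finset.sum_sub_distrib, sub_eq_zero]
    exact_mod_cast h

/-- a generic vector orthogonal to `A` -/
noncomputable def gen (A : Finset (Fin r → ℤ)) : Fin r → ℕ := by
  classical
  exact if h : ∀ v ∈ (A : Set (Fin r → ℤ)), ∑ j, v j = 0 then (exists_generic _ h).choose else 0

theorem gen_spec (A : Finset (Fin r → ℤ)) (h : ∀ v ∈ (A : Set (Fin r → ℤ)), ∑ j, v j = 0) :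
    (∀ v ∈ A, ∑ j, v j * (gen A j : ℤ) = 0) ∧
      ∀ j k, gen A j = gen A k →
        ∃ N : ℕ, 0 < N ∧ (N • dif j k) ∈ AddSubgroup.closure (A : Set (Fin r → ℤ)) := by
  unfold gen
  rw [dif_pos h]
  exact (exists_generic _ h).choose_spec

/-- the finite set of the exponent vectors of the curves -/
noncomputable def Exps (r D : ℕ) : Finset (Fin r → ℕ) := by
  classical
  exact (diffs r D).powerset.image gen

end gen

/-- monomials -/
def mon (k : Fin r → ℂ → ℂ) (a : Fin r → ℕ) (w : ℂ) : ℂ := ∏ j, k j w ^ a j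

theorem mon_add (k : Fin r → ℂ → ℂ) (a b : Fin r → ℕ) (w : ℂ) :
    mon k (a + b) w = mon k a w * mon k b w := by
  unfold mon
  rw [← Finset.prod_mul_distrib]
  refine Finset.prod_congr rfl fun j _ => ?_
  rw [Pi.add_apply, pow_add]

theorem pun_mon {k : Fin r → ℂ → ℂ} (hk : ∀ j, Pun (k j)) (a : Fin r → ℕ) : Pun (mon k a) :=
  Pun.prod Finset.univ fun j _ => (hk j).pow _

theorem nz_mon {k : Fin r → ℂ → ℂ} (hk : ∀ j, Pun (k j)) (hz : ∀ j, Nz (k j)) (a : Fin r → ℕ) :
    Nz (mon k a) :=
  Nz.prod Finset.univ (fun j _ => (hk j).pow _) fun j _ => (hz j).pow _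

/-- the multiplicative relations of the functions `k j ^ M` modulo meromorphic functions -/
noncomputable def rels (D M : ℕ) (k : Fin r → ℂ → ℂ) : Finset (Fin r → ℤ) := by
  classical
  exact (diffs r D).filter fun v => ∃ a b : Fin r → ℕ, (∀ j, v j = (a j : ℤ) - b j) ∧
    MRel (fun w => mon k a w ^ M) (fun w => mon k b w ^ M)

/-- the exponents of the curves through the points of the curve -/
noncomputable def ex (D M : ℕ) (k : Fin r → ℂ → ℂ) : Fin r → ℕ := gen (rels D M k)

theorem ex_mem (D M : ℕ) (k : Fin r → ℂ → ℂ) : ex D M k ∈ Exps r D := by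
  classical
  unfold Exps ex
  refine Finset.mem_image.2 ⟨_, Finset.mem_powerset.2 ?_, rfl⟩
  unfold rels
  exact Finset.filter_subset _ _

theorem rels_sum (D M : ℕ) (k : Fin r → ℂ → ℂ) :
    ∀ v ∈ (rels D M k : Set (Fin r → ℤ)), ∑ j, v j = 0 := by
  classical
  intro v hv
  have h1 : v ∈ rels D M k := hv
  unfold rels at h1
  have h2 := (Finset.mem_filter.1 h1).1
  unfold diffs at h2
  exact (Finset.mem_filter.1 h2).2

theorem ex_color {D M : ℕ} {k : Fin r → ℂ → ℂ} {a b : Fin r →₀ ℕ} (h : ∑ j, a j = ∑ j, b j)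
    (ha : ∑ j, a j ≤ D) (hM : MRel (fun w => mon k a w ^ M) (fun w => mon k b w ^ M)) :
    ∑ j, a j * ex D M k j = ∑ j, b j * ex D M k j := by
  classical
  have h1 : (fun j => (a j : ℤ) - b j) ∈ rels D M k := by
    unfold rels
    exact Finset.mem_filter.2 ⟨mem_diffs h ha, a, b, fun j => rfl, hM⟩
  have h2 := (gen_spec _ (rels_sum D M k)).1 _ h1
  have h3 : ∑ j, ((a j : ℤ) * ex D M k j) = ∑ j, ((b j : ℤ) * ex D M k j) := by
    rw [← sub_eq_zero, ← Finset.sum_sub_distrib, ← h2]
    refine Finset.sum_congr rfl fun j _ => ?_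
    unfold ex
    ring
  exact_mod_cast h3

theorem mero_aeval {σ : Type} (G : MvPolynomial σ ℂ) {U : σ → ℂ → ℂ}
    (hU : ∀ i, MeromorphicAt (U i) 0) : MeromorphicAt (fun w => aeval (fun i => U i w) G) 0 := by
  induction G using MvPolynomial.induction_on with
  | C a =>
    have : (fun w => aeval (fun i => U i w) (C a : MvPolynomial σ ℂ)) = fun _ => a := by
      funext w
      rw [algHom_C]
      rfl
    rw [this]
    exact MeromorphicAt.const a 0
  | add p q hp hq =>
    have : (fun w => aeval (fun i => U i w) (p + q)) =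
        fun w => aeval (fun i => U i w) p + aeval (fun i => U i w) q := by
      funext w
      rw [map_add]
    rw [this]
    exact hp.fun_add hq
  | mul_X p i hp =>
    have : (fun w => aeval (fun i => U i w) (p * X i)) =
        fun w => aeval (fun i => U i w) p * U i w := by
      funext w
      rw [map_mul, aeval_X]
    rw [this]
    exact hp.fun_mul (hU i)

/-- the curve with the given coefficients and exponents -/
noncomputable def cur (U : Fin r → Fin (n + 1) → ℂ) (e : Fin r → ℕ) :
    Fin (n + 1) → Polynomial ℂ :=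
  fun i => ∑ j, Polynomial.C (U j i) * Polynomial.X ^ e j

theorem aeval_C_pt {σ : Type} (c : σ → ℂ) (G : MvPolynomial σ ℂ) :
    aeval (fun i => Polynomial.C (c i)) G = Polynomial.C (aeval c G) := by
  have h := MvPolynomial.comp_aeval_apply (f := c) (Polynomial.CAlgHom : ℂ →ₐ[ℂ] Polynomial ℂ) G
  exact h.symm

/-- the value of a form on the curve, expanded -/
theorem cur_expand (V : Fin r → Fin (n + 1) → ℂ) (x : Fin r → ℂ) (e : Fin r → ℕ)
    (G : MvPolynomial (Fin (n + 1)) ℂ) :
    aeval (cur (fun j i => V j i * x j) e) G =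
      ∑ a ∈ (gs r G).support, Polynomial.C
        (aeval (fun p : Fin r × Fin (n + 1) => V p.1 p.2) ((gs r G).coeff a) * ∏ j, x j ^ a j) *
          Polynomial.X ^ (∑ j, a j * e j) := by
  have h1 : cur (fun j i => V j i * x j) e =
      fun i => ∑ j, Polynomial.C (V j i) * (Polynomial.C (x j) * Polynomial.X ^ e j) := by
    funext i
    unfold cur
    refine Finset.sum_congr rfl fun j _ => ?_
    rw [Polynomial.C_mul, mul_assoc]
  rw [h1, gs_expand (fun j i => Polynomial.C (V j i))
    (fun j => Polynomial.C (x j) * Polynomial.X ^ e j) G]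
  refine Finset.sum_congr rfl fun a _ => ?_
  rw [aeval_C_pt (fun p : Fin r × Fin (n + 1) => V p.1 p.2), Polynomial.C_mul, mul_assoc]
  congr 1
  rw [map_prod, ← Finset.prod_pow_eq_pow_sum, ← Finset.prod_mul_distrib]
  refine Finset.prod_congr rfl fun j _ => ?_
  rw [mul_pow, ← pow_mul, map_pow, mul_comm (e j)]

theorem coeff_sum_pow {ι : Type} (A : Finset ι) (c : ι → ℂ) (col : ι → ℕ) (v : ℕ) :
    (∑ a ∈ A, Polynomial.C (c a) * Polynomial.X ^ col a).coeff v =
      ∑ a ∈ A.filter (fun a => col a = v), c a := by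
  classical
  rw [Polynomial.finsetSum_coeff, Finset.sum_filter]
  refine Finset.sum_congr rfl fun a _ => ?_
  rw [Polynomial.coeff_C_mul_X_pow]
  by_cases h : col a = v
  · rw [if_pos h, if_pos h.symm]
  · rw [if_neg h, if_neg fun h0 => h h0.symm]

theorem prod_pow_M (k : Fin r → ℂ → ℂ) (a : Fin r → ℕ) (M : ℕ) (w : ℂ) :
    ∏ j, (k j w ^ M) ^ a j = mon k a w ^ M := by
  unfold mon
  rw [← Finset.prod_pow]
  refine Finset.prod_congr rfl fun j _ => ?_
  rw [← pow_mul, ← pow_mul, mul_comm]

/-- the value of a form at a sum of terms -/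
theorem pt_expand (V : Fin r → Fin (n + 1) → ℂ → ℂ) (k : Fin r → ℂ → ℂ) (M : ℕ) (w : ℂ)
    (G : MvPolynomial (Fin (n + 1)) ℂ) :
    eval (fun i => ∑ j, V j i w * k j w ^ M) G = ∑ a ∈ (gs r G).support,
      aeval (fun p : Fin r × Fin (n + 1) => V p.1 p.2 w) ((gs r G).coeff a) *
        mon k a w ^ M := by
  have h := gs_expand (fun j i => V j i w) (fun j => k j w ^ M) G
  rw [← coe_aeval_eq_eval]
  refine (Eq.trans h ?_)
  refine Finset.sum_congr rfl fun a _ => ?_
  rw [prod_pow_M]

section germ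

variable {V : Fin r → Fin (n + 1) → ℂ → ℂ} {k : Fin r → ℂ → ℂ} {M D d : ℕ}

theorem root_mon (hk : ∀ j, Pun (k j)) (hM : 0 < M) (a : Fin r → ℕ) :
    ∃ g : ℂ → ℂ, Pun g ∧ ∀ᶠ t in 𝓝[≠] (0 : ℂ), g t ^ M = mon k a (t ^ M) ^ M :=
  ⟨fun t => mon k a (t ^ M), (pun_mon hk a).comp_pow hM, Eventually.of_forall fun _ => rfl⟩

/-- **Splitting of an equation.** -/
theorem split_zero (hV : ∀ j i, MeromorphicAt (V j i) 0) (hk : ∀ j, Pun (k j)) (hM : 0 < M)
    {G : MvPolynomial (Fin (n + 1)) ℂ} (hG : G.IsHomogeneous d) (hd : d ≤ D)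
    (hdM : ((gs r G).support.card - 1) ^ 2 ≤ M)
    (h0 : ∀ᶠ w in 𝓝[≠] (0 : ℂ), eval (fun i => ∑ j, V j i w * k j w ^ M) G = 0) :
    ∀ᶠ w in 𝓝[≠] (0 : ℂ), aeval (cur (fun j i => V j i w * k j w ^ M) (ex D M k)) G = 0 := by
  classical
  set A := (gs r G).support with hA
  let e : (Fin r →₀ ℕ) → ℂ → ℂ := fun a w => if a ∈ A then mon k a w ^ M else 0
  have heA : ∀ a, a ∈ A → e a = fun w => mon k a w ^ M := by
    intro a ha
    funext w
    exact if_pos ha
  have henA : ∀ a, a ∉ A → e a = fun _ => 0 := by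
    intro a ha
    funext w
    exact if_neg ha
  let col : (Fin r →₀ ℕ) → ℕ := fun a => ∑ j, a j * ex D M k j
  let ρ : (Fin r →₀ ℕ) → ℂ → ℂ := fun a w =>
    aeval (fun p : Fin r × Fin (n + 1) => V p.1 p.2 w) ((gs r G).coeff a)
  have hcs := color_sums hM e (fun a => by
      by_cases ha : a ∈ A
      · rw [heA a ha]
        exact (pun_mon hk a).pow M
      · rw [henA a ha]
        exact Pun.const 0) (fun a => by
      by_cases ha : a ∈ A
      · rw [heA a ha]
        exact root_mon hk hM a
      · rw [henA a ha]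
        exact ⟨fun _ => 0, Pun.const 0, Eventually.of_forall fun _ => zero_pow hM.ne'⟩) col
    (fun a b ha hb hab => by
      have h1 : a ∈ A := by
        by_contra hcon
        rw [henA a hcon] at ha
        exact ha (Eventually.of_forall fun _ => rfl)
      have h2 : b ∈ A := by
        by_contra hcon
        rw [henA b hcon] at hb
        exact hb (Eventually.of_forall fun _ => rfl)
      rw [heA a h1, heA b h2] at hab
      rw [heA b h2] at hb
      refine ex_color ?_ ?_ (growth_mero ((pun_mon hk a).pow M) ((pun_mon hk b).pow M) hb hab)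
      · rw [gs_degree hG h1, gs_degree hG h2]
      · rw [gs_degree hG h1]
        exact hd)
    A hdM ρ (fun a => mero_aeval _ fun p => hV p.1 p.2) (by
      filter_upwards [h0] with w hw
      rw [pt_expand] at hw
      rw [← hw]
      refine Finset.sum_congr rfl fun a ha => ?_
      rw [heA a ha])
  have hall : ∀ᶠ w in 𝓝[≠] (0 : ℂ), ∀ v ∈ A.image col,
      ∑ a ∈ A.filter (fun a => col a = v), ρ a w * e a w = 0 :=
    (Filter.eventually_all_finset _).2 fun v _ => hcs v
  filter_upwards [hall] with w hw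
  rw [cur_expand]
  ext v
  rw [Polynomial.coeff_zero, coeff_sum_pow A _ col v]
  by_cases hv : v ∈ A.image col
  · rw [← hw v hv]
    refine Finset.sum_congr rfl fun a ha => ?_
    rw [heA a (Finset.mem_filter.1 ha).1, prod_pow_M]
  · rw [Finset.filter_eq_empty_iff.2]
    · rfl
    · intro a ha hcol
      exact hv (Finset.mem_image.2 ⟨a, ha, hcol⟩)

/-- **Splitting of a nonvanishing form.** -/
theorem split_unit (hV : ∀ j i, MeromorphicAt (V j i) 0) (hk : ∀ j, Pun (k j)) (hM : 0 < M)
    {G : MvPolynomial (Fin (n + 1)) ℂ} (hG : G.IsHomogeneous d) (hd : d ≤ D)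
    (hdM : ((gs r G).support.card) ^ 2 ≤ M)
    (h0 : ∀ᶠ w in 𝓝[≠] (0 : ℂ), eval (fun i => ∑ j, V j i w * k j w ^ M) G ≠ 0) :
    ∃ m : ℕ, ∀ᶠ w in 𝓝[≠] (0 : ℂ), aeval (cur (fun j i => V j i w * k j w ^ M) (ex D M k)) G =
      Polynomial.C (eval (fun i => ∑ j, V j i w * k j w ^ M) G) * Polynomial.X ^ m := by
  classical
  set A := (gs r G).support with hA
  set u : ℂ → ℂ := fun w => eval (fun i => ∑ j, V j i w * k j w ^ M) G with hu
  let e' : (Fin r →₀ ℕ) → ℂ → ℂ := fun a w => if a ∈ A then mon k a w ^ M else 0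
  have heA : ∀ a, a ∈ A → e' a = fun w => mon k a w ^ M := by
    intro a ha
    funext w
    exact if_pos ha
  have henA : ∀ a, a ∉ A → e' a = fun _ => 0 := by
    intro a ha
    funext w
    exact if_neg ha
  let col' : (Fin r →₀ ℕ) → ℕ := fun a => ∑ j, a j * ex D M k j
  let ρ' : (Fin r →₀ ℕ) → ℂ → ℂ := fun a w =>
    aeval (fun p : Fin r × Fin (n + 1) => V p.1 p.2 w) ((gs r G).coeff a)
  have hρ' : ∀ a, MeromorphicAt (ρ' a) 0 := fun a => mero_aeval _ fun p => hV p.1 p.2
  have he' : ∀ a, Pun (e' a) := by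
    intro a
    by_cases ha : a ∈ A
    · rw [heA a ha]
      exact (pun_mon hk a).pow M
    · rw [henA a ha]
      exact Pun.const 0
  have hue : ∀ w, u w = ∑ a ∈ A, ρ' a w * e' a w := by
    intro w
    rw [hu]
    change eval (fun i => ∑ j, V j i w * k j w ^ M) G = _
    rw [pt_expand]
    refine Finset.sum_congr rfl fun a ha => ?_
    rw [heA a ha]
  have huP : Pun u := by
    have h1 : u = fun w => ∑ a ∈ A, ρ' a w * e' a w := funext hue
    rw [h1]
    exact Pun.sum A fun a _ => (Pun.mero (hρ' a)).mul (he' a)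
  have huN : Nz u := by
    intro h
    obtain ⟨w, h1, h2⟩ := (h.and h0).exists
    exact h2 h1
  have hA1 : ∀ a, Nz (e' a) → a ∈ A := by
    intro a ha
    by_contra hcon
    rw [henA a hcon] at ha
    exact ha (Eventually.of_forall fun _ => rfl)
  have hcol1 : ∀ a b, Nz (e' a) → Nz (e' b) → Gr (e' a) (e' b) → col' a = col' b := by
    intro a b ha hb hab
    have h1 := hA1 a ha
    have h2 := hA1 b hb
    rw [heA a h1, heA b h2] at hab
    rw [heA b h2] at hb
    refine ex_color ?_ ?_ (growth_mero ((pun_mon hk a).pow M) ((pun_mon hk b).pow M) hb hab)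
    · rw [gs_degree hG h1, gs_degree hG h2]
    · rw [gs_degree hG h1]
      exact hd
  -- the color of the unit
  obtain ⟨m, hm⟩ : ∃ m : ℕ, ∀ a, Nz (e' a) → Gr (e' a) u → col' a = m := by
    by_cases h : ∃ a, Nz (e' a) ∧ Gr (e' a) u
    · obtain ⟨a0, ha0, ha1⟩ := h
      refine ⟨col' a0, fun a h1 h2 => hcol1 a a0 h1 ha0 ?_⟩
      have h3 := (growth_mero (he' a0) huP huN ha1).symm ha0
      exact h2.trans h3.gr
    · push Not at h
      exact ⟨0, fun a h1 h2 => absurd h2 (h a h1)⟩
  have hsym : ∀ a, Nz (e' a) → Gr u (e' a) → Gr (e' a) u := by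
    intro a ha h
    exact ((growth_mero huP (he' a) ha h).symm huN).gr
  let e : Option (Fin r →₀ ℕ) → ℂ → ℂ := fun o => o.elim u e'
  let col : Option (Fin r →₀ ℕ) → ℕ := fun o => o.elim m col'
  let ρ : Option (Fin r →₀ ℕ) → ℂ → ℂ := fun o => o.elim (fun _ => -1) ρ'
  have hcs := color_sums hM e (fun o => by
      cases o with
      | none => exact huP
      | some a => exact he' a) (fun o => by
      cases o with
      | none => exact root huP h0 hM
      | some a =>
        change ∃ g : ℂ → ℂ, Pun g ∧ ∀ᶠ t in 𝓝[≠] (0 : ℂ), g t ^ M = e' a (t ^ M)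
        by_cases ha : a ∈ A
        · rw [heA a ha]
          exact root_mon hk hM a
        · rw [henA a ha]
          exact ⟨fun _ => 0, Pun.const 0, Eventually.of_forall fun _ => zero_pow hM.ne'⟩) col
    (fun o o' ho ho' hoo => by
      cases o with
      | none =>
        cases o' with
        | none => rfl
        | some b => exact (hm b ho' (hsym b ho' hoo)).symm
      | some a =>
        cases o' with
        | none => exact hm a ho hoo
        | some b => exact hcol1 a b ho ho' hoo)
    (Finset.insertNone A) (by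
      rw [Finset.card_insertNone, Nat.add_sub_cancel]
      exact hdM) ρ (fun o => by
      cases o with
      | none => exact MeromorphicAt.const _ 0
      | some a => exact hρ' a) (by
      refine Eventually.of_forall fun w => ?_
      rw [Finset.sum_insertNone]
      change -1 * u w + ∑ a ∈ A, ρ' a w * e' a w = 0
      rw [← hue]
      ring)
  have hall : ∀ᶠ w in 𝓝[≠] (0 : ℂ), ∀ v ∈ insert m (A.image col'),
      ∑ a ∈ (Finset.insertNone A).filter (fun a => col a = v), ρ a w * e a w = 0 :=
    (Filter.eventually_all_finset _).2 fun v _ => hcs v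
  refine ⟨m, ?_⟩
  filter_upwards [hall] with w hw
  rw [cur_expand]
  ext v
  rw [coeff_sum_pow A _ col' v, Polynomial.coeff_C_mul_X_pow]
  have hsum : ∑ a ∈ A.filter (fun a => col' a = v),
      aeval (fun p : Fin r × Fin (n + 1) => V p.1 p.2 w) ((gs r G).coeff a) *
        ∏ j, (k j w ^ M) ^ a j = ∑ a ∈ A.filter (fun a => col' a = v), ρ' a w * e' a w := by
    refine Finset.sum_congr rfl fun a ha => ?_
    rw [heA a (Finset.mem_filter.1 ha).1, prod_pow_M]
  rw [hsum]
  by_cases hv : v ∈ insert m (A.image col')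
  · have h1 := hw v hv
    rw [Finset.sum_filter, Finset.sum_insertNone] at h1
    change (if m = v then -1 * u w else 0) + ∑ a ∈ A, (if col' a = v then ρ' a w * e' a w else 0)
      = 0 at h1
    rw [← Finset.sum_filter] at h1
    by_cases hmv : v = m
    · rw [if_pos hmv]
      rw [if_pos hmv.symm] at h1
      linear_combination h1
    · rw [if_neg hmv]
      rw [if_neg fun h => hmv h.symm, zero_add] at h1
      exact h1
  · rw [Finset.mem_insert, not_or] at hv
    rw [if_neg hv.1, Finset.filter_eq_empty_iff.2]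
    · rfl
    · intro a ha hcol
      exact hv.2 (Finset.mem_image.2 ⟨a, ha, hcol⟩)

end germ

end Pool.Agent.Q33.SP
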