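import Pool.Agent.Q33.SP.Dom
import Pool.Agent.TH143.Conv
import Pool.Agent.H159R3.NV.Final

/-!
The special sets given by curves with `r` terms.
-/

set_option autoImplicit false

namespace Pool.Agent.Q33.SP

open MvPolynomial Filter Topology Pool.Agent.W603.BP Pool.Agent.H159R3.NV

variable {n r : ℕ} {ι : Type}

/-- The point with homogeneous coordinates `x` lies on `F = 0`, `Q ≠ 0`. -/
def OnX (F : ι → MvPolynomial (Fin (n + 1)) ℂ) (Q : MvPolynomial (Fin (n + 1)) ℂ)
    (x : Fin (n + 1) → ℂ) : Prop :=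
  (∀ i, eval x (F i) = 0) ∧ eval x Q ≠ 0

/-- A holomorphic map from the punctured disc to `F = 0`, `Q ≠ 0` with an essential singularity,
given, near the origin, by a sum of `r` terms: `M`-th powers of holomorphic functions times vectors
of meromorphic germs. -/
structure PunctSp (r M : ℕ) (F : ι → MvPolynomial (Fin (n + 1)) ℂ)
    (Q : MvPolynomial (Fin (n + 1)) ℂ) (f : ℂ → Fin (n + 1) → ℂ) : Prop where
  an : ∀ i, AnalyticOnNhd ℂ (fun w => f w i) {w : ℂ | w ≠ 0 ∧ ‖w‖ < 1}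
  on : ∀ w : ℂ, w ≠ 0 → ‖w‖ < 1 → OnX F Q (f w)
  sum : SumPow r M f
  ess : Ess f

/-- A nonconstant entire curve in `F = 0`, `Q ≠ 0` given by a sum of `r` terms, constant vectors
times `M`-th powers of entire functions. -/
structure EntSp (r M : ℕ) (F : ι → MvPolynomial (Fin (n + 1)) ℂ)
    (Q : MvPolynomial (Fin (n + 1)) ℂ) (f : ℂ → Fin (n + 1) → ℂ) : Prop where
  sum : ∃ (v : Fin r → Fin (n + 1) → ℂ) (k : Fin r → ℂ → ℂ), (∀ j, Differentiable ℂ (k j)) ∧
    ∀ z i, f z i = ∑ j, v j i * k j z ^ M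
  on : ∀ z : ℂ, OnX F Q (f z)
  nonconst : ∃ z z' i l, f z i * f z' l ≠ f z l * f z' i

/-- A nonconstant map from a torus to `F = 0`, `Q ≠ 0` given by Laurent polynomials with at most `r`
monomials. -/
structure TorSp (r g : ℕ) (F : ι → MvPolynomial (Fin (n + 1)) ℂ)
    (Q : MvPolynomial (Fin (n + 1)) ℂ) (f : (Fin g → ℂ) → Fin (n + 1) → ℂ) : Prop where
  sum : ∃ (v : Fin r → Fin (n + 1) → ℂ) (b : Fin r → Fin g → ℤ),
    ∀ t i, f t i = ∑ j, v j i * ∏ a, t a ^ b j a
  on : ∀ t, (∀ a, t a ≠ 0) → OnX F Q (f t)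
  nonconst : ∃ t t', (∀ a, t a ≠ 0) ∧ (∀ a, t' a ≠ 0) ∧ ∃ i l, f t i * f t' l ≠ f t l * f t' i

theorem wn (t : ℂ) (ht : t ≠ 0) : ∃ w : ℕ → ℂ, (∀ n, w n ≠ 0) ∧ (∀ n, Complex.exp (w n)⁻¹ = t) ∧
    Tendsto w atTop (𝓝[≠] 0) := by
  have h1 : ∀ n : ℕ, ∃ w ∈ PB (1 / ((n : ℝ) + 1)), Complex.exp w⁻¹ = t := fun n =>
    Pool.Agent.TH143.exists_exp_inv ht (by positivity)
  choose w hw hwt using h1
  refine ⟨w, fun n => (hw n).1, hwt, ?_⟩
  rw [tendsto_nhdsWithin_iff]
  refine ⟨?_, Eventually.of_forall fun n => (hw n).1⟩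
  rw [tendsto_zero_iff_norm_tendsto_zero]
  exact squeeze_zero (fun n => norm_nonneg _) (fun n => (hw n).2.le)
    tendsto_one_div_add_atTop_nhds_zero_nat

/-- a meromorphic germ which is a function of `exp (1 / w)` is constant -/
theorem mero_exp {ρ : ℂ → ℂ} (hρ : MeromorphicAt ρ 0) {a b : ℂ → ℂ}
    (h : ∀ᶠ w in 𝓝[≠] (0 : ℂ), a (Complex.exp w⁻¹) = ρ w * b (Complex.exp w⁻¹)) :
    ∃ c : ℂ, ∀ t, t ≠ 0 → b t ≠ 0 → a t = c * b t := by
  have hval : ∀ t, t ≠ 0 → b t ≠ 0 → ∀ w : ℕ → ℂ, (∀ n, Complex.exp (w n)⁻¹ = t) →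
      Tendsto w atTop (𝓝[≠] 0) → ∀ᶠ n in atTop, ρ (w n) = a t / b t := by
    intro t ht hb w hwt hw
    filter_upwards [hw.eventually h] with n hn
    rw [hwt n] at hn
    rw [hn]
    field_simp
  rcases lt_or_ge (meromorphicOrderAt ρ 0) 0 with ho | ho
  · refine ⟨0, fun t ht hb => ?_⟩
    exfalso
    obtain ⟨w, -, hwt, hw⟩ := wn t ht
    have h1 := (tendsto_cobounded_of_meromorphicOrderAt_neg ho).comp hw
    have h2 : Tendsto (fun n => ‖ρ (w n)‖) atTop atTop := tendsto_norm_cobounded_atTop.comp h1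
    have h3 := (h2.eventually_gt_atTop ‖a t / b t‖).and (hval t ht hb w hwt hw)
    obtain ⟨n, h4, h5⟩ := h3.exists
    rw [h5] at h4
    exact lt_irrefl _ h4
  · obtain ⟨c, hc⟩ := tendsto_nhds_of_meromorphicOrderAt_nonneg hρ ho
    refine ⟨c, fun t ht hb => ?_⟩
    obtain ⟨w, -, hwt, hw⟩ := wn t ht
    have h1 : Tendsto (fun n => ρ (w n)) atTop (𝓝 c) := hc.comp hw
    have h2 : Tendsto (fun n => ρ (w n)) atTop (𝓝 (a t / b t)) :=
      tendsto_const_nhds.congr' ((hval t ht hb w hwt hw).mono fun n hn => hn.symm)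
    have h3 := tendsto_nhds_unique h1 h2
    rw [h3]
    field_simp

theorem ess_exp {f : ℂ → Fin (n + 1) → ℂ} (hf : ∀ i, Differentiable ℂ fun z => f z i)
    (hnc : ∃ z z' i l, f z i * f z' l ≠ f z l * f z' i) : Ess (fun w => f (Complex.exp w⁻¹)) := by
  obtain ⟨z, z', i0, l0, hne⟩ := hnc
  obtain ⟨b, hb⟩ : ∃ b, (fun z => f z b) ≠ 0 := by
    by_contra hcon
    push Not at hcon
    apply hne
    have h1 : ∀ z i, f z i = 0 := fun z i => congrFun (hcon i) z
    rw [h1, h1, h1, h1]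
  have hbz : ¬ ∀ᶠ w in 𝓝[≠] (0 : ℂ), f (Complex.exp w⁻¹) b = 0 := by
    intro h0
    apply hb
    have h1 : ∀ t, t ≠ 0 → f t b = 0 := by
      intro t ht
      obtain ⟨w, -, hwt, hw⟩ := wn t ht
      obtain ⟨n, hn⟩ := (hw.eventually h0).exists
      rw [hwt n] at hn
      exact hn
    funext t
    exact zero_of_punctured (hf b) h1 t
  by_contra hess
  unfold Ess at hess
  push Not at hess
  have hall : ∀ i, ∃ c : ℂ, ∀ t, f t i = c * f t b := by
    intro i
    obtain ⟨ρ, hρ, hρe⟩ := hess i b (by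
      intro h0
      apply hbz
      exact h0.mono fun w hw => not_not.1 hw)
    obtain ⟨c, hc⟩ := mero_exp hρ (a := fun z => f z i) (b := fun z => f z b) hρe
    refine ⟨c, ?_⟩
    have hd : Differentiable ℂ (fun z => f z i - c * f z b) := (hf i).sub ((hf b).const_mul c)
    have hz : ∀ t, (f t i - c * f t b) * f t b = 0 := by
      apply zero_of_punctured (hd.fun_mul (hf b))
      intro t ht
      by_cases h0 : f t b = 0
      · rw [h0, mul_zero]
      · rw [hc t ht h0, sub_self, zero_mul]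
    rcases ent_eq_zero_or hd (hf b) hz with h | h
    · intro t
      exact sub_eq_zero.1 (congrFun h t)
    · exact absurd h hb
  choose c hc using hall
  apply hne
  rw [hc i0 z, hc l0 z', hc l0 z, hc i0 z']
  ring

theorem EntSp.diff {M : ℕ} {F : ι → MvPolynomial (Fin (n + 1)) ℂ}
    {Q : MvPolynomial (Fin (n + 1)) ℂ} {f : ℂ → Fin (n + 1) → ℂ} (h : EntSp r M F Q f)
    (i : Fin (n + 1)) : Differentiable ℂ fun z => f z i := by
  obtain ⟨v, k, hk, hf⟩ := h.sum
  have : (fun z => f z i) = fun z => ∑ j, v j i * k j z ^ M := by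
    funext z
    exact hf z i
  rw [this]
  exact Differentiable.fun_sum fun j _ => ((hk j).pow M).const_mul _

theorem EntSp.shift {M : ℕ} {F : ι → MvPolynomial (Fin (n + 1)) ℂ}
    {Q : MvPolynomial (Fin (n + 1)) ℂ} {f : ℂ → Fin (n + 1) → ℂ} (h : EntSp r M F Q f) (a : ℂ) :
    EntSp r M F Q (fun z => f (a + z)) := by
  obtain ⟨v, k, hk, hf⟩ := h.sum
  obtain ⟨z, z', i, l, hne⟩ := h.nonconst
  refine ⟨⟨v, fun j z => k j (a + z), fun j => (hk j).comp
    ((differentiable_const a).add differentiable_id), fun z i => hf (a + z) i⟩,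
    fun z => h.on (a + z), ⟨z - a, z' - a, i, l, ?_⟩⟩
  simp only [add_sub_cancel]
  exact hne

/-- an entire curve, pulled back by `exp (1 / w)` -/
theorem EntSp.punct {M : ℕ} {F : ι → MvPolynomial (Fin (n + 1)) ℂ}
    {Q : MvPolynomial (Fin (n + 1)) ℂ} {f : ℂ → Fin (n + 1) → ℂ} (h : EntSp r M F Q f) :
    PunctSp r M F Q (fun w => f (Complex.exp w⁻¹)) := by
  have hexp : ∀ w : ℂ, w ≠ 0 → AnalyticAt ℂ (fun w : ℂ => Complex.exp w⁻¹) w := fun w hw =>
    (analyticAt_inv hw).cexp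
  refine ⟨fun i w hw => ?_, fun w _ _ => h.on _, ?_, ess_exp h.diff h.nonconst⟩
  · exact AnalyticAt.comp (g := fun z => f z i) (f := fun w : ℂ => Complex.exp w⁻¹)
      ((h.diff i).analyticAt _) (hexp w hw.1)
  · obtain ⟨v, k, hk, hf⟩ := h.sum
    refine ⟨fun j i _ => v j i, fun j w => k j (Complex.exp w⁻¹), fun j i =>
      MeromorphicAt.const _ _, fun j => ?_, Eventually.of_forall fun w i => hf _ i⟩
    filter_upwards [self_mem_nhdsWithin] with w hw
    exact AnalyticAt.comp (g := k j) (f := fun w : ℂ => Complex.exp w⁻¹)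
      ((hk j).analyticAt _) (hexp w hw)

/-- the line through two points of a torus -/
noncomputable def lin {g : ℕ} (t t' : Fin g → ℂ) (z : ℂ) : Fin g → ℂ :=
  fun a => t a * Complex.exp (z * Complex.log (t' a / t a))

theorem lin_ne {g : ℕ} {t t' : Fin g → ℂ} (ht : ∀ a, t a ≠ 0) (z : ℂ) (a : Fin g) :
    lin t t' z a ≠ 0 := mul_ne_zero (ht a) (Complex.exp_ne_zero _)

theorem lin_zero {g : ℕ} (t t' : Fin g → ℂ) : lin t t' 0 = t := by
  funext a
  unfold lin
  rw [zero_mul, Complex.exp_zero, mul_one]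

theorem lin_one {g : ℕ} {t t' : Fin g → ℂ} (ht : ∀ a, t a ≠ 0) (ht' : ∀ a, t' a ≠ 0) :
    lin t t' 1 = t' := by
  funext a
  unfold lin
  rw [one_mul, Complex.exp_log (div_ne_zero (ht' a) (ht a))]
  have := ht a
  field_simp

/-- a torus map along a line -/
theorem lin_sum {M g : ℕ} (hM : 0 < M) {f : (Fin g → ℂ) → Fin (n + 1) → ℂ}
    (h : ∃ (v : Fin r → Fin (n + 1) → ℂ) (b : Fin r → Fin g → ℤ),
      ∀ t i, f t i = ∑ j, v j i * ∏ a, t a ^ b j a) (t t' : Fin g → ℂ) :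
    ∃ (v : Fin r → Fin (n + 1) → ℂ) (k : Fin r → ℂ → ℂ), (∀ j, Differentiable ℂ (k j)) ∧
      ∀ z i, f (lin t t' z) i = ∑ j, v j i * k j z ^ M := by
  obtain ⟨v, b, hf⟩ := h
  have hMC : (M : ℂ) ≠ 0 := by exact_mod_cast hM.ne'
  refine ⟨fun j i => v j i * ∏ a, t a ^ b j a, fun j z =>
    Complex.exp (z * (∑ a, (b j a : ℂ) * Complex.log (t' a / t a)) / M), fun j => ?_,
    fun z i => ?_⟩
  · exact ((differentiable_id.mul_const _).div_const _).cexp
  · rw [hf]
    refine Finset.sum_congr rfl fun j _ => ?_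
    rw [mul_assoc]
    congr 1
    rw [← Complex.exp_nat_mul]
    have h1 : (M : ℂ) * (z * (∑ a, (b j a : ℂ) * Complex.log (t' a / t a)) / M) =
        ∑ a, (b j a : ℂ) * (z * Complex.log (t' a / t a)) := by
      rw [mul_div_cancel₀ _ hMC, Finset.mul_sum]
      refine Finset.sum_congr rfl fun a _ => ?_
      ring
    rw [h1, Complex.exp_sum, ← Finset.prod_mul_distrib]
    refine Finset.prod_congr rfl fun a _ => ?_
    unfold lin
    rw [mul_zpow, ← Complex.exp_int_mul]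

/-- a torus map along a line -/
theorem TorSp.ent {M g : ℕ} (hM : 0 < M) {F : ι → MvPolynomial (Fin (n + 1)) ℂ}
    {Q : MvPolynomial (Fin (n + 1)) ℂ} {f : (Fin g → ℂ) → Fin (n + 1) → ℂ}
    (h : TorSp r g F Q f) {t t' : Fin g → ℂ} (ht : ∀ a, t a ≠ 0) (ht' : ∀ a, t' a ≠ 0)
    {i l : Fin (n + 1)} (hne : f t i * f t' l ≠ f t l * f t' i) :
    EntSp r M F Q (fun z => f (lin t t' z)) := by
  refine ⟨lin_sum hM h.sum t t', fun z => h.on _ (lin_ne ht z), ⟨0, 1, i, l, ?_⟩⟩
  rw [lin_zero, lin_one ht ht']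
  exact hne

theorem sum_diff {M : ℕ} {φ : ℂ → Fin (n + 1) → ℂ} (h : ∃ (v : Fin r → Fin (n + 1) → ℂ)
    (k : Fin r → ℂ → ℂ), (∀ j, Differentiable ℂ (k j)) ∧ ∀ z i, φ z i = ∑ j, v j i * k j z ^ M)
    (i : Fin (n + 1)) : Differentiable ℂ fun z => φ z i := by
  obtain ⟨v, k, hk, hf⟩ := h
  have : (fun z => φ z i) = fun z => ∑ j, v j i * k j z ^ M := by
    funext z
    exact hf z i
  rw [this]
  exact Differentiable.fun_sum fun j _ => ((hk j).pow M).const_mul _

theorem eval_an {f : ℂ → Fin (n + 1) → ℂ} {S : Set ℂ}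
    (hf : ∀ j, AnalyticOnNhd ℂ (fun w => f w j) S) (G : MvPolynomial (Fin (n + 1)) ℂ) :
    AnalyticOnNhd ℂ (fun w => eval (f w) G) S := by
  intro w hw
  exact an_aeval G fun j => hf j w hw

/-- curves through the points of entire curves -/
theorem ent_pt {D M q : ℕ} (F : ι → MvPolynomial (Fin (n + 1)) ℂ)
    (hF : ∀ i, ∃ d, d ≤ D ∧ (F i).IsHomogeneous d) (Q : MvPolynomial (Fin (n + 1)) ℂ)
    (hQ : Q.IsHomogeneous q) (hq : q ≤ D) (hM : ((r + D - 1).choose D) ^ 2 ≤ M)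
    (f : ℂ → Fin (n + 1) → ℂ) (hf : EntSp r M F Q f) (z0 : ℂ) :
    ∀ᶠ z in 𝓝[≠] z0, ∃ e ∈ Exps r D, ∃ P, IsSp F Q e P ∧ ∀ i, (P i).eval 1 = f z i := by
  have hp := (hf.shift (z0 - 1)).punct
  obtain ⟨e, he, δ, hδ, h⟩ := pt_main F hF Q hQ hq hM _ hp.sum hp.ess (by
    filter_upwards [PB_mem one_pos] with w hw
    exact hp.on w hw.1 hw.2)
  obtain ⟨w0, hw0, hw1⟩ := Pool.Agent.TH143.exists_exp_inv (t := 1) one_ne_zero hδ
  have hlog : ContinuousAt (fun z : ℂ => Complex.log (1 + (z - z0))) z0 := by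
    have h1 : ContinuousAt (fun z : ℂ => 1 + (z - z0)) z0 :=
      (continuousAt_const.add (continuousAt_id.sub continuousAt_const))
    apply h1.clog
    rw [sub_self, add_zero]
    exact Complex.one_mem_slitPlane
  have hwc : ContinuousAt (fun z : ℂ => (w0⁻¹ + Complex.log (1 + (z - z0)))⁻¹) z0 := by
    have h1 : ContinuousAt (fun z : ℂ => w0⁻¹ + Complex.log (1 + (z - z0))) z0 :=
      continuousAt_const.add hlog
    apply h1.inv₀
    rw [sub_self, add_zero, Complex.log_one, add_zero]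
    exact inv_ne_zero hw0.1
  have hwz : (w0⁻¹ + Complex.log (1 + (z0 - z0)))⁻¹ = w0 := by
    rw [sub_self, add_zero, Complex.log_one, add_zero, inv_inv]
  have hne1 : ∀ᶠ z in 𝓝[≠] z0, 1 + (z - z0) ≠ 0 := by
    apply nhdsWithin_le_nhds
    have h1 : ContinuousAt (fun z : ℂ => 1 + (z - z0)) z0 :=
      (continuousAt_const.add (continuousAt_id.sub continuousAt_const))
    apply h1.eventually_ne
    rw [sub_self, add_zero]
    exact one_ne_zero
  have ht : Tendsto (fun z : ℂ => (w0⁻¹ + Complex.log (1 + (z - z0)))⁻¹) (𝓝[≠] z0) (𝓝[≠] w0) := by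
    rw [tendsto_nhdsWithin_iff]
    constructor
    · have h1 := hwc.tendsto
      rw [hwz] at h1
      exact h1.mono_left nhdsWithin_le_nhds
    · filter_upwards [hne1, self_mem_nhdsWithin] with z hz1 hz2
      intro h0
      apply hz2
      have h1 : (w0⁻¹ + Complex.log (1 + (z - z0)))⁻¹ = w0 := h0
      have h2 : Complex.log (1 + (z - z0)) = 0 := by
        have h3 : w0⁻¹ + Complex.log (1 + (z - z0)) = w0⁻¹ := by
          have h4 := congrArg (fun x : ℂ => x⁻¹) h1
          simp only [inv_inv] at h4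
          exact h4
        exact left_eq_add.1 h3.symm
      have h3 := Complex.exp_log hz1
      rw [h2, Complex.exp_zero] at h3
      have h4 : z - z0 = 0 := left_eq_add.1 h3
      exact sub_eq_zero.1 h4
  filter_upwards [ht.eventually (h w0 hw0.1 hw0.2), hne1] with z hz hz1
  obtain ⟨P, hP1, hP2⟩ := hz
  refine ⟨e, he, P, hP1, fun i => ?_⟩
  rw [hP2 i]
  have h1 : (z0 - 1) + Complex.exp ((w0⁻¹ + Complex.log (1 + (z - z0)))⁻¹)⁻¹ = z := by
    rw [inv_inv, Complex.exp_add, hw1, Complex.exp_log hz1]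
    ring
  change f (z0 - 1 + Complex.exp ((w0⁻¹ + Complex.log (1 + (z - z0)))⁻¹)⁻¹) i = f z i
  rw [h1]

/-- **The special sets coincide.** -/
theorem tfae {D M q : ℕ} (F : ι → MvPolynomial (Fin (n + 1)) ℂ)
    (hF : ∀ i, ∃ d, d ≤ D ∧ (F i).IsHomogeneous d) (Q : MvPolynomial (Fin (n + 1)) ℂ)
    (hQ : Q.IsHomogeneous q) (hq : q ≤ D) (hM : ((r + D - 1).choose D) ^ 2 ≤ M) (hM0 : 0 < M)
    (G : MvPolynomial (Fin (n + 1)) ℂ) :
    [(∀ f, PunctSp r M F Q f → ∀ w : ℂ, w ≠ 0 → ‖w‖ < 1 → eval (f w) G = 0),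
      (∀ f, EntSp r M F Q f → ∀ z, eval (f z) G = 0),
      (∀ g f, TorSp r g F Q f → ∀ t, (∀ a, t a ≠ 0) → eval (f t) G = 0),
      (∀ (e : Fin r → ℕ) P, IsSp F Q e P → aeval P G = 0),
      (∀ e ∈ Exps r D, ∀ P, IsSp F Q e P → aeval P G = 0)].TFAE := by
  tfae_have 1 → 2 := by
    intro h f hf z
    have h1 := (hf.shift (z - 1)).punct
    obtain ⟨w, hw, hw1⟩ := Pool.Agent.TH143.exists_exp_inv (t := 1) one_ne_zero one_pos
    have h2 := h _ h1 w hw.1 hw.2
    simp only [hw1, sub_add_cancel] at h2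
    exact h2
  tfae_have 2 → 3 := by
    intro h g f hf t ht
    obtain ⟨s, s', hs, hs', i, l, hne⟩ := hf.nonconst
    have hmain : ∀ t, (∀ a, t a ≠ 0) → f t ≠ 0 → eval (f t) G = 0 := by
      intro t ht h0
      obtain ⟨t', ht', i', l', hne'⟩ : ∃ t', (∀ a, t' a ≠ 0) ∧ ∃ i l,
          f t i * f t' l ≠ f t l * f t' i := by
        by_contra hcon
        push Not at hcon
        apply hne
        obtain ⟨c, hc⟩ := Function.ne_iff.1 h0
        have h1 := fun i l => hcon s hs i l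
        have h2 := fun i l => hcon s' hs' i l
        have h3 : f t c ≠ 0 := hc
        have h4 : f t c * f t c ≠ 0 := mul_ne_zero h3 h3
        apply mul_left_cancel₀ h4
        calc f t c * f t c * (f s i * f s' l) = (f t c * f s i) * (f t c * f s' l) := by ring
          _ = (f t i * f s c) * (f t l * f s' c) := by rw [h1 c i, h2 c l]
          _ = (f t l * f s c) * (f t i * f s' c) := by ring
          _ = (f t c * f s l) * (f t c * f s' i) := by rw [h1 c l, h2 c i]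
          _ = _ := by ring
      have h1 := h _ (hf.ent hM0 ht ht' hne') 0
      rw [lin_zero] at h1
      exact h1
    have hs0 : f s ≠ 0 := by
      intro h0
      apply hne
      rw [h0]
      simp
    obtain ⟨c, hc⟩ := Function.ne_iff.1 hs0
    have hd := fun i => sum_diff (lin_sum hM0 hf.sum t s) i
    have hG : Differentiable ℂ (fun z => eval (f (lin t s z)) G) := fun z =>
      (eval_an (S := Set.univ) (fun j z _ => (hd j).analyticAt z) G z trivial).differentiableAt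
    have hz : ∀ z, eval (f (lin t s z)) G * f (lin t s z) c = 0 := by
      intro z
      by_cases h0 : f (lin t s z) = 0
      · rw [h0]
        simp
      · rw [hmain _ (lin_ne ht z) h0, zero_mul]
    rcases ent_eq_zero_or hG (hd c) hz with h1 | h1
    · have h2 := congrFun h1 0
      simp only [lin_zero] at h2
      exact h2
    · exfalso
      have h2 := congrFun h1 1
      simp only [lin_one ht hs] at h2
      exact hc h2
  tfae_have 3 → 4 := by
    intro h e P hP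
    obtain ⟨U, hU⟩ := hP.form
    have h1 : TorSp r 1 F Q (fun t => fun i => (P i).eval (t 0)) := by
      refine ⟨⟨U, fun j _ => e j, fun t i => ?_⟩, fun t ht => sp_on hP (ht 0), ?_⟩
      · rw [hU]
        change Polynomial.eval (t 0) (∑ j, Polynomial.C (U j i) * Polynomial.X ^ e j) = _
        rw [Polynomial.eval_finsetSum]
        refine Finset.sum_congr rfl fun j _ => ?_
        rw [Polynomial.eval_mul, Polynomial.eval_C, Polynomial.eval_pow, Polynomial.eval_X,
          Fin.prod_univ_one, zpow_natCast]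
      · obtain ⟨s, t, i, l, hs, ht, hne⟩ := hP.nonconst
        exact ⟨fun _ => s, fun _ => t, fun _ => hs, fun _ => ht, i, l, hne⟩
    apply poly_zero_of_ne
    intro t ht
    rw [eval_aeval P t G]
    exact h 1 _ h1 (fun _ => t) fun _ => ht
  tfae_have 4 → 5 := fun h e _ P hP => h e P hP
  tfae_have 5 → 1 := by
    intro h f hf w hw0 hw1
    obtain ⟨e, he, δ, hδ, hpt⟩ := pt_main F hF Q hQ hq hM f hf.sum hf.ess (by
      filter_upwards [PB_mem one_pos] with w hw
      exact hf.on w hw.1 hw.2)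
    obtain ⟨z0, hz0⟩ := PB_nonempty (lt_min hδ one_pos)
    have h1 : ∀ᶠ z in 𝓝[≠] z0, eval (f z) G = 0 := by
      filter_upwards [hpt z0 hz0.1 (hz0.2.trans_le (min_le_left _ _))] with z hz
      obtain ⟨P, hP1, hP2⟩ := hz
      have h2 := eval_aeval P 1 G
      rw [h e he P hP1, Polynomial.eval_zero] at h2
      have h3 : (fun i => (P i).eval 1) = f z := funext hP2
      rw [h3] at h2
      exact h2.symm
    have han : AnalyticOnNhd ℂ (fun w => eval (f w) G) (PB 1) := eval_an hf.an G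
    exact han.eqOn_zero_of_preconnected_of_frequently_eq_zero (PB_preconn one_pos)
      ⟨hz0.1, hz0.2.trans_le (min_le_right _ _)⟩ h1.frequently ⟨hw0, hw1⟩
  tfae_finish

end Pool.Agent.Q33.SP
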