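import Pool.Agent.Q33.SP.Ggl

/-!
Uniruled varieties and entire curves with few terms.
-/

set_option autoImplicit false

namespace Pool.Agent.Q33.SP

open Filter Topology Pool.Agent.W603.BP MvPolynomial FF Pool.Agent.W602.GT Pool.Agent.TH143.GT
open Pool.Agent.H159R3.NV Pool.Agent.W603.GR Pool.Agent.W603.PV
open IntermediateField hiding val

variable {n r : ℕ} {ι : Type}

/-- There is a covering family of rational curves in the projective variety with generic point `y`:
polynomials `W_i` in one variable with coefficients in an extension field `M` of `ℂ`, of finite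
transcendence degree, which satisfy the same homogeneous relations as `y`, and which do not define a
constant curve. -/
def Uniruled {K : Type} [Field K] [Algebra ℂ K] (y : Fin (n + 1) → K) : Prop :=
  ∃ (M : Type) (_ : Field M) (_ : Algebra ℂ M) (m : ℕ) (W : Fin (n + 1) → Polynomial M),
    Algebra.trdeg ℂ M = m ∧
    (∀ G : MvPolynomial (Fin (n + 1)) ℂ, IsForm G →
      (W602.GT.val y G = 0 ↔ (aeval W G : Polynomial M) = 0)) ∧
    ∃ i j, Polynomial.derivative (W i) * W j ≠ W i * Polynomial.derivative (W j)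

theorem uniruled_fam {K : Type} [Field K] [Algebra ℂ K] {y : Fin (n + 1) → K} (h : Uniruled y) :
    ∃ (M : Type) (_ : Field M) (_ : Algebra ℂ M) (m : ℕ) (W : Fin (n + 1) → Polynomial M),
    Algebra.trdeg ℂ M = m ∧ Fam y (1 : MvPolynomial (Fin (n + 1)) ℂ) W 0 ∧
      ∃ s : K, ¬ Flat ℂ y W s := by
  obtain ⟨M, i1, i2, m, W, hm, hrel, i, j, hij⟩ := h
  refine ⟨M, i1, i2, m, W, hm, ⟨hrel, 1, one_ne_zero, by simp⟩, y i / y j, fun hfl => hij ?_⟩
  have hX : ∀ j : Fin (n + 1), W602.GT.val y (X j : MvPolynomial (Fin (n + 1)) ℂ) = y j := by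
    intro j
    unfold W602.GT.val
    rw [aeval_X]
  have hj : W602.GT.val y (X j : MvPolynomial (Fin (n + 1)) ℂ) ≠ 0 := by
    intro h0
    apply hij
    have h1 := (hrel _ ⟨1, isHomogeneous_X _ _⟩).1 h0
    rw [aeval_X] at h1
    rw [h1, Polynomial.derivative_zero, mul_zero, mul_zero]
  have h1 := hfl 1 (X i) (X j) (isHomogeneous_X _ _) (isHomogeneous_X _ _) hj (by rw [hX, hX])
  rwa [aeval_X, aeval_X] at h1

/-- A form on vectors proportional to a fixed one. -/
theorem aeval_prop {A : Type} [CommRing A] [Algebra ℂ A] {W c : Fin (n + 1) → A} {a b : A}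
    (h : ∀ i, b * W i = c i * a) {G : MvPolynomial (Fin (n + 1)) ℂ} {d : ℕ}
    (hG : G.IsHomogeneous d) : b ^ d * aeval W G = aeval c G * a ^ d := by
  classical
  rw [aeval_def, aeval_def, eval₂_eq', eval₂_eq', Finset.mul_sum, Finset.sum_mul]
  refine Finset.sum_congr rfl fun m hm => ?_
  have hdeg : ∑ i, m i = d := by
    have h1 := hG (mem_support_iff.1 hm)
    rw [← h1, Finsupp.weight_apply, Finsupp.sum_fintype]
    · simp
    · intro i; simp
  rw [← hdeg, ← Finset.prod_pow_eq_pow_sum, ← Finset.prod_pow_eq_pow_sum]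
  rw [mul_left_comm, ← Finset.prod_mul_distrib, mul_assoc, ← Finset.prod_mul_distrib]
  congr 1
  refine Finset.prod_congr rfl fun i _ => ?_
  rw [← mul_pow, h i, mul_pow]

/-- families of constant curves -/
theorem flat_of_coord {K M : Type} [Field K] [Field M] [Algebra ℂ K] [Algebra ℂ M]
    {y : Fin (n + 1) → K} (hy : y ≠ 0) {W : Fin (n + 1) → Polynomial M}
    (hrel : ∀ G : MvPolynomial (Fin (n + 1)) ℂ, IsForm G →
      (W602.GT.val y G = 0 ↔ (aeval W G : Polynomial M) = 0))
    (h : ∀ i j, Polynomial.derivative (W i) * W j = W i * Polynomial.derivative (W j)) (s : K) :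
    Flat ℂ y W s := by
  intro d g1 g0 h1 h0 hn hs
  have hchar : CharZero M := charZero_of_injective_algebraMap (algebraMap ℂ M).injective
  obtain ⟨a, ha⟩ := Function.ne_iff.1 hy
  have hX : ∀ j : Fin (n + 1), W602.GT.val y (X j : MvPolynomial (Fin (n + 1)) ℂ) = y j := by
    intro j
    unfold W602.GT.val
    rw [aeval_X]
  have hWa : W a ≠ 0 := by
    intro h0
    apply ha
    have h2 := (hrel (X a) ⟨1, isHomogeneous_X _ _⟩).2 (by rw [aeval_X, h0])
    rw [hX] at h2
    exact h2
  have hla : (W a).leadingCoeff ≠ 0 := Polynomial.leadingCoeff_ne_zero.2 hWa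
  have hpr : ∀ i, Polynomial.C (W a).leadingCoeff * W i =
      Polynomial.C (W i).leadingCoeff * W a := fun i => wr_zero (h i a)
  have hC : ∀ (H : MvPolynomial (Fin (n + 1)) ℂ), ∃ c : M,
      aeval (fun i => Polynomial.C (W i).leadingCoeff : Fin (n + 1) → Polynomial M) H =
        Polynomial.C c := by
    intro H
    refine ⟨aeval (fun i => (W i).leadingCoeff) H, ?_⟩
    have := MvPolynomial.comp_aeval_apply (f := fun i => (W i).leadingCoeff)
      ((IsScalarTower.toAlgHom ℂ M (Polynomial M))) H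
    exact this.symm
  obtain ⟨c1, hc1⟩ := hC g1
  obtain ⟨c0, hc0⟩ := hC g0
  have e1 := aeval_prop hpr h1
  have e0 := aeval_prop hpr h0
  rw [hc1, ← Polynomial.C_pow] at e1
  rw [hc0, ← Polynomial.C_pow] at e0
  have hL : Polynomial.C ((W a).leadingCoeff ^ d) ≠ (0 : Polynomial M) := by
    rw [Ne, Polynomial.C_eq_zero]
    exact pow_ne_zero _ hla
  have d1 := congrArg Polynomial.derivative e1
  have d0 := congrArg Polynomial.derivative e0
  rw [Polynomial.derivative_C_mul, Polynomial.derivative_C_mul] at d1 d0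
  apply mul_left_cancel₀ (mul_ne_zero hL hL)
  linear_combination (Polynomial.C ((W a).leadingCoeff ^ d) * aeval W g0) * d1 +
    (Polynomial.C c1 * Polynomial.derivative (W a ^ d)) * e0 -
    (Polynomial.C ((W a).leadingCoeff ^ d) * Polynomial.derivative (aeval W g0)) * e1 -
    (Polynomial.C c1 * W a ^ d) * d0

theorem flatFn_of_not {K : Type} [Field K] [Algebra ℂ K] {y : Fin (n + 1) → K} (hy : y ≠ 0)
    (h : ¬ Uniruled y) (s : K) : FlatFn y (1 : MvPolynomial (Fin (n + 1)) ℂ) s := by
  intro M _ _ m W l hm hfam hl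
  by_contra hno
  apply h
  refine ⟨M, inferInstance, inferInstance, m, W, hm, hfam.rel, ?_⟩
  by_contra hall
  push Not at hall
  exact hno (flat_of_coord hy hfam.rel hall s)

/-- points of algebras of finite type -/
theorem exists_point (A : Type) [CommRing A] [Algebra ℂ A] [Nontrivial A]
    (h : Algebra.FiniteType ℂ A) : Nonempty (A →ₐ[ℂ] ℂ) := by
  obtain ⟨m, hm⟩ := Ideal.exists_maximal A
  let _ := Ideal.Quotient.field m
  have h1 : Algebra.FiniteType ℂ (A ⧸ m) :=
    h.of_surjective (Ideal.Quotient.mkₐ ℂ m) (Ideal.Quotient.mkₐ_surjective ℂ m)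
  have h2 : Module.Finite ℂ (A ⧸ m) := finite_of_finite_type_of_isJacobsonRing ℂ (A ⧸ m)
  have h3 : Function.Bijective (algebraMap ℂ (A ⧸ m)) :=
    IsAlgClosed.algebraMap_bijective_of_isIntegral
  let e : ℂ ≃ₐ[ℂ] (A ⧸ m) := AlgEquiv.ofBijective (Algebra.ofId ℂ (A ⧸ m)) h3
  exact ⟨(e.symm : (A ⧸ m) →ₐ[ℂ] ℂ).comp (Ideal.Quotient.mkₐ ℂ m)⟩

/-- **Uniruled varieties are covered by curves with few terms.** -/
theorem cover_of_uniruled {K : Type} [Field K] [Algebra ℂ K] {y : Fin (n + 1) → K}
    (h : Uniruled y) : ∃ r, 0 < r ∧ ∀ G : MvPolynomial (Fin (n + 1)) ℂ, IsForm G →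
      W602.GT.val y G ≠ 0 → ∃ U : Fin r → Fin (n + 1) → ℂ,
        (∀ H : MvPolynomial (Fin (n + 1)) ℂ, IsForm H → W602.GT.val y H = 0 →
          aeval (kc U (fun j => (j : ℕ))) H = 0) ∧
        aeval (kc U (fun j => (j : ℕ))) G ≠ 0 ∧
        ∃ i l, Polynomial.derivative (kc U (fun j => (j : ℕ)) i) * kc U (fun j => (j : ℕ)) l ≠
          kc U (fun j => (j : ℕ)) i * Polynomial.derivative (kc U (fun j => (j : ℕ)) l) := by
  classical
  obtain ⟨M, i1, i2, m, W, hm, hrel, i, l, hil⟩ := h
  set r := (∑ i, (W i).natDegree) + 1 with hr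
  have hdeg : ∀ i, (W i).natDegree < r := by
    intro i
    have := Finset.single_le_sum (f := fun i => (W i).natDegree) (fun _ _ => Nat.zero_le _)
      (Finset.mem_univ i)
    omega
  refine ⟨r, by omega, fun G hG hGy => ?_⟩
  have hGW : (aeval W G : Polynomial M) ≠ 0 := fun h0 => hGy ((hrel G hG).2 h0)
  obtain ⟨v, hv⟩ : ∃ v, (aeval W G : Polynomial M).coeff v ≠ 0 := by
    by_contra hno
    push Not at hno
    exact hGW (Polynomial.ext fun v => by rw [hno v, Polynomial.coeff_zero])
  obtain ⟨u, hu⟩ : ∃ u, (Polynomial.derivative (W i) * W l -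
      W i * Polynomial.derivative (W l)).coeff u ≠ 0 := by
    by_contra hno
    push Not at hno
    apply hil
    rw [← sub_eq_zero]
    exact Polynomial.ext fun v => by rw [hno v, Polynomial.coeff_zero]
  set a := (aeval W G : Polynomial M).coeff v with ha
  set b := (Polynomial.derivative (W i) * W l -
      W i * Polynomial.derivative (W l)).coeff u with hb
  let S : Finset M := (Finset.univ.image fun x : Fin r × Fin (n + 1) => (W x.2).coeff x.1) ∪
    {a⁻¹, b⁻¹}
  let A := Algebra.adjoin ℂ (S : Set M)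
  have hfin : Algebra.FiniteType ℂ A := Subalgebra.fg_iff_finiteType _ |>.1 ⟨S, rfl⟩
  let U : Fin r → Fin (n + 1) → A := fun j i => ⟨(W i).coeff j, Algebra.subset_adjoin (by
    have : (W i).coeff j ∈ S := Finset.mem_union_left _ (Finset.mem_image.2
      ⟨(j, i), Finset.mem_univ _, rfl⟩)
    exact this)⟩
  have hWU : ∀ i, (kc U (fun j => (j : ℕ)) i).map (A.val : A →+* M) = W i := by
    intro i
    rw [kc_map]
    unfold kc
    rw [(W i).as_sum_range_C_mul_X_pow' (hdeg i), Finset.sum_range]
    rfl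
  have hmap : ∀ H : MvPolynomial (Fin (n + 1)) ℂ,
      (aeval (kc U (fun j => (j : ℕ))) H).map (A.val : A →+* M) = aeval W H := by
    intro H
    rw [map_aeval' A.val]
    congr 2
    funext i
    exact hWU i
  have hinj : Function.Injective (A.val : A →+* M) := Subtype.val_injective
  obtain ⟨φ⟩ := exists_point A hfin
  have hunit : ∀ x : A, (x : M)⁻¹ ∈ A → (x : M) ≠ 0 → φ x ≠ 0 := by
    intro x hx hx0 h0
    have h1 : x * ⟨(x : M)⁻¹, hx⟩ = 1 := Subtype.ext (mul_inv_cancel₀ hx0)
    have h2 := congrArg φ h1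
    rw [map_mul, h0, zero_mul, map_one] at h2
    exact zero_ne_one h2
  have hmap2 : ∀ H : MvPolynomial (Fin (n + 1)) ℂ,
      (aeval (kc U (fun j => (j : ℕ))) H).map (φ : A →+* ℂ) =
        aeval (kc (fun j i => φ (U j i)) (fun j => (j : ℕ))) H := fun H =>
    aeval_map φ U (fun j => (j : ℕ)) H
  have hkc2 : ∀ i, (kc U (fun j => (j : ℕ)) i).map (φ : A →+* ℂ) =
        kc (fun j i => φ (U j i)) (fun j => (j : ℕ)) i := fun i => kc_map _ U _ i
  refine ⟨fun j i => φ (U j i), fun H hH hHy => ?_, ?_, i, l, ?_⟩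
  · have h1 : aeval (kc U (fun j => (j : ℕ))) H = 0 := by
      apply Polynomial.map_injective _ hinj
      rw [hmap, Polynomial.map_zero]
      exact (hrel H hH).1 hHy
    rw [← hmap2, h1, Polynomial.map_zero]
  · intro h0
    rw [← hmap2] at h0
    have h1 := congrArg (fun P => Polynomial.coeff P v) h0
    simp only [Polynomial.coeff_map, Polynomial.coeff_zero] at h1
    have h2 : ((aeval (kc U (fun j => (j : ℕ))) G).coeff v : M) = a := by
      rw [ha, ← hmap G, Polynomial.coeff_map]
      rfl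
    refine hunit _ ?_ ?_ h1
    · rw [h2]
      exact Algebra.subset_adjoin (by
        have : a⁻¹ ∈ S := Finset.mem_union_right _ (by simp)
        exact this)
    · rw [h2]
      exact hv
  · intro h0
    rw [← hkc2, ← hkc2, Polynomial.derivative_map, Polynomial.derivative_map,
      ← Polynomial.map_mul, ← Polynomial.map_mul, ← sub_eq_zero, ← Polynomial.map_sub] at h0
    have h1 := congrArg (fun P => Polynomial.coeff P u) h0
    simp only [Polynomial.coeff_map, Polynomial.coeff_zero] at h1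
    have h2 : ((Polynomial.derivative (kc U (fun j => (j : ℕ)) i) * kc U (fun j => (j : ℕ)) l -
        kc U (fun j => (j : ℕ)) i * Polynomial.derivative (kc U (fun j => (j : ℕ)) l)).coeff u
        : M) = b := by
      rw [hb, ← hWU i, ← hWU l, Polynomial.derivative_map, Polynomial.derivative_map,
        ← Polynomial.map_mul, ← Polynomial.map_mul, ← Polynomial.map_sub, Polynomial.coeff_map]
      rfl
    refine hunit _ ?_ ?_ h1
    · rw [h2]
      exact Algebra.subset_adjoin (by
        have : b⁻¹ ∈ S := Finset.mem_union_right _ (by simp)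
        exact this)
    · rw [h2]
      exact hu

/-- from rational curves with few terms to entire curves -/
theorem ent_of_kc {F : ι → MvPolynomial (Fin (n + 1)) ℂ} {M : ℕ} (hM : 0 < M)
    {U : Fin r → Fin (n + 1) → ℂ} (e : Fin r → ℕ) (hF : ∀ i, aeval (kc U e) (F i) = 0)
    {i l : Fin (n + 1)}
    (hne : Polynomial.derivative (kc U e i) * kc U e l ≠
      kc U e i * Polynomial.derivative (kc U e l)) {G : MvPolynomial (Fin (n + 1)) ℂ}
    (hG : aeval (kc U e) G ≠ 0) : ∃ f, EntSp r M F 1 f ∧ ∃ z, eval (f z) G ≠ 0 := by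
  classical
  have hM' : (M : ℂ) ≠ 0 := Nat.cast_ne_zero.2 hM.ne'
  let f : ℂ → Fin (n + 1) → ℂ := fun z i => (kc U e i).eval (Complex.exp z)
  have hfe : ∀ (H : MvPolynomial (Fin (n + 1)) ℂ) (z : ℂ),
      eval (f z) H = (aeval (kc U e) H : Polynomial ℂ).eval (Complex.exp z) := by
    intro H z
    rw [eval_aeval]
    rfl
  have hlog : ∀ t : ℂ, t ≠ 0 → Complex.exp (Complex.log t) = t := fun t ht => Complex.exp_log ht
  refine ⟨f, ⟨⟨U, fun j z => Complex.exp ((e j : ℂ) * z / M), fun j => ?_, fun z i => ?_⟩,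
    fun z => ⟨fun i => ?_, ?_⟩, ?_⟩, ?_⟩
  · exact (Complex.differentiable_exp.comp ((differentiable_id.const_mul _).div_const _))
  · change (kc U e i).eval (Complex.exp z) = _
    unfold kc
    rw [Polynomial.eval_finsetSum]
    refine Finset.sum_congr rfl fun j _ => ?_
    rw [Polynomial.eval_mul, Polynomial.eval_C, Polynomial.eval_pow, Polynomial.eval_X,
      ← Complex.exp_nat_mul, ← Complex.exp_nat_mul]
    congr 2
    field_simp
  · rw [hfe, hF i, Polynomial.eval_zero]
  · rw [map_one]
    exact one_ne_zero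
  · by_contra hno
    push Not at hno
    have h1 : ∀ s t : ℂ, s ≠ 0 → t ≠ 0 → (kc U e i).eval s * (kc U e l).eval t =
        (kc U e l).eval s * (kc U e i).eval t := by
      intro s t hs ht
      have := hno (Complex.log s) (Complex.log t) i l
      change (kc U e i).eval (Complex.exp (Complex.log s)) *
        (kc U e l).eval (Complex.exp (Complex.log t)) = (kc U e l).eval
        (Complex.exp (Complex.log s)) * (kc U e i).eval (Complex.exp (Complex.log t)) at this
      rwa [hlog s hs, hlog t ht] at this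
    have h2 : ∀ t : ℂ, t ≠ 0 → kc U e i * Polynomial.C ((kc U e l).eval t) =
        kc U e l * Polynomial.C ((kc U e i).eval t) := by
      intro t ht
      rw [← sub_eq_zero]
      apply poly_zero_of_ne
      intro s hs
      rw [Polynomial.eval_sub, Polynomial.eval_mul, Polynomial.eval_mul, Polynomial.eval_C,
        Polynomial.eval_C, h1 s t hs ht, sub_self]
    by_cases h3 : ∃ t : ℂ, t ≠ 0 ∧ (kc U e l).eval t ≠ 0
    · obtain ⟨t, ht, htl⟩ := h3
      have h4 := h2 t ht
      have h5 := congrArg Polynomial.derivative h4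
      rw [Polynomial.derivative_mul, Polynomial.derivative_mul, Polynomial.derivative_C,
        Polynomial.derivative_C, mul_zero, mul_zero, add_zero, add_zero] at h5
      apply hne
      have h6 : Polynomial.C ((kc U e l).eval t) ≠ 0 := by
        rw [Ne, Polynomial.C_eq_zero]
        exact htl
      apply mul_left_cancel₀ h6
      linear_combination kc U e l * h5 - Polynomial.derivative (kc U e l) * h4
    · push Not at h3
      have h4 : kc U e l = 0 := poly_zero_of_ne h3
      apply hne
      rw [h4, Polynomial.derivative_zero, mul_zero, mul_zero]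
  · by_contra hno
    push Not at hno
    apply hG
    apply poly_zero_of_ne
    intro t ht
    have := hno (Complex.log t)
    rwa [hfe, hlog t ht] at this

/-- the exceptional set in a variety which is not uniruled -/
theorem excep_nr {D : ℕ} {F : ι → MvPolynomial (Fin (n + 1)) ℂ}
    {p : Ideal (MvPolynomial (Fin (n + 1)) ℂ)} [p.IsPrime]
    (hcut : ∀ H ∈ p, ∀ x, OnX F 1 x → eval x H = 0)
    {K : Type} [Field K] [Algebra ℂ K] {w : ℕ} {y : Fin (n + 1) → K} (hy : FunField p 1 K w y)
    (hnu : ¬ Uniruled y) :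
    ∃ G : MvPolynomial (Fin (n + 1)) ℂ, IsForm G ∧ G ∉ p ∧
      ∀ e ∈ Exps r D, ∀ P, IsSp F 1 e P → aeval P G = 0 := by
  rcases excep (ι := ι) (isHomogeneous_one _ _) (fun x h1 h2 H hH => hcut H hH x ⟨h1, h2⟩)
    hy.sub.ne hy.sub.mem hy.mem (Exps r D) with
    ⟨G, hG1, hG2, hG3⟩ | ⟨M, i1, i2, m', W, l', hm, hfam, hl, ⟨s, hs⟩⟩
  · obtain ⟨d, hd⟩ := hG1
    refine ⟨G, ⟨d, hd⟩, hG2, fun e he P hP => ?_⟩
    apply poly_zero_of_ne
    intro t ht
    rw [eval_aeval P t G]
    obtain ⟨P', h1, h2⟩ := sp_scale hP ht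
    have h3 := hG3 e he P' h1
    have h4 : (fun i => (P' i).eval 1) = fun i => (P i).eval t := by
      funext i
      rw [h2, mul_one]
    rw [h4] at h3
    exact h3
  · exfalso
    exact hs (flatFn_of_not hy.sub.ne hnu s M i1 i2 m' W l' hm hfam hl)

/-- varieties of nonnegative Kodaira dimension are not uniruled -/
theorem not_uniruled_of_kod {p : Ideal (MvPolynomial (Fin (n + 1)) ℂ)}
    {K : Type} [Field K] [Algebra ℂ K] {w : ℕ} {y : Fin (n + 1) → K} (hy : FunField p 1 K w y)
    (h : KodGe ℂ K w (OffQ 1 0 y) 0) : ¬ Uniruled y := by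
  intro hu
  obtain ⟨M, i1, i2, m, W, hm, hfam, hnf⟩ := uniruled_fam hu
  obtain ⟨N, hN, ω, hω, D, hD, -⟩ := h
  exact hD ((hfam.main hy.sub.dim hm hy.sub.ne hy.sub.gen (isHomogeneous_one _ _)).2.2.2 rfl hnf N
    hN (ω 0) (hω 0) D)

end Pool.Agent.Q33.SP
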