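import Pool.Agent.Q33.SP.Hull3
import Pool.Agent.Q33.SP.Uni
import Pool.Agent.W602.GT.SpecDefs

/-!
Unirational varieties, special varieties and Zariski-dense entire curves with few terms.
-/

set_option autoImplicit false

namespace Pool.Agent.Q33.SP

open Filter Topology Pool.Agent.W603.BP MvPolynomial FF Pool.Agent.W602.GT Pool.Agent.TH143.GT
open Pool.Agent.H159R3.NV Pool.Agent.W603.GR Pool.Agent.W603.PV
open IntermediateField hiding val

variable {n r g : ℕ} {ι : Type}

/-- The projective variety with generic point `y` is unirational: there are polynomials with the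
same homogeneous relations as `y`, that is, a dominant rational map from an affine space. -/
def Unirational {K : Type} [Field K] [Algebra ℂ K] (y : Fin (n + 1) → K) : Prop :=
  ∃ (m : ℕ) (W : Fin (n + 1) → MvPolynomial (Fin m) ℂ), ∀ H : MvPolynomial (Fin (n + 1)) ℂ,
    IsForm H → (W602.GT.val y H = 0 ↔ aeval W H = 0)

/-- The map from the torus is Zariski-dense in the variety with ideal `p`. -/
def TorDense (p : Ideal (MvPolynomial (Fin (n + 1)) ℂ)) (Φ : (Fin g → ℂ) → Fin (n + 1) → ℂ) :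
    Prop :=
  ∀ H : MvPolynomial (Fin (n + 1)) ℂ, IsForm H → (∀ t, (∀ a, t a ≠ 0) → eval (Φ t) H = 0) → H ∈ p

/-- polynomials which vanish on the torus -/
theorem zero_of_torus {P : MvPolynomial (Fin g) ℂ}
    (h : ∀ t : Fin g → ℂ, (∀ a, t a ≠ 0) → eval t P = 0) : P = 0 := by
  classical
  have h1 : P * ∏ a, X a = 0 := by
    apply MvPolynomial.funext
    intro t
    rw [map_mul, map_prod, map_zero]
    by_cases ht : ∀ a, t a ≠ 0
    · rw [h t ht, zero_mul]
    · push Not at ht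
      obtain ⟨a, ha⟩ := ht
      rw [Finset.prod_eq_zero (Finset.mem_univ a) (by rw [eval_X]; exact ha), mul_zero]
  rcases mul_eq_zero.1 h1 with h2 | h2
  · exact h2
  · exact absurd h2 (Finset.prod_ne_zero_iff.2 fun a _ => X_ne_zero a)

theorem eval_scale {G : MvPolynomial (Fin (n + 1)) ℂ} {d : ℕ} (hG : G.IsHomogeneous d) (c : ℂ)
    (x : Fin (n + 1) → ℂ) : eval (fun i => c * x i) G = c ^ d * eval x G := by
  have h := aeval_prop (W := x) (c := fun i => c * x i) (a := 1) (b := c) (fun i => by rw [mul_one])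
    hG
  rw [one_pow, mul_one] at h
  exact h.symm

theorem eval_aeval2 (W : Fin (n + 1) → MvPolynomial (Fin g) ℂ) (t : Fin g → ℂ)
    (H : MvPolynomial (Fin (n + 1)) ℂ) :
    eval t (aeval W H) = eval (fun i => eval t (W i)) H := by
  have h := MvPolynomial.comp_aeval_apply (f := W) (aeval t : MvPolynomial (Fin g) ℂ →ₐ[ℂ] ℂ) H
  exact h

/-- images of tori are unirational -/
theorem unirational_of_tor {F : ι → MvPolynomial (Fin (n + 1)) ℂ}
    {Q : MvPolynomial (Fin (n + 1)) ℂ} {p : Ideal (MvPolynomial (Fin (n + 1)) ℂ)}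
    (hcut : ∀ H ∈ p, ∀ x, OnX F Q x → eval x H = 0)
    {K : Type} [Field K] [Algebra ℂ K] {w : ℕ} {y : Fin (n + 1) → K} (hy : FunField p Q K w y)
    {Φ : (Fin g → ℂ) → Fin (n + 1) → ℂ} (h : TorSp r g F Q Φ) (hd : TorDense p Φ) :
    Unirational y := by
  classical
  obtain ⟨v, b, hΦ⟩ := h.sum
  let N : ℕ := ∑ j, ∑ a, (b j a).natAbs
  have hN : ∀ j a, 0 ≤ b j a + N := by
    intro j a
    have h1 : (b j a).natAbs ≤ ∑ a, (b j a).natAbs := Finset.single_le_sum
      (f := fun a => (b j a).natAbs) (fun _ _ => Nat.zero_le _) (Finset.mem_univ a)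
    have h2 : ∑ a, (b j a).natAbs ≤ N := Finset.single_le_sum
      (f := fun j => ∑ a, (b j a).natAbs) (fun _ _ => Nat.zero_le _) (Finset.mem_univ j)
    omega
  let W : Fin (n + 1) → MvPolynomial (Fin g) ℂ := fun i =>
    ∑ j, C (v j i) * ∏ a, X a ^ (b j a + N).toNat
  have hW : ∀ (t : Fin g → ℂ), (∀ a, t a ≠ 0) → ∀ i,
      eval t (W i) = (∏ a, t a) ^ N * Φ t i := by
    intro t ht i
    rw [hΦ t i]
    simp only [W, map_sum, map_mul, map_prod, map_pow, eval_C, eval_X, Finset.mul_sum]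
    refine Finset.sum_congr rfl fun j _ => ?_
    rw [mul_left_comm]
    congr 1
    rw [← Finset.prod_pow, ← Finset.prod_mul_distrib]
    refine Finset.prod_congr rfl fun a _ => ?_
    rw [← zpow_natCast, ← zpow_natCast, Int.toNat_of_nonneg (hN j a), ← zpow_add₀ (ht a), add_comm]
  refine ⟨g, W, fun H hH => ?_⟩
  obtain ⟨d, hHd⟩ := hH
  have hval : ∀ t : Fin g → ℂ, (∀ a, t a ≠ 0) →
      eval t (aeval W H) = ((∏ a, t a) ^ N) ^ d * eval (Φ t) H := by
    intro t ht
    rw [eval_aeval2, ← eval_scale hHd]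
    congr 2
    funext i
    exact hW t ht i
  constructor
  · intro h0
    apply zero_of_torus
    intro t ht
    rw [hval t ht, hcut H (hy.mem H ⟨d, hHd⟩ h0) _ (h.on t ht), mul_zero]
  · intro h0
    apply hy.sub.mem
    apply hd H ⟨d, hHd⟩
    intro t ht
    have h1 := hval t ht
    rw [h0, map_zero] at h1
    have h2 : ((∏ a, t a) ^ N) ^ d ≠ 0 :=
      pow_ne_zero _ (pow_ne_zero _ (Finset.prod_ne_zero_iff.2 fun a _ => ht a))
    exact (mul_eq_zero.1 h1.symm).resolve_left h2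

/-- functions fields of points -/
theorem dim_zero {K : Type} [Field K] [Algebra ℂ K] {y : Fin (n + 1) → K} (hgen : coords ℂ y = ⊤)
    {w : ℕ} (hdim : Algebra.trdeg ℂ K = w) {l : Fin (n + 1)} {c : Fin (n + 1) → ℂ}
    (h : ∀ i, y i = algebraMap ℂ K (c i) * y l) : w = 0 := by
  have hbot : coords ℂ y ≤ ⊥ := by
    unfold coords
    rw [IntermediateField.adjoin_le_iff]
    rintro z ⟨i, j, hj, rfl⟩
    have hyl : y l ≠ 0 := by
      intro h0
      apply hj
      rw [h j, h0, mul_zero]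
    have hcj : algebraMap ℂ K (c j) ≠ 0 := by
      intro h0
      apply hj
      rw [h j, h0, zero_mul]
    rw [h i, h j, mul_div_mul_right _ _ hyl, ← map_div₀]
    exact (⊥ : IntermediateField ℂ K).algebraMap_mem _
  rw [hgen, top_le_iff] at hbot
  have halg : Algebra.IsAlgebraic ℂ K := by
    constructor
    intro x
    have h1 : x ∈ (⊥ : IntermediateField ℂ K) := by rw [hbot]; trivial
    obtain ⟨c, rfl⟩ := IntermediateField.mem_bot.1 h1
    exact isAlgebraic_algebraMap c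
  rw [trdeg_eq_zero] at hdim
  exact_mod_cast hdim.symm

/-- unirational varieties are images of tori -/
theorem tor_of_unirational {F : ι → MvPolynomial (Fin (n + 1)) ℂ}
    {p : Ideal (MvPolynomial (Fin (n + 1)) ℂ)} (hF : ∀ i, IsForm (F i)) (hFp : ∀ i, F i ∈ p)
    {K : Type} [Field K] [Algebra ℂ K] {w : ℕ} {y : Fin (n + 1) → K} (hy : FunField p 1 K w y)
    (hw : 1 ≤ w) (h : Unirational y) :
    ∃ r, 1 ≤ r ∧ ∃ (g : ℕ) (Φ : (Fin g → ℂ) → Fin (n + 1) → ℂ), TorSp r g F 1 Φ ∧
      TorDense p Φ := by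
  classical
  obtain ⟨g, W, hW⟩ := h
  let S : Finset (Fin g →₀ ℕ) := Finset.univ.biUnion fun i => (W i).support
  let r := S.card
  let σ : Fin r ≃ S := S.equivFin.symm
  let Φ : (Fin g → ℂ) → Fin (n + 1) → ℂ := fun t i => eval t (W i)
  have hdense : TorDense p Φ := by
    intro H hH h0
    apply hy.mem H hH
    rw [hW H hH]
    apply zero_of_torus
    intro t ht
    rw [eval_aeval2]
    exact h0 t ht
  have hsum : ∀ t i, Φ t i = ∑ j : Fin r, coeff (σ j : Fin g →₀ ℕ) (W i) *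
      ∏ a, t a ^ (((σ j : Fin g →₀ ℕ) a : ℕ) : ℤ) := by
    intro t i
    change eval t (W i) = _
    rw [eval_eq']
    rw [Finset.sum_subset (Finset.subset_biUnion_of_mem (fun i => (W i).support)
      (Finset.mem_univ i)) (fun m _ hm => by rw [notMem_support_iff.1 hm, zero_mul])]
    change ∑ m ∈ S, _ = _
    rw [← Finset.sum_coe_sort S, ← Equiv.sum_comp σ]
    refine Finset.sum_congr rfl fun j _ => ?_
    simp only [zpow_natCast]
  have hne : ∃ t l, (∀ a, t a ≠ 0) ∧ Φ t l ≠ 0 := by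
    by_contra hno
    push Not at hno
    apply hy.sub.ne
    funext l
    have h1 := hdense (X l) ⟨1, isHomogeneous_X _ _⟩ fun t ht => by
      rw [eval_X]
      exact hno t l ht
    have h2 := hy.sub.mem _ h1
    unfold W602.GT.val at h2
    rwa [aeval_X] at h2
  obtain ⟨t', l, ht', hl⟩ := hne
  have hr : 1 ≤ r := by
    by_contra hr0
    have : r = 0 := by omega
    apply hl
    rw [hsum]
    have hemp : IsEmpty (Fin r) := by rw [this]; infer_instance
    exact Finset.sum_of_isEmpty _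
  refine ⟨r, hr, g, Φ, ⟨⟨fun j i => coeff (σ j : Fin g →₀ ℕ) (W i),
    fun j a => (((σ j : Fin g →₀ ℕ) a : ℕ) : ℤ), hsum⟩, fun t ht => ⟨fun i => ?_, ?_⟩, ?_⟩, hdense⟩
  · change eval (fun i => eval t (W i)) (F i) = 0
    rw [← eval_aeval2, (hW _ (hF i)).1 (hy.sub.mem _ (hFp i)), map_zero]
  · rw [map_one]
    exact one_ne_zero
  · by_contra hno
    push Not at hno
    have h1 : ∀ i, y i = algebraMap ℂ K (Φ t' i / Φ t' l) * y l := by
      intro i
      have h2 := hdense (X i * C (Φ t' l) - X l * C (Φ t' i))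
        ⟨1, (by
          have a1 := (isHomogeneous_X ℂ i).mul (isHomogeneous_C (Fin (n + 1)) (Φ t' l))
          have a2 := (isHomogeneous_X ℂ l).mul (isHomogeneous_C (Fin (n + 1)) (Φ t' i))
          exact a1.sub a2)⟩ fun t ht => by
        simp only [map_sub, map_mul, eval_X, eval_C]
        exact sub_eq_zero.2 (hno t t' ht ht' i l)
      have h3 := hy.sub.mem _ h2
      unfold W602.GT.val at h3
      rw [map_sub, map_mul, map_mul, aeval_X, aeval_X, algHom_C, algHom_C] at h3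
      have h4 : algebraMap ℂ K (Φ t' l) ≠ 0 := by
        rw [Ne, map_eq_zero]
        exact hl
      rw [map_div₀]
      field_simp
      linear_combination h3
    have := dim_zero hy.sub.gen hy.sub.dim h1
    omega

/-- functions constant along the covering families are constant if there is a Zariski-dense entire
curve with few terms -/
theorem flat_const {D q M : ℕ} (hr : 0 < r) (F : ι → MvPolynomial (Fin (n + 1)) ℂ)
    (hF : ∀ i, ∃ d, d ≤ D ∧ (F i).IsHomogeneous d) (Q : MvPolynomial (Fin (n + 1)) ℂ)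
    (hQ : Q.IsHomogeneous q) (hq : q ≤ D) {p : Ideal (MvPolynomial (Fin (n + 1)) ℂ)} [p.IsPrime]
    (hcut : ∀ H ∈ p, ∀ x, OnX F Q x → eval x H = 0)
    {K : Type} [Field K] [Algebra ℂ K] {w : ℕ} {y : Fin (n + 1) → K} (hy : FunField p Q K w y)
    (hM : ((r + D - 1).choose D) ^ 2 ≤ M) {f : ℂ → Fin (n + 1) → ℂ} (hf : EntSp r M F Q f)
    (hd : ZDense p f Set.univ) {s : K} (hs : FlatFn y Q s) : ∃ c : ℂ, s = algebraMap ℂ K c := by
  obtain ⟨G, hG1, hG2, hG3⟩ := const_main hr F hF Q hQ hq hcut hy hs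
  have hz : ∃ z : ℂ, eval (f z) G ≠ 0 := by
    by_contra hno
    push Not at hno
    exact hG2 (hd G hG1 fun z _ => hno z)
  obtain ⟨c, hc⟩ := (hG3 M hM).2 f hf hz
  obtain ⟨d, g1, g0, hg1, hg0, hy0, hsg⟩ := exists_frac hy.sub.gen s
  refine ⟨c, ?_⟩
  have h1 : g1 - C c * g0 ∈ p := by
    apply hd
    · refine ⟨d, hg1.sub ?_⟩
      have := (isHomogeneous_C (Fin (n + 1)) c).mul hg0
      rwa [zero_add] at this
    · intro z _
      rw [map_sub, map_mul, eval_C, hc d g1 g0 hg1 hg0 hy0 hsg z, sub_self]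
  have h2 := hy.sub.mem _ h1
  unfold W602.GT.val at h2 hsg hy0
  rw [map_sub, map_mul, algHom_C, sub_eq_zero] at h2
  rw [hsg, h2, mul_div_assoc, div_self hy0, mul_one]

/-- **Varieties with Zariski-dense entire curves with few terms are special.** -/
theorem special_of_dense {D q M : ℕ} (hr : 0 < r) (F : ι → MvPolynomial (Fin (n + 1)) ℂ)
    (hF : ∀ i, ∃ d, d ≤ D ∧ (F i).IsHomogeneous d) (Q : MvPolynomial (Fin (n + 1)) ℂ)
    (hQ : Q.IsHomogeneous q) (hq : q ≤ D) {p : Ideal (MvPolynomial (Fin (n + 1)) ℂ)} [p.IsPrime]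
    (hcut : ∀ H ∈ p, ∀ x, OnX F Q x → eval x H = 0)
    {K : Type} [Field K] [Algebra ℂ K] {w : ℕ} {y : Fin (n + 1) → K} (hy : FunField p Q K w y)
    (hM : ((r + D - 1).choose D) ^ 2 ≤ M) {f : ℂ → Fin (n + 1) → ℂ} (hf : EntSp r M F Q f)
    (hd : ZDense p f Set.univ) :
    Special ℂ K w (OffQ Q q y) ∧ ¬ KodGe ℂ K w (OffQ Q q y) 1 := by
  have hcore : ∀ s : K, s ∈ LogRatios K w (OffQ Q q y) → ∃ c : ℂ, s = algebraMap ℂ K c := by
    intro s hs
    refine flat_const hr F hF Q hQ hq hcut hy hM hf hd (flatFn_of_core hQ hy ?_)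
    have h1 : s ∈ IntermediateField.adjoin ℂ (LogRatios K w (OffQ Q q y)) :=
      IntermediateField.subset_adjoin _ _ hs
    exact isAlgebraic_algebraMap (⟨s, h1⟩ : IntermediateField.adjoin ℂ (LogRatios K w (OffQ Q q y)))
  constructor
  · rintro m hm ⟨θ, hθ, N, hN, h, hlog, hreg, h0, hind⟩
    have hθ' : (θ : MultilinearMap K (fun _ : Fin m => Derivation ℂ K K) K) ≠ 0 := by
      intro h0
      apply hθ
      ext D
      exact congrFun (congrArg DFunLike.coe h0) D
    let i0 : Fin m := ⟨0, hm⟩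
    obtain ⟨c, hc⟩ := hcore (h i0.succ / h 0) (Or.inr ⟨m, θ, hθ', N, hN, ![h 0, h i0.succ],
      fun v hv D hD j => by
        fin_cases j
        · exact hlog v hv D hD 0
        · exact hlog v hv D hD i0.succ,
      fun v hv hB D hD j => by
        fin_cases j
        · exact hreg v hv hB D hD 0
        · exact hreg v hv hB D hD i0.succ, rfl⟩)
    apply hind.transcendental i0
    rw [hc]
    exact isAlgebraic_algebraMap c
  · rintro ⟨N, hN, ω, hω, D', hD', hind⟩
    obtain ⟨c, hc⟩ := hcore (ω (0 : Fin 1).succ D' / ω 0 D')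
      (Or.inl ⟨N, hN, ω 0, ω (0 : Fin 1).succ, hω _, hω _, D', rfl⟩)
    apply hind.transcendental (0 : Fin 1)
    change IsAlgebraic ℂ (ω (0 : Fin 1).succ D' / ω 0 D')
    rw [hc]
    exact isAlgebraic_algebraMap c

/-- Zariski-dense entire curves with few terms and Zariski-dense maps from tori -/
theorem dense_iff {D q : ℕ} (hr : 0 < r) (F : ι → MvPolynomial (Fin (n + 1)) ℂ)
    (hF : ∀ i, ∃ d, d ≤ D ∧ (F i).IsHomogeneous d) (Q : MvPolynomial (Fin (n + 1)) ℂ)
    (hQ : Q.IsHomogeneous q) (hq : q ≤ D) (p : Ideal (MvPolynomial (Fin (n + 1)) ℂ)) :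
    [∀ M, 0 < M → ∃ f, EntSp r M F Q f ∧ ZDense p f Set.univ,
      ∃ M, ((r + D - 1).choose D) ^ 2 ≤ M ∧ ∃ f, EntSp r M F Q f ∧ ZDense p f Set.univ,
      ∃ (g : ℕ) (Φ : (Fin g → ℂ) → Fin (n + 1) → ℂ), TorSp r g F Q Φ ∧ TorDense p Φ].TFAE := by
  tfae_have 1 → 2 := by
    intro h
    exact ⟨_, le_rfl, h _ (pow_pos (Nat.choose_pos (by omega)) 2)⟩
  tfae_have 2 → 3 := by
    rintro ⟨M, hM, f, hf, hd⟩
    obtain ⟨g, Φ, h1, z0, h2⟩ := hull_main hr F hF Q hQ hq hM f hf
    refine ⟨g, Φ, h1, fun H hH h0 => hd H hH fun z _ => ?_⟩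
    have h3 : ∀ᶠ z in 𝓝 z0, eval (f z) H = 0 := by
      filter_upwards [h2] with z hz
      obtain ⟨t, ht, hzt⟩ := hz
      rw [hzt]
      exact h0 t ht
    have h4 : (fun z => eval (f z) H) = fun _ => 0 :=
      ((diff_eval hf.diff H).differentiableOn.analyticOnNhd isOpen_univ).eq_of_eventuallyEq
        ((differentiable_const (0 : ℂ)).differentiableOn.analyticOnNhd isOpen_univ) h3
    exact congrFun h4 z
  tfae_have 3 → 1 := by
    rintro ⟨g, Φ, h1, h2⟩ M hM
    obtain ⟨f, hf, -, hd⟩ := h1.dense_ent hM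
    exact ⟨f, hf, fun H hH h0 => h2 H hH (hd H fun z => h0 z trivial)⟩
  tfae_finish

end Pool.Agent.Q33.SP
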