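import Pool.Agent.Q33.SP.Sets
import Pool.Agent.TH143.GT.Fin

/-!
The exceptional set in varieties of log general type, and sums of units.
-/

set_option autoImplicit false

namespace Pool.Agent.Q33.SP

open MvPolynomial Filter Topology Pool.Agent.W603.BP FF Pool.Agent.W602.GT Pool.Agent.TH143.GT
open IntermediateField hiding val

variable {n r : ℕ} {ι : Type}

/-- the curve is a sum of `r` terms, vectors of meromorphic germs times functions without zeros -/
def SumUnit (r : ℕ) (f : ℂ → Fin (n + 1) → ℂ) : Prop :=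
  ∃ (V : Fin r → Fin (n + 1) → ℂ → ℂ) (u : Fin r → ℂ → ℂ), (∀ j i, MeromorphicAt (V j i) 0) ∧
    (∀ j, ∀ᶠ w in 𝓝[≠] (0 : ℂ), AnalyticAt ℂ (u j) w ∧ u j w ≠ 0) ∧
    ∀ᶠ w in 𝓝[≠] (0 : ℂ), ∀ i, f w i = ∑ j, V j i w * u j w

theorem SumUnit.pow {f : ℂ → Fin (n + 1) → ℂ} (h : SumUnit r f) {M : ℕ} (hM : 0 < M) :
    SumPow r M f := by
  obtain ⟨V, u, hV, hu, hf⟩ := h
  have h1 : ∀ j, ∃ (a g : ℂ → ℂ), MeromorphicAt a 0 ∧ Pun g ∧
      ∀ᶠ w in 𝓝[≠] (0 : ℂ), u j w = a w * g w ^ M := by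
    intro j
    obtain ⟨k, q, P, hq, hP, he⟩ := pun_factor ((hu j).mono fun w hw => hw.1)
      ((hu j).mono fun w hw => hw.2)
    refine ⟨fun w => (w⁻¹) ^ k, fun w => Complex.exp ((q w + P w⁻¹) / M), ?_, ?_, ?_⟩
    · exact ((MeromorphicAt.id 0).fun_inv).fun_zpow k
    · have hqa : Pun q := (hq.eventually_analyticAt).filter_mono nhdsWithin_le_nhds
      filter_upwards [hqa, self_mem_nhdsWithin] with w hw hw0
      have hw0' : w ≠ 0 := hw0
      apply AnalyticAt.cexp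
      apply AnalyticAt.fun_div _ analyticAt_const (by exact_mod_cast hM.ne')
      apply AnalyticAt.fun_add hw
      exact (hP.analyticAt _).comp (g := P) (f := fun t : ℂ => t⁻¹) (analyticAt_inv hw0')
    · filter_upwards [he] with w hw
      have hMC : (M : ℂ) ≠ 0 := by exact_mod_cast hM.ne'
      rw [hw, ← Complex.exp_nat_mul, mul_div_cancel₀ _ hMC, Complex.exp_add, mul_assoc]
  choose a g ha hg he using h1
  refine ⟨fun j i w => V j i w * a j w, g, fun j i => (hV j i).fun_mul (ha j), hg, ?_⟩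
  have h2 : ∀ᶠ w in 𝓝[≠] (0 : ℂ), ∀ j, u j w = a j w * g j w ^ M := by
    rw [Filter.eventually_all]
    exact he
  filter_upwards [hf, h2] with w h3 h4 i
  rw [h3 i]
  refine Finset.sum_congr rfl fun j _ => ?_
  rw [h4 j]
  ring

/-- rescaling of the parameter -/
theorem sp_scale {F : ι → MvPolynomial (Fin (n + 1)) ℂ} {Q : MvPolynomial (Fin (n + 1)) ℂ}
    {e : Fin r → ℕ} {P : Fin (n + 1) → Polynomial ℂ} (h : IsSp F Q e P) {t : ℂ} (ht : t ≠ 0) :
    ∃ P', IsSp F Q e P' ∧ ∀ i s, (P' i).eval s = (P i).eval (t * s) := by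
  obtain ⟨U, hU⟩ := h.form
  let P' : Fin (n + 1) → Polynomial ℂ := fun i =>
    ∑ j, Polynomial.C (U j i * t ^ e j) * Polynomial.X ^ e j
  have hev : ∀ i s, (P' i).eval s = (P i).eval (t * s) := by
    intro i s
    rw [hU]
    change (∑ j, Polynomial.C (U j i * t ^ e j) * Polynomial.X ^ e j).eval s =
      (∑ j, Polynomial.C (U j i) * Polynomial.X ^ e j).eval (t * s)
    rw [Polynomial.eval_finsetSum, Polynomial.eval_finsetSum]
    refine Finset.sum_congr rfl fun j _ => ?_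
    rw [Polynomial.eval_mul, Polynomial.eval_C, Polynomial.eval_pow, Polynomial.eval_X,
      Polynomial.eval_mul, Polynomial.eval_C, Polynomial.eval_pow, Polynomial.eval_X, mul_pow,
      mul_assoc]
  have haev : ∀ (H : MvPolynomial (Fin (n + 1)) ℂ) (s : ℂ), (aeval P' H : Polynomial ℂ).eval s =
      (aeval P H : Polynomial ℂ).eval (t * s) := by
    intro H s
    rw [eval_aeval P' s H, eval_aeval P (t * s) H]
    congr 1
    congr 1
    funext i
    exact hev i s
  refine ⟨P', ⟨⟨fun j i => U j i * t ^ e j, rfl⟩, fun i => ?_, ?_, ?_⟩, hev⟩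
  · apply Polynomial.funext
    intro s
    rw [haev, h.zero i, Polynomial.eval_zero, Polynomial.eval_zero]
  · obtain ⟨c, m, hc, hcm⟩ := h.off
    refine ⟨c * t ^ m, m, mul_ne_zero hc (pow_ne_zero m ht), ?_⟩
    apply Polynomial.funext
    intro s
    rw [haev, hcm, Polynomial.eval_mul, Polynomial.eval_C, Polynomial.eval_pow, Polynomial.eval_X,
      Polynomial.eval_mul, Polynomial.eval_C, Polynomial.eval_pow, Polynomial.eval_X, mul_pow,
      mul_assoc]
  · obtain ⟨s, s', i, l, hs, hs', hne⟩ := h.nonconst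
    refine ⟨s / t, s' / t, i, l, div_ne_zero hs ht, div_ne_zero hs' ht, ?_⟩
    rw [hev, hev, hev, hev, mul_div_cancel₀ _ ht, mul_div_cancel₀ _ ht]
    exact hne

/-- **The exceptional set in a variety of log general type.** -/
theorem excep_gt {D q : ℕ} {F : ι → MvPolynomial (Fin (n + 1)) ℂ}
    {Q : MvPolynomial (Fin (n + 1)) ℂ} (hQ : Q.IsHomogeneous q)
    {p : Ideal (MvPolynomial (Fin (n + 1)) ℂ)} [p.IsPrime]
    (hcut : ∀ H ∈ p, ∀ x, OnX F Q x → eval x H = 0)
    {K : Type} [Field K] [Algebra ℂ K] {w : ℕ} {y : Fin (n + 1) → K} (hy : FunField p Q K w y)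
    (hlog : LogGeneralType ℂ K w (Pool.Agent.W603.GR.OffQ Q q y)) :
    ∃ G : MvPolynomial (Fin (n + 1)) ℂ, IsForm G ∧ G ∉ p ∧
      ∀ e ∈ Exps r D, ∀ P, IsSp F Q e P → aeval P G = 0 := by
  rcases excep (ι := ι) hQ (fun x h1 h2 H hH => hcut H hH x ⟨h1, h2⟩) hy.sub.ne hy.sub.mem
    hy.mem (Exps r D) with ⟨G, hG1, hG2, hG3⟩ | ⟨M, i1, i2, m', W, l', hm, hfam, -, ⟨s, hs⟩⟩
  · obtain ⟨d, hd⟩ := hG1
    refine ⟨G, ⟨d, hd⟩, hG2, fun e he P hP => ?_⟩
    -- all points of the curve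
    apply poly_zero_of_ne
    intro t ht
    rw [eval_aeval P t G]
    obtain ⟨P', h1, h2⟩ := sp_scale hP ht
    have h3 := hG3 e he P' h1
    have h4 : (fun i => (P' i).eval 1) = fun i => (P i).eval t := by
      funext i
      rw [h2, mul_one]
    rw [h4] at h3
    exact h3
  · exfalso
    exact hs ((hfam.main hy.sub.dim hm hy.sub.ne hy.sub.gen hQ).2.2.1 hlog s)

end Pool.Agent.Q33.SP
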