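import Pool.Agent.Q33.SP.Sets
import Pool.Agent.H159R3.Exp.Laur

/-!
Curves with few terms in affine varieties.
-/

set_option autoImplicit false

namespace Pool.Agent.Q33.SP

open MvPolynomial Filter Topology Pool.Agent.W603.BP Pool.Agent.H159R3.NV
open Pool.Agent.H159R3.Exp (Laur)

variable {n r : ℕ} {ι κ : Type}

section homog

/-- homogenization -/
noncomputable def hz (D : ℕ) (F : MvPolynomial (Fin n) ℂ) : MvPolynomial (Fin (n + 1)) ℂ :=
  ∑ a ∈ F.support, C (F.coeff a) * (X 0 ^ (D - ∑ i, a i) * ∏ i : Fin n, X i.succ ^ a i)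

theorem hz_homog {D : ℕ} {F : MvPolynomial (Fin n) ℂ} (hF : F.totalDegree ≤ D) :
    (hz D F).IsHomogeneous D := by
  unfold hz
  apply IsHomogeneous.sum
  intro a ha
  have h1 : ∑ i, a i ≤ D := by
    refine le_trans ?_ hF
    have h2 := le_totalDegree ha
    rwa [Finsupp.sum_fintype _ _ (fun _ => rfl)] at h2
  have h2 : (∏ i : Fin n, (X i.succ : MvPolynomial (Fin (n + 1)) ℂ) ^ a i).IsHomogeneous
      (∑ i, a i) := by
    apply IsHomogeneous.prod
    intro i _
    exact isHomogeneous_X_pow _ _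
  have h3 := (isHomogeneous_X_pow (R := ℂ) (0 : Fin (n + 1)) (D - ∑ i, a i)).mul h2
  rw [Nat.sub_add_cancel h1] at h3
  exact h3.C_mul _

theorem hz_eval {D : ℕ} {F : MvPolynomial (Fin n) ℂ} (hF : F.totalDegree ≤ D)
    {x : Fin (n + 1) → ℂ} (hx : x 0 ≠ 0) :
    eval x (hz D F) = x 0 ^ D * eval (fun i => x i.succ / x 0) F := by
  unfold hz
  rw [map_sum, eval_eq', Finset.mul_sum]
  refine Finset.sum_congr rfl fun a ha => ?_
  have h1 : ∑ i, a i ≤ D := by
    refine le_trans ?_ hF
    have h2 := le_totalDegree ha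
    rwa [Finsupp.sum_fintype _ _ (fun _ => rfl)] at h2
  rw [map_mul, eval_C, map_mul, map_pow, eval_X, map_prod]
  have h2 : ∏ i : Fin n, eval x ((X i.succ : MvPolynomial (Fin (n + 1)) ℂ) ^ a i) =
      ∏ i : Fin n, x i.succ ^ a i :=
    Finset.prod_congr rfl fun i _ => by rw [map_pow, eval_X]
  have h3 : ∏ i : Fin n, (x i.succ / x 0) ^ a i =
      (∏ i : Fin n, x i.succ ^ a i) / x 0 ^ (∑ i, a i) := by
    rw [← Finset.prod_pow_eq_pow_sum, ← Finset.prod_div_distrib]
    exact Finset.prod_congr rfl fun i _ => div_pow _ _ _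
  have h4 : x 0 ^ D = x 0 ^ (D - ∑ i, a i) * x 0 ^ (∑ i, a i) := by
    rw [← pow_add, Nat.sub_add_cancel h1]
  rw [h2, h3, h4]
  have h5 : x 0 ^ (∑ i, a i) ≠ 0 := pow_ne_zero _ hx
  field_simp

end homog

/-- the homogeneous coordinates of an affine curve -/
def hc (f : ℂ → Fin n → ℂ) (z : ℂ) : Fin (n + 1) → ℂ := Fin.cons 1 (f z)

theorem hc_eval {D : ℕ} {F : MvPolynomial (Fin n) ℂ} (hF : F.totalDegree ≤ D)
    (f : ℂ → Fin n → ℂ) (z : ℂ) : eval (hc f z) (hz D F) = eval (f z) F := by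
  have h0 : hc f z 0 = 1 := rfl
  rw [hz_eval hF (by rw [h0]; exact one_ne_zero), h0, one_pow, one_mul]
  congr 1
  congr 1
  funext i
  rw [div_one]
  rfl

/-- all nonconstant maps from the punctured line to `F = 0`, given by Laurent polynomials, lie in
`G = 0` -/
def GmIn (F : ι → MvPolynomial (Fin n) ℂ) (G : κ → MvPolynomial (Fin n) ℂ) : Prop :=
  ∀ v : ℂ → Fin n → ℂ, (∀ j, Laur fun t => v t j) → (∀ i t, t ≠ 0 → eval (v t) (F i) = 0) →
    (∃ t s, t ≠ 0 ∧ s ≠ 0 ∧ v t ≠ v s) → ∀ l t, t ≠ 0 → eval (v t) (G l) = 0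

/-- a curve with `r + 1` terms gives a Laurent curve -/
theorem laur_of_sp {D : ℕ} {F : ι → MvPolynomial (Fin n) ℂ} (hF : ∀ i, (F i).totalDegree ≤ D)
    {G : κ → MvPolynomial (Fin n) ℂ} (h : GmIn F G) {e : Fin r → ℕ}
    {P : Fin (n + 1) → Polynomial ℂ} (hP : IsSp (fun i => hz D (F i)) (X 0) e P)
    {x : Fin n → ℂ} (hx : ∀ i, (P i).eval 1 = (Fin.cons 1 x : Fin (n + 1) → ℂ) i) (l : κ) :
    eval x (G l) = 0 := by
  obtain ⟨c, m, hc, hcm⟩ := hP.off
  rw [aeval_X] at hcm
  have hc1 : c = 1 := by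
    have h1 := hx 0
    rw [hcm, Polynomial.eval_mul, Polynomial.eval_C, Polynomial.eval_pow, Polynomial.eval_X,
      one_pow, mul_one] at h1
    exact h1
  have h0 : ∀ t, (P 0).eval t = t ^ m := by
    intro t
    rw [hcm, Polynomial.eval_mul, Polynomial.eval_C, Polynomial.eval_pow, Polynomial.eval_X, hc1,
      one_mul]
  have h1 := h (fun t i => (P i.succ).eval t / t ^ m) (fun j => ⟨m, P j.succ, fun t ht => by
      have : t ^ m ≠ 0 := pow_ne_zero _ ht
      field_simp⟩) (fun i t ht => by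
      have h2 := (sp_on hP ht).1 i
      have h3 : (P 0).eval t ≠ 0 := by rw [h0]; exact pow_ne_zero _ ht
      rw [hz_eval (hF i) (x := fun j => (P j).eval t) h3] at h2
      have h4 := (mul_eq_zero.1 h2).resolve_left (pow_ne_zero _ h3)
      rw [← h4]
      congr 1
      congr 1
      funext j
      rw [h0]) (by
      by_contra hcon
      push Not at hcon
      obtain ⟨s, t, i, l, hs, ht, hne⟩ := hP.nonconst
      apply hne
      have h2 : ∀ i, (P i).eval s * t ^ m = (P i).eval t * s ^ m := by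
        intro i
        have hs' : s ^ m ≠ 0 := pow_ne_zero _ hs
        have ht' : t ^ m ≠ 0 := pow_ne_zero _ ht
        refine Fin.cases ?_ (fun i => ?_) i
        · rw [h0, h0, mul_comm]
        · have h3 := congrFun (hcon s t hs ht) i
          rw [div_eq_div_iff hs' ht'] at h3
          exact h3
      have ht' : t ^ m ≠ 0 := pow_ne_zero _ ht
      apply mul_right_cancel₀ ht'
      calc (P i).eval s * (P l).eval t * t ^ m = ((P i).eval s * t ^ m) * (P l).eval t := by ring
        _ = ((P i).eval t * s ^ m) * (P l).eval t := by rw [h2]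
        _ = ((P l).eval t * s ^ m) * (P i).eval t := by ring
        _ = ((P l).eval s * t ^ m) * (P i).eval t := by rw [h2]
        _ = _ := by ring) l 1 one_ne_zero
  rw [← h1]
  congr 1
  congr 1
  funext i
  rw [one_pow, div_one, hx i.succ]
  rfl

/-- the affine curve is a sum of a meromorphic vector and `r` terms near the origin -/
def PSum (r M : ℕ) (f : ℂ → Fin n → ℂ) : Prop :=
  ∃ (V0 : Fin n → ℂ → ℂ) (V : Fin r → Fin n → ℂ → ℂ) (k : Fin r → ℂ → ℂ),
    (∀ i, MeromorphicAt (V0 i) 0) ∧ (∀ j i, MeromorphicAt (V j i) 0) ∧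
    (∀ j, ∀ᶠ w in 𝓝[≠] (0 : ℂ), AnalyticAt ℂ (k j) w) ∧
    ∀ᶠ w in 𝓝[≠] (0 : ℂ), ∀ i, f w i = V0 i w + ∑ j, V j i w * k j w ^ M

/-- the affine curve is a sum of a constant vector and `r` terms -/
def ESum (r M : ℕ) (f : ℂ → Fin n → ℂ) : Prop :=
  ∃ (v0 : Fin n → ℂ) (v : Fin r → Fin n → ℂ) (k : Fin r → ℂ → ℂ),
    (∀ j, Differentiable ℂ (k j)) ∧ ∀ z i, f z i = v0 i + ∑ j, v j i * k j z ^ M

/-- all holomorphic maps from the punctured disc to `F = 0` with an essential singularity which are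
sums of few high powers lie in `G = 0` -/
def PowPunctIn (F : ι → MvPolynomial (Fin n) ℂ) (G : κ → MvPolynomial (Fin n) ℂ) : Prop :=
  ∀ r M D, 1 ≤ D → (∀ i, (F i).totalDegree ≤ D) → ((r + D).choose D) ^ 2 ≤ M →
    ∀ f : ℂ → Fin n → ℂ, (∀ i, AnalyticOnNhd ℂ (fun w => f w i) {w : ℂ | w ≠ 0 ∧ ‖w‖ < 1}) → PSum r M f →
    (∀ w : ℂ, w ≠ 0 → ‖w‖ < 1 → ∀ i, eval (f w) (F i) = 0) →
    (∃ i, ¬ MeromorphicAt (fun w => f w i) 0) →
    ∀ w : ℂ, w ≠ 0 → ‖w‖ < 1 → ∀ l, eval (f w) (G l) = 0

/-- all nonconstant entire curves in `F = 0` which are sums of few high powers lie in `G = 0` -/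
def PowEntIn (F : ι → MvPolynomial (Fin n) ℂ) (G : κ → MvPolynomial (Fin n) ℂ) : Prop :=
  ∀ r M D, 1 ≤ D → (∀ i, (F i).totalDegree ≤ D) → ((r + D).choose D) ^ 2 ≤ M →
    ∀ f : ℂ → Fin n → ℂ, ESum r M f → (∀ z i, eval (f z) (F i) = 0) → (∃ z w, f z ≠ f w) →
    ∀ z l, eval (f z) (G l) = 0

theorem gm_punct {F : ι → MvPolynomial (Fin n) ℂ} {G : κ → MvPolynomial (Fin n) ℂ}
    (h : GmIn F G) : PowPunctIn F G := by
  intro r M D hD1 hF hM f han hsum hX hess w hw0 hw1 l
  obtain ⟨i0, hi0⟩ := hess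
  obtain ⟨V0, V, k, hV0, hV, hk, hfe⟩ := hsum
  have hsum' : SumPow (r + 1) M (hc f) := by
    refine ⟨fun j i => Fin.cases (Fin.cases (fun _ => 1) (fun i => V0 i) i)
      (fun j => Fin.cases (fun _ => 0) (fun i => V j i) i) j,
      fun j => Fin.cases (fun _ => 1) (fun j => k j) j, fun j i => ?_, fun j => ?_, ?_⟩
    · refine Fin.cases ?_ (fun j => ?_) j
      · refine Fin.cases ?_ (fun i => ?_) i
        · exact MeromorphicAt.const _ _
        · exact hV0 i
      · refine Fin.cases ?_ (fun i => ?_) i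
        · exact MeromorphicAt.const _ _
        · exact hV j i
    · refine Fin.cases ?_ (fun j => ?_) j
      · exact Eventually.of_forall fun w => analyticAt_const
      · exact hk j
    · filter_upwards [hfe] with w hw i
      rw [Fin.sum_univ_succ]
      refine Fin.cases ?_ (fun i => ?_) i
      · change (1 : ℂ) = 1 * 1 ^ M + ∑ j : Fin r, 0 * k j w ^ M
        simp
      · change f w i = V0 i w * 1 ^ M + ∑ j : Fin r, V j i w * k j w ^ M
        rw [one_pow, mul_one]
        exact hw i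
  have hess' : Ess (hc f) := by
    refine ⟨i0.succ, 0, ?_, ?_⟩
    · intro h0
      obtain ⟨w, hw⟩ := h0.exists
      exact one_ne_zero hw
    · rintro ⟨ρ, hρ, hρe⟩
      apply hi0
      refine hρ.congr ?_
      filter_upwards [hρe] with w hw
      have h1 : f w i0 = ρ w * 1 := hw
      rw [h1, mul_one]
  obtain ⟨e, he, δ, hδ, hpt⟩ := pt_main (r := r + 1) (D := D) (M := M) (q := 1)
    (fun i => hz D (F i)) (fun i => ⟨D, le_rfl, hz_homog (hF i)⟩) (X 0) (isHomogeneous_X _ _) hD1
    (by rw [Nat.add_right_comm, Nat.add_sub_cancel]; exact hM) (hc f) hsum' hess' (by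
      filter_upwards [PB_mem one_pos] with w hw
      refine ⟨fun i => ?_, ?_⟩
      · rw [hc_eval (hF i)]
        exact hX w hw.1 hw.2 i
      · rw [eval_X]
        exact one_ne_zero)
  obtain ⟨z0, hz0⟩ := PB_nonempty (lt_min hδ one_pos)
  have h1 : ∀ᶠ z in 𝓝[≠] z0, eval (f z) (G l) = 0 := by
    filter_upwards [hpt z0 hz0.1 (hz0.2.trans_le (min_le_left _ _))] with z hz
    obtain ⟨P, hP1, hP2⟩ := hz
    exact laur_of_sp hF h hP1 hP2 l
  have han' : AnalyticOnNhd ℂ (fun w => eval (f w) (G l)) (PB 1) := fun w hw =>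
    an_aeval (G l) fun j => han j w hw
  exact han'.eqOn_zero_of_preconnected_of_frequently_eq_zero (PB_preconn one_pos)
    ⟨hz0.1, hz0.2.trans_le (min_le_right _ _)⟩ h1.frequently ⟨hw0, hw1⟩

theorem punct_ent {F : ι → MvPolynomial (Fin n) ℂ} {G : κ → MvPolynomial (Fin n) ℂ}
    (h : PowPunctIn F G) : PowEntIn F G := by
  intro r M D hD1 hF hM f hsum hX hnc z l
  obtain ⟨v0, v, k, hk, hfe⟩ := hsum
  have hdiff : ∀ i, Differentiable ℂ fun z => f z i := by
    intro i
    have : (fun z => f z i) = fun z => v0 i + ∑ j, v j i * k j z ^ M := by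
      funext z
      exact hfe z i
    rw [this]
    exact (differentiable_const _).add
      (Differentiable.fun_sum fun j _ => ((hk j).pow M).const_mul _)
  obtain ⟨w1, hw1, hw2⟩ := Pool.Agent.TH143.exists_exp_inv (t := 1) one_ne_zero one_pos
  have hexp : ∀ w : ℂ, w ≠ 0 → AnalyticAt ℂ (fun w : ℂ => z - 1 + Complex.exp w⁻¹) w :=
    fun w hw => analyticAt_const.fun_add (analyticAt_inv hw).cexp
  have key := h r M D hD1 hF hM (fun w => f (z - 1 + Complex.exp w⁻¹)) (fun i w hw =>
      AnalyticAt.comp (g := fun z => f z i) (f := fun w : ℂ => z - 1 + Complex.exp w⁻¹)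
        ((hdiff i).analyticAt _) (hexp w hw.1))
    ⟨fun i _ => v0 i, fun j i _ => v j i, fun j w => k j (z - 1 + Complex.exp w⁻¹),
      fun i => MeromorphicAt.const _ _, fun j i => MeromorphicAt.const _ _, fun j => by
        filter_upwards [self_mem_nhdsWithin] with w hw
        exact AnalyticAt.comp (g := k j) (f := fun w : ℂ => z - 1 + Complex.exp w⁻¹)
          ((hk j).analyticAt _) (hexp w hw), Eventually.of_forall fun w i => hfe _ i⟩
    (fun w _ _ i => hX _ i) (by
      by_contra hcon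
      push Not at hcon
      obtain ⟨a, b, hab⟩ := hnc
      obtain ⟨i, hi⟩ := Function.ne_iff.1 hab
      obtain ⟨c, hc⟩ := mero_exp (hcon i) (a := fun t => f (z - 1 + t) i) (b := fun _ => 1)
        (Eventually.of_forall fun w => (mul_one _).symm)
      have hd : Differentiable ℂ (fun t => f (z - 1 + t) i - c) :=
        ((hdiff i).comp ((differentiable_const _).add differentiable_id)).sub_const c
      have h0 : ∀ t, f (z - 1 + t) i - c = 0 := by
        apply zero_of_punctured hd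
        intro t ht
        have h1 := hc t ht one_ne_zero
        rw [mul_one] at h1
        exact sub_eq_zero.2 h1
      apply hi
      have h1 := h0 (a - (z - 1))
      have h2 := h0 (b - (z - 1))
      rw [add_sub_cancel] at h1 h2
      rw [sub_eq_zero.1 h1, sub_eq_zero.1 h2]) w1 hw1.1 hw1.2 l
  simp only [hw2, sub_add_cancel] at key
  exact key

theorem ent_gm [Finite ι] {F : ι → MvPolynomial (Fin n) ℂ} {G : κ → MvPolynomial (Fin n) ℂ}
    (h : PowEntIn F G) : GmIn F G := by
  classical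
  intro v hv hX hnc l t ht
  obtain ⟨t1, t2, ht1, ht2, hne⟩ := hnc
  choose m Q hQ using hv
  obtain ⟨D, hD⟩ : ∃ D, ∀ i, (F i).totalDegree ≤ D := by
    obtain ⟨D, hD⟩ := (Set.finite_range fun i => (F i).totalDegree).bddAbove
    exact ⟨D, fun i => hD ⟨i, rfl⟩⟩
  let N : ℕ := (∑ i, (Q i).natDegree) + 1
  have hN : ∀ i, (Q i).natDegree < N := fun i => Nat.lt_succ_of_le
    (Finset.single_le_sum (f := fun i => (Q i).natDegree) (fun _ _ => Nat.zero_le _)
      (Finset.mem_univ i))
  let T := Fin n × Fin N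
  let E : Fin (Fintype.card T) ≃ T := (Fintype.equivFin T).symm
  let M : ℕ := ((Fintype.card T + (D + 1)).choose (D + 1)) ^ 2
  have hM0 : 0 < M := pow_pos (Nat.choose_pos (by omega)) 2
  have hMC : (M : ℂ) ≠ 0 := by exact_mod_cast hM0.ne'
  have hval : ∀ z i, v (Complex.exp z) i = (0 : ℂ) + ∑ j : Fin (Fintype.card T),
      (if (E j).1 = i then (Q i).coeff (E j).2 else 0) *
        Complex.exp (z * (((E j).2 : ℕ) - (m (E j).1 : ℂ)) / M) ^ M := by
    intro z i
    have h1 : ∀ j : Fin (Fintype.card T),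
        (if (E j).1 = i then (Q i).coeff (E j).2 else 0) *
        Complex.exp (z * (((E j).2 : ℕ) - (m (E j).1 : ℂ)) / M) ^ M =
        (fun p : T => (if p.1 = i then (Q i).coeff p.2 else 0) *
          Complex.exp (z * (((p.2 : ℕ) : ℂ) - m p.1))) (E j) := by
      intro j
      simp only
      rw [← Complex.exp_nat_mul, mul_div_cancel₀ _ hMC]
    rw [zero_add, Finset.sum_congr rfl fun j _ => h1 j, Equiv.sum_comp E
      (fun p : T => (if p.1 = i then (Q i).coeff p.2 else 0) *
          Complex.exp (z * (((p.2 : ℕ) : ℂ) - m p.1))), Fintype.sum_prod_type]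
    rw [Finset.sum_eq_single i]
    · have h2 := hQ i (Complex.exp z) (Complex.exp_ne_zero z)
      have h3 : Complex.exp z ^ m i ≠ 0 := pow_ne_zero _ (Complex.exp_ne_zero z)
      apply mul_right_cancel₀ h3
      rw [h2, Polynomial.eval_eq_sum_range' (hN i), Finset.sum_mul,
        ← Fin.sum_univ_eq_sum_range (fun a => (Q i).coeff a * Complex.exp z ^ a) N]
      refine Finset.sum_congr rfl fun a _ => ?_
      rw [if_pos rfl, ← Complex.exp_nat_mul, ← Complex.exp_nat_mul, mul_assoc, ← Complex.exp_add]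
      congr 2
      ring
    · intro i' _ hi'
      apply Finset.sum_eq_zero
      intro a _
      rw [if_neg hi', zero_mul]
    · intro hni
      exact absurd (Finset.mem_univ i) hni
  have key := h (Fintype.card T) M (D + 1) (Nat.le_add_left 1 D)
    (fun i => (hD i).trans (Nat.le_succ D)) le_rfl (fun z => v (Complex.exp z))
    ⟨fun _ => 0, fun j i => if (E j).1 = i then (Q i).coeff (E j).2 else 0, fun j z =>
      Complex.exp (z * (((E j).2 : ℕ) - (m (E j).1 : ℂ)) / M), fun j =>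
      ((differentiable_id.mul_const _).div_const _).cexp, hval⟩
    (fun z i => hX i _ (Complex.exp_ne_zero z)) ⟨Complex.log t1, Complex.log t2, by
      rw [Complex.exp_log ht1, Complex.exp_log ht2]
      exact hne⟩ (Complex.log t) l
  rw [Complex.exp_log ht] at key
  exact key

/-- the equivalence over the complex numbers -/
theorem aff_tfae [Finite ι] (F : ι → MvPolynomial (Fin n) ℂ) (G : κ → MvPolynomial (Fin n) ℂ) :
    [GmIn F G, PowPunctIn F G, PowEntIn F G].TFAE := by
  tfae_have 1 → 2 := gm_punct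
  tfae_have 2 → 3 := punct_ent
  tfae_have 3 → 1 := ent_gm
  tfae_finish

end Pool.Agent.Q33.SP
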