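import Pool.Agent.TH143.GT.Sec
import Pool.Agent.TH143.GT.Desc

/-!
Dominating families of curves with given exponents.
-/

set_option autoImplicit false

namespace Pool.Agent.Q33.SP

open MvPolynomial FF Pool.Agent.W602.GT Pool.Agent.TH143.GT
open IntermediateField hiding val

section wr

variable {R : Type} [CommRing R] [IsDomain R] [CharZero R]

theorem wr_deg {A B : Polynomial R} (hA : A ≠ 0) (hB : B ≠ 0)
    (h : Polynomial.derivative A * B = A * Polynomial.derivative B) :
    A.natDegree = B.natDegree := by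
  have h1 : (Polynomial.X * Polynomial.derivative A) * B =
      A * (Polynomial.X * Polynomial.derivative B) := by
    linear_combination Polynomial.X * h
  have hle : ∀ C : Polynomial R, (Polynomial.X * Polynomial.derivative C).natDegree ≤
      C.natDegree := by
    intro C
    rw [Polynomial.natDegree_le_iff_coeff_eq_zero]
    intro m hm
    cases m with
    | zero => simp
    | succ m =>
      rw [Polynomial.coeff_X_mul, Polynomial.coeff_derivative,
        Polynomial.coeff_eq_zero_of_natDegree_lt hm, zero_mul]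
  have hco : ∀ C : Polynomial R, (Polynomial.X * Polynomial.derivative C).coeff C.natDegree =
      C.natDegree * C.leadingCoeff := by
    intro C
    have : ∀ m, (Polynomial.X * Polynomial.derivative C).coeff m = m * C.coeff m := by
      intro m
      cases m with
      | zero => simp
      | succ m =>
        rw [Polynomial.coeff_X_mul, Polynomial.coeff_derivative]
        push_cast
        ring
    exact this _
  have h2 := congrArg (fun p => Polynomial.coeff p (A.natDegree + B.natDegree)) h1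
  change (Polynomial.X * Polynomial.derivative A * B).coeff (A.natDegree + B.natDegree) =
    (A * (Polynomial.X * Polynomial.derivative B)).coeff (A.natDegree + B.natDegree) at h2
  rw [Polynomial.coeff_mul_add_eq_of_natDegree_le (hle A) le_rfl,
    Polynomial.coeff_mul_add_eq_of_natDegree_le le_rfl (hle B), hco, hco] at h2
  have h3 : ((A.natDegree : R) - B.natDegree) * (A.leadingCoeff * B.leadingCoeff) = 0 := by
    change (A.natDegree : R) * A.leadingCoeff * B.leadingCoeff =
      A.leadingCoeff * ((B.natDegree : R) * B.leadingCoeff) at h2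
    linear_combination h2
  rcases mul_eq_zero.1 h3 with h4 | h4
  · exact_mod_cast sub_eq_zero.1 h4
  · exact absurd h4 (mul_ne_zero (Polynomial.leadingCoeff_ne_zero.2 hA)
      (Polynomial.leadingCoeff_ne_zero.2 hB))

/-- proportional polynomials -/
theorem wr_zero {A B : Polynomial R}
    (h : Polynomial.derivative A * B = A * Polynomial.derivative B) :
    Polynomial.C B.leadingCoeff * A = Polynomial.C A.leadingCoeff * B := by
  by_cases hA : A = 0
  · rw [hA]; simp
  by_cases hB : B = 0
  · rw [hB]; simp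
  by_contra hne
  have hdeg := wr_deg hA hB h
  set C0 := Polynomial.C B.leadingCoeff * A - Polynomial.C A.leadingCoeff * B with hC
  have hC0 : C0 ≠ 0 := sub_ne_zero.2 hne
  have h1 : Polynomial.derivative C0 * B = C0 * Polynomial.derivative B := by
    rw [hC, Polynomial.derivative_sub, Polynomial.derivative_C_mul, Polynomial.derivative_C_mul]
    linear_combination Polynomial.C B.leadingCoeff * h
  have h2 := wr_deg hC0 hB h1
  have h3 : C0.coeff B.natDegree = 0 := by
    rw [hC, Polynomial.coeff_sub, Polynomial.coeff_C_mul, Polynomial.coeff_C_mul, ← hdeg]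
    change B.leadingCoeff * A.leadingCoeff - A.leadingCoeff * B.coeff A.natDegree = 0
    rw [hdeg]
    change B.leadingCoeff * A.leadingCoeff - A.leadingCoeff * B.leadingCoeff = 0
    ring
  rw [← h2] at h3
  exact hC0 (Polynomial.leadingCoeff_eq_zero.1 h3)

/-- the nonconstancy of a curve, tested by a derivative -/
theorem flat_imp {A B : Polynomial R}
    (h : Polynomial.derivative A * B = A * Polynomial.derivative B) :
    A * Polynomial.C (B.eval 1) = B * Polynomial.C (A.eval 1) := by
  have h1 := wr_zero h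
  by_cases hB : B = 0
  · rw [hB]; simp
  have hb : B.leadingCoeff ≠ 0 := Polynomial.leadingCoeff_ne_zero.2 hB
  have hb' : Polynomial.C B.leadingCoeff ≠ 0 := by
    rw [Ne, Polynomial.C_eq_zero]
    exact hb
  have h2 := congrArg (Polynomial.eval 1) h1
  rw [Polynomial.eval_mul, Polynomial.eval_mul, Polynomial.eval_C, Polynomial.eval_C] at h2
  apply mul_left_cancel₀ hb'
  have h3 : Polynomial.C B.leadingCoeff * (A * Polynomial.C (B.eval 1)) =
      Polynomial.C A.leadingCoeff * B * Polynomial.C (B.eval 1) := by rw [← h1]; ring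
  rw [h3]
  have h4 : Polynomial.C B.leadingCoeff * Polynomial.C (A.eval 1) =
      Polynomial.C A.leadingCoeff * Polynomial.C (B.eval 1) := by
    rw [← Polynomial.C_mul, ← Polynomial.C_mul, h2]
  linear_combination -B * h4

end wr

variable {n r : ℕ}

/-- the curve with the given coefficients and exponents -/
noncomputable def kc {R : Type} [CommRing R] (U : Fin r → Fin (n + 1) → R) (e : Fin r → ℕ) :
    Fin (n + 1) → Polynomial R :=
  fun i => ∑ j, Polynomial.C (U j i) * Polynomial.X ^ e j

theorem kc_map {R R' : Type} [CommRing R] [CommRing R'] (φ : R →+* R')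
    (U : Fin r → Fin (n + 1) → R) (e : Fin r → ℕ) (i : Fin (n + 1)) :
    (kc U e i).map φ = kc (fun j i => φ (U j i)) e i := by
  unfold kc
  rw [Polynomial.map_sum]
  refine Finset.sum_congr rfl fun j _ => ?_
  rw [Polynomial.map_mul, Polynomial.map_C, Polynomial.map_pow, Polynomial.map_X]

theorem aeval_map {R R' : Type} [CommRing R] [CommRing R'] [Algebra ℂ R] [Algebra ℂ R']
    (φ : R →ₐ[ℂ] R') (U : Fin r → Fin (n + 1) → R) (e : Fin r → ℕ)
    (G : MvPolynomial (Fin (n + 1)) ℂ) :
    (aeval (kc U e) G).map (φ : R →+* R') = aeval (kc (fun j i => φ (U j i)) e) G := by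
  rw [map_aeval' φ (kc U e) G]
  congr 1
  congr 1
  funext i
  exact kc_map _ U e i

/-- the coefficients which test the nonconstancy -/
noncomputable def nco {R : Type} [CommRing R] (U : Fin r → Fin (n + 1) → R) (e : Fin r → ℕ)
    (v : ℕ) (i l : Fin (n + 1)) : R :=
  (kc U e i * Polynomial.C ((kc U e l).eval 1) -
    kc U e l * Polynomial.C ((kc U e i).eval 1)).coeff v

theorem eval_one_map {R R' : Type} [CommRing R] [CommRing R'] (φ : R →+* R')
    (P : Polynomial R) : (P.map φ).eval 1 = φ (P.eval 1) := by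
  have := Polynomial.eval_map_apply (f := φ) (p := P) (1 : R)
  rw [map_one] at this
  exact this

theorem nco_map {R R' : Type} [CommRing R] [CommRing R'] (φ : R →+* R')
    (U : Fin r → Fin (n + 1) → R) (e : Fin r → ℕ) (v : ℕ) (i l : Fin (n + 1)) :
    φ (nco U e v i l) = nco (fun j i => φ (U j i)) e v i l := by
  unfold nco
  rw [← Polynomial.coeff_map, Polynomial.map_sub, Polynomial.map_mul, Polynomial.map_mul,
    Polynomial.map_C, Polynomial.map_C, ← eval_one_map φ (kc U e i), ← eval_one_map φ (kc U e l),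
    kc_map, kc_map]

theorem eval_aeval {R : Type} [CommRing R] [Algebra ℂ R] (W : Fin (n + 1) → Polynomial R) (t : R)
    (G : MvPolynomial (Fin (n + 1)) ℂ) :
    (aeval W G : Polynomial R).eval t = aeval (fun i => (W i).eval t) G := by
  have h := MvPolynomial.comp_aeval_apply (f := W)
    ((Polynomial.aeval t : Polynomial R →ₐ[R] R).restrictScalars ℂ) G
  simpa only [AlgHom.coe_restrictScalars', Polynomial.coe_aeval_eq_eval] using h

/-- the points of the parameter space -/
structure Hit (p : Ideal (MvPolynomial (Fin (n + 1)) ℂ)) (Q : MvPolynomial (Fin (n + 1)) ℂ)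
    (e : Fin r → ℕ) (m v : ℕ) (i l : Fin (n + 1)) (U : Fin r → Fin (n + 1) → ℂ) : Prop where
  zero : ∀ H ∈ p, aeval (kc U e) H = 0
  off : ∀ v', v' ≠ m → (aeval (kc U e) Q).coeff v' = 0
  ne : (aeval (kc U e) Q).coeff m ≠ 0
  nc : nco U e v i l ≠ 0

/-- **A family of curves which passes through all points outside proper closed subsets.** -/
theorem fam_of_hits {p : Ideal (MvPolynomial (Fin (n + 1)) ℂ)} [hprime : p.IsPrime]
    {Q : MvPolynomial (Fin (n + 1)) ℂ} {K : Type} [Field K] [Algebra ℂ K]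
    {y : Fin (n + 1) → K} (hmem : ∀ H ∈ p, W602.GT.val y H = 0)
    (hmem' : ∀ H : MvPolynomial (Fin (n + 1)) ℂ, IsForm H → W602.GT.val y H = 0 → H ∈ p)
    (e : Fin r → ℕ) (m v : ℕ) (i l : Fin (n + 1))
    (h : ∀ G : MvPolynomial (Fin (n + 1)) ℂ, IsForm G → G ∉ p → ∃ U, Hit p Q e m v i l U ∧
      aeval (fun i => (kc U e i).eval 1) G ≠ 0) :
    ∃ (M : Type) (_ : Field M) (_ : Algebra ℂ M) (m' : ℕ) (W : Fin (n + 1) → Polynomial M)
      (l' : ℕ), Algebra.trdeg ℂ M = m' ∧ Fam y Q W l' ∧ (Q = 1 → l' = 0) ∧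
        ∃ r : K, ¬ Flat ℂ y W r := by
  classical
  let T0 := MvPolynomial (Fin r × Fin (n + 1)) ℂ
  let U0 : Fin r → Fin (n + 1) → T0 := fun j i => X (j, i)
  let Wg : Fin (n + 1) → Polynomial T0 := kc U0 e
  let I : Ideal T0 := Ideal.span ({c | ∃ H ∈ p, ∃ v', c = (aeval Wg H).coeff v'} ∪
    {c | ∃ v', v' ≠ m ∧ c = (aeval Wg Q).coeff v'})
  let s0 : T0 := (aeval Wg Q).coeff m * nco U0 e v i l
  let S : Submonoid T0 :=
    { carrier := {s | ∃ (G : MvPolynomial (Fin (n + 1)) ℂ) (N : ℕ), IsForm G ∧ G ∉ p ∧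
        s = aeval (fun i => (Wg i).eval 1) G * s0 ^ N}
      mul_mem' := by
        rintro a b ⟨G, N, ⟨d, hd⟩, hG, rfl⟩ ⟨G', N', ⟨d', hd'⟩, hG', rfl⟩
        refine ⟨G * G', N + N', ⟨d + d', hd.mul hd'⟩, ?_, ?_⟩
        · intro h0
          exact (hprime.mem_or_mem h0).elim hG hG'
        · rw [map_mul, pow_add]
          ring
      one_mem' := by
        refine ⟨1, 0, ⟨0, isHomogeneous_one _ _⟩, ?_, by simp⟩
        intro h0
        exact hprime.ne_top ((Ideal.eq_top_iff_one p).2 h0) }
  have hdisj : Disjoint (I : Set T0) (S : Set T0) := by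
    rw [Set.disjoint_left]
    rintro s hsI ⟨G, N, hG1, hG2, rfl⟩
    obtain ⟨U, hU, hUG⟩ := h G hG1 hG2
    let φ : T0 →ₐ[ℂ] ℂ := aeval (fun q : Fin r × Fin (n + 1) => U q.1 q.2)
    have hφU : (fun j i => φ (U0 j i)) = U := by
      funext j i
      exact aeval_X _ _
    have hφW : ∀ H : MvPolynomial (Fin (n + 1)) ℂ, (aeval Wg H).map (φ : T0 →+* ℂ) =
        aeval (kc U e) H := by
      intro H
      rw [aeval_map φ U0 e H, hφU]
    have hIφ : ∀ c ∈ I, φ c = 0 := by
      intro c hc
      have h1 : I ≤ RingHom.ker (φ : T0 →+* ℂ) := by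
        refine Ideal.span_le.2 ?_
        rintro c (⟨H, hH, v', rfl⟩ | ⟨v', hv', rfl⟩)
        · change (φ : T0 →+* ℂ) _ = 0
          rw [← Polynomial.coeff_map, hφW, hU.zero H hH, Polynomial.coeff_zero]
        · change (φ : T0 →+* ℂ) _ = 0
          rw [← Polynomial.coeff_map, hφW]
          exact hU.off v' hv'
      exact h1 hc
    have h1 := hIφ _ hsI
    rw [map_mul, map_pow] at h1
    have h2 : φ (aeval (fun i => (Wg i).eval 1) G) = aeval (fun i => (kc U e i).eval 1) G := by
      rw [← eval_aeval Wg 1 G, ← eval_aeval (kc U e) 1 G, ← hφW]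
      exact (eval_one_map (φ : T0 →+* ℂ) _).symm
    have h3 : φ s0 = (aeval (kc U e) Q).coeff m * nco U e v i l := by
      change φ ((aeval Wg Q).coeff m * nco U0 e v i l) = _
      rw [map_mul]
      congr 1
      · rw [← hφW, Polynomial.coeff_map]
        rfl
      · have h4 := nco_map (φ : T0 →+* ℂ) U0 e v i l
        have h5 : (fun j i => (φ : T0 →+* ℂ) (U0 j i)) = U := hφU
        rw [h5] at h4
        exact h4
    rw [h2, h3] at h1
    exact mul_ne_zero hUG (pow_ne_zero N (mul_ne_zero hU.ne hU.nc)) h1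
  obtain ⟨𝔓, hP, hIP, hPS⟩ := Ideal.exists_le_prime_disjoint I S hdisj
  let R := T0 ⧸ 𝔓
  let π : T0 →ₐ[ℂ] R := Ideal.Quotient.mkₐ ℂ 𝔓
  have hπ : ∀ s : T0, π s = 0 ↔ s ∈ 𝔓 := fun s => Ideal.Quotient.eq_zero_iff_mem
  have hπS : ∀ s ∈ S, π s ≠ 0 := by
    intro s hs h0
    exact Set.disjoint_left.1 hPS ((hπ s).1 h0) hs
  let U1 : Fin r → Fin (n + 1) → R := fun j i => π (U0 j i)
  let W1 : Fin (n + 1) → Polynomial R := kc U1 e
  have hW1 : ∀ H : MvPolynomial (Fin (n + 1)) ℂ, (aeval Wg H).map (π : T0 →+* R) = aeval W1 H :=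
    fun H => aeval_map π U0 e H
  have h1p : (1 : MvPolynomial (Fin (n + 1)) ℂ) ∉ p := fun h0 =>
    hprime.ne_top ((Ideal.eq_top_iff_one p).2 h0)
  have hs0 : π s0 ≠ 0 := hπS s0 ⟨1, 1, ⟨0, isHomogeneous_one _ _⟩, h1p, by simp⟩
  have hzero : ∀ H ∈ p, aeval W1 H = 0 := by
    intro H hH
    rw [← hW1]
    ext v'
    rw [Polynomial.coeff_map, Polynomial.coeff_zero]
    exact (hπ _).2 (hIP (Ideal.subset_span (Or.inl ⟨H, hH, v', rfl⟩)))
  have hne : ∀ H : MvPolynomial (Fin (n + 1)) ℂ, IsForm H → H ∉ p → aeval W1 H ≠ 0 := by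
    intro H hH1 hH2 h0
    apply hπS (aeval (fun i => (Wg i).eval 1) H) ⟨H, 0, hH1, hH2, by simp⟩
    have h2 : π (aeval (fun i => (Wg i).eval 1) H) = (aeval W1 H : Polynomial R).eval 1 := by
      rw [← eval_aeval Wg 1 H, ← hW1]
      exact (eval_one_map (π : T0 →+* R) _).symm
    rw [h2, h0, Polynomial.eval_zero]
  have hcm : π ((aeval Wg Q).coeff m) ≠ 0 := by
    intro h0
    apply hs0
    change π ((aeval Wg Q).coeff m * nco U0 e v i l) = 0
    rw [map_mul, h0, zero_mul]
  have hnc : nco U1 e v i l ≠ 0 := by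
    intro h0
    apply hs0
    change π ((aeval Wg Q).coeff m * nco U0 e v i l) = 0
    rw [map_mul]
    have h4 : (π : T0 →+* R) (nco U0 e v i l) = nco U1 e v i l := nco_map (π : T0 →+* R) U0 e v i l
    have h5 : π (nco U0 e v i l) = 0 := by
      rw [← h0, ← h4]
      rfl
    rw [h5, mul_zero]
  have hQ1 : aeval W1 Q = Polynomial.C (π ((aeval Wg Q).coeff m)) * Polynomial.X ^ m := by
    rw [← hW1]
    ext v'
    rw [Polynomial.coeff_map, Polynomial.coeff_C_mul_X_pow]
    by_cases hv' : v' = m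
    · rw [if_pos hv', hv']
      rfl
    · rw [if_neg hv']
      exact (hπ _).2 (hIP (Ideal.subset_span (Or.inr ⟨v', hv', rfl⟩)))
  have hchar : CharZero R := charZero_of_injective_algebraMap (algebraMap ℂ R).injective
  have hflat : Polynomial.derivative (aeval W1 (X i : MvPolynomial (Fin (n + 1)) ℂ)) *
      aeval W1 (X l : MvPolynomial (Fin (n + 1)) ℂ) ≠
      aeval W1 (X i : MvPolynomial (Fin (n + 1)) ℂ) *
        Polynomial.derivative (aeval W1 (X l : MvPolynomial (Fin (n + 1)) ℂ)) := by
    rw [aeval_X, aeval_X]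
    intro h0
    have h1 := flat_imp h0
    apply hnc
    change (W1 i * Polynomial.C ((W1 l).eval 1) - W1 l * Polynomial.C ((W1 i).eval 1)).coeff v = 0
    rw [h1, sub_self, Polynomial.coeff_zero]
  obtain ⟨M, i1, i2, m', hm', W', hW', hQ', hg'⟩ := desc W1 (X l) (X i) Q
    ⟨1, π ((aeval Wg Q).coeff m), m, hcm, by rw [mul_one]; exact hQ1⟩ hflat
  obtain ⟨c', l', hc', hcl'⟩ := hQ'
  refine ⟨M, i1, i2, m', W', l', hm', ⟨fun G hG => ?_, ⟨c', hc', hcl'⟩⟩, ?_, ?_⟩
  · rw [hW']
    constructor
    · intro h0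
      exact hzero G (hmem' G hG h0)
    · intro h0
      by_contra hG0
      refine hne G hG ?_ h0
      intro hGp
      exact hG0 (hmem G hGp)
  · intro hQ1
    rw [hQ1, map_one] at hcl'
    by_contra hl
    have h1 := congrArg (fun p : Polynomial M => Polynomial.coeff p 0) hcl'
    simp only [Polynomial.coeff_one_zero, Polynomial.coeff_C_mul_X_pow, if_neg (Ne.symm hl)] at h1
    exact one_ne_zero h1
  · have hXl : W602.GT.val y (X l : MvPolynomial (Fin (n + 1)) ℂ) ≠ 0 := by
      intro h0
      have h1 : (X l : MvPolynomial (Fin (n + 1)) ℂ) ∈ p := hmem' _ ⟨1, isHomogeneous_X _ _⟩ h0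
      have h2 := hzero _ h1
      apply hflat
      rw [h2, Polynomial.derivative_zero, mul_zero, mul_zero]
    refine ⟨W602.GT.val y (X i : MvPolynomial (Fin (n + 1)) ℂ) /
      W602.GT.val y (X l : MvPolynomial (Fin (n + 1)) ℂ), fun hF => ?_⟩
    exact hg' (hF 1 (X i) (X l) (isHomogeneous_X _ _) (isHomogeneous_X _ _) hXl rfl)

end Pool.Agent.Q33.SP
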