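import Pool.Agent.Q33.SP.Dom

/-!
Families of curves along which a given rational function is not constant.
-/

set_option autoImplicit false

namespace Pool.Agent.Q33.SP

open MvPolynomial FF Pool.Agent.W602.GT Pool.Agent.TH143.GT
open IntermediateField hiding val

variable {n r : ℕ} {ι : Type}

/-- the coefficients which test whether `g1 / g0` is constant along the curve -/
noncomputable def fco {R : Type} [CommRing R] [Algebra ℂ R] (U : Fin r → Fin (n + 1) → R)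
    (e : Fin r → ℕ) (g0 g1 : MvPolynomial (Fin (n + 1)) ℂ) (v : ℕ) : R :=
  (Polynomial.derivative (aeval (kc U e) g1) * aeval (kc U e) g0 -
    aeval (kc U e) g1 * Polynomial.derivative (aeval (kc U e) g0)).coeff v

theorem fco_map {R R' : Type} [CommRing R] [CommRing R'] [Algebra ℂ R] [Algebra ℂ R']
    (φ : R →ₐ[ℂ] R') (U : Fin r → Fin (n + 1) → R) (e : Fin r → ℕ)
    (g0 g1 : MvPolynomial (Fin (n + 1)) ℂ) (v : ℕ) :
    φ (fco U e g0 g1 v) = fco (fun j i => φ (U j i)) e g0 g1 v := by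
  unfold fco
  have h : ∀ P : Polynomial R, φ (P.coeff v) = (P.map (φ : R →+* R')).coeff v := by
    intro P
    rw [Polynomial.coeff_map]
    rfl
  rw [h, Polynomial.map_sub, Polynomial.map_mul, Polynomial.map_mul, ← Polynomial.derivative_map,
    ← Polynomial.derivative_map, aeval_map, aeval_map]

/-- the points of the parameter space -/
structure Hit2 (p : Ideal (MvPolynomial (Fin (n + 1)) ℂ)) (Q : MvPolynomial (Fin (n + 1)) ℂ)
    (g0 g1 : MvPolynomial (Fin (n + 1)) ℂ) (e : Fin r → ℕ) (m v : ℕ)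
    (U : Fin r → Fin (n + 1) → ℂ) : Prop where
  zero : ∀ H ∈ p, aeval (kc U e) H = 0
  off : ∀ v', v' ≠ m → (aeval (kc U e) Q).coeff v' = 0
  ne : (aeval (kc U e) Q).coeff m ≠ 0
  nc : fco U e g0 g1 v ≠ 0

theorem fam_of_hits2 {p : Ideal (MvPolynomial (Fin (n + 1)) ℂ)} [hprime : p.IsPrime]
    {Q : MvPolynomial (Fin (n + 1)) ℂ} {K : Type} [Field K] [Algebra ℂ K]
    {y : Fin (n + 1) → K} (hmem : ∀ H ∈ p, W602.GT.val y H = 0)
    (hmem' : ∀ H : MvPolynomial (Fin (n + 1)) ℂ, IsForm H → W602.GT.val y H = 0 → H ∈ p)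
    {g0 g1 : MvPolynomial (Fin (n + 1)) ℂ} {d : ℕ} (hg0 : g0.IsHomogeneous d)
    (hg1 : g1.IsHomogeneous d) (hy0 : W602.GT.val y g0 ≠ 0)
    (e : Fin r → ℕ) (m v : ℕ)
    (h : ∀ G : MvPolynomial (Fin (n + 1)) ℂ, IsForm G → G ∉ p → ∃ U, Hit2 p Q g0 g1 e m v U ∧
      aeval (fun i => (kc U e i).eval 1) G ≠ 0) :
    ∃ (M : Type) (_ : Field M) (_ : Algebra ℂ M) (m' : ℕ) (W : Fin (n + 1) → Polynomial M)
      (l' : ℕ), Algebra.trdeg ℂ M = m' ∧ Fam y Q W l' ∧ (Q = 1 → l' = 0) ∧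
        ¬ Flat ℂ y W (W602.GT.val y g1 / W602.GT.val y g0) := by
  classical
  let T0 := MvPolynomial (Fin r × Fin (n + 1)) ℂ
  let U0 : Fin r → Fin (n + 1) → T0 := fun j i => X (j, i)
  let Wg : Fin (n + 1) → Polynomial T0 := kc U0 e
  let I : Ideal T0 := Ideal.span ({c | ∃ H ∈ p, ∃ v', c = (aeval Wg H).coeff v'} ∪
    {c | ∃ v', v' ≠ m ∧ c = (aeval Wg Q).coeff v'})
  let s0 : T0 := (aeval Wg Q).coeff m * fco U0 e g0 g1 v
  let S : Submonoid T0 :=
    { carrier := {s | ∃ (G : MvPolynomial (Fin (n + 1)) ℂ) (N : ℕ), IsForm G ∧ G ∉ p ∧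
        s = aeval (fun i => (Wg i).eval 1) G * s0 ^ N}
      mul_mem' := by
        rintro a b ⟨G, N, ⟨d, hd⟩, hG, rfl⟩ ⟨G', N', ⟨d', hd'⟩, hG', rfl⟩
        refine ⟨G * G', N + N', ⟨d + d', hd.mul hd'⟩, ?_, ?_⟩
        · intro h0
          exact (hprime.mem_or_mem h0).elim hG hG'
        · rw [map_mul, pow_add]
          ring
      one_mem' := by
        refine ⟨1, 0, ⟨0, isHomogeneous_one _ _⟩, ?_, by simp⟩
        intro h0
        exact hprime.ne_top ((Ideal.eq_top_iff_one p).2 h0) }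
  have hdisj : Disjoint (I : Set T0) (S : Set T0) := by
    rw [Set.disjoint_left]
    rintro s hsI ⟨G, N, hG1, hG2, rfl⟩
    obtain ⟨U, hU, hUG⟩ := h G hG1 hG2
    let φ : T0 →ₐ[ℂ] ℂ := aeval (fun q : Fin r × Fin (n + 1) => U q.1 q.2)
    have hφU : (fun j i => φ (U0 j i)) = U := by
      funext j i
      exact aeval_X _ _
    have hφW : ∀ H : MvPolynomial (Fin (n + 1)) ℂ, (aeval Wg H).map (φ : T0 →+* ℂ) =
        aeval (kc U e) H := by
      intro H
      rw [aeval_map φ U0 e H, hφU]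
    have hIφ : ∀ c ∈ I, φ c = 0 := by
      intro c hc
      have h1 : I ≤ RingHom.ker (φ : T0 →+* ℂ) := by
        refine Ideal.span_le.2 ?_
        rintro c (⟨H, hH, v', rfl⟩ | ⟨v', hv', rfl⟩)
        · change (φ : T0 →+* ℂ) _ = 0
          rw [← Polynomial.coeff_map, hφW, hU.zero H hH, Polynomial.coeff_zero]
        · change (φ : T0 →+* ℂ) _ = 0
          rw [← Polynomial.coeff_map, hφW]
          exact hU.off v' hv'
      exact h1 hc
    have h1 := hIφ _ hsI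
    rw [map_mul, map_pow] at h1
    have h2 : φ (aeval (fun i => (Wg i).eval 1) G) = aeval (fun i => (kc U e i).eval 1) G := by
      rw [← eval_aeval Wg 1 G, ← eval_aeval (kc U e) 1 G, ← hφW]
      exact (eval_one_map (φ : T0 →+* ℂ) _).symm
    have h3 : φ s0 = (aeval (kc U e) Q).coeff m * fco U e g0 g1 v := by
      change φ ((aeval Wg Q).coeff m * fco U0 e g0 g1 v) = _
      rw [map_mul]
      congr 1
      · rw [← hφW, Polynomial.coeff_map]
        rfl
      · rw [fco_map, hφU]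
    rw [h2, h3] at h1
    exact mul_ne_zero hUG (pow_ne_zero N (mul_ne_zero hU.ne hU.nc)) h1
  obtain ⟨𝔓, hP, hIP, hPS⟩ := Ideal.exists_le_prime_disjoint I S hdisj
  let R := T0 ⧸ 𝔓
  let π : T0 →ₐ[ℂ] R := Ideal.Quotient.mkₐ ℂ 𝔓
  have hπ : ∀ s : T0, π s = 0 ↔ s ∈ 𝔓 := fun s => Ideal.Quotient.eq_zero_iff_mem
  have hπS : ∀ s ∈ S, π s ≠ 0 := by
    intro s hs h0
    exact Set.disjoint_left.1 hPS ((hπ s).1 h0) hs
  let U1 : Fin r → Fin (n + 1) → R := fun j i => π (U0 j i)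
  let W1 : Fin (n + 1) → Polynomial R := kc U1 e
  have hW1 : ∀ H : MvPolynomial (Fin (n + 1)) ℂ, (aeval Wg H).map (π : T0 →+* R) = aeval W1 H :=
    fun H => aeval_map π U0 e H
  have h1p : (1 : MvPolynomial (Fin (n + 1)) ℂ) ∉ p := fun h0 =>
    hprime.ne_top ((Ideal.eq_top_iff_one p).2 h0)
  have hs0 : π s0 ≠ 0 := hπS s0 ⟨1, 1, ⟨0, isHomogeneous_one _ _⟩, h1p, by simp⟩
  have hzero : ∀ H ∈ p, aeval W1 H = 0 := by
    intro H hH
    rw [← hW1]
    ext v'
    rw [Polynomial.coeff_map, Polynomial.coeff_zero]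
    exact (hπ _).2 (hIP (Ideal.subset_span (Or.inl ⟨H, hH, v', rfl⟩)))
  have hne : ∀ H : MvPolynomial (Fin (n + 1)) ℂ, IsForm H → H ∉ p → aeval W1 H ≠ 0 := by
    intro H hH1 hH2 h0
    apply hπS (aeval (fun i => (Wg i).eval 1) H) ⟨H, 0, hH1, hH2, by simp⟩
    have h2 : π (aeval (fun i => (Wg i).eval 1) H) = (aeval W1 H : Polynomial R).eval 1 := by
      rw [← eval_aeval Wg 1 H, ← hW1]
      exact (eval_one_map (π : T0 →+* R) _).symm
    rw [h2, h0, Polynomial.eval_zero]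
  have hcm : π ((aeval Wg Q).coeff m) ≠ 0 := by
    intro h0
    apply hs0
    change π ((aeval Wg Q).coeff m * fco U0 e g0 g1 v) = 0
    rw [map_mul, h0, zero_mul]
  have hnc : fco U1 e g0 g1 v ≠ 0 := by
    intro h0
    apply hs0
    change π ((aeval Wg Q).coeff m * fco U0 e g0 g1 v) = 0
    rw [map_mul, fco_map π U0 e g0 g1 v]
    have h5 : fco (fun j i => π (U0 j i)) e g0 g1 v = 0 := h0
    rw [h5, mul_zero]
  have hQ1 : aeval W1 Q = Polynomial.C (π ((aeval Wg Q).coeff m)) * Polynomial.X ^ m := by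
    rw [← hW1]
    ext v'
    rw [Polynomial.coeff_map, Polynomial.coeff_C_mul_X_pow]
    by_cases hv' : v' = m
    · rw [if_pos hv', hv']
      rfl
    · rw [if_neg hv']
      exact (hπ _).2 (hIP (Ideal.subset_span (Or.inr ⟨v', hv', rfl⟩)))
  have hflat : Polynomial.derivative (aeval W1 g1) * aeval W1 g0 ≠
      aeval W1 g1 * Polynomial.derivative (aeval W1 g0) := by
    intro h0
    apply hnc
    change (Polynomial.derivative (aeval W1 g1) * aeval W1 g0 -
      aeval W1 g1 * Polynomial.derivative (aeval W1 g0)).coeff v = 0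
    rw [h0, sub_self, Polynomial.coeff_zero]
  obtain ⟨M, i1, i2, m', hm', W', hW', hQ', hg'⟩ := desc W1 g0 g1 Q
    ⟨1, π ((aeval Wg Q).coeff m), m, hcm, by rw [mul_one]; exact hQ1⟩ hflat
  obtain ⟨c', l', hc', hcl'⟩ := hQ'
  refine ⟨M, i1, i2, m', W', l', hm', ⟨fun G hG => ?_, ⟨c', hc', hcl'⟩⟩, ?_, ?_⟩
  · rw [hW']
    constructor
    · intro h0
      exact hzero G (hmem' G hG h0)
    · intro h0
      by_contra hG0
      refine hne G hG ?_ h0
      intro hGp
      exact hG0 (hmem G hGp)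
  · intro hQ1
    rw [hQ1, map_one] at hcl'
    by_contra hl
    have h1 := congrArg (fun p : Polynomial M => Polynomial.coeff p 0) hcl'
    simp only [Polynomial.coeff_one_zero, Polynomial.coeff_C_mul_X_pow, if_neg (Ne.symm hl)] at h1
    exact one_ne_zero h1
  · intro hF
    exact hg' (hF d g1 g0 hg1 hg0 hy0 rfl)

/-- **The exceptional set for a rational function, or a family along which it is not constant.** -/
theorem excep2 {p : Ideal (MvPolynomial (Fin (n + 1)) ℂ)} [p.IsPrime]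
    {Q : MvPolynomial (Fin (n + 1)) ℂ} {q : ℕ} (hQ : Q.IsHomogeneous q)
    {F : ι → MvPolynomial (Fin (n + 1)) ℂ}
    (hcut : ∀ x : Fin (n + 1) → ℂ, (∀ i, eval x (F i) = 0) → eval x Q ≠ 0 → ∀ H ∈ p, eval x H = 0)
    {K : Type} [Field K] [Algebra ℂ K] {y : Fin (n + 1) → K}
    (hmem : ∀ H ∈ p, W602.GT.val y H = 0)
    (hmem' : ∀ H : MvPolynomial (Fin (n + 1)) ℂ, IsForm H → W602.GT.val y H = 0 → H ∈ p)
    {g0 g1 : MvPolynomial (Fin (n + 1)) ℂ} {d : ℕ} (hg0 : g0.IsHomogeneous d)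
    (hg1 : g1.IsHomogeneous d) (hy0 : W602.GT.val y g0 ≠ 0) (E : Finset (Fin r → ℕ)) :
    (∃ G : MvPolynomial (Fin (n + 1)) ℂ, IsForm G ∧ G ∉ p ∧ ∀ e ∈ E, ∀ U : Fin r → Fin (n + 1) → ℂ,
      (∀ i, aeval (kc U e) (F i) = 0) →
      (∃ (c : ℂ) (m : ℕ), c ≠ 0 ∧ aeval (kc U e) Q = Polynomial.C c * Polynomial.X ^ m) →
      (∃ v, fco U e g0 g1 v ≠ 0) → aeval (fun i => (kc U e i).eval 1) G = 0) ∨
    ∃ (M : Type) (_ : Field M) (_ : Algebra ℂ M) (m' : ℕ) (W : Fin (n + 1) → Polynomial M)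
      (l' : ℕ), Algebra.trdeg ℂ M = m' ∧ Fam y Q W l' ∧ (Q = 1 → l' = 0) ∧
        ¬ Flat ℂ y W (W602.GT.val y g1 / W602.GT.val y g0) := by
  classical
  by_cases hex : ∃ e ∈ E, ∃ m v, ∀ G : MvPolynomial (Fin (n + 1)) ℂ, IsForm G → G ∉ p →
      ∃ U, Hit2 p Q g0 g1 e m v U ∧ aeval (fun i => (kc U e i).eval 1) G ≠ 0
  · obtain ⟨e, -, m, v, h⟩ := hex
    exact Or.inr (fam_of_hits2 hmem hmem' hg0 hg1 hy0 e m v h)
  refine Or.inl ?_
  push Not at hex
  have hG : ∀ (z : (Fin r → ℕ) × ℕ × ℕ),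
      ∃ G : MvPolynomial (Fin (n + 1)) ℂ, z.1 ∈ E → (IsForm G ∧ G ∉ p ∧
        ∀ U, Hit2 p Q g0 g1 z.1 z.2.1 z.2.2 U → aeval (fun i => (kc U z.1 i).eval 1) G = 0) := by
    intro z
    by_cases hz : z.1 ∈ E
    · obtain ⟨G, h1, h2, h3⟩ := hex z.1 hz z.2.1 z.2.2
      exact ⟨G, fun _ => ⟨h1, h2, h3⟩⟩
    · exact ⟨0, fun h => absurd h hz⟩
  choose G hG using hG
  let B : ℕ := (∑ e ∈ E, (q + 2 * d) * ∑ j, e j) + 1
  let s : Finset ((Fin r → ℕ) × ℕ × ℕ) := E ×ˢ (Finset.range B ×ˢ Finset.range B)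
  obtain ⟨⟨d', hd'⟩, hs⟩ := prod_form (p := p) s G fun z hz => by
    have hzE : z.1 ∈ E := (Finset.mem_product.1 hz).1
    exact ⟨(hG z hzE).1, (hG z hzE).2.1⟩
  refine ⟨∏ z ∈ s, G z, ⟨d', hd'⟩, hs, fun e he U hzero hoff hnc => ?_⟩
  obtain ⟨c, m, hc, hcm⟩ := hoff
  obtain ⟨v, hv⟩ := hnc
  have hon : ∀ t : ℂ, t ≠ 0 → (∀ i, eval (fun j => (kc U e j).eval t) (F i) = 0) ∧
      eval (fun j => (kc U e j).eval t) Q ≠ 0 := by
    intro t ht
    constructor
    · intro i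
      have h1 := eval_aeval (kc U e) t (F i)
      rw [hzero i, Polynomial.eval_zero] at h1
      exact h1.symm
    · have h1 := eval_aeval (kc U e) t Q
      rw [hcm, Polynomial.eval_mul, Polynomial.eval_C, Polynomial.eval_pow,
        Polynomial.eval_X] at h1
      intro h0
      have h2 : aeval (fun j => (kc U e j).eval t) Q = 0 := h0
      rw [h2] at h1
      exact mul_ne_zero hc (pow_ne_zero m ht) h1
  have hit : Hit2 p Q g0 g1 e m v U := by
    refine ⟨fun H hH => ?_, fun v' hv' => ?_, ?_, hv⟩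
    · apply poly_zero_of_ne
      intro t ht
      rw [eval_aeval (kc U e) t H]
      exact hcut _ (hon t ht).1 (hon t ht).2 H hH
    · rw [hcm, Polynomial.coeff_C_mul_X_pow, if_neg hv']
    · rw [hcm, Polynomial.coeff_C_mul_X_pow, if_pos rfl]
      exact hc
  have hBe : (q + 2 * d) * ∑ j, e j < B := by
    have h2 : (q + 2 * d) * ∑ j, e j ≤ ∑ e ∈ E, (q + 2 * d) * ∑ j, e j :=
      Finset.single_le_sum (f := fun e : Fin r → ℕ => (q + 2 * d) * ∑ j, e j)
        (fun _ _ => Nat.zero_le _) he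
    omega
  have hdeg : ∀ (g : MvPolynomial (Fin (n + 1)) ℂ) (t : ℕ), g.IsHomogeneous t →
      (aeval (kc U e) g).natDegree ≤ t * ∑ j, e j := fun g t hg =>
    MvPolynomial.aeval_natDegree_le g hg.totalDegree_le _ fun i => kc_deg U e i
  have hm : m < B := by
    refine lt_of_le_of_lt ?_ hBe
    have h2 : m ≤ (aeval (kc U e) Q).natDegree := Polynomial.le_natDegree_of_ne_zero hit.ne
    exact h2.trans ((hdeg Q q hQ).trans (Nat.mul_le_mul_right _ (Nat.le_add_right _ _)))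
  have hv' : v < B := by
    refine lt_of_le_of_lt ?_ hBe
    have h2 := Polynomial.le_natDegree_of_ne_zero hit.nc
    have h3 : (Polynomial.derivative (aeval (kc U e) g1) * aeval (kc U e) g0 -
        aeval (kc U e) g1 * Polynomial.derivative (aeval (kc U e) g0)).natDegree ≤
          2 * d * ∑ j, e j := by
      have h4 : ∀ P P' : Polynomial ℂ, P.natDegree ≤ d * ∑ j, e j → P'.natDegree ≤ d * ∑ j, e j →
          (P * P').natDegree ≤ 2 * d * ∑ j, e j := by
        intro P P' h5 h6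
        refine Polynomial.natDegree_mul_le.trans ?_
        calc P.natDegree + P'.natDegree ≤ d * ∑ j, e j + d * ∑ j, e j := Nat.add_le_add h5 h6
          _ = _ := by ring
      refine (Polynomial.natDegree_sub_le _ _).trans (max_le (h4 _ _ ?_ (hdeg g0 d hg0))
        (h4 _ _ (hdeg g1 d hg1) ?_))
      · exact (Polynomial.natDegree_derivative_le _).trans ((Nat.sub_le _ _).trans (hdeg g1 d hg1))
      · exact (Polynomial.natDegree_derivative_le _).trans ((Nat.sub_le _ _).trans (hdeg g0 d hg0))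
    exact h2.trans (h3.trans (Nat.mul_le_mul_right _ (Nat.le_add_left _ _)))
  have hz : (e, m, v) ∈ s := by
    simp only [s, Finset.mem_product, Finset.mem_range]
    exact ⟨he, hm, hv'⟩
  have h2 := (hG (e, m, v) he).2.2 U hit
  rw [map_prod, Finset.prod_eq_zero hz h2]

end Pool.Agent.Q33.SP
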