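import Pool.Agent.Q33.SP.Core

/-!
Nonconstancy of the curves.
-/

set_option autoImplicit false

namespace Pool.Agent.Q33.SP

open Filter Topology Pool.Agent.W603.BP MvPolynomial

variable {n r : ℕ}

theorem mrel_refl (e : ℂ → ℂ) : MRel e e :=
  ⟨fun _ => 1, MeromorphicAt.const 1 0, Eventually.of_forall fun _ => (one_mul _).symm⟩

theorem mrel_mul {e e' f f' : ℂ → ℂ} (h : MRel e e') (h' : MRel f f') :
    MRel (fun w => e w * f w) (fun w => e' w * f' w) := by
  obtain ⟨ρ, h1, h2⟩ := h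
  obtain ⟨σ, h3, h4⟩ := h'
  refine ⟨fun w => ρ w * σ w, h1.fun_mul h3, ?_⟩
  filter_upwards [h2, h4] with w a b
  rw [a, b]
  ring

theorem mrel_trans {e f g : ℂ → ℂ} (h : MRel e f) (h' : MRel f g) : MRel e g := by
  obtain ⟨ρ, h1, h2⟩ := h
  obtain ⟨σ, h3, h4⟩ := h'
  refine ⟨fun w => ρ w * σ w, h1.fun_mul h3, ?_⟩
  filter_upwards [h2, h4] with w a b
  rw [a, b]
  ring

variable {k : Fin r → ℂ → ℂ} {M D : ℕ}

theorem closure_rel (hk : ∀ j, Pun (k j)) (hz : ∀ j, Nz (k j)) {v : Fin r → ℤ}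
    (hv : v ∈ AddSubgroup.closure (rels D M k : Set (Fin r → ℤ))) :
    ∃ a b : Fin r → ℕ, (∀ j, v j = (a j : ℤ) - b j) ∧
      MRel (fun w => mon k a w ^ M) (fun w => mon k b w ^ M) := by
  classical
  induction hv using AddSubgroup.closure_induction with
  | mem x hx =>
    have h1 : x ∈ rels D M k := hx
    unfold rels at h1
    exact (Finset.mem_filter.1 h1).2
  | zero => exact ⟨0, 0, fun j => by simp, mrel_refl _⟩
  | add x y _ _ hx hy =>
    obtain ⟨a, b, h1, h2⟩ := hx
    obtain ⟨a', b', h3, h4⟩ := hy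
    refine ⟨a + a', b + b', fun j => ?_, ?_⟩
    · rw [Pi.add_apply, h1, h3, Pi.add_apply, Pi.add_apply]
      push_cast
      ring
    · have h5 := mrel_mul h2 h4
      have e1 : ∀ c c' : Fin r → ℕ, (fun w => mon k c w ^ M * mon k c' w ^ M) =
          fun w => mon k (c + c') w ^ M := by
        intro c c'
        funext w
        rw [mon_add, mul_pow]
      rw [e1, e1] at h5
      exact h5
  | neg x _ hx =>
    obtain ⟨a, b, h1, h2⟩ := hx
    refine ⟨b, a, fun j => ?_, h2.symm ((nz_mon hk hz a).pow M)⟩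
    rw [Pi.neg_apply, h1]
    ring

/-- terms with the same exponent are comparable -/
theorem color_rel (hk : ∀ j, Pun (k j)) (hz : ∀ j, Nz (k j)) {j l : Fin r}
    (h : ex D M k j = ex D M k l) : MRel (fun w => k j w ^ M) (fun w => k l w ^ M) := by
  classical
  by_cases hjl : j = l
  · rw [hjl]
    exact mrel_refl _
  obtain ⟨N, hN, hcl⟩ := (gen_spec _ (rels_sum D M k)).2 j l h
  obtain ⟨a, b, h1, h2⟩ := closure_rel hk hz hcl
  let c : Fin r → ℕ := fun i => min (a i) (b i)
  have hdif : ∀ i, (N • dif j l) i = (if i = j then (N : ℤ) else 0) - if i = l then (N : ℤ) else 0 := by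
    intro i
    rw [Pi.smul_apply]
    unfold dif
    rw [nsmul_eq_mul, mul_sub]
    congr 1
    · split_ifs <;> simp
    · split_ifs <;> simp
  have ha : a = c + Pi.single j N := by
    funext i
    have h3 := h1 i
    rw [hdif] at h3
    rw [Pi.add_apply]
    change a i = min (a i) (b i) + _
    by_cases hij : i = j
    · subst hij
      rw [if_pos rfl, if_neg hjl] at h3
      rw [Pi.single_eq_same]
      omega
    · rw [Pi.single_eq_of_ne hij]
      rw [if_neg hij] at h3
      split_ifs at h3 <;> omega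
  have hb : b = c + Pi.single l N := by
    funext i
    have h3 := h1 i
    rw [hdif] at h3
    rw [Pi.add_apply]
    change b i = min (a i) (b i) + _
    by_cases hil : i = l
    · subst hil
      rw [if_pos rfl, if_neg (Ne.symm hjl)] at h3
      rw [Pi.single_eq_same]
      omega
    · rw [Pi.single_eq_of_ne hil]
      rw [if_neg hil] at h3
      split_ifs at h3 <;> omega
  have hs : ∀ (i : Fin r) (w : ℂ), mon k (Pi.single i N) w = k i w ^ N := by
    intro i w
    unfold mon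
    rw [Finset.prod_eq_single i]
    · rw [Pi.single_eq_same]
    · intro i' _ hne
      rw [Pi.single_eq_of_ne hne, pow_zero]
    · intro hni
      exact absurd (Finset.mem_univ i) hni
  obtain ⟨ρ, hρ, hρe⟩ := h2
  have h3 : ∀ᶠ w in 𝓝[≠] (0 : ℂ),
      mon k c w ^ M * ((k j w ^ M) ^ N - ρ w * (k l w ^ M) ^ N) = 0 := by
    filter_upwards [hρe] with w hw
    rw [ha, hb, mon_add, mon_add, hs, hs, mul_pow, mul_pow, ← pow_mul, ← pow_mul] at hw
    rw [← pow_mul, ← pow_mul, mul_comm M N]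
    linear_combination hw
  have hkM : ∀ i, Pun (fun w => k i w ^ M) := fun i => (hk i).pow M
  have hPun : Pun (fun w => (k j w ^ M) ^ N - ρ w * (k l w ^ M) ^ N) := by
    filter_upwards [(hkM j).pow N, (Pun.mero hρ).mul ((hkM l).pow N)] with w a1 a2
    exact a1.fun_sub a2
  have h4 := (pun_mul_zero ((pun_mon hk c).pow M) hPun h3).resolve_left
    ((nz_mon hk hz c).pow M)
  have h5 : MRel (fun w => (k j w ^ M) ^ N) (fun w => (k l w ^ M) ^ N) := by
    refine ⟨ρ, hρ, ?_⟩
    filter_upwards [h4] with w hw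
    linear_combination hw
  exact growth_mero (hkM j) (hkM l) ((hz l).pow M) (gr_of_pow hN h5.gr)

/-- the coefficients of the curve -/
def wc (V : Fin r → Fin (n + 1) → ℂ → ℂ) (k : Fin r → ℂ → ℂ) (M : ℕ) (e : Fin r → ℕ) (c : ℕ)
    (i : Fin (n + 1)) (w : ℂ) : ℂ :=
  ∑ j ∈ Finset.univ.filter (fun j => e j = c), V j i w * k j w ^ M

theorem cur_coeff (V : Fin r → Fin (n + 1) → ℂ → ℂ) (e : Fin r → ℕ) (c : ℕ)
    (i : Fin (n + 1)) (w : ℂ) :
    (cur (fun j i => V j i w * k j w ^ M) e i).coeff c = wc V k M e c i w := by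
  unfold cur wc
  exact coeff_sum_pow Finset.univ (fun j => V j i w * k j w ^ M) e c

theorem sum_wc (V : Fin r → Fin (n + 1) → ℂ → ℂ) (e : Fin r → ℕ) (i : Fin (n + 1)) (w : ℂ) :
    ∑ j, V j i w * k j w ^ M = ∑ c ∈ Finset.univ.image e, wc V k M e c i w := by
  classical
  unfold wc
  exact (Finset.sum_fiberwise_of_maps_to (fun j _ => Finset.mem_image_of_mem e (Finset.mem_univ j))
    _).symm

theorem pun_wc {V : Fin r → Fin (n + 1) → ℂ → ℂ} (hV : ∀ j i, MeromorphicAt (V j i) 0)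
    (hk : ∀ j, Pun (k j)) (e : Fin r → ℕ) (c : ℕ) (i : Fin (n + 1)) : Pun (wc V k M e c i) :=
  Pun.sum _ fun j _ => (Pun.mero (hV j i)).mul ((hk j).pow M)

/-- **If all curves are constant then the given curve is not essential.** -/
theorem mrel_of_const {V : Fin r → Fin (n + 1) → ℂ → ℂ} (hV : ∀ j i, MeromorphicAt (V j i) 0)
    (hk : ∀ j, Pun (k j)) (hz : ∀ j, Nz (k j))
    (h : ∀ c i l, ∀ᶠ w in 𝓝[≠] (0 : ℂ), wc V k M (ex D M k) c i w * (∑ j, V j l w * k j w ^ M) =
      wc V k M (ex D M k) c l w * (∑ j, V j i w * k j w ^ M))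
    {i l : Fin (n + 1)} (hl : Nz (fun w => ∑ j, V j l w * k j w ^ M)) :
    MRel (fun w => ∑ j, V j i w * k j w ^ M) (fun w => ∑ j, V j l w * k j w ^ M) := by
  classical
  set e := ex D M k with he
  by_cases hall : ∀ c ∈ Finset.univ.image e, ∀ a, ∀ᶠ w in 𝓝[≠] (0 : ℂ), wc V k M e c a w = 0
  · exfalso
    apply hl
    have h1 : ∀ᶠ w in 𝓝[≠] (0 : ℂ), ∀ c ∈ Finset.univ.image e, wc V k M e c l w = 0 :=
      (Filter.eventually_all_finset _).2 fun c hc => hall c hc l
    filter_upwards [h1] with w hw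
    rw [sum_wc V e l w]
    exact Finset.sum_eq_zero hw
  push Not at hall
  obtain ⟨c, hc, a, ha⟩ := hall
  have ha' : Nz (wc V k M e c a) := fun h0 => ha (h0.mono fun w hw => not_not.2 hw)
  obtain ⟨j0, -, hj0⟩ := Finset.mem_image.1 hc
  have hrel : ∀ j, ∃ ρ : ℂ → ℂ, MeromorphicAt ρ 0 ∧ (e j = c → ∀ᶠ w in 𝓝[≠] (0 : ℂ),
      k j w ^ M = ρ w * k j0 w ^ M) := by
    intro j
    by_cases hj : e j = c
    · obtain ⟨ρ, h1, h2⟩ := color_rel (D := D) (M := M) hk hz (j := j) (l := j0) (by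
        rw [← he, hj, hj0])
      exact ⟨ρ, h1, fun _ => h2⟩
    · exact ⟨fun _ => 0, MeromorphicAt.const 0 0, fun h => absurd h hj⟩
  choose ρ hρ hρe using hrel
  let Y : Fin (n + 1) → ℂ → ℂ := fun b w => ∑ j ∈ Finset.univ.filter (fun j => e j = c),
    V j b w * ρ j w
  have hY : ∀ b, MeromorphicAt (Y b) 0 := fun b =>
    MeromorphicAt.fun_sum fun j _ => (hV j b).fun_mul (hρ j)
  have hWY : ∀ b, ∀ᶠ w in 𝓝[≠] (0 : ℂ), wc V k M e c b w = Y b w * k j0 w ^ M := by
    intro b
    have h1 : ∀ᶠ w in 𝓝[≠] (0 : ℂ), ∀ j ∈ Finset.univ.filter (fun j => e j = c),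
        k j w ^ M = ρ j w * k j0 w ^ M :=
      (Filter.eventually_all_finset _).2 fun j hj => hρe j (Finset.mem_filter.1 hj).2
    filter_upwards [h1] with w hw
    unfold wc
    change _ = (∑ j ∈ Finset.univ.filter (fun j => e j = c), V j b w * ρ j w) * _
    rw [Finset.sum_mul]
    refine Finset.sum_congr rfl fun j hj => ?_
    rw [hw j hj]
    ring
  have hk0 : Pun (fun w => k j0 w ^ M) := (hk j0).pow M
  have hk0n : Nz (fun w => k j0 w ^ M) := (hz j0).pow M
  have hYa : Nz (Y a) := by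
    intro h0
    apply ha'
    filter_upwards [h0, hWY a] with w h1 h2
    rw [h2, h1, zero_mul]
  let f : Fin (n + 1) → ℂ → ℂ := fun b w => ∑ j, V j b w * k j w ^ M
  have hfP : ∀ b, Pun (f b) := fun b =>
    Pun.sum _ fun j _ => (Pun.mero (hV j b)).mul ((hk j).pow M)
  have hfY : ∀ b, ∀ᶠ w in 𝓝[≠] (0 : ℂ), Y b w * f a w = Y a w * f b w := by
    intro b
    have h1 : ∀ᶠ w in 𝓝[≠] (0 : ℂ), k j0 w ^ M * (Y b w * f a w - Y a w * f b w) = 0 := by
      filter_upwards [h c b a, hWY b, hWY a] with w h1 h2 h3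
      rw [h2, h3] at h1
      change _ * f a w = _ * f b w at h1
      linear_combination h1
    have h2 : Pun (fun w => Y b w * f a w - Y a w * f b w) := by
      filter_upwards [(Pun.mero (hY b)).mul (hfP a), (Pun.mero (hY a)).mul (hfP b)] with w a1 a2
      exact a1.fun_sub a2
    filter_upwards [(pun_mul_zero hk0 h2 h1).resolve_left hk0n] with w hw
    linear_combination hw
  have hYl : Nz (Y l) := by
    intro h0
    have h1 : ∀ᶠ w in 𝓝[≠] (0 : ℂ), Y a w * f l w = 0 := by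
      filter_upwards [h0, hfY l] with w h1 h2
      rw [← h2, h1, zero_mul]
    exact (pun_mul_zero (Pun.mero (hY a)) (hfP l) h1).elim hYa hl
  refine ⟨fun w => Y i w / Y l w, (hY i).fun_div (hY l), ?_⟩
  filter_upwards [hfY i, hfY l, mero_ne (hY l) hYl, mero_ne (hY a) hYa] with w h1 h2 h3 h4
  change f i w = Y i w / Y l w * f l w
  have h5 : f i w * Y a w = Y i w * f a w := by linear_combination -h1
  have h6 : f l w * Y a w = Y l w * f a w := by linear_combination -h2
  apply mul_right_cancel₀ h4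
  rw [h5, mul_assoc, h6]
  field_simp

end Pool.Agent.Q33.SP
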