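import Pool.Agent.Q33.SP.Lat2
import Pool.Agent.Q33.SP.NC

/-!
Splitting of the equations for more general exponent vectors.
-/

set_option autoImplicit false

namespace Pool.Agent.Q33.SP

open Filter Topology Pool.Agent.W603.BP MvPolynomial

variable {n r : ℕ}

/-- comparable monomials have the same weight -/
def Col (D M : ℕ) (k : Fin r → ℂ → ℂ) (e : Fin r → ℕ) : Prop :=
  ∀ a b : Fin r →₀ ℕ, ∑ j, a j = ∑ j, b j → ∑ j, a j ≤ D →
    MRel (fun w => mon k a w ^ M) (fun w => mon k b w ^ M) →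
    ∑ j, a j * e j = ∑ j, b j * e j

/-- monomials with the same weight are comparable -/
def Cmp (D M : ℕ) (k : Fin r → ℂ → ℂ) (e : Fin r → ℕ) : Prop :=
  ∀ a b : Fin r →₀ ℕ, ∑ j, a j = ∑ j, b j → ∑ j, a j ≤ D →
    ∑ j, a j * e j = ∑ j, b j * e j → MRel (fun w => mon k a w ^ M) (fun w => mon k b w ^ M)

theorem Col.mono {D D' M : ℕ} (h : D ≤ D') {k : Fin r → ℂ → ℂ} {e : Fin r → ℕ}
    (hc : Col D' M k e) : Col D M k e := fun a b h1 h2 h3 => hc a b h1 (h2.trans h) h3

theorem Cmp.mono {D D' M : ℕ} (h : D ≤ D') {k : Fin r → ℂ → ℂ} {e : Fin r → ℕ}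
    (hc : Cmp D' M k e) : Cmp D M k e := fun a b h1 h2 h3 => hc a b h1 (h2.trans h) h3

theorem ex2_col (D M : ℕ) (k : Fin r → ℂ → ℂ) : Col D M k (ex2 D M k) := by
  classical
  intro a b h ha hM
  have h1 : (fun j => (a j : ℤ) - b j) ∈ rels D M k := by
    unfold rels
    exact Finset.mem_filter.2 ⟨mem_diffs h ha, a, b, fun j => rfl, hM⟩
  have h2 := (gen2_spec D _ (rels_sum D M k)).1 _ h1
  have h3 : ∑ j, ((a j : ℤ) * ex2 D M k j) = ∑ j, ((b j : ℤ) * ex2 D M k j) := by
    rw [← sub_eq_zero, ← Finset.sum_sub_distrib, ← h2]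
    refine Finset.sum_congr rfl fun j _ => ?_
    unfold ex2
    ring
  exact_mod_cast h3

theorem ex2_cmp (D M : ℕ) {k : Fin r → ℂ → ℂ} (hk : ∀ j, Pun (k j)) (hz : ∀ j, Nz (k j)) :
    Cmp D M k (ex2 D M k) := by
  classical
  intro a b h ha hw
  have h1 : (fun j => (a j : ℤ) - b j) ∈ diffs r D := mem_diffs h ha
  have h2 : ∑ j, ((a j : ℤ) - b j) * (gen2 D (rels D M k) j : ℤ) = 0 := by
    have h3 : ∑ j, ((a j : ℤ) * ex2 D M k j) = ∑ j, ((b j : ℤ) * ex2 D M k j) := by
      exact_mod_cast hw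
    rw [← sub_eq_zero, ← Finset.sum_sub_distrib] at h3
    rw [← h3]
    refine Finset.sum_congr rfl fun j _ => ?_
    unfold ex2
    ring
  obtain ⟨N, hN, hcl⟩ := (gen2_spec D _ (rels_sum D M k)).2 _ h1 h2
  obtain ⟨a', b', h3, h4⟩ := closure_rel hk hz hcl
  -- `N (a - b) = a' - b'`
  have h5 : ∀ j, N * a j + b' j = N * b j + a' j := by
    intro j
    have h6 := h3 j
    rw [Pi.smul_apply, nsmul_eq_mul] at h6
    have h7 : (N : ℤ) * (a j - b j) = a' j - b' j := h6
    have h8 : (N : ℤ) * a j + b' j = N * b j + a' j := by linarith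
    exact_mod_cast h8
  obtain ⟨ρ, hρ, hρe⟩ := h4
  have hkM : ∀ c : Fin r → ℕ, Pun (fun w => mon k c w ^ M) := fun c => (pun_mon hk c).pow M
  have hnM : ∀ c : Fin r → ℕ, Nz (fun w => mon k c w ^ M) := fun c => (nz_mon hk hz c).pow M
  have hpow : ∀ (c : Fin r → ℕ) (w : ℂ), mon k (fun j => N * c j) w = mon k c w ^ N := by
    intro c w
    unfold mon
    rw [← Finset.prod_pow]
    refine Finset.prod_congr rfl fun j _ => ?_
    rw [← pow_mul, mul_comm]
  have h6 : ∀ w, (mon k a w ^ M) ^ N * mon k b' w ^ M = (mon k b w ^ M) ^ N * mon k a' w ^ M := by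
    intro w
    have h7 : mon k ((fun j => N * a j) + b') w = mon k ((fun j => N * b j) + a') w := by
      congr 1
      funext j
      exact h5 j
    rw [mon_add, mon_add, hpow, hpow] at h7
    calc (mon k a w ^ M) ^ N * mon k b' w ^ M = (mon k a w ^ N * mon k b' w) ^ M := by
          rw [mul_pow, ← pow_mul, ← pow_mul, mul_comm M N]
      _ = (mon k b w ^ N * mon k a' w) ^ M := by rw [h7]
      _ = _ := by rw [mul_pow, ← pow_mul, ← pow_mul, mul_comm M N]
  have h7 : ∀ᶠ w in 𝓝[≠] (0 : ℂ),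
      mon k b' w ^ M * ((mon k a w ^ M) ^ N - ρ w * (mon k b w ^ M) ^ N) = 0 := by
    filter_upwards [hρe] with w hw
    have h8 := h6 w
    rw [hw] at h8
    linear_combination h8
  have hPun : Pun (fun w => (mon k a w ^ M) ^ N - ρ w * (mon k b w ^ M) ^ N) := by
    filter_upwards [(hkM a).pow N, (Pun.mero hρ).mul ((hkM b).pow N)] with w a1 a2
    exact a1.fun_sub a2
  have h8 := (pun_mul_zero (hkM b') hPun h7).resolve_left (hnM b')
  have h9 : MRel (fun w => (mon k a w ^ M) ^ N) (fun w => (mon k b w ^ M) ^ N) := by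
    refine ⟨ρ, hρ, ?_⟩
    filter_upwards [h8] with w hw
    linear_combination hw
  exact growth_mero (hkM a) (hkM b) (hnM b) (gr_of_pow hN h9.gr)

section germ

variable {V : Fin r → Fin (n + 1) → ℂ → ℂ} {k : Fin r → ℂ → ℂ} {M D d : ℕ}

/-- **Splitting of an equation.** -/
theorem split_zero2 {e₀ : Fin r → ℕ}
    (he₀ : Col D M k e₀) (hV : ∀ j i, MeromorphicAt (V j i) 0) (hk : ∀ j, Pun (k j)) (hM : 0 < M)
    {G : MvPolynomial (Fin (n + 1)) ℂ} (hG : G.IsHomogeneous d) (hd : d ≤ D)
    (hdM : ((gs r G).support.card - 1) ^ 2 ≤ M)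
    (h0 : ∀ᶠ w in 𝓝[≠] (0 : ℂ), eval (fun i => ∑ j, V j i w * k j w ^ M) G = 0) :
    ∀ᶠ w in 𝓝[≠] (0 : ℂ), aeval (cur (fun j i => V j i w * k j w ^ M) e₀) G = 0 := by
  classical
  set A := (gs r G).support with hA
  let e : (Fin r →₀ ℕ) → ℂ → ℂ := fun a w => if a ∈ A then mon k a w ^ M else 0
  have heA : ∀ a, a ∈ A → e a = fun w => mon k a w ^ M := by
    intro a ha
    funext w
    exact if_pos ha
  have henA : ∀ a, a ∉ A → e a = fun _ => 0 := by
    intro a ha
    funext w
    exact if_neg ha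
  let col : (Fin r →₀ ℕ) → ℕ := fun a => ∑ j, a j * e₀ j
  let ρ : (Fin r →₀ ℕ) → ℂ → ℂ := fun a w =>
    aeval (fun p : Fin r × Fin (n + 1) => V p.1 p.2 w) ((gs r G).coeff a)
  have hcs := color_sums hM e (fun a => by
      by_cases ha : a ∈ A
      · rw [heA a ha]
        exact (pun_mon hk a).pow M
      · rw [henA a ha]
        exact Pun.const 0) (fun a => by
      by_cases ha : a ∈ A
      · rw [heA a ha]
        exact root_mon hk hM a
      · rw [henA a ha]
        exact ⟨fun _ => 0, Pun.const 0, Eventually.of_forall fun _ => zero_pow hM.ne'⟩) col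
    (fun a b ha hb hab => by
      have h1 : a ∈ A := by
        by_contra hcon
        rw [henA a hcon] at ha
        exact ha (Eventually.of_forall fun _ => rfl)
      have h2 : b ∈ A := by
        by_contra hcon
        rw [henA b hcon] at hb
        exact hb (Eventually.of_forall fun _ => rfl)
      rw [heA a h1, heA b h2] at hab
      rw [heA b h2] at hb
      refine he₀ _ _ ?_ ?_ (growth_mero ((pun_mon hk a).pow M) ((pun_mon hk b).pow M) hb hab)
      · rw [gs_degree hG h1, gs_degree hG h2]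
      · rw [gs_degree hG h1]
        exact hd)
    A hdM ρ (fun a => mero_aeval _ fun p => hV p.1 p.2) (by
      filter_upwards [h0] with w hw
      rw [pt_expand] at hw
      rw [← hw]
      refine Finset.sum_congr rfl fun a ha => ?_
      rw [heA a ha])
  have hall : ∀ᶠ w in 𝓝[≠] (0 : ℂ), ∀ v ∈ A.image col,
      ∑ a ∈ A.filter (fun a => col a = v), ρ a w * e a w = 0 :=
    (Filter.eventually_all_finset _).2 fun v _ => hcs v
  filter_upwards [hall] with w hw
  rw [cur_expand]
  ext v
  rw [Polynomial.coeff_zero, coeff_sum_pow A _ col v]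
  by_cases hv : v ∈ A.image col
  · rw [← hw v hv]
    refine Finset.sum_congr rfl fun a ha => ?_
    rw [heA a (Finset.mem_filter.1 ha).1, prod_pow_M]
  · rw [Finset.filter_eq_empty_iff.2]
    · rfl
    · intro a ha hcol
      exact hv (Finset.mem_image.2 ⟨a, ha, hcol⟩)

/-- **Splitting of a nonvanishing form.** -/
theorem split_unit2 {e₀ : Fin r → ℕ}
    (he₀ : Col D M k e₀) (hV : ∀ j i, MeromorphicAt (V j i) 0) (hk : ∀ j, Pun (k j)) (hM : 0 < M)
    {G : MvPolynomial (Fin (n + 1)) ℂ} (hG : G.IsHomogeneous d) (hd : d ≤ D)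
    (hdM : ((gs r G).support.card) ^ 2 ≤ M)
    (h0 : ∀ᶠ w in 𝓝[≠] (0 : ℂ), eval (fun i => ∑ j, V j i w * k j w ^ M) G ≠ 0) :
    ∃ m : ℕ, ∀ᶠ w in 𝓝[≠] (0 : ℂ), aeval (cur (fun j i => V j i w * k j w ^ M) e₀) G =
      Polynomial.C (eval (fun i => ∑ j, V j i w * k j w ^ M) G) * Polynomial.X ^ m := by
  classical
  set A := (gs r G).support with hA
  set u : ℂ → ℂ := fun w => eval (fun i => ∑ j, V j i w * k j w ^ M) G with hu
  let e' : (Fin r →₀ ℕ) → ℂ → ℂ := fun a w => if a ∈ A then mon k a w ^ M else 0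
  have heA : ∀ a, a ∈ A → e' a = fun w => mon k a w ^ M := by
    intro a ha
    funext w
    exact if_pos ha
  have henA : ∀ a, a ∉ A → e' a = fun _ => 0 := by
    intro a ha
    funext w
    exact if_neg ha
  let col' : (Fin r →₀ ℕ) → ℕ := fun a => ∑ j, a j * e₀ j
  let ρ' : (Fin r →₀ ℕ) → ℂ → ℂ := fun a w =>
    aeval (fun p : Fin r × Fin (n + 1) => V p.1 p.2 w) ((gs r G).coeff a)
  have hρ' : ∀ a, MeromorphicAt (ρ' a) 0 := fun a => mero_aeval _ fun p => hV p.1 p.2
  have he' : ∀ a, Pun (e' a) := by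
    intro a
    by_cases ha : a ∈ A
    · rw [heA a ha]
      exact (pun_mon hk a).pow M
    · rw [henA a ha]
      exact Pun.const 0
  have hue : ∀ w, u w = ∑ a ∈ A, ρ' a w * e' a w := by
    intro w
    rw [hu]
    change eval (fun i => ∑ j, V j i w * k j w ^ M) G = _
    rw [pt_expand]
    refine Finset.sum_congr rfl fun a ha => ?_
    rw [heA a ha]
  have huP : Pun u := by
    have h1 : u = fun w => ∑ a ∈ A, ρ' a w * e' a w := funext hue
    rw [h1]
    exact Pun.sum A fun a _ => (Pun.mero (hρ' a)).mul (he' a)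
  have huN : Nz u := by
    intro h
    obtain ⟨w, h1, h2⟩ := (h.and h0).exists
    exact h2 h1
  have hA1 : ∀ a, Nz (e' a) → a ∈ A := by
    intro a ha
    by_contra hcon
    rw [henA a hcon] at ha
    exact ha (Eventually.of_forall fun _ => rfl)
  have hcol1 : ∀ a b, Nz (e' a) → Nz (e' b) → Gr (e' a) (e' b) → col' a = col' b := by
    intro a b ha hb hab
    have h1 := hA1 a ha
    have h2 := hA1 b hb
    rw [heA a h1, heA b h2] at hab
    rw [heA b h2] at hb
    refine he₀ _ _ ?_ ?_ (growth_mero ((pun_mon hk a).pow M) ((pun_mon hk b).pow M) hb hab)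
    · rw [gs_degree hG h1, gs_degree hG h2]
    · rw [gs_degree hG h1]
      exact hd
  -- the color of the unit
  obtain ⟨m, hm⟩ : ∃ m : ℕ, ∀ a, Nz (e' a) → Gr (e' a) u → col' a = m := by
    by_cases h : ∃ a, Nz (e' a) ∧ Gr (e' a) u
    · obtain ⟨a0, ha0, ha1⟩ := h
      refine ⟨col' a0, fun a h1 h2 => hcol1 a a0 h1 ha0 ?_⟩
      have h3 := (growth_mero (he' a0) huP huN ha1).symm ha0
      exact h2.trans h3.gr
    · push Not at h
      exact ⟨0, fun a h1 h2 => absurd h2 (h a h1)⟩
  have hsym : ∀ a, Nz (e' a) → Gr u (e' a) → Gr (e' a) u := by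
    intro a ha h
    exact ((growth_mero huP (he' a) ha h).symm huN).gr
  let e : Option (Fin r →₀ ℕ) → ℂ → ℂ := fun o => o.elim u e'
  let col : Option (Fin r →₀ ℕ) → ℕ := fun o => o.elim m col'
  let ρ : Option (Fin r →₀ ℕ) → ℂ → ℂ := fun o => o.elim (fun _ => -1) ρ'
  have hcs := color_sums hM e (fun o => by
      cases o with
      | none => exact huP
      | some a => exact he' a) (fun o => by
      cases o with
      | none => exact root huP h0 hM
      | some a =>
        change ∃ g : ℂ → ℂ, Pun g ∧ ∀ᶠ t in 𝓝[≠] (0 : ℂ), g t ^ M = e' a (t ^ M)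
        by_cases ha : a ∈ A
        · rw [heA a ha]
          exact root_mon hk hM a
        · rw [henA a ha]
          exact ⟨fun _ => 0, Pun.const 0, Eventually.of_forall fun _ => zero_pow hM.ne'⟩) col
    (fun o o' ho ho' hoo => by
      cases o with
      | none =>
        cases o' with
        | none => rfl
        | some b => exact (hm b ho' (hsym b ho' hoo)).symm
      | some a =>
        cases o' with
        | none => exact hm a ho hoo
        | some b => exact hcol1 a b ho ho' hoo)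
    (Finset.insertNone A) (by
      rw [Finset.card_insertNone, Nat.add_sub_cancel]
      exact hdM) ρ (fun o => by
      cases o with
      | none => exact MeromorphicAt.const _ 0
      | some a => exact hρ' a) (by
      refine Eventually.of_forall fun w => ?_
      rw [Finset.sum_insertNone]
      change -1 * u w + ∑ a ∈ A, ρ' a w * e' a w = 0
      rw [← hue]
      ring)
  have hall : ∀ᶠ w in 𝓝[≠] (0 : ℂ), ∀ v ∈ insert m (A.image col'),
      ∑ a ∈ (Finset.insertNone A).filter (fun a => col a = v), ρ a w * e a w = 0 :=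
    (Filter.eventually_all_finset _).2 fun v _ => hcs v
  refine ⟨m, ?_⟩
  filter_upwards [hall] with w hw
  rw [cur_expand]
  ext v
  rw [coeff_sum_pow A _ col' v, Polynomial.coeff_C_mul_X_pow]
  have hsum : ∑ a ∈ A.filter (fun a => col' a = v),
      aeval (fun p : Fin r × Fin (n + 1) => V p.1 p.2 w) ((gs r G).coeff a) *
        ∏ j, (k j w ^ M) ^ a j = ∑ a ∈ A.filter (fun a => col' a = v), ρ' a w * e' a w := by
    refine Finset.sum_congr rfl fun a ha => ?_
    rw [heA a (Finset.mem_filter.1 ha).1, prod_pow_M]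
  rw [hsum]
  by_cases hv : v ∈ insert m (A.image col')
  · have h1 := hw v hv
    rw [Finset.sum_filter, Finset.sum_insertNone] at h1
    change (if m = v then -1 * u w else 0) + ∑ a ∈ A, (if col' a = v then ρ' a w * e' a w else 0)
      = 0 at h1
    rw [← Finset.sum_filter] at h1
    by_cases hmv : v = m
    · rw [if_pos hmv]
      rw [if_pos hmv.symm] at h1
      linear_combination h1
    · rw [if_neg hmv]
      rw [if_neg fun h => hmv h.symm, zero_add] at h1
      exact h1
  · rw [Finset.mem_insert, not_or] at hv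
    rw [if_neg hv.1, Finset.filter_eq_empty_iff.2]
    · rfl
    · intro a ha hcol
      exact hv.2 (Finset.mem_image.2 ⟨a, ha, hcol⟩)

end germ

end Pool.Agent.Q33.SP
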