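import Pool.Agent.Q33.SP.NC

/-!
Curves through the points of an essential curve which is a sum of few high powers.
-/

set_option autoImplicit false

namespace Pool.Agent.Q33.SP

open Filter Topology Pool.Agent.W603.BP MvPolynomial

variable {n r : ℕ} {ι : Type}

/-- The polynomials `P_i(T) = ∑_j U_{j i} T ^ e_j` define a nonconstant curve in the variety
`F = 0` which meets the hypersurface `Q = 0` at most for `T = 0, ∞`. -/
structure IsSp (F : ι → MvPolynomial (Fin (n + 1)) ℂ) (Q : MvPolynomial (Fin (n + 1)) ℂ)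
    (e : Fin r → ℕ) (P : Fin (n + 1) → Polynomial ℂ) : Prop where
  form : ∃ U : Fin r → Fin (n + 1) → ℂ,
    P = fun i => ∑ j, Polynomial.C (U j i) * Polynomial.X ^ e j
  zero : ∀ i, aeval P (F i) = 0
  off : ∃ (c : ℂ) (m : ℕ), c ≠ 0 ∧ aeval P Q = Polynomial.C c * Polynomial.X ^ m
  nonconst : ∃ (s t : ℂ) (i l : Fin (n + 1)), s ≠ 0 ∧ t ≠ 0 ∧
    (P i).eval s * (P l).eval t ≠ (P l).eval s * (P i).eval t

/-- Near the origin, the homogeneous coordinates of the curve are sums of `r` terms, each of them a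
vector of meromorphic germs times an `M`-th power of a holomorphic function in a punctured
neighbourhood of the origin. -/
def SumPow (r M : ℕ) (f : ℂ → Fin (n + 1) → ℂ) : Prop :=
  ∃ (V : Fin r → Fin (n + 1) → ℂ → ℂ) (k : Fin r → ℂ → ℂ), (∀ j i, MeromorphicAt (V j i) 0) ∧
    (∀ j, ∀ᶠ w in 𝓝[≠] (0 : ℂ), AnalyticAt ℂ (k j) w) ∧
    ∀ᶠ w in 𝓝[≠] (0 : ℂ), ∀ i, f w i = ∑ j, V j i w * k j w ^ M

/-- The curve has an essential singularity at the origin: some quotient of two homogeneous
coordinates is not meromorphic. -/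
def Ess (f : ℂ → Fin (n + 1) → ℂ) : Prop :=
  ∃ i l, (¬ ∀ᶠ w in 𝓝[≠] (0 : ℂ), f w l = 0) ∧
    ¬ ∃ ρ : ℂ → ℂ, MeromorphicAt ρ 0 ∧ ∀ᶠ w in 𝓝[≠] (0 : ℂ), f w i = ρ w * f w l

theorem an_aeval {σ : Type} (G : MvPolynomial σ ℂ) {U : σ → ℂ → ℂ} {z : ℂ}
    (hU : ∀ i, AnalyticAt ℂ (U i) z) : AnalyticAt ℂ (fun w => aeval (fun i => U i w) G) z := by
  induction G using MvPolynomial.induction_on with
  | C a =>
    have : (fun w => aeval (fun i => U i w) (C a : MvPolynomial σ ℂ)) = fun _ => a := by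
      funext w
      rw [algHom_C]
      rfl
    rw [this]
    exact analyticAt_const
  | add p q hp hq =>
    have : (fun w => aeval (fun i => U i w) (p + q)) =
        fun w => aeval (fun i => U i w) p + aeval (fun i => U i w) q := by
      funext w
      rw [map_add]
    rw [this]
    exact hp.fun_add hq
  | mul_X p i hp =>
    have : (fun w => aeval (fun i => U i w) (p * X i)) =
        fun w => aeval (fun i => U i w) p * U i w := by
      funext w
      rw [map_mul, aeval_X]
    rw [this]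
    exact hp.fun_mul (hU i)

/-- the coefficients of the value of a form are analytic -/
theorem an_coeff {V : Fin r → Fin (n + 1) → ℂ → ℂ} {k : Fin r → ℂ → ℂ} {M : ℕ} {z : ℂ}
    (hV : ∀ j i, AnalyticAt ℂ (V j i) z) (hk : ∀ j, AnalyticAt ℂ (k j) z) (e : Fin r → ℕ)
    (G : MvPolynomial (Fin (n + 1)) ℂ) (v : ℕ) :
    AnalyticAt ℂ (fun w => (aeval (cur (fun j i => V j i w * k j w ^ M) e) G).coeff v) z := by
  have h : (fun w => (aeval (cur (fun j i => V j i w * k j w ^ M) e) G).coeff v) = fun w =>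
      ∑ a ∈ (gs r G).support.filter (fun a => ∑ j, a j * e j = v),
        (aeval (fun p : Fin r × Fin (n + 1) => V p.1 p.2 w) ((gs r G).coeff a) *
          ∏ j, (k j w ^ M) ^ a j) := by
    funext w
    rw [cur_expand]
    exact coeff_sum_pow _ _ (fun a : Fin r →₀ ℕ => ∑ j, a j * e j) v
  rw [h]
  apply Finset.analyticAt_fun_sum
  intro a _
  apply AnalyticAt.fun_mul
  · exact an_aeval _ fun p => hV p.1 p.2
  · apply Finset.analyticAt_fun_prod
    intro j _
    exact ((hk j).fun_pow M).fun_pow _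

theorem card_le {G : MvPolynomial (Fin (n + 1)) ℂ} {d D : ℕ} (hG : G.IsHomogeneous d)
    (hd : d ≤ D) (hr : 0 < r) : (gs r G).support.card ≤ (r + D - 1).choose D := by
  refine (gs_card hG).trans ?_
  obtain ⟨s, rfl⟩ : ∃ s, r = s + 1 := ⟨r - 1, by omega⟩
  have h1 : s + 1 + d - 1 = s + d := by omega
  have h2 : s + 1 + D - 1 = s + D := by omega
  rw [h1, h2]
  rw [← Nat.choose_symm_add, ← Nat.choose_symm_add]
  exact Nat.choose_le_choose s (by omega)

/-- normal form: no term vanishes identically -/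
theorem normalize {M : ℕ} (hM : 0 < M) {f : ℂ → Fin (n + 1) → ℂ} (hf : SumPow r M f) :
    ∃ (V : Fin r → Fin (n + 1) → ℂ → ℂ) (k : Fin r → ℂ → ℂ), (∀ j i, MeromorphicAt (V j i) 0) ∧
      (∀ j, Pun (k j)) ∧ (∀ j, Nz (k j)) ∧
      ∀ᶠ w in 𝓝[≠] (0 : ℂ), ∀ i, f w i = ∑ j, V j i w * k j w ^ M := by
  classical
  obtain ⟨V, k, hV, hk, hfe⟩ := hf
  refine ⟨fun j i => if Nz (k j) then V j i else fun _ => 0, fun j => if Nz (k j) then k j else
    fun _ => 1, fun j i => ?_, fun j => ?_, fun j => ?_, ?_⟩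
  · by_cases h : Nz (k j)
    · simp only [if_pos h]
      exact hV j i
    · simp only [if_neg h]
      exact MeromorphicAt.const 0 0
  · by_cases h : Nz (k j)
    · simp only [if_pos h]
      exact hk j
    · simp only [if_neg h]
      exact Pun.const 1
  · by_cases h : Nz (k j)
    · simp only [if_pos h]
      exact h
    · simp only [if_neg h]
      exact nz_const one_ne_zero
  · have h1 : ∀ᶠ w in 𝓝[≠] (0 : ℂ), ∀ j, ¬ Nz (k j) → k j w = 0 := by
      rw [Filter.eventually_all]
      intro j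
      by_cases h : Nz (k j)
      · exact Eventually.of_forall fun w h' => absurd h h'
      · have h2 : ∀ᶠ w in 𝓝[≠] (0 : ℂ), k j w = 0 := not_not.1 h
        filter_upwards [h2] with w hw _
        exact hw
    filter_upwards [hfe, h1] with w h2 h3 i
    rw [h2 i]
    refine Finset.sum_congr rfl fun j _ => ?_
    by_cases h : Nz (k j)
    · simp only [if_pos h]
    · simp only [if_neg h]
      rw [h3 j h, zero_pow hM.ne', mul_zero, zero_mul]

/-- **The curves through the points of an essential curve.** -/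
theorem pt_main {D M q : ℕ} (F : ι → MvPolynomial (Fin (n + 1)) ℂ)
    (hF : ∀ i, ∃ d, d ≤ D ∧ (F i).IsHomogeneous d) (Q : MvPolynomial (Fin (n + 1)) ℂ)
    (hQ : Q.IsHomogeneous q) (hq : q ≤ D) (hM : ((r + D - 1).choose D) ^ 2 ≤ M)
    (f : ℂ → Fin (n + 1) → ℂ) (hf : SumPow r M f) (hess : Ess f)
    (hX : ∀ᶠ w in 𝓝[≠] (0 : ℂ), (∀ i, eval (f w) (F i) = 0) ∧ eval (f w) Q ≠ 0) :
    ∃ e ∈ Exps r D, ∃ δ > 0, ∀ z0 : ℂ, z0 ≠ 0 → ‖z0‖ < δ → ∀ᶠ z in 𝓝[≠] z0,
      ∃ P, IsSp F Q e P ∧ ∀ i, (P i).eval 1 = f z i := by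
  classical
  obtain ⟨i1, l1, hl1, hi1⟩ := hess
  have hr : 0 < r := by
    rcases Nat.eq_zero_or_pos r with h0 | h0
    · subst h0
      exfalso
      apply hl1
      obtain ⟨V, k, -, -, hfe⟩ := hf
      filter_upwards [hfe] with w hw
      rw [hw l1]
      exact Finset.sum_empty
    · exact h0
  have hM0 : 0 < M := by
    refine lt_of_lt_of_le (pow_pos ?_ 2) hM
    exact Nat.choose_pos (by omega)
  obtain ⟨V, k, hV, hk, hz, hfe⟩ := normalize hM0 hf
  set e := ex D M k with he
  -- a common disc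
  have hVan : ∀ᶠ w in 𝓝[≠] (0 : ℂ), ∀ j i, AnalyticAt ℂ (V j i) w := by
    rw [Filter.eventually_all]
    intro j
    rw [Filter.eventually_all]
    intro i
    exact Pun.mero (hV j i)
  have hkan : ∀ᶠ w in 𝓝[≠] (0 : ℂ), ∀ j, AnalyticAt ℂ (k j) w := by
    rw [Filter.eventually_all]
    exact hk
  obtain ⟨δ, hδ, hall⟩ := ev_iff.1 (hVan.and (hkan.and (hfe.and hX)))
  have hev : ∀ G : MvPolynomial (Fin (n + 1)) ℂ, ∀ w ∈ PB δ,
      eval (fun i => ∑ j, V j i w * k j w ^ M) G = eval (f w) G := by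
    intro G w hw
    have : (fun i => ∑ j, V j i w * k j w ^ M) = f w := by
      funext i
      exact ((hall w hw).2.2.1 i).symm
    rw [this]
  have hcoef : ∀ (G : MvPolynomial (Fin (n + 1)) ℂ) (v : ℕ), AnalyticOnNhd ℂ
      (fun w => (aeval (cur (fun j i => V j i w * k j w ^ M) e) G).coeff v) (PB δ) := by
    intro G v w hw
    exact an_coeff (hall w hw).1 (hall w hw).2.1 e G v
  -- the equations
  have hzero : ∀ i, ∀ w ∈ PB δ, aeval (cur (fun j i => V j i w * k j w ^ M) e) (F i) = 0 := by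
    intro i w hw
    obtain ⟨d, hd, hFd⟩ := hF i
    have h1 := split_zero (V := V) (k := k) hV hk hM0 hFd hd
      ((Nat.pow_le_pow_left ((Nat.sub_le _ _).trans (card_le hFd hd hr)) 2).trans hM) (by
        refine ev_iff.2 ⟨δ, hδ, fun w hw => ?_⟩
        rw [hev _ w hw]
        exact (hall w hw).2.2.2.1 i)
    ext v
    rw [Polynomial.coeff_zero]
    refine eq_zero_on hδ (hcoef (F i) v) ?_ w hw
    filter_upwards [h1] with w hw
    rw [hw, Polynomial.coeff_zero]
  obtain ⟨m, hm⟩ := split_unit (V := V) (k := k) hV hk hM0 hQ hq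
    ((Nat.pow_le_pow_left (card_le hQ hq hr) 2).trans hM) (by
      refine ev_iff.2 ⟨δ, hδ, fun w hw => ?_⟩
      rw [hev _ w hw]
      exact (hall w hw).2.2.2.2)
  have hunit : ∀ w ∈ PB δ, aeval (cur (fun j i => V j i w * k j w ^ M) e) Q =
      Polynomial.C (eval (f w) Q) * Polynomial.X ^ m := by
    intro w hw
    ext v
    rw [← sub_eq_zero]
    have h1 : AnalyticOnNhd ℂ (fun w => (aeval (cur (fun j i => V j i w * k j w ^ M) e) Q).coeff v -
        (Polynomial.C (eval (f w) Q) * Polynomial.X ^ m).coeff v) (PB δ) := by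
      intro w hw
      refine (hcoef Q v w hw).fun_sub ?_
      simp only [Polynomial.coeff_C_mul_X_pow]
      by_cases hv : v = m
      · simp only [if_pos hv]
        have h2 : AnalyticAt ℂ (fun w => aeval (fun i => ∑ j, V j i w * k j w ^ M) Q) w :=
          an_aeval Q fun i => Finset.analyticAt_fun_sum _ fun j _ =>
            ((hall w hw).1 j i).fun_mul (((hall w hw).2.1 j).fun_pow M)
        refine h2.congr ?_
        filter_upwards [(PB_open δ).mem_nhds hw] with z hz
        rw [← hev Q z hz, ← coe_aeval_eq_eval]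
        rfl
      · simp only [if_neg hv]
        exact analyticAt_const
    refine eq_zero_on hδ h1 ?_ w hw
    filter_upwards [hm, PB_mem hδ] with w hw hwδ
    rw [hw, hev Q w hwδ, sub_self]
  -- nonconstancy
  obtain ⟨c, i0, l0, hc⟩ : ∃ c i l, Nz (fun w => wc V k M e c i w * f w l -
      wc V k M e c l w * f w i) := by
    by_contra hcon
    push Not at hcon
    apply hi1
    have hfV : ∀ i, ∀ᶠ w in 𝓝[≠] (0 : ℂ), f w i = ∑ j, V j i w * k j w ^ M := by
      intro i
      filter_upwards [hfe] with w hw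
      exact hw i
    obtain ⟨ρ, h1, h2⟩ := mrel_of_const (D := D) (M := M) hV hk hz (i := i1) (l := l1)
      (fun c i l => by
        have h3 : ∀ᶠ w in 𝓝[≠] (0 : ℂ), wc V k M e c i w * f w l -
          wc V k M e c l w * f w i = 0 := not_not.1 (hcon c i l)
        filter_upwards [h3, hfV i, hfV l] with w h4 h5 h6
        rw [← h5, ← h6]
        exact sub_eq_zero.1 h4) (by
        intro h3
        apply hl1
        filter_upwards [h3, hfV l1] with w h4 h5
        rw [h5, h4])
    refine ⟨ρ, h1, ?_⟩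
    filter_upwards [h2, hfV i1, hfV l1] with w h3 h4 h5
    rw [h4, h5, h3]
  have han : AnalyticOnNhd ℂ (fun w => wc V k M e c i0 w * f w l0 -
      wc V k M e c l0 w * f w i0) (PB δ) := by
    intro w hw
    have hwc : ∀ i, AnalyticAt ℂ (wc V k M e c i) w := fun i =>
      Finset.analyticAt_fun_sum _ fun j _ =>
        ((hall w hw).1 j i).fun_mul (((hall w hw).2.1 j).fun_pow M)
    have hfa : ∀ i, AnalyticAt ℂ (fun w => f w i) w := by
      intro i
      have h2 : AnalyticAt ℂ (fun w => ∑ j, V j i w * k j w ^ M) w :=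
        Finset.analyticAt_fun_sum _ fun j _ =>
          ((hall w hw).1 j i).fun_mul (((hall w hw).2.1 j).fun_pow M)
      refine h2.congr ?_
      filter_upwards [(PB_open δ).mem_nhds hw] with z hz
      exact ((hall z hz).2.2.1 i).symm
    exact ((hwc i0).fun_mul (hfa l0)).fun_sub ((hwc l0).fun_mul (hfa i0))
  refine ⟨e, ex_mem D M k, δ, hδ, fun z0 h0 hz0 => ?_⟩
  filter_upwards [ev_ne_on hδ han hc z0 ⟨h0, hz0⟩,
    mem_nhdsWithin_of_mem_nhds ((PB_open δ).mem_nhds (show z0 ∈ PB δ from ⟨h0, hz0⟩))]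
    with z hz hzδ
  have hP1 : ∀ i, (cur (fun j i => V j i z * k j z ^ M) e i).eval 1 = f z i := by
    intro i
    rw [(hall z hzδ).2.2.1 i]
    unfold cur
    rw [Polynomial.eval_finsetSum]
    refine Finset.sum_congr rfl fun j _ => ?_
    rw [Polynomial.eval_mul, Polynomial.eval_C, Polynomial.eval_pow, Polynomial.eval_X, one_pow,
      mul_one]
  refine ⟨cur (fun j i => V j i z * k j z ^ M) e, ⟨⟨_, rfl⟩, fun i => hzero i z hzδ,
    ⟨_, m, (hall z hzδ).2.2.2.2, hunit z hzδ⟩, ?_⟩, hP1⟩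
  by_contra hcon
  push Not at hcon
  apply hz
  have hpoly : cur (fun j i => V j i z * k j z ^ M) e i0 * Polynomial.C (f z l0) -
      cur (fun j i => V j i z * k j z ^ M) e l0 * Polynomial.C (f z i0) = 0 := by
    apply Polynomial.eq_zero_of_infinite_isRoot
    refine Set.Infinite.mono (s := {0}ᶜ) ?_ ?_
    · intro s hs
      have h1 := hcon s 1 i0 l0 hs one_ne_zero
      rw [hP1, hP1] at h1
      change Polynomial.IsRoot _ s
      rw [Polynomial.IsRoot, Polynomial.eval_sub, Polynomial.eval_mul, Polynomial.eval_mul,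
        Polynomial.eval_C, Polynomial.eval_C, h1, sub_self]
    · exact Set.Finite.infinite_compl (Set.finite_singleton 0)
  have h2 := congrArg (fun p => Polynomial.coeff p c) hpoly
  simp only [Polynomial.coeff_sub, Polynomial.coeff_mul_C, Polynomial.coeff_zero, cur_coeff] at h2
  exact h2

end Pool.Agent.Q33.SP
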