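import Pool.Agent.Q33.SP.Alg
import Pool.Agent.Q33.SP.Pt

/-!
The exceptional set for the curves with given exponents.
-/

set_option autoImplicit false

namespace Pool.Agent.Q33.SP

open MvPolynomial FF Pool.Agent.W602.GT Pool.Agent.TH143.GT
open IntermediateField hiding val

variable {n r : ℕ} {ι : Type}

theorem kc_cur (U : Fin r → Fin (n + 1) → ℂ) (e : Fin r → ℕ) : kc U e = cur U e := rfl

theorem poly_zero_of_ne {P : Polynomial ℂ} (h : ∀ t : ℂ, t ≠ 0 → P.eval t = 0) : P = 0 := by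
  apply Polynomial.eq_zero_of_infinite_isRoot
  refine Set.Infinite.mono (s := {0}ᶜ) ?_ (Set.Finite.infinite_compl (Set.finite_singleton 0))
  intro s hs
  exact h s hs

/-- the points of the curve lie on the variety -/
theorem sp_on {F : ι → MvPolynomial (Fin (n + 1)) ℂ} {Q : MvPolynomial (Fin (n + 1)) ℂ}
    {e : Fin r → ℕ} {P : Fin (n + 1) → Polynomial ℂ} (h : IsSp F Q e P) {t : ℂ} (ht : t ≠ 0) :
    (∀ i, eval (fun j => (P j).eval t) (F i) = 0) ∧ eval (fun j => (P j).eval t) Q ≠ 0 := by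
  constructor
  · intro i
    have h1 := eval_aeval P t (F i)
    rw [h.zero i, Polynomial.eval_zero] at h1
    exact h1.symm
  · obtain ⟨c, m, hc, hcm⟩ := h.off
    have h1 := eval_aeval P t Q
    rw [hcm, Polynomial.eval_mul, Polynomial.eval_C, Polynomial.eval_pow, Polynomial.eval_X] at h1
    intro h0
    have h2 : aeval (fun j => (P j).eval t) Q = 0 := h0
    rw [h2] at h1
    exact mul_ne_zero hc (pow_ne_zero m ht) h1

theorem hit_of_sp {p : Ideal (MvPolynomial (Fin (n + 1)) ℂ)} {Q : MvPolynomial (Fin (n + 1)) ℂ}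
    {F : ι → MvPolynomial (Fin (n + 1)) ℂ}
    (hcut : ∀ x : Fin (n + 1) → ℂ, (∀ i, eval x (F i) = 0) → eval x Q ≠ 0 → ∀ H ∈ p, eval x H = 0)
    {e : Fin r → ℕ} {P : Fin (n + 1) → Polynomial ℂ} (h : IsSp F Q e P)
    (h1 : ∃ a, (P a).eval 1 ≠ 0) : ∃ (U : Fin r → Fin (n + 1) → ℂ) (m v : ℕ) (i l : Fin (n + 1)),
      P = kc U e ∧ Hit p Q e m v i l U := by
  obtain ⟨U, hU⟩ := h.form
  obtain ⟨c, m, hc, hcm⟩ := h.off
  have hPU : P = kc U e := hU
  obtain ⟨v, i, l, hv⟩ : ∃ v i l, nco U e v i l ≠ 0 := by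
    by_contra hcon
    push Not at hcon
    obtain ⟨a, ha⟩ := h1
    have h2 : ∀ i l, P i * Polynomial.C ((P l).eval 1) = P l * Polynomial.C ((P i).eval 1) := by
      intro i l
      ext v
      have h3 := hcon v i l
      unfold nco at h3
      rw [← hPU, Polynomial.coeff_sub] at h3
      exact sub_eq_zero.1 h3
    have h3 : ∀ i s, (P i).eval s * (P a).eval 1 = (P a).eval s * (P i).eval 1 := by
      intro i s
      have h4 := congrArg (Polynomial.eval s) (h2 i a)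
      rw [Polynomial.eval_mul, Polynomial.eval_mul, Polynomial.eval_C, Polynomial.eval_C] at h4
      exact h4
    obtain ⟨s, t, i, l, -, -, hst⟩ := h.nonconst
    apply hst
    have ha2 : (P a).eval 1 * (P a).eval 1 ≠ 0 := mul_ne_zero ha ha
    apply mul_right_cancel₀ ha2
    calc (P i).eval s * (P l).eval t * ((P a).eval 1 * (P a).eval 1)
        = ((P i).eval s * (P a).eval 1) * ((P l).eval t * (P a).eval 1) := by ring
      _ = ((P a).eval s * (P i).eval 1) * ((P a).eval t * (P l).eval 1) := by rw [h3, h3]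
      _ = ((P a).eval s * (P l).eval 1) * ((P a).eval t * (P i).eval 1) := by ring
      _ = ((P l).eval s * (P a).eval 1) * ((P i).eval t * (P a).eval 1) := by rw [h3, h3]
      _ = (P l).eval s * (P i).eval t * ((P a).eval 1 * (P a).eval 1) := by ring
  refine ⟨U, m, v, i, l, hPU, fun H hH => ?_, fun v' hv' => ?_, ?_, hv⟩
  · rw [← hPU]
    apply poly_zero_of_ne
    intro t ht
    rw [eval_aeval P t H]
    exact hcut _ (sp_on h ht).1 (sp_on h ht).2 H hH
  · rw [← hPU, hcm, Polynomial.coeff_C_mul_X_pow, if_neg hv']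
  · rw [← hPU, hcm, Polynomial.coeff_C_mul_X_pow, if_pos rfl]
    exact hc

theorem kc_deg (U : Fin r → Fin (n + 1) → ℂ) (e : Fin r → ℕ) (i : Fin (n + 1)) :
    (kc U e i).natDegree ≤ ∑ j, e j := by
  unfold kc
  apply Polynomial.natDegree_sum_le_of_forall_le
  intro j _
  refine (Polynomial.natDegree_C_mul_X_pow_le _ _).trans ?_
  exact Finset.single_le_sum (f := e) (fun _ _ => Nat.zero_le _) (Finset.mem_univ j)

theorem prod_form {α : Type} {p : Ideal (MvPolynomial (Fin (n + 1)) ℂ)} [p.IsPrime]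
    (s : Finset α) (g : α → MvPolynomial (Fin (n + 1)) ℂ) (h : ∀ a ∈ s, IsForm (g a) ∧ g a ∉ p) :
    IsForm (∏ a ∈ s, g a) ∧ ∏ a ∈ s, g a ∉ p := by
  classical
  induction s using Finset.induction_on with
  | empty =>
    rw [Finset.prod_empty]
    refine ⟨⟨0, isHomogeneous_one _ _⟩, fun h0 => ?_⟩
    exact (inferInstance : p.IsPrime).ne_top ((Ideal.eq_top_iff_one p).2 h0)
  | insert a s ha ih =>
    obtain ⟨⟨d, hd⟩, h2⟩ := ih fun b hb => h b (Finset.mem_insert_of_mem hb)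
    obtain ⟨⟨d', hd'⟩, h4⟩ := h a (Finset.mem_insert_self a s)
    rw [Finset.prod_insert ha]
    refine ⟨⟨d' + d, hd'.mul hd⟩, fun h0 => ?_⟩
    exact ((inferInstance : p.IsPrime).mem_or_mem h0).elim h4 h2

/-- **The exceptional set, or a dominating family.** -/
theorem excep {p : Ideal (MvPolynomial (Fin (n + 1)) ℂ)} [p.IsPrime]
    {Q : MvPolynomial (Fin (n + 1)) ℂ} {q : ℕ} (hQ : Q.IsHomogeneous q)
    {F : ι → MvPolynomial (Fin (n + 1)) ℂ}
    (hcut : ∀ x : Fin (n + 1) → ℂ, (∀ i, eval x (F i) = 0) → eval x Q ≠ 0 → ∀ H ∈ p, eval x H = 0)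
    {K : Type} [Field K] [Algebra ℂ K] {y : Fin (n + 1) → K} (hy : y ≠ 0)
    (hmem : ∀ H ∈ p, W602.GT.val y H = 0)
    (hmem' : ∀ H : MvPolynomial (Fin (n + 1)) ℂ, IsForm H → W602.GT.val y H = 0 → H ∈ p)
    (E : Finset (Fin r → ℕ)) :
    (∃ G : MvPolynomial (Fin (n + 1)) ℂ, IsForm G ∧ G ∉ p ∧ ∀ e ∈ E, ∀ P, IsSp F Q e P →
      aeval (fun i => (P i).eval 1) G = 0) ∨
    ∃ (M : Type) (_ : Field M) (_ : Algebra ℂ M) (m' : ℕ) (W : Fin (n + 1) → Polynomial M)
      (l' : ℕ), Algebra.trdeg ℂ M = m' ∧ Fam y Q W l' ∧ (Q = 1 → l' = 0) ∧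
        ∃ r : K, ¬ Flat ℂ y W r := by
  classical
  by_cases hex : ∃ e ∈ E, ∃ m v i l, ∀ G : MvPolynomial (Fin (n + 1)) ℂ, IsForm G → G ∉ p →
      ∃ U, Hit p Q e m v i l U ∧ aeval (fun i => (kc U e i).eval 1) G ≠ 0
  · obtain ⟨e, -, m, v, i, l, h⟩ := hex
    exact Or.inr (fam_of_hits hmem hmem' e m v i l h)
  refine Or.inl ?_
  push Not at hex
  have hG : ∀ (z : (Fin r → ℕ) × ℕ × ℕ × Fin (n + 1) × Fin (n + 1)),
      ∃ G : MvPolynomial (Fin (n + 1)) ℂ, z.1 ∈ E → (IsForm G ∧ G ∉ p ∧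
        ∀ U, Hit p Q z.1 z.2.1 z.2.2.1 z.2.2.2.1 z.2.2.2.2 U →
          aeval (fun i => (kc U z.1 i).eval 1) G = 0) := by
    intro z
    by_cases hz : z.1 ∈ E
    · obtain ⟨G, h1, h2, h3⟩ := hex z.1 hz z.2.1 z.2.2.1 z.2.2.2.1 z.2.2.2.2
      exact ⟨G, fun _ => ⟨h1, h2, h3⟩⟩
    · exact ⟨0, fun h => absurd h hz⟩
  choose G hG using hG
  obtain ⟨a0, ha0⟩ := Function.ne_iff.1 hy
  have hXa : (X a0 : MvPolynomial (Fin (n + 1)) ℂ) ∉ p := by
    intro h0
    have h1 := hmem _ h0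
    unfold W602.GT.val at h1
    rw [aeval_X] at h1
    exact ha0 h1
  let B : ℕ := (∑ e ∈ E, (q + 1) * ∑ j, e j) + 1
  let s : Finset ((Fin r → ℕ) × ℕ × ℕ × Fin (n + 1) × Fin (n + 1)) :=
    E ×ˢ (Finset.range B ×ˢ (Finset.range B ×ˢ (Finset.univ ×ˢ Finset.univ)))
  obtain ⟨⟨d, hd⟩, hs⟩ := prod_form (p := p) s G fun z hz => by
    have hzE : z.1 ∈ E := (Finset.mem_product.1 hz).1
    exact ⟨(hG z hzE).1, (hG z hzE).2.1⟩
  refine ⟨X a0 * ∏ z ∈ s, G z, ⟨1 + d, (isHomogeneous_X _ _).mul hd⟩, fun h0 => ?_,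
    fun e he P hP => ?_⟩
  · exact ((inferInstance : p.IsPrime).mem_or_mem h0).elim hXa hs
  rw [map_mul]
  by_cases h1 : ∃ a, (P a).eval 1 ≠ 0
  swap
  · push Not at h1
    rw [aeval_X, h1 a0, zero_mul]
  obtain ⟨U, m, v, i, l, hPU, hit⟩ := hit_of_sp hcut hP h1
  have hBe : (q + 1) * ∑ j, e j < B := by
    have h2 : (q + 1) * ∑ j, e j ≤ ∑ e ∈ E, (q + 1) * ∑ j, e j :=
      Finset.single_le_sum (f := fun e : Fin r → ℕ => (q + 1) * ∑ j, e j)
        (fun _ _ => Nat.zero_le _) he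
    omega
  have hm : m < B := by
    refine lt_of_le_of_lt ?_ hBe
    have h2 : m ≤ (aeval (kc U e) Q).natDegree := Polynomial.le_natDegree_of_ne_zero hit.ne
    have h3 : (aeval (kc U e) Q).natDegree ≤ q * ∑ j, e j :=
      MvPolynomial.aeval_natDegree_le Q hQ.totalDegree_le _ fun i => kc_deg U e i
    have h4 : q * ∑ j, e j ≤ (q + 1) * ∑ j, e j := Nat.mul_le_mul_right _ (Nat.le_succ q)
    exact h2.trans (h3.trans h4)
  have hv : v < B := by
    refine lt_of_le_of_lt ?_ hBe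
    have h2 := Polynomial.le_natDegree_of_ne_zero hit.nc
    have h3 : (kc U e i * Polynomial.C ((kc U e l).eval 1) -
        kc U e l * Polynomial.C ((kc U e i).eval 1)).natDegree ≤ ∑ j, e j := by
      refine (Polynomial.natDegree_sub_le _ _).trans (max_le ?_ ?_)
      · exact (Polynomial.natDegree_mul_C_le _ _).trans (kc_deg U e i)
      · exact (Polynomial.natDegree_mul_C_le _ _).trans (kc_deg U e l)
    have h4 : ∑ j, e j ≤ (q + 1) * ∑ j, e j := Nat.le_mul_of_pos_left _ (Nat.succ_pos q)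
    exact h2.trans (h3.trans h4)
  have hz : (e, m, v, i, l) ∈ s := by
    simp only [s, Finset.mem_product, Finset.mem_range, Finset.mem_univ, and_true]
    exact ⟨he, hm, hv⟩
  have h2 := (hG (e, m, v, i, l) he).2.2 U hit
  rw [← hPU] at h2
  rw [map_prod, Finset.prod_eq_zero hz h2, mul_zero]

end Pool.Agent.Q33.SP
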