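import Pool.Agent.Q33.SP.MeroProj

/-!
Elliptic curves through the points of entire curves with few terms.
-/

set_option autoImplicit false

namespace Pool.Agent.Q33.SP

open Filter Topology MvPolynomial Pool.Agent.H159R3.NV

variable {n r g : ℕ} {ι : Type}

/-- polynomials which define the same map as Laurent polynomials -/
theorem tor_poly {v : Fin r → Fin (n + 1) → ℂ} {b : Fin r → Fin g → ℤ}
    {Φ : (Fin g → ℂ) → Fin (n + 1) → ℂ} (hΦ : ∀ t i, Φ t i = ∑ j, v j i * ∏ a, t a ^ b j a) :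
    ∃ (N : ℕ) (W : Fin (n + 1) → MvPolynomial (Fin g) ℂ), ∀ (t : Fin g → ℂ), (∀ a, t a ≠ 0) →
      ∀ i, eval t (W i) = (∏ a, t a) ^ N * Φ t i := by
  classical
  let N : ℕ := ∑ j, ∑ a, (b j a).natAbs
  have hN : ∀ j a, 0 ≤ b j a + N := by
    intro j a
    have h1 : (b j a).natAbs ≤ ∑ a, (b j a).natAbs := Finset.single_le_sum
      (f := fun a => (b j a).natAbs) (fun _ _ => Nat.zero_le _) (Finset.mem_univ a)
    have h2 : ∑ a, (b j a).natAbs ≤ N := Finset.single_le_sum
      (f := fun j => ∑ a, (b j a).natAbs) (fun _ _ => Nat.zero_le _) (Finset.mem_univ j)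
    omega
  refine ⟨N, fun i => ∑ j, C (v j i) * ∏ a, X a ^ (b j a + N).toNat, fun t ht i => ?_⟩
  rw [hΦ t i]
  simp only [map_sum, map_mul, map_prod, map_pow, eval_C, eval_X, Finset.mul_sum]
  refine Finset.sum_congr rfl fun j _ => ?_
  rw [mul_left_comm]
  congr 1
  rw [← Finset.prod_pow, ← Finset.prod_mul_distrib]
  refine Finset.prod_congr rfl fun a _ => ?_
  rw [← zpow_natCast, ← zpow_natCast, Int.toNat_of_nonneg (hN j a), ← zpow_add₀ (ht a), add_comm]

/-- a polynomial curve through a point of the image of the torus -/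
theorem TorSp.poly_curve {F : ι → MvPolynomial (Fin (n + 1)) ℂ}
    (hF : ∀ i, ∃ d, (F i).IsHomogeneous d) {Φ : (Fin g → ℂ) → Fin (n + 1) → ℂ}
    (h : TorSp r g F 1 Φ) {t : Fin g → ℂ} (ht : ∀ a, t a ≠ 0) (h0 : Φ t ≠ 0) (s0 : ℂ) :
    ∃ P : Fin (n + 1) → Polynomial ℂ, (∀ s i, eval (fun l => (P l).eval s) (F i) = 0) ∧
      (∃ c : ℂ, c ≠ 0 ∧ ∀ i, (P i).eval s0 = c * Φ t i) ∧
      ∃ s i l, (P i).eval s * (P l).eval s0 ≠ (P l).eval s * (P i).eval s0 := by
  classical
  obtain ⟨v, b, hΦ⟩ := h.sum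
  obtain ⟨N, W, hW⟩ := tor_poly hΦ
  obtain ⟨t', ht', i0, l0, hne⟩ : ∃ t' : Fin g → ℂ, (∀ a, t' a ≠ 0) ∧ ∃ i l,
      Φ t' i * Φ t l ≠ Φ t' l * Φ t i := by
    by_contra hno
    push Not at hno
    obtain ⟨t1, t2, h1, h2, i, l, hne⟩ := h.nonconst
    apply hne
    obtain ⟨m, hm⟩ : ∃ m, Φ t m ≠ 0 := by
      by_contra hno
      push Not at hno
      exact h0 (funext hno)
    have e1 := hno t1 h1 i m
    have e2 := hno t1 h1 l m
    have e3 := hno t2 h2 i m
    have e4 := hno t2 h2 l m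
    apply mul_left_cancel₀ (mul_ne_zero hm hm)
    calc Φ t m * Φ t m * (Φ t1 i * Φ t2 l) = (Φ t1 i * Φ t m) * (Φ t2 l * Φ t m) := by ring
      _ = (Φ t1 m * Φ t i) * (Φ t2 m * Φ t l) := by rw [e1, e4]
      _ = (Φ t1 m * Φ t l) * (Φ t2 m * Φ t i) := by ring
      _ = (Φ t1 l * Φ t m) * (Φ t2 i * Φ t m) := by rw [e2, e3]
      _ = Φ t m * Φ t m * (Φ t1 l * Φ t2 i) := by ring
  let lin : Fin g → Polynomial ℂ := fun a =>
    Polynomial.C (t a) + (Polynomial.X - Polynomial.C s0) * Polynomial.C (t' a - t a)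
  have hlin : ∀ a s, (lin a).eval s = t a + (s - s0) * (t' a - t a) := by
    intro a s
    simp only [lin, Polynomial.eval_add, Polynomial.eval_mul, Polynomial.eval_C,
      Polynomial.eval_sub, Polynomial.eval_X]
  let P : Fin (n + 1) → Polynomial ℂ := fun i => aeval lin (W i)
  have hP : ∀ i s, (P i).eval s = eval (fun a => (lin a).eval s) (W i) := by
    intro i s
    exact MvPolynomial.comp_aeval_apply (f := lin) (Polynomial.aeval s) (W i)
  have hPs : ∀ s, (∀ a, (lin a).eval s ≠ 0) → ∃ c : ℂ, c ≠ 0 ∧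
      ∀ i, (P i).eval s = c * Φ (fun a => (lin a).eval s) i := by
    intro s hs
    exact ⟨(∏ a, (lin a).eval s) ^ N, pow_ne_zero _ (Finset.prod_ne_zero_iff.2 fun a _ => hs a),
      fun i => by rw [hP]; exact hW _ hs i⟩
  have hl0 : (fun a => (lin a).eval s0) = t := funext fun a => by rw [hlin]; ring
  have hl1 : (fun a => (lin a).eval (s0 + 1)) = t' := funext fun a => by rw [hlin]; ring
  refine ⟨P, fun s i => ?_, ?_, ?_⟩
  · have hz : ∀ s, (aeval P (F i)).eval s = eval (fun l => (P l).eval s) (F i) := by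
      intro s
      exact MvPolynomial.comp_aeval_apply (f := P) (Polynomial.aeval s) (F i)
    have hprod : aeval P (F i) * ∏ a, lin a = 0 := by
      apply Polynomial.funext
      intro s
      rw [Polynomial.eval_mul, Polynomial.eval_prod, Polynomial.eval_zero]
      by_cases hs : ∀ a, (lin a).eval s ≠ 0
      · obtain ⟨c, hc, hcP⟩ := hPs s hs
        obtain ⟨d, hd⟩ := hF i
        have h1 : (fun l => (P l).eval s) = fun l => c * Φ (fun a => (lin a).eval s) l := funext hcP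
        rw [hz, h1, eval_scale hd, (h.on _ hs).1 i, mul_zero, zero_mul]
      · push Not at hs
        obtain ⟨a, ha⟩ := hs
        rw [Finset.prod_eq_zero (Finset.mem_univ a) ha, mul_zero]
    rcases mul_eq_zero.1 hprod with h1 | h1
    · rw [← hz, h1, Polynomial.eval_zero]
    · exfalso
      refine Finset.prod_ne_zero_iff.2 (fun a _ => ?_) h1
      intro h2
      apply ht a
      rw [← congrFun hl0 a, h2, Polynomial.eval_zero]
  · obtain ⟨c, hc, hcP⟩ := hPs s0 (fun a => by rw [congrFun hl0 a]; exact ht a)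
    rw [hl0] at hcP
    exact ⟨c, hc, hcP⟩
  · obtain ⟨c, hc, hcP⟩ := hPs s0 (fun a => by rw [congrFun hl0 a]; exact ht a)
    obtain ⟨c', hc', hcP'⟩ := hPs (s0 + 1) (fun a => by rw [congrFun hl1 a]; exact ht' a)
    rw [hl0] at hcP
    rw [hl1] at hcP'
    refine ⟨s0 + 1, i0, l0, fun heq => hne ?_⟩
    rw [hcP, hcP, hcP', hcP'] at heq
    apply mul_left_cancel₀ (mul_ne_zero hc' hc)
    linear_combination heq

/-- polynomials do not vanish near the poles of the Weierstrass function -/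
theorem wp_ne (L : PeriodPair) {P : Polynomial ℂ} (hP : P ≠ 0) :
    ∀ᶠ z in 𝓝[≠] (0 : ℂ), P.eval (L.weierstrassP z) ≠ 0 := by
  have h1 : Tendsto L.weierstrassP (𝓝[≠] 0) (Bornology.cobounded ℂ) := by
    apply tendsto_cobounded_of_meromorphicOrderAt_neg
    rw [L.order_weierstrassP 0 (Submodule.zero_mem _)]
    exact WithTop.coe_lt_coe.2 (by norm_num : (-2 : ℤ) < 0)
  have h2 : ∀ᶠ s in Bornology.cobounded ℂ, P.eval s ≠ 0 := by
    have h3 : (P.rootSet ℂ).Finite := P.rootSet_finite ℂ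
    have h4 := h3.isBounded
    rw [Bornology.isBounded_def] at h4
    filter_upwards [h4] with s hs h0
    apply hs
    rw [Polynomial.mem_rootSet]
    exact ⟨hP, by rw [Polynomial.coe_aeval_eq_eval]; exact h0⟩
  exact h1.eventually h2

theorem off_lattice (L : PeriodPair) : ∀ᶠ z in 𝓝[≠] (0 : ℂ), z ∉ L.lattice := by
  have h := L.compl_lattice_sdiff_singleton_mem_nhds 0
  filter_upwards [nhdsWithin_le_nhds h, self_mem_nhdsWithin] with z h1 h2 h3
  exact h1 ⟨h3, h2⟩

/-- **Elliptic curves through the points of the images of tori.** -/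
theorem TorSp.ell {F : ι → MvPolynomial (Fin (n + 1)) ℂ}
    (hF : ∀ i, ∃ d, (F i).IsHomogeneous d) {Φ : (Fin g → ℂ) → Fin (n + 1) → ℂ}
    (h : TorSp r g F 1 Φ) (L : PeriodPair) {t : Fin g → ℂ} (ht : ∀ a, t a ≠ 0) (h0 : Φ t ≠ 0) :
    ∃ φ, EllMap L F φ ∧ (∃ z, φ z = Projectivization.mk ℂ (Φ t) h0) ∧ ∃ z z', φ z ≠ φ z' := by
  classical
  obtain ⟨z1, hz1⟩ := (off_lattice L).exists
  obtain ⟨P, hPF, ⟨c, hc, hPc⟩, s, i0, l0, hne⟩ := h.poly_curve hF ht h0 (L.weierstrassP z1)
  let q : ℂ → Fin (n + 1) → ℂ := fun z i => (P i).eval (L.weierstrassP z)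
  have hmer : ∀ (R : Polynomial ℂ) z0, MeromorphicAt (fun z => R.eval (L.weierstrassP z)) z0 := by
    intro R z0
    have h2 : (fun z => R.eval (L.weierstrassP z)) = fun z => ∑ i ∈ Finset.range (R.natDegree + 1),
        R.coeff i * (L.weierstrassP z) ^ i := funext fun w => Polynomial.eval_eq_sum_range _
    rw [h2]
    exact MeromorphicAt.fun_sum fun i _ =>
      (MeromorphicAt.const _ _).fun_mul ((L.meromorphic_weierstrassP z0).fun_pow i)
  let R : Polynomial ℂ := P i0 * Polynomial.C ((P l0).eval (L.weierstrassP z1)) -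
    P l0 * Polynomial.C ((P i0).eval (L.weierstrassP z1))
  have hR : R ≠ 0 := by
    intro h1
    apply hne
    have h2 := congrArg (Polynomial.eval s) h1
    simp only [R, Polynomial.eval_sub, Polynomial.eval_mul, Polynomial.eval_C,
      Polynomial.eval_zero] at h2
    exact sub_eq_zero.1 h2
  obtain ⟨m0, hm0⟩ : ∃ m, P m ≠ 0 := by
    by_contra hno
    push Not at hno
    apply hR
    simp only [R, hno, zero_mul, sub_zero]
  have hord : ∀ z0, ∃ i, meromorphicOrderAt (fun z => q z i) z0 ≠ ⊤ := by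
    intro z0
    refine ⟨m0, ?_⟩
    have hM : MeromorphicOn (fun z => q z m0) Set.univ := fun z _ => hmer _ z
    refine hM.meromorphicOrderAt_ne_top_of_isPreconnected isPreconnected_univ (Set.mem_univ (0 : ℂ))
      (Set.mem_univ z0) ?_
    rw [meromorphicOrderAt_ne_top_iff_eventually_ne_zero (hmer _ 0)]
    exact wp_ne L hm0
  obtain ⟨φ, hφ, hlift⟩ := exists_ellMap L hF (q := q) (fun z0 i => hmer _ z0) hord
    (fun l hl z i => by
      change (P i).eval _ = (P i).eval _
      rw [L.weierstrassP_add_coe z ⟨l, hl⟩]) (fun z i => hPF _ i)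
  have hoff : ∀ z, z ∉ L.lattice → q z ≠ 0 → ∃ h0 : q z ≠ 0, φ z = Projectivization.mk ℂ (q z) h0 := by
    intro z hz hqz
    refine hlift z q ⟨fun i => ?_, hqz, 0, Eventually.of_forall fun z i => by
      rw [zpow_zero, one_mul]⟩
    exact AnalyticAt.comp (g := fun s => (P i).eval s) (f := L.weierstrassP)
      ((P i).differentiable.analyticAt _) (L.analyticOnNhd_weierstrassP z hz)
  have hq1 : q z1 ≠ 0 := by
    intro h1
    apply h0
    funext i
    have h2 : q z1 i = c * Φ t i := hPc i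
    rw [h1] at h2
    exact (mul_eq_zero.1 h2.symm).resolve_left hc
  obtain ⟨e1, he1⟩ := hoff z1 hz1 hq1
  refine ⟨φ, hφ, ⟨z1, ?_⟩, ?_⟩
  · rw [he1]
    apply mk_eq_of_cross
    intro i l
    have h2 : ∀ i, q z1 i = c * Φ t i := hPc
    rw [h2, h2]
    ring
  · obtain ⟨z2, hz2, hz2'⟩ := ((off_lattice L).and (wp_ne L hR)).exists
    have hq2 : q z2 i0 * q z1 l0 ≠ q z2 l0 * q z1 i0 := by
      intro h2
      apply hz2'
      simp only [R, Polynomial.eval_sub, Polynomial.eval_mul, Polynomial.eval_C]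
      exact sub_eq_zero.2 h2
    have hq20 : q z2 ≠ 0 := by
      intro h2
      apply hq2
      rw [h2]
      simp
    obtain ⟨e2, he2⟩ := hoff z2 hz2 hq20
    refine ⟨z2, z1, fun heq => hq2 ?_⟩
    rw [he1, he2] at heq
    exact cross_of_mk_eq heq i0 l0

end Pool.Agent.Q33.SP
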