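import Pool.Agent.Q33.SP.Ell

/-!
Elliptic curves through the points of entire curves and punctured discs with few terms.
-/

set_option autoImplicit false

namespace Pool.Agent.Q33.SP

open Filter Topology MvPolynomial Pool.Agent.H159R3.NV Pool.Agent.W603.BP

variable {n r g : ℕ} {ι : Type}

/-- There is a nonconstant holomorphic map from the elliptic curve `ℂ / Λ` to the projective variety
`F = 0` whose image contains the point `x`. -/
def EllThrough (L : PeriodPair) (F : ι → MvPolynomial (Fin (n + 1)) ℂ)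
    (x : Projectivization ℂ (Fin (n + 1) → ℂ)) : Prop :=
  ∃ φ, EllMap L F φ ∧ (∃ z, φ z = x) ∧ ∃ z z', φ z ≠ φ z'

/-- A holomorphic map from the punctured disc to the projective variety `F = 0` which is given, near
the origin, by a sum of `r` terms: `M`-th powers of holomorphic functions times vectors of
meromorphic germs. -/
structure PunctPow (r M : ℕ) (F : ι → MvPolynomial (Fin (n + 1)) ℂ) (f : ℂ → Fin (n + 1) → ℂ) :
    Prop where
  an : ∀ i, AnalyticOnNhd ℂ (fun w => f w i) {w : ℂ | w ≠ 0 ∧ ‖w‖ < 1}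
  on : ∀ w : ℂ, w ≠ 0 → ‖w‖ < 1 → ∀ i, eval (f w) (F i) = 0
  sum : SumPow r M f

theorem ell_of_ent {D M : ℕ} {F : ι → MvPolynomial (Fin (n + 1)) ℂ}
    (hF : ∀ i, ∃ d, d ≤ D ∧ (F i).IsHomogeneous d) (hM : ((r + D - 1).choose D) ^ 2 ≤ M)
    (L : PeriodPair) {f : ℂ → Fin (n + 1) → ℂ} (hf : EntPol r M F f) :
    ∃ S : ℂ → ℂ, Differentiable ℂ S ∧ S ≠ 0 ∧ ∀ z, S z ≠ 0 →
      ∃ h0 : f z ≠ 0, EllThrough L F (Projectivization.mk ℂ (f z) h0) := by
  classical
  obtain ⟨z1, z2, i, l, hne⟩ := hf.nonconst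
  have hr : 0 < r := by
    rcases Nat.eq_zero_or_pos r with h0 | h0
    · subst h0
      exfalso
      apply hne
      obtain ⟨V, k, -, hfe⟩ := hf.sum
      simp only [hfe, Finset.sum_of_isEmpty, zero_mul]
    · exact h0
  obtain ⟨s, g, Φ, hΦ, S, hSd, hS0, himg⟩ := hull_pol_tor hr F hF hM f hf
  obtain ⟨i1, hi1⟩ : ∃ i1, (fun z => f z i1) ≠ 0 := by
    by_contra hno
    push Not at hno
    apply hne
    rw [congrFun (hno i) z1, congrFun (hno l) z1]
    simp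
  refine ⟨fun z => S z * f z i1, hSd.mul (hf.diff i1), fun h0 => ?_, fun z hz => ?_⟩
  · rcases ent_eq_zero_or hSd (hf.diff i1) (fun z => congrFun h0 z) with h1 | h1
    · exact hS0 h1
    · exact hi1 h1
  · have hfz : f z ≠ 0 := fun h1 => right_ne_zero_of_mul hz (by rw [h1]; rfl)
    obtain ⟨c, hc, t, ht, htf⟩ := himg z (left_ne_zero_of_mul hz)
    have hΦt : Φ t ≠ 0 := by
      intro h1
      apply hfz
      funext i
      have h2 := htf i
      rw [h1] at h2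
      exact (mul_eq_zero.1 h2).resolve_left hc
    obtain ⟨φ, hφ, ⟨τ, hτ⟩, hnc⟩ := hΦ.ell (fun i => by
      obtain ⟨d, -, hd⟩ := hF i
      exact ⟨d, hd⟩) L ht hΦt
    refine ⟨hfz, φ, hφ, ⟨τ, ?_⟩, hnc⟩
    rw [hτ]
    apply mk_eq_of_cross
    intro i l
    rw [← htf, ← htf]
    ring

/-- polynomial curves with few terms as maps from the one-dimensional torus -/
theorem torSp_of_isSp {F : ι → MvPolynomial (Fin (n + 1)) ℂ} {e : Fin r → ℕ}
    {P : Fin (n + 1) → Polynomial ℂ} (h : IsSp F 1 e P) :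
    TorSp r 1 F 1 (fun t i => (P i).eval (t 0)) := by
  obtain ⟨U, rfl⟩ := h.form
  refine ⟨⟨U, fun j _ => (e j : ℤ), fun t i => ?_⟩, fun t ht => ⟨fun i => ?_, ?_⟩, ?_⟩
  · rw [Polynomial.eval_finsetSum]
    refine Finset.sum_congr rfl fun j _ => ?_
    rw [Polynomial.eval_mul, Polynomial.eval_C, Polynomial.eval_pow, Polynomial.eval_X,
      Fin.prod_univ_one, zpow_natCast]
  · have h1 := congrArg (Polynomial.eval (t 0)) (h.zero i)
    rw [Polynomial.eval_zero] at h1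
    rw [← h1]
    exact (MvPolynomial.comp_aeval_apply
      (f := fun i => ∑ j, Polynomial.C (U j i) * Polynomial.X ^ e j)
      (Polynomial.aeval (t 0)) (F i)).symm
  · rw [map_one]
    exact one_ne_zero
  · obtain ⟨s, t, i, l, hs, ht, hne⟩ := h.nonconst
    exact ⟨fun _ => s, fun _ => t, fun _ => hs, fun _ => ht, i, l, hne⟩

theorem ell_of_punct {D M : ℕ} {F : ι → MvPolynomial (Fin (n + 1)) ℂ}
    (hF : ∀ i, ∃ d, d ≤ D ∧ (F i).IsHomogeneous d) (hM : ((r + D - 1).choose D) ^ 2 ≤ M)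
    (L : PeriodPair) {f : ℂ → Fin (n + 1) → ℂ} (hf : PunctPow r M F f) (hess : Ess f) :
    ∃ δ > 0, ∀ z0 : ℂ, z0 ≠ 0 → ‖z0‖ < δ → ∀ᶠ z in 𝓝[≠] z0,
      ∃ h0 : f z ≠ 0, EllThrough L F (Projectivization.mk ℂ (f z) h0) := by
  obtain ⟨e, -, δ, hδ, h⟩ := pt_main F hF 1 (isHomogeneous_one _ _) (Nat.zero_le D) hM f hf.sum
    hess (by
      filter_upwards [PB_mem one_pos] with w hw
      exact ⟨hf.on w hw.1 hw.2, by rw [map_one]; exact one_ne_zero⟩)
  obtain ⟨i1, l1, hl1, -⟩ := hess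
  have hcon : IsPreconnected {w : ℂ | w ≠ 0 ∧ ‖w‖ < 1} := by
    exact PB_preconn one_pos
  refine ⟨min δ 1, lt_min hδ one_pos, fun z0 hz0 hzδ => ?_⟩
  have hz1 : z0 ∈ {w : ℂ | w ≠ 0 ∧ ‖w‖ < 1} := ⟨hz0, hzδ.trans_le (min_le_right _ _)⟩
  have hne : ∀ᶠ z in 𝓝[≠] z0, f z l1 ≠ 0 := by
    rcases (hf.an l1 z0 hz1).eventually_eq_zero_or_eventually_ne_zero with h0 | h0
    · exfalso
      apply hl1
      have h1 := (hf.an l1).eqOn_zero_of_preconnected_of_eventuallyEq_zero hcon hz1 h0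
      filter_upwards [PB_mem one_pos] with w hw
      exact h1 ⟨hw.1, hw.2⟩
    · exact h0
  filter_upwards [h z0 hz0 (hzδ.trans_le (min_le_left _ _)), hne] with z hz hz2
  obtain ⟨P, hP, hP1⟩ := hz
  have hfz : f z ≠ 0 := fun h0 => hz2 (congrFun h0 l1)
  have h1 : (fun (t : Fin 1 → ℂ) i => (P i).eval (t 0)) (fun _ => 1) = f z := funext hP1
  obtain ⟨φ, hφ, ⟨τ, hτ⟩, hnc⟩ := (torSp_of_isSp hP).ell (fun i => by
      obtain ⟨d, -, hd⟩ := hF i
      exact ⟨d, hd⟩) L (t := fun _ => 1) (fun _ => one_ne_zero) (fun h2 => hfz (h1.symm.trans h2))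
  refine ⟨hfz, φ, hφ, ⟨τ, ?_⟩, hnc⟩
  rw [hτ]
  congr 1

end Pool.Agent.Q33.SP
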