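import Pool.Agent.Q33.SP.Core2
import Pool.Agent.Q33.SP.Pt

/-!
Rational functions which are constant along the curves through the points of an essential curve are
meromorphic along the essential curve.
-/

set_option autoImplicit false

namespace Pool.Agent.Q33.SP

open Filter Topology Pool.Agent.W603.BP MvPolynomial

variable {n r : ℕ} {ι : Type}

/-- The curves through the points of a curve, with exponents which are generic in degree `D'`. -/
theorem germ2 {D D' M q : ℕ} (hDD : D ≤ D') (hr : 0 < r) (F : ι → MvPolynomial (Fin (n + 1)) ℂ)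
    (hF : ∀ i, ∃ d, d ≤ D ∧ (F i).IsHomogeneous d) (Q : MvPolynomial (Fin (n + 1)) ℂ)
    (hQ : Q.IsHomogeneous q) (hq : q ≤ D) (hM : ((r + D - 1).choose D) ^ 2 ≤ M)
    (f : ℂ → Fin (n + 1) → ℂ) (hf : SumPow r M f)
    (hX : ∀ᶠ w in 𝓝[≠] (0 : ℂ), (∀ i, eval (f w) (F i) = 0) ∧ eval (f w) Q ≠ 0) :
    ∃ (V : Fin r → Fin (n + 1) → ℂ → ℂ) (k : Fin r → ℂ → ℂ) (δ : ℝ) (m : ℕ), 0 < δ ∧
      (∀ j i, MeromorphicAt (V j i) 0) ∧ (∀ j, Pun (k j)) ∧ (∀ j, Nz (k j)) ∧
      (∀ w ∈ PB δ, (∀ j i, AnalyticAt ℂ (V j i) w) ∧ (∀ j, AnalyticAt ℂ (k j) w) ∧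
        (∀ i, f w i = ∑ j, V j i w * k j w ^ M) ∧
        (∀ i, aeval (cur (fun j i => V j i w * k j w ^ M) (ex2 D' M k)) (F i) = 0) ∧
        eval (f w) Q ≠ 0 ∧ aeval (cur (fun j i => V j i w * k j w ^ M) (ex2 D' M k)) Q =
          Polynomial.C (eval (f w) Q) * Polynomial.X ^ m) := by
  classical
  have hM0 : 0 < M := lt_of_lt_of_le (pow_pos (Nat.choose_pos (by omega)) 2) hM
  obtain ⟨V, k, hV, hk, hz, hfe⟩ := normalize hM0 hf
  have hcol : Col D M k (ex2 D' M k) := (ex2_col D' M k).mono hDD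
  set e := ex2 D' M k with he
  have hVan : ∀ᶠ w in 𝓝[≠] (0 : ℂ), ∀ j i, AnalyticAt ℂ (V j i) w := by
    rw [Filter.eventually_all]
    intro j
    rw [Filter.eventually_all]
    intro i
    exact Pun.mero (hV j i)
  have hkan : ∀ᶠ w in 𝓝[≠] (0 : ℂ), ∀ j, AnalyticAt ℂ (k j) w := by
    rw [Filter.eventually_all]
    exact hk
  obtain ⟨δ, hδ, hall⟩ := ev_iff.1 (hVan.and (hkan.and (hfe.and hX)))
  have hev : ∀ G : MvPolynomial (Fin (n + 1)) ℂ, ∀ w ∈ PB δ,
      eval (fun i => ∑ j, V j i w * k j w ^ M) G = eval (f w) G := by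
    intro G w hw
    have : (fun i => ∑ j, V j i w * k j w ^ M) = f w := by
      funext i
      exact ((hall w hw).2.2.1 i).symm
    rw [this]
  have hcoef : ∀ (G : MvPolynomial (Fin (n + 1)) ℂ) (v : ℕ), AnalyticOnNhd ℂ
      (fun w => (aeval (cur (fun j i => V j i w * k j w ^ M) e) G).coeff v) (PB δ) := by
    intro G v w hw
    exact an_coeff (hall w hw).1 (hall w hw).2.1 e G v
  have hzero : ∀ i, ∀ w ∈ PB δ, aeval (cur (fun j i => V j i w * k j w ^ M) e) (F i) = 0 := by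
    intro i w hw
    obtain ⟨d, hd, hFd⟩ := hF i
    have h1 := split_zero2 (V := V) (k := k) hcol hV hk hM0 hFd hd
      ((Nat.pow_le_pow_left ((Nat.sub_le _ _).trans (card_le hFd hd hr)) 2).trans hM) (by
        refine ev_iff.2 ⟨δ, hδ, fun w hw => ?_⟩
        rw [hev _ w hw]
        exact (hall w hw).2.2.2.1 i)
    ext v
    rw [Polynomial.coeff_zero]
    refine eq_zero_on hδ (hcoef (F i) v) ?_ w hw
    filter_upwards [h1] with w hw
    rw [hw, Polynomial.coeff_zero]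
  obtain ⟨m, hm⟩ := split_unit2 (V := V) (k := k) hcol hV hk hM0 hQ hq
    ((Nat.pow_le_pow_left (card_le hQ hq hr) 2).trans hM) (by
      refine ev_iff.2 ⟨δ, hδ, fun w hw => ?_⟩
      rw [hev _ w hw]
      exact (hall w hw).2.2.2.2)
  have hunit : ∀ w ∈ PB δ, aeval (cur (fun j i => V j i w * k j w ^ M) e) Q =
      Polynomial.C (eval (f w) Q) * Polynomial.X ^ m := by
    intro w hw
    ext v
    rw [← sub_eq_zero]
    have h1 : AnalyticOnNhd ℂ (fun w => (aeval (cur (fun j i => V j i w * k j w ^ M) e) Q).coeff v -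
        (Polynomial.C (eval (f w) Q) * Polynomial.X ^ m).coeff v) (PB δ) := by
      intro w hw
      refine (hcoef Q v w hw).fun_sub ?_
      simp only [Polynomial.coeff_C_mul_X_pow]
      by_cases hv : v = m
      · simp only [if_pos hv]
        have h2 : AnalyticAt ℂ (fun w => aeval (fun i => ∑ j, V j i w * k j w ^ M) Q) w :=
          an_aeval Q fun i => Finset.analyticAt_fun_sum _ fun j _ =>
            ((hall w hw).1 j i).fun_mul (((hall w hw).2.1 j).fun_pow M)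
        refine h2.congr ?_
        filter_upwards [(PB_open δ).mem_nhds hw] with z hz
        rw [← hev Q z hz, ← coe_aeval_eq_eval]
        rfl
      · simp only [if_neg hv]
        exact analyticAt_const
    refine eq_zero_on hδ h1 ?_ w hw
    filter_upwards [hm, PB_mem hδ] with w hw hwδ
    rw [hw, hev Q w hwδ, sub_self]
  exact ⟨V, k, δ, m, hδ, hV, hk, hz, fun w hw => ⟨(hall w hw).1, (hall w hw).2.1,
    (hall w hw).2.2.1, fun i => hzero i w hw, (hall w hw).2.2.2.2, hunit w hw⟩⟩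

/-- the coefficients of a form along the curves -/
theorem coef_mon {D' M d : ℕ} {V : Fin r → Fin (n + 1) → ℂ → ℂ} {k : Fin r → ℂ → ℂ}
    (hV : ∀ j i, MeromorphicAt (V j i) 0) {e : Fin r → ℕ} (hc : Cmp D' M k e)
    {a0 : Fin r →₀ ℕ} (h0 : ∑ j, a0 j = d) (hd : d ≤ D') {G : MvPolynomial (Fin (n + 1)) ℂ}
    (hG : G.IsHomogeneous d) : ∃ α : ℂ → ℂ, MeromorphicAt α 0 ∧ ∀ᶠ w in 𝓝[≠] (0 : ℂ),
      (aeval (cur (fun j i => V j i w * k j w ^ M) e) G).coeff (∑ j, a0 j * e j) =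
        α w * mon k a0 w ^ M := by
  classical
  set A := (gs r G).support.filter (fun a => ∑ j, a j * e j = ∑ j, a0 j * e j) with hA
  have hrel : ∀ a : Fin r →₀ ℕ, ∃ ρ : ℂ → ℂ, MeromorphicAt ρ 0 ∧ (a ∈ A → ∀ᶠ w in 𝓝[≠] (0 : ℂ),
      mon k a w ^ M = ρ w * mon k a0 w ^ M) := by
    intro a
    by_cases ha : a ∈ A
    · have h1 := Finset.mem_filter.1 ha
      have h2 := gs_degree hG h1.1
      obtain ⟨ρ, h3, h4⟩ := hc a a0 (by rw [h2, h0]) (by rw [h2]; exact hd) h1.2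
      exact ⟨ρ, h3, fun _ => h4⟩
    · exact ⟨fun _ => 0, MeromorphicAt.const 0 0, fun h => absurd h ha⟩
  choose ρ hρ hρe using hrel
  refine ⟨fun w => ∑ a ∈ A, aeval (fun p : Fin r × Fin (n + 1) => V p.1 p.2 w)
    ((gs r G).coeff a) * ρ a w, ?_, ?_⟩
  · exact MeromorphicAt.fun_sum fun a _ =>
      (mero_aeval ((gs r G).coeff a) (U := fun p : Fin r × Fin (n + 1) => V p.1 p.2)
        fun p => hV p.1 p.2).fun_mul (hρ a)
  · have h1 : ∀ᶠ w in 𝓝[≠] (0 : ℂ), ∀ a ∈ A, mon k a w ^ M = ρ a w * mon k a0 w ^ M :=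
      (Filter.eventually_all_finset _).2 fun a ha => hρe a ha
    filter_upwards [h1] with w hw
    rw [cur_expand, coeff_sum_pow _ _ (fun a : Fin r →₀ ℕ => ∑ j, a j * e j), Finset.sum_mul]
    refine Finset.sum_congr rfl fun a ha => ?_
    rw [prod_pow_M, hw a ha]
    ring

/-- **Functions which are constant along the curves are meromorphic.** -/
theorem flat_mero {D' M d : ℕ} {V : Fin r → Fin (n + 1) → ℂ → ℂ} {k : Fin r → ℂ → ℂ}
    (hV : ∀ j i, MeromorphicAt (V j i) 0) (hk : ∀ j, Pun (k j)) (hz : ∀ j, Nz (k j))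
    {e : Fin r → ℕ} (hc : Cmp D' M k e) (hd : d ≤ D') {g0 g1 : MvPolynomial (Fin (n + 1)) ℂ}
    (hg0 : g0.IsHomogeneous d) (hg1 : g1.IsHomogeneous d) {f : ℂ → Fin (n + 1) → ℂ}
    (hf : ∀ᶠ w in 𝓝[≠] (0 : ℂ), ∀ i, f w i = ∑ j, V j i w * k j w ^ M)
    (hflat : ∀ᶠ w in 𝓝[≠] (0 : ℂ),
      aeval (cur (fun j i => V j i w * k j w ^ M) e) g1 * Polynomial.C (eval (f w) g0) =
        aeval (cur (fun j i => V j i w * k j w ^ M) e) g0 * Polynomial.C (eval (f w) g1))
    (h0 : ¬ ∀ᶠ w in 𝓝[≠] (0 : ℂ), eval (f w) g0 = 0) :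
    ∃ ρ : ℂ → ℂ, MeromorphicAt ρ 0 ∧
      ∀ᶠ w in 𝓝[≠] (0 : ℂ), eval (f w) g1 = ρ w * eval (f w) g0 := by
  classical
  let A : MvPolynomial (Fin (n + 1)) ℂ → ℂ → Polynomial ℂ := fun G w =>
    aeval (cur (fun j i => V j i w * k j w ^ M) e) G
  -- the value at one
  have hone : ∀ (G : MvPolynomial (Fin (n + 1)) ℂ), ∀ᶠ w in 𝓝[≠] (0 : ℂ),
      eval (f w) G = ∑ v ∈ (gs r G).support.image (fun a : Fin r →₀ ℕ => ∑ j, a j * e j),
        (A G w).coeff v := by
    intro G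
    filter_upwards [hf] with w hw
    have h1 : (fun i => ∑ j, V j i w * k j w ^ M) = f w := by
      funext i
      exact (hw i).symm
    rw [← h1, pt_expand, ← Finset.sum_fiberwise_of_maps_to (fun a ha =>
      Finset.mem_image_of_mem (fun a : Fin r →₀ ℕ => ∑ j, a j * e j) ha)]
    refine Finset.sum_congr rfl fun v _ => ?_
    change _ = (aeval (cur (fun j i => V j i w * k j w ^ M) e) G).coeff v
    rw [cur_expand, coeff_sum_pow _ _ (fun a : Fin r →₀ ℕ => ∑ j, a j * e j)]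
    refine Finset.sum_congr rfl fun a _ => ?_
    rw [prod_pow_M]
  obtain ⟨v, hv, hvn⟩ : ∃ v ∈ (gs r g0).support.image (fun a : Fin r →₀ ℕ => ∑ j, a j * e j),
      ¬ ∀ᶠ w in 𝓝[≠] (0 : ℂ), (A g0 w).coeff v = 0 := by
    by_contra hcon
    push Not at hcon
    apply h0
    have h1 : ∀ᶠ w in 𝓝[≠] (0 : ℂ), ∀ v ∈ (gs r g0).support.image
        (fun a : Fin r →₀ ℕ => ∑ j, a j * e j), (A g0 w).coeff v = 0 :=
      (Filter.eventually_all_finset _).2 fun v hv => hcon v hv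
    filter_upwards [h1, hone g0] with w h2 h3
    rw [h3]
    exact Finset.sum_eq_zero h2
  obtain ⟨a0, ha0, rfl⟩ := Finset.mem_image.1 hv
  have hdeg := gs_degree hg0 ha0
  obtain ⟨α, hα, hαe⟩ := coef_mon (k := k) hV hc hdeg hd hg1
  obtain ⟨β, hβ, hβe⟩ := coef_mon (k := k) hV hc hdeg hd hg0
  have hβn : Nz β := by
    intro h1
    apply hvn
    filter_upwards [h1, hβe] with w h2 h3
    change (aeval (cur (fun j i => V j i w * k j w ^ M) e) g0).coeff _ = 0
    rw [h3, h2, zero_mul]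
  have hfP : ∀ G : MvPolynomial (Fin (n + 1)) ℂ, Pun (fun w => eval (f w) G) := by
    intro G
    have h1 : ∀ᶠ w in 𝓝[≠] (0 : ℂ), (∀ i j, AnalyticAt ℂ (V j i) w) ∧ ∀ j, AnalyticAt ℂ (k j) w := by
      apply Filter.Eventually.and
      · rw [Filter.eventually_all]
        intro i
        rw [Filter.eventually_all]
        intro j
        exact Pun.mero (hV j i)
      · rw [Filter.eventually_all]
        exact hk
    obtain ⟨δ, hδ, hall⟩ := ev_iff.1 (h1.and hf)
    refine ev_iff.2 ⟨δ, hδ, fun w hw => ?_⟩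
    have h2 : AnalyticAt ℂ (fun w => aeval (fun i => ∑ j, V j i w * k j w ^ M) G) w :=
      an_aeval G fun i => Finset.analyticAt_fun_sum _ fun j _ =>
        ((hall w hw).1.1 i j).fun_mul (((hall w hw).1.2 j).fun_pow M)
    refine h2.congr ?_
    filter_upwards [(PB_open δ).mem_nhds hw] with z hz
    have h3 : (fun i => ∑ j, V j i z * k j z ^ M) = f z := by
      funext i
      exact ((hall z hz).2 i).symm
    rw [h3]
    rfl
  have hmP : Pun (fun w => mon k a0 w ^ M) := (pun_mon hk a0).pow M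
  have hmN : Nz (fun w => mon k a0 w ^ M) := (nz_mon hk hz a0).pow M
  have h2 : ∀ᶠ w in 𝓝[≠] (0 : ℂ),
      mon k a0 w ^ M * (α w * eval (f w) g0 - β w * eval (f w) g1) = 0 := by
    filter_upwards [hflat, hαe, hβe] with w h3 h4 h5
    have h6 := congrArg (fun P => Polynomial.coeff P (∑ j, a0 j * e j)) h3
    simp only [Polynomial.coeff_mul_C] at h6
    rw [h4, h5] at h6
    linear_combination h6
  have h3 : Pun (fun w => α w * eval (f w) g0 - β w * eval (f w) g1) := by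
    filter_upwards [(Pun.mero hα).mul (hfP g0), (Pun.mero hβ).mul (hfP g1)] with w a1 a2
    exact a1.fun_sub a2
  have h4 := (pun_mul_zero hmP h3 h2).resolve_left hmN
  refine ⟨fun w => α w / β w, hα.fun_div hβ, ?_⟩
  filter_upwards [h4, mero_ne hβ hβn] with w h5 h6
  field_simp
  linear_combination -h5

end Pool.Agent.Q33.SP
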