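import Pool.Agent.Q33.SP.Iit
import Pool.Agent.Q33.SP.Main

/-!
Rational functions constant along covering families of rational curves: ratios of logarithmic
tensors, and subvarieties of log general type.
-/

set_option autoImplicit false

namespace Pool.Agent.Q33.SP

open Filter Topology Pool.Agent.W603.BP MvPolynomial FF Pool.Agent.W602.GT Pool.Agent.TH143.GT
open Pool.Agent.H159R3.NV Pool.Agent.W603.GR Pool.Agent.W603.PV
open IntermediateField hiding val

variable {n r : ℕ} {ι : Type}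

/-- The ratios of two tensors of the same type on a variety with function field `K`, of
transcendence degree `w`, and boundary places `Bd`: the ratios of two sections of `N (K_X + D)`, and
the ratios `f 1 / f 0` for sections `f 0 * θ ^ N`, `f 1 * θ ^ N` with logarithmic poles along the
boundary, where `θ` is a nonzero rational section of the `p`-th tensor power of the cotangent
bundle. -/
def LogRatios (K : Type) [Field K] [Algebra ℂ K] (w : ℕ) (Bd : Place ℂ K → Prop) : Set K :=
  {s | (∃ N : ℕ, 0 < N ∧ ∃ ω0 ω1 : (Fin w → Derivation ℂ K K) → K,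
      LogSec ℂ K w N Bd ω0 ∧ LogSec ℂ K w N Bd ω1 ∧ ∃ D, s = ω1 D / ω0 D) ∨
    ∃ (p : ℕ) (θ : MultilinearMap K (fun _ : Fin p => Derivation ℂ K K) K), θ ≠ 0 ∧
      ∃ N : ℕ, 0 < N ∧ ∃ f : Fin 2 → K,
        (∀ v : Place ℂ K, Divisorial w v → ∀ D : Fin p → Derivation ℂ K K,
          (∀ i, DerLog v (D i)) → ∀ j, v.Reg (f j * θ D ^ N)) ∧
        (∀ v : Place ℂ K, Divisorial w v → ¬ Bd v →
          ∀ D : Fin p → Derivation ℂ K K, (∀ i, DerReg v (D i)) → ∀ j, v.Reg (f j * θ D ^ N)) ∧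
        s = f 1 / f 0}

/-- The function `s` is algebraic over the field generated by the ratios of log tensors. -/
def OverCore {K : Type} [Field K] [Algebra ℂ K] (w : ℕ) (Bd : Place ℂ K → Prop) (s : K) : Prop :=
  IsAlgebraic (IntermediateField.adjoin ℂ (LogRatios K w Bd)) s

/-- The rational function `s` is constant on the entire curve `f`. -/
def ConstOn {K : Type} [Field K] [Algebra ℂ K] (y : Fin (n + 1) → K) (s : K)
    (f : ℂ → Fin (n + 1) → ℂ) : Prop :=
  ∃ c : ℂ, ∀ (d : ℕ) (g1 g0 : MvPolynomial (Fin (n + 1)) ℂ), g1.IsHomogeneous d →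
    g0.IsHomogeneous d → W602.GT.val y g0 ≠ 0 → s = W602.GT.val y g1 / W602.GT.val y g0 →
    ∀ z, eval (f z) g1 = c * eval (f z) g0

/-- The restriction of the rational function `s` to the curve `f` extends to the origin as a
meromorphic function. -/
def MeroOn {K : Type} [Field K] [Algebra ℂ K] (y : Fin (n + 1) → K) (s : K)
    (f : ℂ → Fin (n + 1) → ℂ) : Prop :=
  ∃ ρ : ℂ → ℂ, MeromorphicAt ρ 0 ∧ RestrictsTo y s f ρ

/-- a derivation which is zero on a set is zero on the elements algebraic over the field it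
generates -/
theorem der_alg {K L : Type} [Field K] [Field L] [Algebra ℂ K] [Algebra ℂ L] [Algebra K L]
    [IsScalarTower ℂ K L] (δ : Derivation ℂ K L) (S : Set K) (hS : ∀ s ∈ S, δ s = 0) {s : K}
    (hs : IsAlgebraic (IntermediateField.adjoin ℂ S) s) : δ s = 0 := by
  classical
  let C : IntermediateField ℂ K :=
    { carrier := {f | δ f = 0}
      mul_mem' := fun {a b} ha hb => by
        change δ (a * b) = 0
        rw [δ.leibniz, show δ a = 0 from ha, show δ b = 0 from hb, smul_zero, smul_zero, add_zero]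
      one_mem' := δ.map_one_eq_zero
      add_mem' := fun {a b} ha hb => by
        change δ (a + b) = 0
        rw [map_add, show δ a = 0 from ha, show δ b = 0 from hb, add_zero]
      zero_mem' := map_zero δ
      algebraMap_mem' := fun r => δ.map_algebraMap r
      inv_mem' := fun x hx => by
        change δ x⁻¹ = 0
        by_cases h0 : x = 0
        · rw [h0, inv_zero, map_zero]
        have h1 : δ (x * x⁻¹) = 0 := by rw [mul_inv_cancel₀ h0, δ.map_one_eq_zero]
        rw [δ.leibniz, show δ x = 0 from hx, smul_zero, add_zero] at h1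
        exact (smul_eq_zero.1 h1).resolve_left h0 }
  have hle : IntermediateField.adjoin ℂ S ≤ C := IntermediateField.adjoin_le_iff.2 hS
  have hz : ∀ a : IntermediateField.adjoin ℂ S, δ (a : K) = 0 := fun a => hle a.2
  let δ' : Derivation (IntermediateField.adjoin ℂ S) K L :=
    { toFun := δ
      map_add' := fun a b => map_add δ a b
      map_smul' := fun a b => by
        have h1 : a • b = (a : K) * b := rfl
        have h2 : a • δ b = (a : K) • δ b := rfl
        rw [RingHom.id_apply, h1, δ.leibniz, hz a, smul_zero, add_zero]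
        rfl
      map_one_eq_zero' := δ.map_one_eq_zero
      leibniz' := fun a b => δ.leibniz a b }
  have h0 : δ' s = 0 := by
    have hint : IsIntegral (IntermediateField.adjoin ℂ S) s := hs.isIntegral
    have h1 : δ' (Polynomial.aeval s (minpoly (IntermediateField.adjoin ℂ S) s)) = 0 := by
      rw [minpoly.aeval, map_zero]
    rw [Derivation.map_aeval] at h1
    have hsep : (minpoly (IntermediateField.adjoin ℂ S) s).Separable :=
      (minpoly.irreducible hint).separable
    have h2 : Polynomial.aeval s (Polynomial.derivative (minpoly (IntermediateField.adjoin ℂ S) s)) ≠ 0 :=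
      hsep.aeval_derivative_ne_zero (minpoly.aeval _ _)
    exact (smul_eq_zero.1 h1).resolve_left h2
  exact h0

/-- ratios of sections of `N (K_X + D)` -/
theorem logsec_ratio {K : Type} [Field K] [Algebra ℂ K] {w : ℕ} (hdim : Algebra.trdeg ℂ K = w)
    {Bd : Place ℂ K → Prop} {N : ℕ} (hN : 0 < N) {ω0 ω1 : (Fin w → Derivation ℂ K K) → K}
    (hω0 : LogSec ℂ K w N Bd ω0) (hω1 : LogSec ℂ K w N Bd ω1) (D : Fin w → Derivation ℂ K K)
    (hD : ω0 D ≠ 0) :
    ∃ (p : ℕ) (θ : MultilinearMap K (fun _ : Fin p => Derivation ℂ K K) K), θ ≠ 0 ∧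
      ∃ N : ℕ, 0 < N ∧ ∃ f : Fin 2 → K,
        (∀ v : Place ℂ K, Divisorial w v → ∀ D : Fin p → Derivation ℂ K K,
          (∀ i, DerLog v (D i)) → ∀ j, v.Reg (f j * θ D ^ N)) ∧
        (∀ v : Place ℂ K, Divisorial w v → ¬ Bd v →
          ∀ D : Fin p → Derivation ℂ K K, (∀ i, DerReg v (D i)) → ∀ j, v.Reg (f j * θ D ^ N)) ∧
        ω1 D / ω0 D = f 1 / f 0 := by
  obtain ⟨θ, E, hθ, hθE⟩ := exists_det_form hdim
  have hθ' : (θ : MultilinearMap K (fun _ : Fin w => Derivation ℂ K K) K) ≠ 0 := by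
    intro h0
    apply hθ
    ext D
    exact congrFun (congrArg DFunLike.coe h0) D
  refine ⟨w, θ, hθ', N, hN, ![ω0 E, ω1 E], ?_, ?_, ?_⟩
  · intro v hv D hD' j
    fin_cases j
    · change v.Reg (ω0 E * θ D ^ N)
      rw [hθE N ω0 hω0.1]
      exact hω0.2.1 v hv D hD'
    · change v.Reg (ω1 E * θ D ^ N)
      rw [hθE N ω1 hω1.1]
      exact hω1.2.1 v hv D hD'
  · intro v hv hB D hD' j
    fin_cases j
    · change v.Reg (ω0 E * θ D ^ N)
      rw [hθE N ω0 hω0.1]
      exact hω0.2.2 v hv hB D hD'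
    · change v.Reg (ω1 E * θ D ^ N)
      rw [hθE N ω1 hω1.1]
      exact hω1.2.2 v hv hB D hD'
  · change ω1 D / ω0 D = ω1 E / ω0 E
    rw [← hθE N ω0 hω0.1 D, ← hθE N ω1 hω1.1 D]
    have h4 : θ D ^ N ≠ 0 := by
      intro h5
      apply hD
      rw [← hθE N ω0 hω0.1 D, h5, mul_zero]
    rw [mul_div_mul_right _ _ h4]

/-- **Functions over the base of the Iitaka fibration** are constant along the covering families. -/
theorem flatFn_of_core {Q : MvPolynomial (Fin (n + 1)) ℂ} {q : ℕ} (hQ : Q.IsHomogeneous q)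
    {p : Ideal (MvPolynomial (Fin (n + 1)) ℂ)} {K : Type} [Field K] [Algebra ℂ K] {w : ℕ}
    {y : Fin (n + 1) → K} (hy : FunField p Q K w y) {s : K} (hs : OverCore w (OffQ Q q y) s) :
    FlatFn y Q s := by
  intro M _ _ m W l hm hfam _
  obtain ⟨φ, δ, h1, h2, -⟩ := hfam.const hy.sub.dim hm hy.sub.ne hy.sub.gen hQ
  have hL : ∀ s ∈ LogRatios K w (OffQ Q q y), δ (φ s) = 0 := by
    have h3 : ∀ (p : ℕ) (θ : MultilinearMap K (fun _ : Fin p => Derivation ℂ K K) K), θ ≠ 0 →
      ∀ N : ℕ, 0 < N → ∀ f : Fin 2 → K,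
        (∀ v : Place ℂ K, Divisorial w v → ∀ D : Fin p → Derivation ℂ K K,
          (∀ i, DerLog v (D i)) → ∀ j, v.Reg (f j * θ D ^ N)) →
        (∀ v : Place ℂ K, Divisorial w v → ¬ OffQ Q q y v →
          ∀ D : Fin p → Derivation ℂ K K, (∀ i, DerReg v (D i)) → ∀ j, v.Reg (f j * θ D ^ N)) →
        δ (φ (f 1 / f 0)) = 0 := fun p θ hθ N hN f a1 a2 => h2 p θ hθ N hN (Fin 2) f a1 a2 0 1
    rintro s (⟨N, hN, ω0, ω1, hω0, hω1, D, rfl⟩ | ⟨p', θ, hθ, N, hN, f, a1, a2, rfl⟩)
    · by_cases hD : ω0 D = 0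
      · rw [hD, div_zero, map_zero, map_zero]
      · obtain ⟨p', θ, hθ, N', hN', f, a1, a2, a3⟩ := logsec_ratio hy.sub.dim hN hω0 hω1 D hD
        rw [a3]
        exact h3 p' θ hθ N' hN' f a1 a2
    · exact h3 p' θ hθ N hN f a1 a2
  have hsz : δ (φ s) = 0 := by
    let _ : Algebra K (RatFunc M) := φ.toRingHom.toAlgebra
    have t1 : IsScalarTower ℂ K (RatFunc M) := IsScalarTower.of_algebraMap_eq fun c => by
      change _ = φ (algebraMap ℂ K c)
      rw [φ.commutes]
    exact der_alg (δ.compAlgebraMap K) _ hL hs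
  intro d g1 g0 i1 i0 hn hrg
  rw [hrg] at hsz
  exact h1 d g1 g0 i1 i0 hn hsz

/-- all functions on a variety of log general type are algebraic over the field of the ratios -/
theorem core_of_gt {K : Type} [Field K] [Algebra ℂ K] {w : ℕ} (hdim : Algebra.trdeg ℂ K = w)
    {Bd : Place ℂ K → Prop} (h : LogGeneralType ℂ K w Bd) (s : K) : OverCore w Bd s := by
  obtain ⟨-, N, hN, ω, hpl, hlog, hreg, D, hD0, hind⟩ := h
  have hmem : ∀ i : Fin w, ω i.succ D / ω 0 D ∈ LogRatios K w Bd := fun i =>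
    Or.inl ⟨N, hN, ω 0, ω i.succ, ⟨hpl _, fun v hv => hlog v hv _, fun v hv hb => hreg v hv hb _⟩,
      ⟨hpl _, fun v hv => hlog v hv _, fun v hv hb => hreg v hv hb _⟩, D, rfl⟩
  have hbasis : IsTranscendenceBasis ℂ (fun i : Fin w => ω i.succ D / ω 0 D) := by
    refine hind.isTranscendenceBasis_of_lift_trdeg_le_of_finite ?_
    rw [hdim]
    simp
  have hle : Algebra.adjoin ℂ (Set.range (fun i : Fin w => ω i.succ D / ω 0 D)) ≤
      (IntermediateField.adjoin ℂ (LogRatios K w Bd)).toSubalgebra := by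
    rw [Algebra.adjoin_le_iff]
    rintro _ ⟨i, rfl⟩
    exact IntermediateField.subset_adjoin _ _ (hmem i)
  have halg := hbasis.isAlgebraic
  let φ : Algebra.adjoin ℂ (Set.range (fun i : Fin w => ω i.succ D / ω 0 D)) →+*
      IntermediateField.adjoin ℂ (LogRatios K w Bd) := (Subalgebra.inclusion hle : _ →+* _)
  exact (halg.isAlgebraic s).ringHom_of_comp_eq φ (RingHom.id K)
      (Subalgebra.inclusion_injective hle) (by ext z; rfl)

/-- a curve with few terms is not contained in a variety of log general type -/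
theorem sub_gt_no_sp {F : ι → MvPolynomial (Fin (n + 1)) ℂ} {Q : MvPolynomial (Fin (n + 1)) ℂ}
    {q : ℕ} (hQ : Q.IsHomogeneous q) {p : Ideal (MvPolynomial (Fin (n + 1)) ℂ)} (hp : IsHomog p)
    (hcut : ∀ H ∈ p, ∀ x, OnX F Q x → eval x H = 0) {G : MvPolynomial (Fin (n + 1)) ℂ}
    (hG : IsForm G) (h : SubLogGT p Q q G) {e : Fin r → ℕ} {P : Fin (n + 1) → Polynomial ℂ}
    (hP : IsSp F Q e P) : aeval P G = 0 := by
  by_contra hG0
  have hpre : IsPreconnected ({0}ᶜ : Set ℂ) :=
    (isConnected_compl_singleton_of_one_lt_rank (by simp) 0).isPreconnected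
  have han : ∀ j, AnalyticOnNhd ℂ (fun w => (P j).eval w) ({0}ᶜ : Set ℂ) := fun j w _ =>
    (P j).differentiable.analyticAt w
  obtain ⟨s, t, i0, l0, hs, ht, hst⟩ := hP.nonconst
  have hex : ∃ j0, ∃ z ∈ ({0}ᶜ : Set ℂ), (P j0).eval z ≠ 0 := by
    by_contra hno
    push Not at hno
    apply hst
    rw [hno i0 s hs, hno l0 s hs]
    ring
  obtain ⟨j0, hj0⟩ := hex
  obtain ⟨K, i1, i2, w, y, h1, h2, h3, h4, h5⟩ := exists_closure (fun z j => (P j).eval z) hpre han
    hj0
  have hy : GenPt (fun z j => (P j).eval z) ({0}ᶜ : Set ℂ) K w y := ⟨h1, h2, h3, h4⟩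
  have hev : ∀ (H : MvPolynomial (Fin (n + 1)) ℂ) (z : ℂ),
      eval (fun j => (P j).eval z) H = (aeval P H : Polynomial ℂ).eval z := by
    intro H z
    rw [eval_aeval]
    rfl
  have hrel : ∀ H : MvPolynomial (Fin (n + 1)) ℂ, IsForm H →
      (W602.GT.val y H = 0 ↔ (aeval P H : Polynomial ℂ) = 0) := by
    intro H hH
    rw [hy.rel H hH]
    constructor
    · intro h0
      apply poly_zero_of_ne
      intro t ht
      rw [← hev]
      exact h0 t ht
    · intro h0 z hz
      rw [hev, h0, Polynomial.eval_zero]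
  rcases Nat.eq_zero_or_pos w with hw | hw
  · choose c hc using h5 hw
    apply hst
    rw [hc i0 s hs, hc l0 t ht, hc l0 s hs, hc i0 t ht]
    ring
  · have hon : ∀ z ∈ ({0}ᶜ : Set ℂ), OnX F Q (fun j => (P j).eval z) := fun z hz => sp_on hP hz
    have hsub := subVar_of_genPt hp hQ hy (fun z hz H hH => hcut H hH _ (hon z hz))
      ⟨1, one_ne_zero, (hon 1 one_ne_zero).2⟩
    have hGy : W602.GT.val y G ≠ 0 := fun h0 => hG0 ((hrel G hG).1 h0)
    obtain ⟨c, m, hc, hcm⟩ := hP.off
    have hfam : Fam y Q P m := ⟨hrel, c, hc, hcm⟩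
    have hflat := (hfam.main (m := 0) h3 (by rw [trdeg_eq_zero]; simp) h1 h2 hQ).2.2.1 (h K w y hw hsub hGy)
    obtain ⟨a, ha⟩ := Function.ne_iff.1 h1
    have hX : ∀ j : Fin (n + 1), W602.GT.val y (X j : MvPolynomial (Fin (n + 1)) ℂ) = y j := fun j => by
      unfold W602.GT.val
      rw [aeval_X]
    have hya : W602.GT.val y (X a : MvPolynomial (Fin (n + 1)) ℂ) ≠ 0 := by
      rw [hX]
      exact ha
    have hPa : P a ≠ 0 := by
      intro h0
      apply hya
      rw [hrel _ ⟨1, isHomogeneous_X _ _⟩, aeval_X, h0]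
    have hd : ∀ j, Polynomial.derivative (P j) * P a = P j * Polynomial.derivative (P a) := by
      intro j
      have h6 := hflat (y j / y a) 1 (X j) (X a) (isHomogeneous_X _ _) (isHomogeneous_X _ _) hya
        (by rw [hX, hX])
      rwa [aeval_X, aeval_X] at h6
    have hcon : ∀ j, Polynomial.C (P a).leadingCoeff * P j =
        Polynomial.C (P j).leadingCoeff * P a := fun j => wr_zero (hd j)
    have hla : (P a).leadingCoeff ≠ 0 := Polynomial.leadingCoeff_ne_zero.2 hPa
    have hev2 : ∀ j z, (P a).leadingCoeff * (P j).eval z = (P j).leadingCoeff * (P a).eval z := by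
      intro j z
      have h7 := congrArg (Polynomial.eval z) (hcon j)
      rwa [Polynomial.eval_mul, Polynomial.eval_mul, Polynomial.eval_C, Polynomial.eval_C] at h7
    apply hst
    apply mul_left_cancel₀ (mul_ne_zero hla hla)
    linear_combination (P a).leadingCoeff * (P l0).eval t * hev2 i0 s +
      (P i0).leadingCoeff * (P a).eval s * hev2 l0 t -
      (P a).leadingCoeff * (P i0).eval t * hev2 l0 s -
      (P l0).leadingCoeff * (P a).eval s * hev2 i0 t

/-- **The restriction of finitely many rational functions over the base of the Iitaka fibration to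
curves with `r` terms.** -/
theorem core_main {D q : ℕ} (hr : 0 < r) (F : ι → MvPolynomial (Fin (n + 1)) ℂ)
    (hF : ∀ i, ∃ d, d ≤ D ∧ (F i).IsHomogeneous d) (Q : MvPolynomial (Fin (n + 1)) ℂ)
    (hQ : Q.IsHomogeneous q) (hq : q ≤ D) {p : Ideal (MvPolynomial (Fin (n + 1)) ℂ)} [p.IsPrime]
    (hcut : ∀ H ∈ p, ∀ x, OnX F Q x → eval x H = 0)
    {K : Type} [Field K] [Algebra ℂ K] {w : ℕ} {y : Fin (n + 1) → K} (hy : FunField p Q K w y)
    {k : ℕ} {s : Fin k → K} (hs : ∀ i, FlatFn y Q (s i)) :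
    ∃ G : MvPolynomial (Fin (n + 1)) ℂ, IsForm G ∧ G ∉ p ∧
      ∀ M, ((r + D - 1).choose D) ^ 2 ≤ M →
        (∀ f, PunctSp r M F Q f → (∃ w : ℂ, w ≠ 0 ∧ ‖w‖ < 1 ∧ eval (f w) G ≠ 0) →
          ∀ i, MeroOn y (s i) f) ∧
        (∀ f, EntSp r M F Q f → (∃ z : ℂ, eval (f z) G ≠ 0) → ∀ i, ConstOn y (s i) f) := by
  classical
  choose G hG1 hG2 hG3 using fun i => const_main hr F hF Q hQ hq hcut hy (hs i)
  choose t ht using hG1
  refine ⟨∏ i, G i, ⟨∑ i, t i, IsHomogeneous.prod _ _ _ fun i _ => ht i⟩, ?_, fun M hM => ⟨?_, ?_⟩⟩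
  · intro h
    obtain ⟨i, -, hi⟩ := (Ideal.IsPrime.prod_mem_iff (p := p)).1 h
    exact hG2 i hi
  · rintro f hf ⟨w, hw0, hw1, hwG⟩ i
    rw [map_prod] at hwG
    exact (hG3 i M hM).1 f hf ⟨w, hw0, hw1, fun h0 => hwG (Finset.prod_eq_zero (Finset.mem_univ i)
      h0)⟩
  · rintro f hf ⟨z, hz⟩ i
    rw [map_prod] at hz
    exact (hG3 i M hM).2 f hf ⟨z, fun h0 => hz (Finset.prod_eq_zero (Finset.mem_univ i) h0)⟩

end Pool.Agent.Q33.SP
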