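import Pool.Agent.Q33.SP.NC

/-!
Splitting of the equations along the torus of the relations.
-/

set_option autoImplicit false

namespace Pool.Agent.Q33.SP

open Filter Topology Pool.Agent.W603.BP MvPolynomial

variable {n r g : ℕ}

/-- monomials in the coordinates of a torus -/
noncomputable def tm (t : Fin g → ℂ) (m : Fin g → ℤ) : ℂ := ∏ b, t b ^ m b

theorem tm_ne {t : Fin g → ℂ} (ht : ∀ b, t b ≠ 0) (m : Fin g → ℤ) : tm t m ≠ 0 :=
  Finset.prod_ne_zero_iff.2 fun b _ => zpow_ne_zero _ (ht b)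

theorem tm_zero (t : Fin g → ℂ) : tm t 0 = 1 := by
  unfold tm
  simp

theorem tm_prod {t : Fin g → ℂ} (ht : ∀ b, t b ≠ 0) (e : Fin g → Fin r → ℤ) (a : Fin r → ℕ) :
    ∏ j, (tm t fun b => e b j) ^ a j = tm t fun b => ∑ j, (a j : ℤ) * e b j := by
  classical
  unfold tm
  simp_rw [← Finset.prod_pow]
  rw [Finset.prod_comm]
  refine Finset.prod_congr rfl fun b _ => ?_
  have h : ∀ s : Finset (Fin r), ∏ j ∈ s, (t b ^ e b j) ^ a j = t b ^ ∑ j ∈ s, (a j : ℤ) * e b j := by
    intro s
    induction s using Finset.induction_on with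
    | empty => simp
    | insert j s hj ih =>
      rw [Finset.prod_insert hj, ih, Finset.sum_insert hj, zpow_add₀ (ht b), ← zpow_natCast,
        ← zpow_mul, mul_comm (e b j)]
  exact h _

/-- the exponents are orthogonal to the relations -/
def Orth (D M : ℕ) (k : Fin r → ℂ → ℂ) (e : Fin g → Fin r → ℤ) : Prop :=
  ∀ b, ∀ l ∈ rels D M k, ∑ j, l j * e b j = 0

theorem orth_color {D M : ℕ} {k : Fin r → ℂ → ℂ} {e : Fin g → Fin r → ℤ} (he : Orth D M k e)
    {a b : Fin r →₀ ℕ} (h : ∑ j, a j = ∑ j, b j)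
    (ha : ∑ j, a j ≤ D) (hM : MRel (fun w => mon k a w ^ M) (fun w => mon k b w ^ M)) :
    (fun c => ∑ j, (a j : ℤ) * e c j) = fun c => ∑ j, (b j : ℤ) * e c j := by
  classical
  have h1 : (fun j => (a j : ℤ) - b j) ∈ rels D M k := by
    unfold rels
    exact Finset.mem_filter.2 ⟨mem_diffs h ha, a, b, fun j => rfl, hM⟩
  funext c
  have h2 := he c _ h1
  rw [← sub_eq_zero, ← Finset.sum_sub_distrib, ← h2]
  refine Finset.sum_congr rfl fun j _ => ?_
  ring

/-- the value of a form at a sum of terms, moved by the torus -/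
theorem tor_expand (V : Fin r → Fin (n + 1) → ℂ) (k : Fin r → ℂ → ℂ) (M : ℕ) (w : ℂ)
    (e : Fin g → Fin r → ℤ) {t : Fin g → ℂ} (ht : ∀ b, t b ≠ 0)
    (G : MvPolynomial (Fin (n + 1)) ℂ) :
    eval (fun i => ∑ j, V j i * (k j w ^ M * tm t fun b => e b j)) G =
      ∑ a ∈ (gs r G).support,
        (aeval (fun p : Fin r × Fin (n + 1) => V p.1 p.2) ((gs r G).coeff a) *
          mon k a w ^ M) * tm t fun b => ∑ j, (a j : ℤ) * e b j := by
  have h := gs_expand V (fun j => k j w ^ M * tm t fun b => e b j) G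
  rw [← coe_aeval_eq_eval]
  refine (Eq.trans h ?_)
  refine Finset.sum_congr rfl fun a _ => ?_
  rw [mul_assoc]
  congr 1
  rw [← tm_prod ht e a, ← prod_pow_M, ← Finset.prod_mul_distrib]
  refine Finset.prod_congr rfl fun j _ => ?_
  rw [mul_pow]

section germ

variable {V : Fin r → Fin (n + 1) → ℂ → ℂ} {k : Fin r → ℂ → ℂ} {M D d : ℕ}

/-- **Splitting of an equation.** -/
theorem split_zero3 {e₀ : Fin g → Fin r → ℤ} (he₀ : Orth D M k e₀)
    (hV : ∀ j i, MeromorphicAt (V j i) 0) (hk : ∀ j, Pun (k j)) (hM : 0 < M)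
    {G : MvPolynomial (Fin (n + 1)) ℂ} (hG : G.IsHomogeneous d) (hd : d ≤ D)
    (hdM : ((gs r G).support.card - 1) ^ 2 ≤ M)
    (h0 : ∀ᶠ w in 𝓝[≠] (0 : ℂ), eval (fun i => ∑ j, V j i w * k j w ^ M) G = 0) :
    ∀ᶠ w in 𝓝[≠] (0 : ℂ), ∀ t : Fin g → ℂ, (∀ b, t b ≠ 0) →
      eval (fun i => ∑ j, V j i w * (k j w ^ M * tm t fun b => e₀ b j)) G = 0 := by
  classical
  set A := (gs r G).support with hA
  let e : (Fin r →₀ ℕ) → ℂ → ℂ := fun a w => if a ∈ A then mon k a w ^ M else 0
  have heA : ∀ a, a ∈ A → e a = fun w => mon k a w ^ M := by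
    intro a ha
    funext w
    exact if_pos ha
  have henA : ∀ a, a ∉ A → e a = fun _ => 0 := by
    intro a ha
    funext w
    exact if_neg ha
  let col : (Fin r →₀ ℕ) → Fin g → ℤ := fun a c => ∑ j, (a j : ℤ) * e₀ c j
  let ρ : (Fin r →₀ ℕ) → ℂ → ℂ := fun a w =>
    aeval (fun p : Fin r × Fin (n + 1) => V p.1 p.2 w) ((gs r G).coeff a)
  have hcs := color_sums hM e (fun a => by
      by_cases ha : a ∈ A
      · rw [heA a ha]
        exact (pun_mon hk a).pow M
      · rw [henA a ha]
        exact Pun.const 0) (fun a => by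
      by_cases ha : a ∈ A
      · rw [heA a ha]
        exact root_mon hk hM a
      · rw [henA a ha]
        exact ⟨fun _ => 0, Pun.const 0, Eventually.of_forall fun _ => zero_pow hM.ne'⟩) col
    (fun a b ha hb hab => by
      have h1 : a ∈ A := by
        by_contra hcon
        rw [henA a hcon] at ha
        exact ha (Eventually.of_forall fun _ => rfl)
      have h2 : b ∈ A := by
        by_contra hcon
        rw [henA b hcon] at hb
        exact hb (Eventually.of_forall fun _ => rfl)
      rw [heA a h1, heA b h2] at hab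
      rw [heA b h2] at hb
      refine orth_color he₀ ?_ ?_ (growth_mero ((pun_mon hk a).pow M) ((pun_mon hk b).pow M) hb hab)
      · rw [gs_degree hG h1, gs_degree hG h2]
      · rw [gs_degree hG h1]
        exact hd)
    A hdM ρ (fun a => mero_aeval _ fun p => hV p.1 p.2) (by
      filter_upwards [h0] with w hw
      rw [pt_expand] at hw
      rw [← hw]
      refine Finset.sum_congr rfl fun a ha => ?_
      rw [heA a ha])
  have hall : ∀ᶠ w in 𝓝[≠] (0 : ℂ), ∀ v ∈ A.image col,
      ∑ a ∈ A.filter (fun a => col a = v), ρ a w * e a w = 0 :=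
    (Filter.eventually_all_finset _).2 fun v _ => hcs v
  filter_upwards [hall] with w hw t ht
  rw [tor_expand (fun j i => V j i w) k M w e₀ ht G, ← hA,
    ← Finset.sum_fiberwise_of_maps_to (fun a ha => Finset.mem_image_of_mem col ha)]
  refine Finset.sum_eq_zero fun v hv => ?_
  have h1 : ∑ a ∈ A.filter (fun a => col a = v),
      (aeval (fun p : Fin r × Fin (n + 1) => V p.1 p.2 w) ((gs r G).coeff a) *
          mon k a w ^ M) * tm t (fun b => ∑ j, (a j : ℤ) * e₀ b j) =
      (∑ a ∈ A.filter (fun a => col a = v), ρ a w * e a w) * tm t v := by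
    rw [Finset.sum_mul]
    refine Finset.sum_congr rfl fun a ha => ?_
    have ha' := Finset.mem_filter.1 ha
    rw [heA a ha'.1, ← ha'.2]
  rw [h1, hw v hv, zero_mul]

/-- **Splitting of a nonvanishing form.** -/
theorem split_unit3 {e₀ : Fin g → Fin r → ℤ} (he₀ : Orth D M k e₀)
    (hV : ∀ j i, MeromorphicAt (V j i) 0) (hk : ∀ j, Pun (k j)) (hM : 0 < M)
    {G : MvPolynomial (Fin (n + 1)) ℂ} (hG : G.IsHomogeneous d) (hd : d ≤ D)
    (hdM : ((gs r G).support.card) ^ 2 ≤ M)
    (h0 : ∀ᶠ w in 𝓝[≠] (0 : ℂ), eval (fun i => ∑ j, V j i w * k j w ^ M) G ≠ 0) :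
    ∃ m : Fin g → ℤ, ∀ᶠ w in 𝓝[≠] (0 : ℂ), ∀ t : Fin g → ℂ, (∀ b, t b ≠ 0) →
      eval (fun i => ∑ j, V j i w * (k j w ^ M * tm t fun b => e₀ b j)) G =
        eval (fun i => ∑ j, V j i w * k j w ^ M) G * tm t m := by
  classical
  set A := (gs r G).support with hA
  set u : ℂ → ℂ := fun w => eval (fun i => ∑ j, V j i w * k j w ^ M) G with hu
  let e' : (Fin r →₀ ℕ) → ℂ → ℂ := fun a w => if a ∈ A then mon k a w ^ M else 0
  have heA : ∀ a, a ∈ A → e' a = fun w => mon k a w ^ M := by
    intro a ha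
    funext w
    exact if_pos ha
  have henA : ∀ a, a ∉ A → e' a = fun _ => 0 := by
    intro a ha
    funext w
    exact if_neg ha
  let col' : (Fin r →₀ ℕ) → Fin g → ℤ := fun a c => ∑ j, (a j : ℤ) * e₀ c j
  let ρ' : (Fin r →₀ ℕ) → ℂ → ℂ := fun a w =>
    aeval (fun p : Fin r × Fin (n + 1) => V p.1 p.2 w) ((gs r G).coeff a)
  have hρ' : ∀ a, MeromorphicAt (ρ' a) 0 := fun a => mero_aeval _ fun p => hV p.1 p.2
  have he' : ∀ a, Pun (e' a) := by
    intro a
    by_cases ha : a ∈ A
    · rw [heA a ha]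
      exact (pun_mon hk a).pow M
    · rw [henA a ha]
      exact Pun.const 0
  have hue : ∀ w, u w = ∑ a ∈ A, ρ' a w * e' a w := by
    intro w
    rw [hu]
    change eval (fun i => ∑ j, V j i w * k j w ^ M) G = _
    rw [pt_expand]
    refine Finset.sum_congr rfl fun a ha => ?_
    rw [heA a ha]
  have huP : Pun u := by
    have h1 : u = fun w => ∑ a ∈ A, ρ' a w * e' a w := funext hue
    rw [h1]
    exact Pun.sum A fun a _ => (Pun.mero (hρ' a)).mul (he' a)
  have huN : Nz u := by
    intro h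
    obtain ⟨w, h1, h2⟩ := (h.and h0).exists
    exact h2 h1
  have hA1 : ∀ a, Nz (e' a) → a ∈ A := by
    intro a ha
    by_contra hcon
    rw [henA a hcon] at ha
    exact ha (Eventually.of_forall fun _ => rfl)
  have hcol1 : ∀ a b, Nz (e' a) → Nz (e' b) → Gr (e' a) (e' b) → col' a = col' b := by
    intro a b ha hb hab
    have h1 := hA1 a ha
    have h2 := hA1 b hb
    rw [heA a h1, heA b h2] at hab
    rw [heA b h2] at hb
    refine orth_color he₀ ?_ ?_ (growth_mero ((pun_mon hk a).pow M) ((pun_mon hk b).pow M) hb hab)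
    · rw [gs_degree hG h1, gs_degree hG h2]
    · rw [gs_degree hG h1]
      exact hd
  -- the color of the unit
  obtain ⟨m, hm⟩ : ∃ m : Fin g → ℤ, ∀ a, Nz (e' a) → Gr (e' a) u → col' a = m := by
    by_cases h : ∃ a, Nz (e' a) ∧ Gr (e' a) u
    · obtain ⟨a0, ha0, ha1⟩ := h
      refine ⟨col' a0, fun a h1 h2 => hcol1 a a0 h1 ha0 ?_⟩
      have h3 := (growth_mero (he' a0) huP huN ha1).symm ha0
      exact h2.trans h3.gr
    · push Not at h
      exact ⟨0, fun a h1 h2 => absurd h2 (h a h1)⟩
  have hsym : ∀ a, Nz (e' a) → Gr u (e' a) → Gr (e' a) u := by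
    intro a ha h
    exact ((growth_mero huP (he' a) ha h).symm huN).gr
  let e : Option (Fin r →₀ ℕ) → ℂ → ℂ := fun o => o.elim u e'
  let col : Option (Fin r →₀ ℕ) → Fin g → ℤ := fun o => o.elim m col'
  let ρ : Option (Fin r →₀ ℕ) → ℂ → ℂ := fun o => o.elim (fun _ => -1) ρ'
  have hcs := color_sums hM e (fun o => by
      cases o with
      | none => exact huP
      | some a => exact he' a) (fun o => by
      cases o with
      | none => exact root huP h0 hM
      | some a =>
        change ∃ g : ℂ → ℂ, Pun g ∧ ∀ᶠ t in 𝓝[≠] (0 : ℂ), g t ^ M = e' a (t ^ M)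
        by_cases ha : a ∈ A
        · rw [heA a ha]
          exact root_mon hk hM a
        · rw [henA a ha]
          exact ⟨fun _ => 0, Pun.const 0, Eventually.of_forall fun _ => zero_pow hM.ne'⟩) col
    (fun o o' ho ho' hoo => by
      cases o with
      | none =>
        cases o' with
        | none => rfl
        | some b => exact (hm b ho' (hsym b ho' hoo)).symm
      | some a =>
        cases o' with
        | none => exact hm a ho hoo
        | some b => exact hcol1 a b ho ho' hoo)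
    (Finset.insertNone A) (by
      rw [Finset.card_insertNone, Nat.add_sub_cancel]
      exact hdM) ρ (fun o => by
      cases o with
      | none => exact MeromorphicAt.const _ 0
      | some a => exact hρ' a) (by
      refine Eventually.of_forall fun w => ?_
      rw [Finset.sum_insertNone]
      change -1 * u w + ∑ a ∈ A, ρ' a w * e' a w = 0
      rw [← hue]
      ring)
  have hall : ∀ᶠ w in 𝓝[≠] (0 : ℂ), ∀ v ∈ insert m (A.image col'),
      ∑ a ∈ (Finset.insertNone A).filter (fun a => col a = v), ρ a w * e a w = 0 :=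
    (Filter.eventually_all_finset _).2 fun v _ => hcs v
  refine ⟨m, ?_⟩
  filter_upwards [hall] with w hw t ht
  have hmt : ∀ a ∈ A, col' a ∈ insert m (A.image col') := fun a ha =>
    Finset.mem_insert_of_mem (Finset.mem_image_of_mem col' ha)
  rw [tor_expand (fun j i => V j i w) k M w e₀ ht G, ← hA, ← Finset.sum_fiberwise_of_maps_to hmt]
  have hfib : ∀ v ∈ insert m (A.image col'), ∑ a ∈ A.filter (fun a => col' a = v),
      (aeval (fun p : Fin r × Fin (n + 1) => V p.1 p.2 w) ((gs r G).coeff a) *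
          mon k a w ^ M) * tm t (fun b => ∑ j, (a j : ℤ) * e₀ b j) =
      if v = m then u w * tm t m else 0 := by
    intro v hv
    have h1 : ∑ a ∈ A.filter (fun a => col' a = v),
      (aeval (fun p : Fin r × Fin (n + 1) => V p.1 p.2 w) ((gs r G).coeff a) *
          mon k a w ^ M) * tm t (fun b => ∑ j, (a j : ℤ) * e₀ b j) =
        (∑ a ∈ A.filter (fun a => col' a = v), ρ' a w * e' a w) * tm t v := by
      rw [Finset.sum_mul]
      refine Finset.sum_congr rfl fun a ha => ?_
      have ha' := Finset.mem_filter.1 ha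
      rw [heA a ha'.1, ← ha'.2]
    have h2 := hw v hv
    rw [Finset.sum_filter, Finset.sum_insertNone] at h2
    change (if m = v then -1 * u w else 0) + ∑ a ∈ A, (if col' a = v then ρ' a w * e' a w else 0)
      = 0 at h2
    rw [← Finset.sum_filter] at h2
    rw [h1]
    by_cases hmv : v = m
    · rw [if_pos hmv]
      rw [if_pos hmv.symm] at h2
      rw [hmv] at h2 ⊢
      linear_combination (tm t m) * h2
    · rw [if_neg hmv]
      rw [if_neg fun h => hmv h.symm, zero_add] at h2
      rw [h2, zero_mul]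
  rw [Finset.sum_congr rfl hfib, Finset.sum_ite_eq' (insert m (A.image col')) m,
    if_pos (Finset.mem_insert_self _ _)]

end germ

end Pool.Agent.Q33.SP
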