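import Mathlib

/-!
The complex solutions of linear equations with integer coefficients are spanned by integer
solutions.
-/

set_option autoImplicit false

namespace Pool.Agent.Q33.SP

open Module

variable {r : ℕ}

/-- the integer solutions -/
def intSol (R : Set (Fin r → ℤ)) : Submodule ℤ (Fin r → ℤ) where
  carrier := {e | ∀ l ∈ R, ∑ j, l j * e j = 0}
  add_mem' := by
    intro a b ha hb l hl
    have h1 := ha l hl
    have h2 := hb l hl
    simp only [Pi.add_apply, mul_add, Finset.sum_add_distrib, h1, h2, add_zero]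
  zero_mem' := by
    intro l _
    simp
  smul_mem' := by
    intro c x hx l hl
    have h1 := hx l hl
    have h2 : ∑ j, l j * (c • x) j = c * ∑ j, l j * x j := by
      rw [Finset.mul_sum]
      refine Finset.sum_congr rfl fun j _ => ?_
      rw [Pi.smul_apply, smul_eq_mul]
      ring
    rw [h2, h1, mul_zero]

theorem span_int (R : Set (Fin r → ℤ)) : ∃ (g : ℕ) (e : Fin g → Fin r → ℤ),
    (∀ a, ∀ l ∈ R, ∑ j, l j * e a j = 0) ∧
    ∀ x : Fin r → ℂ, (∀ l ∈ R, ∑ j, (l j : ℂ) * x j = 0) →
      ∃ s : Fin g → ℂ, ∀ j, x j = ∑ a, s a * (e a j : ℂ) := by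
  classical
  obtain ⟨S, hS⟩ : (intSol R).FG := IsNoetherian.noetherian _
  let g := S.card
  let e : Fin g → Fin r → ℤ := fun a => (S.equivFin.symm a : Fin r → ℤ)
  have hrange : Set.range e = (S : Set (Fin r → ℤ)) := by
    ext v
    constructor
    · rintro ⟨a, rfl⟩
      exact (S.equivFin.symm a).2
    · intro hv
      exact ⟨S.equivFin ⟨v, hv⟩, by simp [e]⟩
  have hmem : ∀ a, e a ∈ intSol R := by
    intro a
    rw [← hS]
    exact Submodule.subset_span (S.equivFin.symm a).2
  refine ⟨g, e, fun a l hl => hmem a l hl, fun x hx => ?_⟩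
  let b := Basis.ofVectorSpace ℚ ℂ
  let B : Finset _ := Finset.univ.biUnion fun j : Fin r => (b.repr (x j)).support
  have hxB : ∀ j, x j = ∑ β ∈ B, (b.repr (x j) β : ℚ) • b β := by
    intro j
    conv_lhs => rw [← b.linearCombination_repr (x j), Finsupp.linearCombination_apply,
      Finsupp.sum]
    refine Finset.sum_subset (Finset.subset_biUnion_of_mem
      (fun j : Fin r => (b.repr (x j)).support) (Finset.mem_univ j)) ?_
    intro β _ hβ
    rw [Finsupp.notMem_support_iff.1 hβ, zero_smul]
  have hq : ∀ β, ∀ l ∈ R, ∑ j, (l j : ℚ) * b.repr (x j) β = 0 := by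
    intro β l hl
    have h1 := hx l hl
    have h2 : b.repr (∑ j, (l j : ℚ) • x j) = 0 := by
      have h3 : ∑ j, (l j : ℚ) • x j = 0 := by
        rw [← h1]
        refine Finset.sum_congr rfl fun j _ => ?_
        rw [Rat.smul_def]
        push_cast
        ring
      rw [h3, map_zero]
    have h4 := congrArg (fun f => f β) h2
    simp only [map_sum, map_smul, Finsupp.coe_finset_sum, Finset.sum_apply, Finsupp.smul_apply,
      smul_eq_mul, Finsupp.coe_zero, Pi.zero_apply] at h4
    exact h4
  have hp : ∀ β, ∃ (c : ℤ) (m : Fin g → ℤ), c ≠ 0 ∧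
      ∀ j, (c : ℚ) * b.repr (x j) β = ∑ a, (m a : ℚ) * (e a j : ℚ) := by
    intro β
    obtain ⟨c, hc⟩ := IsLocalization.exist_integer_multiples (nonZeroDivisors ℤ)
      (Finset.univ : Finset (Fin r)) (fun j => b.repr (x j) β)
    have hc0 : (c : ℤ) ≠ 0 := nonZeroDivisors.coe_ne_zero c
    choose p hp using fun j => hc j (Finset.mem_univ j)
    have hp' : ∀ j, ((p j : ℤ) : ℚ) = (c : ℤ) * b.repr (x j) β := by
      intro j
      have := hp j
      rw [algebraMap_int_eq, eq_intCast] at this
      rw [this]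
      change ((c : ℤ) • _ : ℚ) = _
      rw [zsmul_eq_mul]
    have hpm : p ∈ intSol R := by
      intro l hl
      have h1 : ((∑ j, l j * p j : ℤ) : ℚ) = 0 := by
        push_cast
        simp only [hp']
        have h2 := hq β l hl
        calc ∑ j, (l j : ℚ) * ((c : ℤ) * b.repr (x j) β)
            = (c : ℤ) * ∑ j, (l j : ℚ) * b.repr (x j) β := by
              rw [Finset.mul_sum]
              exact Finset.sum_congr rfl fun j _ => by ring
          _ = 0 := by rw [h2, mul_zero]
      exact_mod_cast h1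
    rw [← hS, ← hrange, Submodule.mem_span_range_iff_exists_fun] at hpm
    obtain ⟨m, hm⟩ := hpm
    refine ⟨c, m, hc0, fun j => ?_⟩
    rw [← hp' j, ← hm]
    rw [Finset.sum_apply]
    push_cast
    refine Finset.sum_congr rfl fun a _ => ?_
    rw [Pi.smul_apply, smul_eq_mul]
    push_cast
    ring
  choose c m hc0 hcm using hp
  refine ⟨fun a => ∑ β ∈ B, (m β a : ℂ) / (c β : ℂ) * b β, fun j => ?_⟩
  rw [hxB j]
  simp only [Finset.sum_mul]
  rw [Finset.sum_comm]
  refine Finset.sum_congr rfl fun β _ => ?_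
  have h1 : ((b.repr (x j) β : ℚ) : ℂ) = (∑ a, (m β a : ℂ) * (e a j : ℂ)) / (c β : ℂ) := by
    have h2 : (b.repr (x j) β : ℚ) = (∑ a, (m β a : ℚ) * (e a j : ℚ)) / (c β : ℚ) := by
      rw [← hcm β j, mul_div_cancel_left₀]
      exact Int.cast_ne_zero.2 (hc0 β)
    rw [h2]
    push_cast
    rfl
  rw [Rat.smul_def, h1, Finset.sum_div, Finset.sum_mul]
  refine Finset.sum_congr rfl fun a _ => ?_
  ring

end Pool.Agent.Q33.SP
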