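import Pool.Agent.Q33.SP.Hull
import Pool.Agent.Q33.SP.SpanInt
import Pool.Agent.Q33.SP.Sets

/-!
Entire curves with few terms are contained in the closures of images of tori.
-/

set_option autoImplicit false

namespace Pool.Agent.Q33.SP

open Filter Topology Pool.Agent.W603.BP MvPolynomial Pool.Agent.H159R3.NV

variable {n r : ℕ} {ι : Type}

/-- normal form: no term vanishes identically -/
theorem ent_normal {M : ℕ} (hM : 0 < M) {f : ℂ → Fin (n + 1) → ℂ}
    (h : ∃ (v : Fin r → Fin (n + 1) → ℂ) (k : Fin r → ℂ → ℂ), (∀ j, Differentiable ℂ (k j)) ∧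
      ∀ z i, f z i = ∑ j, v j i * k j z ^ M) :
    ∃ (v : Fin r → Fin (n + 1) → ℂ) (k : Fin r → ℂ → ℂ), (∀ j, Differentiable ℂ (k j)) ∧
      (∀ j, k j ≠ 0) ∧ ∀ z i, f z i = ∑ j, v j i * k j z ^ M := by
  classical
  obtain ⟨v, k, hk, hf⟩ := h
  refine ⟨fun j => if k j = 0 then 0 else v j, fun j => if k j = 0 then fun _ => 1 else k j,
    fun j => ?_, fun j => ?_, fun z i => ?_⟩
  · by_cases h : k j = 0
    · simp only [if_pos h]
      exact differentiable_const _
    · simp only [if_neg h]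
      exact hk j
  · by_cases h : k j = 0
    · simp only [if_pos h]
      intro h0
      exact one_ne_zero (congrFun h0 0)
    · simp only [if_neg h]
      exact h
  · rw [hf]
    refine Finset.sum_congr rfl fun j _ => ?_
    by_cases h : k j = 0
    · simp only [if_pos h]
      rw [h, Pi.zero_apply, Pi.zero_apply, zero_pow hM.ne', mul_zero, zero_mul]
    · simp only [if_neg h]

/-- entire functions which vanish at all points `exp (1 / w)` -/
theorem zero_of_exp {h : ℂ → ℂ} (hd : Differentiable ℂ h)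
    (h0 : ∀ᶠ w in 𝓝[≠] (0 : ℂ), h (Complex.exp w⁻¹) = 0) (z : ℂ) : h z = 0 := by
  apply zero_of_punctured hd
  intro t ht
  obtain ⟨w, -, hwt, hw⟩ := wn t ht
  obtain ⟨n, hn⟩ := (hw.eventually h0).exists
  rw [hwt n] at hn
  exact hn

theorem diff_eval {f : ℂ → Fin (n + 1) → ℂ} (hf : ∀ i, Differentiable ℂ fun z => f z i)
    (G : MvPolynomial (Fin (n + 1)) ℂ) : Differentiable ℂ fun z => eval (f z) G := fun z =>
  (eval_an (S := Set.univ) (fun j z _ => (hf j).analyticAt z) G z trivial).differentiableAt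

theorem prod_ne {k : Fin r → ℂ → ℂ} (hk : ∀ j, Differentiable ℂ (k j)) (hk0 : ∀ j, k j ≠ 0) :
    ∃ z0 : ℂ, z0 ≠ 0 ∧ ∀ j, k j z0 ≠ 0 := by
  classical
  have h : ∀ s : Finset (Fin r), ∃ z0 : ℂ, z0 * ∏ j ∈ s, k j z0 ≠ 0 := by
    intro s
    induction s using Finset.induction_on with
    | empty => exact ⟨1, by simp⟩
    | insert j s hj ih =>
      by_contra hno
      push Not at hno
      have hd : Differentiable ℂ fun z : ℂ => z * ∏ j ∈ s, k j z :=
        differentiable_id.mul (Differentiable.fun_finsetProd fun j _ => hk j)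
      rcases ent_eq_zero_or hd (hk j) (fun z => by
        have := hno z
        rw [Finset.prod_insert hj] at this
        change (z * ∏ j ∈ s, k j z) * k j z = 0
        linear_combination this) with h1 | h1
      · obtain ⟨z0, hz0⟩ := ih
        exact hz0 (congrFun h1 z0)
      · exact hk0 j h1
  obtain ⟨z0, hz0⟩ := h Finset.univ
  exact ⟨z0, left_ne_zero_of_mul hz0, fun j =>
    Finset.prod_ne_zero_iff.1 (right_ne_zero_of_mul hz0) j (Finset.mem_univ j)⟩

/-- **The torus hull of an entire curve with few terms.** -/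
theorem hull_main {D q M : ℕ} (hr : 0 < r) (F : ι → MvPolynomial (Fin (n + 1)) ℂ)
    (hF : ∀ i, ∃ d, d ≤ D ∧ (F i).IsHomogeneous d) (Q : MvPolynomial (Fin (n + 1)) ℂ)
    (hQ : Q.IsHomogeneous q) (hq : q ≤ D) (hM : ((r + D - 1).choose D) ^ 2 ≤ M)
    (f : ℂ → Fin (n + 1) → ℂ) (hf : EntSp r M F Q f) :
    ∃ (g : ℕ) (Φ : (Fin g → ℂ) → Fin (n + 1) → ℂ), TorSp r g F Q Φ ∧
      ∃ z0 : ℂ, ∀ᶠ z in 𝓝 z0, ∃ t, (∀ a, t a ≠ 0) ∧ f z = Φ t := by
  classical
  have hM0 : 0 < M := lt_of_lt_of_le (pow_pos (Nat.choose_pos (by omega)) 2) hM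
  obtain ⟨v, k, hk, hk0, hfe⟩ := ent_normal hM0 hf.sum
  let k' : Fin r → ℂ → ℂ := fun j w => k j (Complex.exp w⁻¹)
  have hk' : ∀ j, Pun (k' j) := by
    intro j
    filter_upwards [self_mem_nhdsWithin] with w hw
    exact AnalyticAt.comp (g := k j) (f := fun w : ℂ => Complex.exp w⁻¹)
      ((hk j).analyticAt _) (analyticAt_inv hw).cexp
  have hz' : ∀ j, Nz (k' j) := by
    intro j h0
    apply hk0 j
    funext z
    exact zero_of_exp (hk j) h0 z
  obtain ⟨g, e, he, hspan⟩ := span_int (rels D M k' : Set (Fin r → ℤ))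
  have horth : Orth D M k' e := fun b l hl => he b l hl
  let V : Fin r → Fin (n + 1) → ℂ → ℂ := fun j i _ => v j i
  have hV : ∀ j i, MeromorphicAt (V j i) 0 := fun j i => MeromorphicAt.const _ _
  -- the curve moved by the torus
  let Ψ : (Fin g → ℂ) → ℂ → Fin (n + 1) → ℂ := fun t z i =>
    ∑ j, v j i * (k j z ^ M * tm t fun b => e b j)
  have hΨd : ∀ t i, Differentiable ℂ fun z => Ψ t z i := fun t i =>
    Differentiable.fun_sum fun j _ => (((hk j).pow M).mul_const _).const_mul _
  have hfd : ∀ i, Differentiable ℂ fun z => f z i := hf.diff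
  have hf' : ∀ w : ℂ, f (Complex.exp w⁻¹) = fun i => ∑ j, V j i w * k' j w ^ M := fun w =>
    funext fun i => hfe _ i
  have hX : ∀ t : Fin g → ℂ, (∀ b, t b ≠ 0) → ∀ z, OnX F Q (Ψ t z) := by
    obtain ⟨m, hm⟩ := split_unit3 (V := V) (k := k') horth hV hk' hM0 hQ hq
      ((Nat.pow_le_pow_left (card_le hQ hq hr) 2).trans hM) (by
        refine Eventually.of_forall fun w => ?_
        rw [← hf']
        exact (hf.on _).2)
    intro t ht z
    refine ⟨fun i => ?_, ?_⟩
    · obtain ⟨d, hd, hFd⟩ := hF i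
      have h1 := split_zero3 (V := V) (k := k') horth hV hk' hM0 hFd hd
        ((Nat.pow_le_pow_left ((Nat.sub_le _ _).trans (card_le hFd hd hr)) 2).trans hM) (by
          refine Eventually.of_forall fun w => ?_
          rw [← hf']
          exact (hf.on _).1 i)
      refine zero_of_exp (diff_eval (hΨd t) (F i)) ?_ z
      filter_upwards [h1] with w hw
      exact hw t ht
    · have h2 : eval (Ψ t z) Q - eval (f z) Q * tm t m = 0 := by
        refine zero_of_exp (h := fun z => eval (Ψ t z) Q - eval (f z) Q * tm t m)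
          ((diff_eval (hΨd t) Q).sub ((diff_eval hfd Q).mul_const _)) ?_ z
        filter_upwards [hm] with w hw
        have h3 := hw t ht
        rw [← hf'] at h3
        change eval (fun i => ∑ j, V j i w * (k' j w ^ M * tm t fun b => e b j)) Q - _ = 0
        rw [h3, sub_self]
      rw [sub_eq_zero.1 h2]
      exact mul_ne_zero (hf.on z).2 (tm_ne ht m)
  -- the base point
  obtain ⟨z0, hz00, hz0⟩ := prod_ne hk hk0
  let u : Fin r → ℂ → ℂ := fun j z => k j z ^ M
  have hu0 : ∀ j, u j z0 ≠ 0 := fun j => pow_ne_zero M (hz0 j)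
  have huc : ∀ j, ContinuousAt (u j) z0 := fun j => ((hk j).pow M).continuous.continuousAt
  have hnear : ∀ᶠ z in 𝓝 z0, z ≠ 0 ∧ ∀ j, k j z ≠ 0 := by
    refine (continuousAt_id.eventually_ne hz00).and ?_
    rw [Filter.eventually_all]
    exact fun j => (hk j).continuous.continuousAt.eventually_ne (hz0 j)
  have hratio : ∀ l ∈ rels D M k', ∀ᶠ z in 𝓝 z0, ∏ j, (u j z / u j z0) ^ l j = 1 := by
    intro l hl
    unfold rels at hl
    obtain ⟨-, a, b, hab, ρ, hρ, hρe⟩ := Finset.mem_filter.1 hl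
    have hmk : ∀ (c : Fin r → ℕ) (w : ℂ), mon k' c w = mon k c (Complex.exp w⁻¹) := fun c w => rfl
    obtain ⟨c, hc⟩ := mero_exp hρ (a := fun z => mon k a z ^ M) (b := fun z => mon k b z ^ M) hρe
    have hmon : ∀ (c : Fin r → ℕ) (z : ℂ), mon k c z ^ M = ∏ j, u j z ^ c j := fun c z =>
      (prod_pow_M k c M z).symm
    have hb : ∀ z, (∀ j, k j z ≠ 0) → mon k b z ^ M ≠ 0 := by
      intro z hz
      rw [hmon]
      exact Finset.prod_ne_zero_iff.2 fun j _ => pow_ne_zero _ (pow_ne_zero _ (hz j))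
    filter_upwards [hnear] with z hz
    have h1 : mon k a z ^ M = c * mon k b z ^ M := hc z hz.1 (hb z hz.2)
    have h2 : mon k a z0 ^ M = c * mon k b z0 ^ M := hc z0 hz00 (hb z0 hz0)
    have huz : ∀ j, u j z ≠ 0 := fun j => pow_ne_zero M (hz.2 j)
    have h3 : ∀ j, (u j z / u j z0) ^ l j =
        (u j z ^ a j / u j z ^ b j) / (u j z0 ^ a j / u j z0 ^ b j) := by
      intro j
      rw [hab j, zpow_sub₀ (div_ne_zero (huz j) (hu0 j)), zpow_natCast, zpow_natCast, div_pow,
        div_pow]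
      have := huz j
      have := hu0 j
      field_simp
    rw [Finset.prod_congr rfl fun j _ => h3 j, Finset.prod_div_distrib, Finset.prod_div_distrib,
      Finset.prod_div_distrib, ← hmon, ← hmon, ← hmon, ← hmon, h1, h2]
    have e1 := hb z hz.2
    have e2 := hb z0 hz0
    have hc0 : c ≠ 0 := by
      intro hc0
      rw [hc0, zero_mul, hmon] at h1
      exact Finset.prod_ne_zero_iff.2 (fun j _ => pow_ne_zero (a j) (huz j)) h1
    field_simp
  -- logarithms
  let L : Fin r → ℂ → ℂ := fun j z => Complex.log (u j z / u j z0)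
  have hL0 : ∀ j, L j z0 = 0 := by
    intro j
    change Complex.log (u j z0 / u j z0) = 0
    rw [div_self (hu0 j), Complex.log_one]
  have hLc : ∀ j, ContinuousAt (L j) z0 := by
    intro j
    refine ContinuousAt.clog ((huc j).div_const _) ?_
    rw [div_self (hu0 j)]
    exact Complex.one_mem_slitPlane
  have hLe : ∀ z, (∀ j, k j z ≠ 0) → ∀ j, Complex.exp (L j z) = u j z / u j z0 := fun z hz j =>
    Complex.exp_log (div_ne_zero (pow_ne_zero M (hz j)) (hu0 j))
  have hsmall : ∀ l ∈ rels D M k', ∀ᶠ z in 𝓝 z0, ‖∑ j, (l j : ℂ) * L j z‖ < 1 := by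
    intro l _
    have h1 : ContinuousAt (fun z => ‖∑ j, (l j : ℂ) * L j z‖) z0 := by
      refine ContinuousAt.norm ?_
      exact tendsto_finsetSum _ fun j _ => (continuousAt_const.mul (hLc j))
    have h2 : ‖∑ j, (l j : ℂ) * L j z0‖ < 1 := by
      have : ∑ j, (l j : ℂ) * L j z0 = 0 := Finset.sum_eq_zero fun j _ => by rw [hL0, mul_zero]
      rw [this, norm_zero]
      exact one_pos
    exact h1.eventually_lt continuousAt_const h2
  have hzero : ∀ᶠ z in 𝓝 z0, ∀ l ∈ rels D M k', ∑ j, (l j : ℂ) * L j z = 0 := by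
    refine (Filter.eventually_all_finset _).2 fun l hl => ?_
    filter_upwards [hratio l hl, hsmall l hl, hnear] with z h1 h2 h3
    have h4 : Complex.exp (∑ j, (l j : ℂ) * L j z) = 1 := by
      rw [Complex.exp_sum, ← h1]
      refine Finset.prod_congr rfl fun j _ => ?_
      rw [Complex.exp_int_mul, hLe z h3.2 j]
    obtain ⟨N, hN⟩ := Complex.exp_eq_one_iff.1 h4
    rw [hN] at h2 ⊢
    have h5 : N = 0 := by
      by_contra hN0
      have h6 : (1 : ℝ) ≤ |(N : ℝ)| := by
        exact_mod_cast Int.one_le_abs hN0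
      have h7 : ‖(N : ℂ) * (2 * Real.pi * Complex.I)‖ = |(N : ℝ)| * (2 * Real.pi) := by
        rw [norm_mul, norm_mul, norm_mul, Complex.norm_I, mul_one, Complex.norm_intCast,
          Complex.norm_real, Real.norm_of_nonneg Real.pi_pos.le]
        norm_num
      rw [h7] at h2
      nlinarith [Real.pi_gt_three]
    rw [h5]
    simp
  -- the torus map
  let Φ : (Fin g → ℂ) → Fin (n + 1) → ℂ := fun t => Ψ t z0
  have himg : ∀ᶠ z in 𝓝 z0, ∃ t : Fin g → ℂ, (∀ a, t a ≠ 0) ∧ f z = Φ t := by
    filter_upwards [hzero, hnear] with z h1 h2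
    obtain ⟨s, hs⟩ := hspan (fun j => L j z) (fun l hl => h1 l hl)
    refine ⟨fun b => Complex.exp (s b), fun b => Complex.exp_ne_zero _, funext fun i => ?_⟩
    rw [hfe z i]
    change _ = ∑ j, v j i * (k j z0 ^ M * tm (fun b => Complex.exp (s b)) fun b => e b j)
    refine Finset.sum_congr rfl fun j _ => ?_
    congr 1
    have h3 : tm (fun b => Complex.exp (s b)) (fun b => e b j) = u j z / u j z0 := by
      rw [← hLe z h2.2 j, hs j, Complex.exp_sum]
      unfold tm
      refine Finset.prod_congr rfl fun b _ => ?_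
      rw [← Complex.exp_int_mul, mul_comm]
    rw [h3]
    change u j z = u j z0 * (u j z / u j z0)
    have := hu0 j
    field_simp
  refine ⟨g, Φ, ⟨⟨fun j i => v j i * k j z0 ^ M, fun j b => e b j, fun t i => ?_⟩,
    fun t ht => hX t ht z0, ?_⟩, z0, himg⟩
  · change ∑ j, v j i * (k j z0 ^ M * tm t fun b => e b j) = _
    refine Finset.sum_congr rfl fun j _ => ?_
    rw [← mul_assoc]
    rfl
  · by_contra hno
    push Not at hno
    obtain ⟨z, z', i, l, hne⟩ := hf.nonconst
    apply hne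
    have h1 : ∀ᶠ z' in 𝓝 z0, ∀ᶠ z in 𝓝 z0, f z i * f z' l = f z l * f z' i := by
      filter_upwards [himg] with z' hz'
      filter_upwards [himg] with z hz
      obtain ⟨t, ht, htz⟩ := hz
      obtain ⟨t', ht', htz'⟩ := hz'
      rw [htz, htz']
      exact hno t t' ht ht' i l
    have hid : ∀ {a b : ℂ → ℂ}, Differentiable ℂ a → Differentiable ℂ b → a =ᶠ[𝓝 z0] b → a = b :=
      fun ha hb hab => (ha.differentiableOn.analyticOnNhd isOpen_univ).eq_of_eventuallyEq
        (hb.differentiableOn.analyticOnNhd isOpen_univ) hab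
    have h2 : ∀ᶠ z' in 𝓝 z0, ∀ z, f z i * f z' l = f z l * f z' i := by
      filter_upwards [h1] with z' hz' z
      exact congrFun (hid (a := fun z => f z i * f z' l) (b := fun z => f z l * f z' i)
        ((hfd i).mul_const _) ((hfd l).mul_const _) hz') z
    have h3 : ∀ᶠ z' in 𝓝 z0, f z i * f z' l = f z l * f z' i := by
      filter_upwards [h2] with z' hz'
      exact hz' z
    exact congrFun (hid (a := fun z' => f z i * f z' l) (b := fun z' => f z l * f z' i)
      ((hfd l).const_mul _) ((hfd i).const_mul _) h3) z'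

end Pool.Agent.Q33.SP
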