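import Pool.Agent.Q33.SP.Hull2

/-!
Entire curves which are Zariski-dense in the image of a torus.
-/

set_option autoImplicit false

namespace Pool.Agent.Q33.SP

open Filter Topology Pool.Agent.W603.BP MvPolynomial Pool.Agent.H159R3.NV

variable {n r g : ℕ} {ι : Type}

/-- distinct exponential functions are linearly independent -/
theorem exp_indep {κ : Type} [Fintype κ] (μ : κ → ℂ) (hμ : Function.Injective μ) (c : κ → ℂ)
    (h : ∀ z : ℂ, ∑ m, c m * Complex.exp (μ m * z) = 0) : ∀ m, c m = 0 := by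
  let χ : κ → (Multiplicative ℂ →* ℂ) := fun m =>
    { toFun := fun z => Complex.exp (μ m * z.toAdd)
      map_one' := by simp
      map_mul' := fun a b => by rw [toAdd_mul, mul_add, Complex.exp_add] }
  have hinj : Function.Injective χ := by
    intro m m' hmm
    apply hμ
    by_contra hne
    have h1 : μ m - μ m' ≠ 0 := sub_ne_zero.2 hne
    have h2 := DFunLike.congr_fun hmm (Multiplicative.ofAdd (1 / (μ m - μ m')))
    change Complex.exp (μ m * (1 / (μ m - μ m'))) = Complex.exp (μ m' * (1 / (μ m - μ m'))) at h2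
    have h3 : μ m * (1 / (μ m - μ m')) = μ m' * (1 / (μ m - μ m')) + 1 := by
      field_simp
      ring
    rw [h3, Complex.exp_add] at h2
    have h4 : Complex.exp 1 = 1 := by
      have h5 := Complex.exp_ne_zero (μ m' * (1 / (μ m - μ m')))
      apply mul_left_cancel₀ h5
      rw [h2, mul_one]
    have h5 : Real.exp 1 = 1 := by
      have := congrArg Complex.re h4
      rwa [← Complex.ofReal_one, ← Complex.ofReal_exp, Complex.ofReal_re, Complex.ofReal_re]
        at this
    have h6 := Real.add_one_lt_exp (one_ne_zero (α := ℝ))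
    linarith
  have hli := (linearIndependent_monoidHom (Multiplicative ℂ) ℂ).comp χ hinj
  rw [Fintype.linearIndependent_iff] at hli
  apply hli c
  funext z
  have := h z.toAdd
  rw [Finset.sum_apply]
  simp only [Pi.smul_apply, smul_eq_mul, Pi.zero_apply]
  exact this

/-- numbers without integral linear relations -/
theorem exists_free (g : ℕ) : ∃ l : Fin g → ℂ, ∀ m : Fin g → ℤ, ∑ a, (m a : ℂ) * l a = 0 →
    m = 0 := by
  have hx := transcendental_liouvilleNumber (m := 2) le_rfl
  refine ⟨fun a => ((liouvilleNumber (2 : ℕ) : ℝ) : ℂ) ^ (a : ℕ), fun m hm => ?_⟩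
  let P : Polynomial ℤ := ∑ a : Fin g, Polynomial.C (m a) * Polynomial.X ^ (a : ℕ)
  have hP : Polynomial.aeval (liouvilleNumber (2 : ℕ) : ℝ) P = 0 := by
    have h1 : Polynomial.aeval (liouvilleNumber (2 : ℕ) : ℝ) P =
        ∑ a : Fin g, (m a : ℝ) * (liouvilleNumber (2 : ℕ) : ℝ) ^ (a : ℕ) := by
      simp only [P, map_sum, map_mul, map_pow, Polynomial.aeval_X, eq_intCast, map_intCast]
    rw [h1]
    apply Complex.ofReal_injective
    have hm' : ∑ a, (m a : ℂ) * ((liouvilleNumber (2 : ℕ) : ℝ) : ℂ) ^ (a : ℕ) = 0 := hm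
    exact_mod_cast hm'
  have hP0 : P = 0 := by
    by_contra hne
    exact hx ⟨P, hne, hP⟩
  funext a
  have h2 := congrArg (fun p => Polynomial.coeff p (a : ℕ)) hP0
  simp only [P, Polynomial.finsetSum_coeff, Polynomial.coeff_C_mul, Polynomial.coeff_X_pow,
    Polynomial.coeff_zero] at h2
  rw [Finset.sum_eq_single a] at h2
  · simpa using h2
  · intro b _ hb
    rw [if_neg, mul_zero]
    intro h
    exact hb (Fin.ext h.symm)
  · intro h
    exact absurd (Finset.mem_univ a) h

/-- the value of a polynomial at a sum of monomials -/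
theorem tor_expand2 (v : Fin r → Fin (n + 1) → ℂ) (b : Fin r → Fin g → ℤ) {t : Fin g → ℂ}
    (ht : ∀ a, t a ≠ 0) (G : MvPolynomial (Fin (n + 1)) ℂ) :
    eval (fun i => ∑ j, v j i * ∏ a, t a ^ b j a) G =
      ∑ a ∈ (gs r G).support,
        aeval (fun p : Fin r × Fin (n + 1) => v p.1 p.2) ((gs r G).coeff a) *
          tm t fun c => ∑ j, (a j : ℤ) * b j c := by
  have h := gs_expand v (fun j => tm t fun c => b j c) G
  rw [← coe_aeval_eq_eval]
  refine (Eq.trans h ?_)
  refine Finset.sum_congr rfl fun a _ => ?_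
  congr 1
  exact tm_prod ht (fun c j => b j c) a

/-- **Entire curves which are Zariski-dense in the image of a torus.** -/
theorem TorSp.dense_ent {M : ℕ} (hM : 0 < M) {F : ι → MvPolynomial (Fin (n + 1)) ℂ}
    {Q : MvPolynomial (Fin (n + 1)) ℂ} {Φ : (Fin g → ℂ) → Fin (n + 1) → ℂ}
    (h : TorSp r g F Q Φ) : ∃ f, EntSp r M F Q f ∧ (∀ z, ∃ t, (∀ a, t a ≠ 0) ∧ f z = Φ t) ∧
      ∀ G : MvPolynomial (Fin (n + 1)) ℂ, (∀ z, eval (f z) G = 0) →
        ∀ t, (∀ a, t a ≠ 0) → eval (Φ t) G = 0 := by
  classical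
  obtain ⟨v, b, hΦ⟩ := h.sum
  obtain ⟨l, hl⟩ := exists_free g
  have hMC : (M : ℂ) ≠ 0 := by exact_mod_cast hM.ne'
  let τ : ℂ → Fin g → ℂ := fun z a => Complex.exp (l a * z)
  have hτ : ∀ z a, τ z a ≠ 0 := fun z a => Complex.exp_ne_zero _
  have htm : ∀ (m : Fin g → ℤ) (z : ℂ), tm (τ z) m = Complex.exp ((∑ a, (m a : ℂ) * l a) * z) := by
    intro m z
    unfold tm
    rw [Finset.sum_mul, Complex.exp_sum]
    refine Finset.prod_congr rfl fun a _ => ?_
    rw [← Complex.exp_int_mul, mul_assoc]
  let f : ℂ → Fin (n + 1) → ℂ := fun z => Φ (τ z)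
  have hdense : ∀ G : MvPolynomial (Fin (n + 1)) ℂ, (∀ z, eval (f z) G = 0) →
        ∀ t, (∀ a, t a ≠ 0) → eval (Φ t) G = 0 := by
    intro G hG
    let A := (gs r G).support
    let col : (Fin r →₀ ℕ) → Fin g → ℤ := fun a c => ∑ j, (a j : ℤ) * b j c
    let C0 : (Fin r →₀ ℕ) → ℂ := fun a =>
      aeval (fun p : Fin r × Fin (n + 1) => v p.1 p.2) ((gs r G).coeff a)
    let E : (Fin g → ℤ) → ℂ := fun m => ∑ a ∈ A.filter (fun a => col a = m), C0 a
    have hexp : ∀ t : Fin g → ℂ, (∀ a, t a ≠ 0) →
        eval (Φ t) G = ∑ m ∈ A.image col, E m * tm t m := by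
      intro t ht
      have h1 : Φ t = fun i => ∑ j, v j i * ∏ a, t a ^ b j a := funext fun i => hΦ t i
      rw [h1, tor_expand2 v b ht G,
        ← Finset.sum_fiberwise_of_maps_to (fun a ha => Finset.mem_image_of_mem col ha)]
      refine Finset.sum_congr rfl fun m _ => ?_
      rw [Finset.sum_mul]
      refine Finset.sum_congr rfl fun a ha => ?_
      rw [← (Finset.mem_filter.1 ha).2]
    have hE : ∀ m : (A.image col), E m = 0 := by
      apply exp_indep (κ := (A.image col)) (fun m => ∑ a, ((m : Fin g → ℤ) a : ℂ) * l a)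
      · intro m m' hmm
        have h1 : (m : Fin g → ℤ) - m' = 0 := by
          apply hl
          simp only at hmm
          simp only [Pi.sub_apply]
          push_cast
          simp only [sub_mul, Finset.sum_sub_distrib]
          rw [hmm, sub_self]
        exact Subtype.ext (sub_eq_zero.1 h1)
      · intro z
        have h1 := hG z
        change eval (Φ (τ z)) G = 0 at h1
        rw [hexp _ (hτ z), ← Finset.sum_coe_sort] at h1
        simp only [htm] at h1
        exact h1
    intro t ht
    rw [hexp t ht]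
    exact Finset.sum_eq_zero fun m hm => by rw [hE ⟨m, hm⟩, zero_mul]
  refine ⟨f, ⟨⟨v, fun j z => Complex.exp ((∑ a, (b j a : ℂ) * l a) * z / M), fun j => ?_,
    fun z i => ?_⟩, fun z => h.on _ (hτ z), ?_⟩, fun z => ⟨τ z, hτ z, rfl⟩, hdense⟩
  · exact ((differentiable_id.const_mul _).div_const _).cexp
  · change Φ (τ z) i = _
    rw [hΦ]
    refine Finset.sum_congr rfl fun j _ => ?_
    congr 1
    have h1 := htm (fun a => b j a) z
    unfold tm at h1
    rw [h1, ← Complex.exp_nat_mul]
    congr 1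
    field_simp
  · by_contra hno
    push Not at hno
    obtain ⟨t, t', ht, ht', i, l', hne⟩ := h.nonconst
    apply hne
    have h1 : ∀ z', ∀ t, (∀ a, t a ≠ 0) → Φ t i * f z' l' = Φ t l' * f z' i := by
      intro z' t ht
      have h2 := hdense (X i * C (f z' l') - X l' * C (f z' i)) (fun z => by
        simp only [map_sub, map_mul, eval_X, eval_C]
        exact sub_eq_zero.2 (hno z z' i l')) t ht
      simp only [map_sub, map_mul, eval_X, eval_C] at h2
      exact sub_eq_zero.1 h2
    have h3 := hdense (X l' * C (Φ t i) - X i * C (Φ t l')) (fun z => by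
        simp only [map_sub, map_mul, eval_X, eval_C]
        have := h1 z t ht
        linear_combination this) t' ht'
    simp only [map_sub, map_mul, eval_X, eval_C] at h3
    linear_combination h3

end Pool.Agent.Q33.SP
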