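import Pool.Agent.Q33.SP.RatRel

/-!
The hull of an entire curve which is a sum of few high powers with polynomial coefficients.
-/

set_option autoImplicit false

namespace Pool.Agent.Q33.SP

open Filter Topology Pool.Agent.W603.BP MvPolynomial Pool.Agent.H159R3.NV

variable {n r g : ℕ} {ι : Type}

/-- A nonconstant entire curve in the projective variety `F = 0` given by a sum of `r` terms,
vectors of polynomials times `M`-th powers of entire functions. -/
structure EntPol (r M : ℕ) (F : ι → MvPolynomial (Fin (n + 1)) ℂ) (f : ℂ → Fin (n + 1) → ℂ) :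
    Prop where
  sum : ∃ (V : Fin r → Fin (n + 1) → Polynomial ℂ) (k : Fin r → ℂ → ℂ),
    (∀ j, Differentiable ℂ (k j)) ∧ ∀ z i, f z i = ∑ j, (V j i).eval z * k j z ^ M
  on : ∀ z i, eval (f z) (F i) = 0
  nonconst : ∃ z z' i l, f z i * f z' l ≠ f z l * f z' i

section rel

variable {u : Fin r → ℂ → ℂ}

/-- the multiplicative relations modulo rational functions -/
def ratRel (u : Fin r → ℂ → ℂ) : AddSubgroup (Fin r → ℤ) where
  carrier := {l | ∃ A B : Polynomial ℂ, A ≠ 0 ∧ B ≠ 0 ∧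
    ∀ z, (∀ j, u j z ≠ 0) → B.eval z * ∏ j, u j z ^ l j = A.eval z}
  zero_mem' := ⟨1, 1, one_ne_zero, one_ne_zero, fun z _ => by simp⟩
  add_mem' := by
    rintro a b ⟨A, B, hA, hB, h⟩ ⟨A', B', hA', hB', h'⟩
    refine ⟨A * A', B * B', mul_ne_zero hA hA', mul_ne_zero hB hB', fun z hz => ?_⟩
    have h1 : ∏ j, u j z ^ (a + b) j = (∏ j, u j z ^ a j) * ∏ j, u j z ^ b j := by
      rw [← Finset.prod_mul_distrib]
      refine Finset.prod_congr rfl fun j _ => ?_
      rw [Pi.add_apply, zpow_add₀ (hz j)]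
    rw [h1, Polynomial.eval_mul, Polynomial.eval_mul, ← h z hz, ← h' z hz]
    ring
  neg_mem' := by
    rintro a ⟨A, B, hA, hB, h⟩
    refine ⟨B, A, hB, hA, fun z hz => ?_⟩
    have h1 : ∏ j, u j z ^ (-a) j = (∏ j, u j z ^ a j)⁻¹ := by
      rw [← Finset.prod_inv_distrib]
      refine Finset.prod_congr rfl fun j _ => ?_
      rw [Pi.neg_apply, zpow_neg]
    have h2 : ∏ j, u j z ^ a j ≠ 0 := Finset.prod_ne_zero_iff.2 fun j _ => zpow_ne_zero _ (hz j)
    rw [h1, ← h z hz]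
    field_simp

/-- numerators and denominators -/
def num (u : Fin r → ℂ → ℂ) (l : Fin r → ℤ) (z : ℂ) : ℂ := ∏ j, u j z ^ (l j).toNat

theorem num_quot (l : Fin r → ℤ) {z : ℂ} (hz : ∀ j, u j z ≠ 0) :
    ∏ j, u j z ^ l j = num u l z / num u (-l) z := by
  unfold num
  rw [← Finset.prod_div_distrib]
  refine Finset.prod_congr rfl fun j _ => ?_
  rw [eq_div_iff (pow_ne_zero _ (hz j)), ← zpow_natCast, ← zpow_natCast, ← zpow_add₀ (hz j)]
  congr 1
  rw [Pi.neg_apply]
  omega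

theorem num_diff (hu : ∀ j, Differentiable ℂ (u j)) (l : Fin r → ℤ) : Differentiable ℂ (num u l) :=
  Differentiable.fun_finsetProd fun j _ => (hu j).pow _

theorem num_ne {l : Fin r → ℤ} {z : ℂ} (hz : ∀ j, u j z ≠ 0) : num u l z ≠ 0 :=
  Finset.prod_ne_zero_iff.2 fun j _ => pow_ne_zero _ (hz j)

theorem num_ne' (hu : ∀ j, Differentiable ℂ (u j)) (hu0 : ∀ j, u j ≠ 0) (l : Fin r → ℤ) :
    num u l ≠ 0 := by
  obtain ⟨z0, -, hz0⟩ := prod_ne hu hu0
  intro h
  exact num_ne (l := l) hz0 (congrFun h z0)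

theorem good_ext (hu : ∀ j, Differentiable ℂ (u j)) (hu0 : ∀ j, u j ≠ 0) {f : ℂ → ℂ}
    (hf : Differentiable ℂ f) (h : ∀ z, (∀ j, u j z ≠ 0) → f z = 0) : ∀ z, f z = 0 := by
  have hp : Differentiable ℂ fun z => ∏ j, u j z := Differentiable.fun_finsetProd fun j _ => hu j
  have hz : ∀ z, f z * ∏ j, u j z = 0 := by
    intro z
    by_cases hg : ∀ j, u j z ≠ 0
    · rw [h z hg, zero_mul]
    · push Not at hg
      obtain ⟨j, hj⟩ := hg
      rw [Finset.prod_eq_zero (Finset.mem_univ j) hj, mul_zero]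
  rcases ent_eq_zero_or hf hp hz with h1 | h1
  · exact fun z => congrFun h1 z
  · exfalso
    obtain ⟨z0, -, hz0⟩ := prod_ne hu hu0
    exact Finset.prod_ne_zero_iff.2 (fun j _ => hz0 j) (congrFun h1 z0)

theorem ratRel_iff (hu : ∀ j, Differentiable ℂ (u j)) (hu0 : ∀ j, u j ≠ 0) (l : Fin r → ℤ) :
    l ∈ ratRel u ↔ MRel (fun w => num u l w⁻¹) (fun w => num u (-l) w⁻¹) := by
  constructor
  · rintro ⟨A, B, hA, hB, h⟩
    refine mrel_of_rat hB (A := A) fun z => ?_
    have h1 := good_ext hu hu0 (f := fun z => B.eval z * num u l z - A.eval z * num u (-l) z)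
      ((B.differentiable.mul (num_diff hu l)).sub (A.differentiable.mul (num_diff hu (-l))))
      (fun z hz => by
        have h2 := h z hz
        rw [num_quot l hz] at h2
        have h3 : num u (-l) z ≠ 0 := num_ne hz
        change B.eval z * num u l z - A.eval z * num u (-l) z = 0
        rw [← h2]
        field_simp
        ring) z
    exact sub_eq_zero.1 h1
  · intro h
    obtain ⟨A, B, hA, hB, hAB⟩ := rat_of_mrel (num_diff hu l) (num_diff hu (-l)) (num_ne' hu hu0 l)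
      (num_ne' hu hu0 (-l)) h
    refine ⟨A, B, hA, hB, fun z hz => ?_⟩
    have h3 : num u (-l) z ≠ 0 := num_ne hz
    rw [num_quot l hz, ← mul_div_assoc, hAB z, mul_div_assoc, div_self h3, mul_one]

theorem pun_inv {f : ℂ → ℂ} (hf : Differentiable ℂ f) : Pun (fun w => f w⁻¹) := by
  filter_upwards [self_mem_nhdsWithin] with w hw
  exact AnalyticAt.comp (g := f) (f := fun w : ℂ => w⁻¹) (hf.analyticAt _) (analyticAt_inv hw)

theorem nz_inv {f : ℂ → ℂ} (hf : Differentiable ℂ f) (h0 : f ≠ 0) : Nz (fun w => f w⁻¹) :=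
  fun h => h0 (ent_eq_of_inv hf (differentiable_const (0 : ℂ)) h)

theorem ratRel_sat (hu : ∀ j, Differentiable ℂ (u j)) (hu0 : ∀ j, u j ≠ 0) (c : ℤ)
    (l : Fin r → ℤ) (hc : c ≠ 0) (h : c • l ∈ ratRel u) : l ∈ ratRel u := by
  have hpos : ∀ (N : ℕ), 0 < N → ((N : ℤ) • l) ∈ ratRel u → l ∈ ratRel u := by
    intro N hN h
    rw [ratRel_iff hu hu0] at h ⊢
    have hnum : ∀ (l : Fin r → ℤ) z, num u ((N : ℤ) • l) z = num u l z ^ N := by
      intro l z
      unfold num
      rw [← Finset.prod_pow]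
      refine Finset.prod_congr rfl fun j _ => ?_
      rw [← pow_mul]
      congr 1
      rw [Pi.smul_apply, smul_eq_mul, mul_comm]
      by_cases hl : 0 ≤ l j
      · lift l j to ℕ using hl with a ha
        rw [Int.toNat_natCast]
        norm_cast
      · have h1 : l j * (N : ℤ) ≤ 0 := mul_nonpos_of_nonpos_of_nonneg (by omega) (by omega)
        rw [Int.toNat_of_nonpos h1, Int.toNat_of_nonpos (by omega), zero_mul]
    rw [← smul_neg] at h
    simp only [hnum] at h
    exact growth_mero (pun_inv (num_diff hu l)) (pun_inv (num_diff hu (-l)))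
      (nz_inv (num_diff hu (-l)) (num_ne' hu hu0 (-l))) (gr_of_pow hN h.gr)
  rcases lt_or_gt_of_ne hc with h0 | h0
  · apply hpos c.natAbs (by omega)
    have h1 : ((c.natAbs : ℕ) : ℤ) = -c := by omega
    rw [h1, neg_smul]
    exact (ratRel u).neg_mem h
  · apply hpos c.natAbs (by omega)
    have h1 : ((c.natAbs : ℕ) : ℤ) = c := by omega
    rw [h1]
    exact h

end rel

theorem rels_le_rat {D M : ℕ} {k : Fin r → ℂ → ℂ} (hk : ∀ j, Differentiable ℂ (k j))
    (hk0 : ∀ j, k j ≠ 0) {l : Fin r → ℤ} (hl : l ∈ rels D M (fun j w => k j w⁻¹)) :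
    l ∈ ratRel (fun j z => k j z ^ M) := by
  classical
  unfold rels at hl
  obtain ⟨-, a, b, hab, hrel⟩ := Finset.mem_filter.1 hl
  have hmd : ∀ c : Fin r → ℕ, Differentiable ℂ (fun z => mon k c z ^ M) := fun c =>
    (Differentiable.fun_finsetProd fun j _ => (hk j).pow _).pow M
  have hmon : ∀ (c : Fin r → ℕ) (z : ℂ), mon k c z ^ M = ∏ j, (k j z ^ M) ^ c j := fun c z =>
    (prod_pow_M k c M z).symm
  obtain ⟨z0, -, hz0⟩ := prod_ne hk hk0
  have hmn : ∀ c : Fin r → ℕ, (fun z => mon k c z ^ M) ≠ 0 := by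
    intro c h0
    have h1 := congrFun h0 z0
    simp only [Pi.zero_apply] at h1
    rw [hmon] at h1
    exact Finset.prod_ne_zero_iff.2 (fun j _ => pow_ne_zero _ (pow_ne_zero _ (hz0 j))) h1
  obtain ⟨A, B, hA, hB, hAB⟩ := rat_of_mrel (P := fun z => mon k a z ^ M)
    (Q := fun z => mon k b z ^ M) (hmd a) (hmd b) (hmn a) (hmn b) hrel
  refine ⟨A, B, hA, hB, fun z hz => ?_⟩
  have h1 := hAB z
  simp only [hmon] at h1
  have h2 : ∏ j, (k j z ^ M) ^ l j = (∏ j, (k j z ^ M) ^ a j) / ∏ j, (k j z ^ M) ^ b j := by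
    rw [← Finset.prod_div_distrib]
    refine Finset.prod_congr rfl fun j _ => ?_
    rw [hab j, zpow_sub₀ (hz j), zpow_natCast, zpow_natCast]
  have h3 : ∏ j, (k j z ^ M) ^ b j ≠ 0 :=
    Finset.prod_ne_zero_iff.2 fun j _ => pow_ne_zero _ (hz j)
  rw [h2, ← mul_div_assoc, h1, mul_div_assoc, div_self h3, mul_one]

end Pool.Agent.Q33.SP
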