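import Pool.Agent.Q33.SP.HullP
import Pool.Agent.Q33.SP.Hull4

/-!
The hull of an entire curve which is a sum of few high powers with polynomial coefficients.
-/

set_option autoImplicit false

namespace Pool.Agent.Q33.SP

open Filter Topology Pool.Agent.W603.BP MvPolynomial Pool.Agent.H159R3.NV

variable {n r g : ℕ} {ι : Type}

/-- normal form: no term vanishes identically -/
theorem pol_normal {M : ℕ} (hM : 0 < M) {f : ℂ → Fin (n + 1) → ℂ}
    (h : ∃ (V : Fin r → Fin (n + 1) → Polynomial ℂ) (k : Fin r → ℂ → ℂ),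
      (∀ j, Differentiable ℂ (k j)) ∧ ∀ z i, f z i = ∑ j, (V j i).eval z * k j z ^ M) :
    ∃ (V : Fin r → Fin (n + 1) → Polynomial ℂ) (k : Fin r → ℂ → ℂ),
      (∀ j, Differentiable ℂ (k j)) ∧
      (∀ j, k j ≠ 0) ∧ ∀ z i, f z i = ∑ j, (V j i).eval z * k j z ^ M := by
  classical
  obtain ⟨v, k, hk, hf⟩ := h
  refine ⟨fun j => if k j = 0 then 0 else v j, fun j => if k j = 0 then fun _ => 1 else k j,
    fun j => ?_, fun j => ?_, fun z i => ?_⟩
  · by_cases h : k j = 0
    · simp only [if_pos h]
      exact differentiable_const _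
    · simp only [if_neg h]
      exact hk j
  · by_cases h : k j = 0
    · simp only [if_pos h]
      intro h0
      exact one_ne_zero (congrFun h0 0)
    · simp only [if_neg h]
      exact h
  · rw [hf]
    refine Finset.sum_congr rfl fun j _ => ?_
    by_cases h : k j = 0
    · simp only [if_pos h]
      rw [h, Pi.zero_apply, Pi.zero_apply, Polynomial.eval_zero, zero_pow hM.ne', mul_zero,
        zero_mul]
    · simp only [if_neg h]

/-- the map from the product of the line and a torus -/
noncomputable def pm (W : Fin r → Fin (n + 1) → Polynomial ℂ) (e : Fin g → Fin r → ℤ) (z : ℂ)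
    (t : Fin g → ℂ) : Fin (n + 1) → ℂ := fun i => ∑ j, (W j i).eval z * tm t fun b => e b j

theorem diff_eval' {f : ℂ → Fin (n + 1) → ℂ} (hf : ∀ i, Differentiable ℂ fun z => f z i)
    (G : MvPolynomial (Fin (n + 1)) ℂ) : Differentiable ℂ fun z => eval (f z) G := diff_eval hf G

/-- **The hull of an entire curve with polynomial coefficients.** -/
theorem hull_pol {D M : ℕ} (hr : 0 < r) (F : ι → MvPolynomial (Fin (n + 1)) ℂ)
    (hF : ∀ i, ∃ d, d ≤ D ∧ (F i).IsHomogeneous d) (hM : ((r + D - 1).choose D) ^ 2 ≤ M)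
    (f : ℂ → Fin (n + 1) → ℂ) (hf : EntPol r M F f) :
    ∃ (g : ℕ) (W : Fin r → Fin (n + 1) → Polynomial ℂ) (e : Fin g → Fin r → ℤ),
      (∀ z t, (∀ b, t b ≠ 0) → ∀ i, eval (pm W e z t) (F i) = 0) ∧
      ∃ S : ℂ → ℂ, Differentiable ℂ S ∧ S ≠ 0 ∧ ∀ z, S z ≠ 0 →
        ∃ c : ℂ, c ≠ 0 ∧ ∃ t : Fin g → ℂ, (∀ b, t b ≠ 0) ∧ ∀ i, c * f z i = pm W e z t i := by
  classical
  have hM0 : 0 < M := lt_of_lt_of_le (pow_pos (Nat.choose_pos (by omega)) 2) hM
  obtain ⟨V, k, hk, hk0, hfe⟩ := pol_normal hM0 hf.sum
  let u : Fin r → ℂ → ℂ := fun j z => k j z ^ M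
  have hu : ∀ j, Differentiable ℂ (u j) := fun j => (hk j).pow M
  have hu0 : ∀ j, u j ≠ 0 := by
    intro j h0
    apply hk0 j
    funext z
    exact pow_eq_zero_iff hM0.ne' |>.1 (congrFun h0 z)
  let N : Submodule ℤ (Fin r → ℤ) := (ratRel u).toIntSubmodule
  have hN : ∀ l, l ∈ N ↔ l ∈ ratRel u := fun l => Iff.rfl
  obtain ⟨π, hπ1, hπ2⟩ := exists_proj N (fun c l hc h => ratRel_sat hu hu0 c l hc h)
  obtain ⟨g, e, he, hspan⟩ := span_int (N : Set (Fin r → ℤ))
  have horth : Orth D M (fun j w => k j w⁻¹) e := fun b l hl =>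
    he b l ((hN l).2 (rels_le_rat hk hk0 hl))
  choose A B hA hB hAB using fun j => (hN _).1 (hπ1 (Pi.single j (1 : ℤ)))
  let W : Fin r → Fin (n + 1) → Polynomial ℂ := fun j i =>
    V j i * A j * ∏ i' ∈ Finset.univ.erase j, B i'
  let Bt : Polynomial ℂ := ∏ j, B j
  have hBt : Bt ≠ 0 := Finset.prod_ne_zero_iff.2 fun j _ => hB j
  let S : ℂ → ℂ := fun z => Bt.eval z * ∏ j, u j z
  have hSd : Differentiable ℂ S := Bt.differentiable.mul
    (Differentiable.fun_finsetProd fun j _ => hu j)
  have hS0 : S ≠ 0 := by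
    intro h0
    rcases ent_eq_zero_or Bt.differentiable (Differentiable.fun_finsetProd fun j _ => hu j)
      (fun z => congrFun h0 z) with h1 | h1
    · exact poly_fun_ne hBt h1
    · obtain ⟨z0, -, hz0⟩ := prod_ne hu hu0
      exact Finset.prod_ne_zero_iff.2 (fun j _ => hz0 j) (congrFun h1 z0)
  -- the good points
  have hgood : ∀ z, S z ≠ 0 → (∀ j, u j z ≠ 0) ∧ ∀ j, (B j).eval z ≠ 0 := by
    intro z hz
    have h1 := left_ne_zero_of_mul hz
    have h2 := right_ne_zero_of_mul hz
    rw [Polynomial.eval_prod] at h1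
    exact ⟨fun j => Finset.prod_ne_zero_iff.1 h2 j (Finset.mem_univ j),
      fun j => Finset.prod_ne_zero_iff.1 h1 j (Finset.mem_univ j)⟩
  -- the point of the torus
  have hpt : ∀ z, S z ≠ 0 → ∃ t : Fin g → ℂ, (∀ b, t b ≠ 0) ∧ ∀ j i,
      (W j i).eval z * tm t (fun b => e b j) = Bt.eval z * ((V j i).eval z * u j z) := by
    intro z hz
    obtain ⟨h1, h2⟩ := hgood z hz
    let q : Fin r → ℂ := fun j => ∏ i, u i z ^ π (Pi.single j 1) i
    have hq : ∀ j, q j ≠ 0 := fun j => Finset.prod_ne_zero_iff.2 fun i _ => zpow_ne_zero _ (h1 i)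
    have hqA : ∀ j, (B j).eval z * q j = (A j).eval z := fun j => hAB j z h1
    obtain ⟨t, ht, htx⟩ := torus_pt (N := N) hπ1 hπ2 hspan (x := fun j => u j z / q j)
      (fun j => div_ne_zero (h1 j) (hq j)) (by
        intro l hl
        have e1 : ∏ j, (u j z / q j) ^ l j = (∏ j, u j z ^ l j) / ∏ j, q j ^ l j := by
          rw [← Finset.prod_div_distrib]
          exact Finset.prod_congr rfl fun j _ => div_zpow _ _ _
        have e2 : ∏ j, q j ^ l j = ∏ i, u i z ^ l i := by
          have e3 : ∀ j, q j ^ l j = ∏ i, u i z ^ (l j * π (Pi.single j 1) i) := by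
            intro j
            change (∏ i, u i z ^ π (Pi.single j 1) i) ^ l j = _
            rw [← Finset.prod_zpow]
            exact Finset.prod_congr rfl fun i _ => by rw [← zpow_mul, mul_comm]
          rw [Finset.prod_congr rfl fun j _ => e3 j, Finset.prod_comm]
          refine Finset.prod_congr rfl fun i _ => ?_
          rw [prod_zpow_sum _ (h1 i), ← proj_sum π l i, hπ2 l hl]
        rw [e1, e2, div_self]
        exact Finset.prod_ne_zero_iff.2 fun i _ => zpow_ne_zero _ (h1 i))
    refine ⟨t, ht, fun j i => ?_⟩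
    rw [htx j]
    have e4 : Bt.eval z = (B j).eval z * (∏ i' ∈ Finset.univ.erase j, B i').eval z := by
      rw [← Polynomial.eval_mul, Finset.mul_prod_erase _ _ (Finset.mem_univ j)]
    change (V j i * A j * ∏ i' ∈ Finset.univ.erase j, B i').eval z * (u j z / q j) = _
    rw [e4, Polynomial.eval_mul, Polynomial.eval_mul, ← hqA j]
    have := hq j
    field_simp
  -- the curve moved by the torus
  have hmove : ∀ (t : Fin g → ℂ), (∀ b, t b ≠ 0) → ∀ i z,
      eval (fun i' => ∑ j, (V j i').eval z * (k j z ^ M * tm t fun b => e b j)) (F i) = 0 := by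
    intro t ht i
    obtain ⟨d, hd, hFd⟩ := hF i
    let V' : Fin r → Fin (n + 1) → ℂ → ℂ := fun j i w => (V j i).eval w⁻¹
    have hV' : ∀ j i, MeromorphicAt (V' j i) 0 := by
      intro j i
      have h1 : MeromorphicAt (fun w : ℂ => w⁻¹) 0 := (MeromorphicAt.id 0).inv
      have h2 : V' j i = fun w => ∑ m ∈ Finset.range ((V j i).natDegree + 1),
          (V j i).coeff m * (w⁻¹) ^ m := funext fun w => Polynomial.eval_eq_sum_range _
      rw [h2]
      exact MeromorphicAt.fun_sum fun m _ => (MeromorphicAt.const _ _).fun_mul (h1.fun_pow m)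
    have h1 := split_zero3 (V := V') (k := fun j w => k j w⁻¹) horth hV'
        (fun j => pun_inv (hk j)) hM0 hFd hd
        ((Nat.pow_le_pow_left ((Nat.sub_le _ _).trans (card_le hFd hd hr)) 2).trans hM) (by
          refine Eventually.of_forall fun w => ?_
          have := hf.on w⁻¹ i
          have h3 : f w⁻¹ = fun i' => ∑ j, (V j i').eval w⁻¹ * k j w⁻¹ ^ M :=
            funext fun i' => hfe _ i'
          rw [h3] at this
          exact this)
    have hd1 : Differentiable ℂ fun z =>
        eval (fun i' => ∑ j, (V j i').eval z * (k j z ^ M * tm t fun b => e b j)) (F i) :=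
      diff_eval (f := fun z i' => ∑ j, (V j i').eval z * (k j z ^ M * tm t fun b => e b j))
        (fun i' => Differentiable.fun_sum fun j _ =>
          (V j i').differentiable.mul (((hk j).pow M).mul_const _)) (F i)
    have h2 := ent_eq_of_inv hd1 (differentiable_const (0 : ℂ)) (by
      filter_upwards [h1] with w hw
      exact hw t ht)
    exact fun z => congrFun h2 z
  refine ⟨g, W, e, ?_, S, hSd, hS0, ?_⟩
  · intro z t ht i
    have hdW : Differentiable ℂ fun z => eval (pm W e z t) (F i) :=
      diff_eval (f := fun z => pm W e z t) (fun i' => Differentiable.fun_sum fun j _ =>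
          (W j i').differentiable.mul_const _) (F i)
    have hprod : ∀ z, eval (pm W e z t) (F i) * S z = 0 := by
      intro z
      by_cases hz : S z = 0
      · rw [hz, mul_zero]
      · obtain ⟨t', ht', htW⟩ := hpt z hz
        obtain ⟨d, hd, hFd⟩ := hF i
        let s : Fin g → ℂ := fun b => t b / t' b
        have hs : ∀ b, s b ≠ 0 := fun b => div_ne_zero (ht b) (ht' b)
        have hsm : ∀ m : Fin g → ℤ, tm s m * tm t' m = tm t m := by
          intro m
          unfold tm
          rw [← Finset.prod_mul_distrib]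
          refine Finset.prod_congr rfl fun b _ => ?_
          rw [← mul_zpow]
          change (t b / t' b * t' b) ^ m b = _
          rw [div_mul_cancel₀ _ (ht' b)]
        have h1 := hmove s hs i z
        have h2 : pm W e z t = fun i' => Bt.eval z *
            ∑ j, (V j i').eval z * (k j z ^ M * tm s fun b => e b j) := by
          funext i'
          unfold pm
          rw [Finset.mul_sum]
          refine Finset.sum_congr rfl fun j _ => ?_
          have h3 := htW j i'
          rw [← hsm]
          change _ = Bt.eval z * ((V j i').eval z * (u j z * tm s fun b => e b j))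
          linear_combination (tm s fun b => e b j) * h3
        rw [h2, eval_scale hFd, h1, mul_zero, zero_mul]
    rcases ent_eq_zero_or hdW hSd hprod with h1 | h1
    · exact congrFun h1 z
    · exact absurd h1 hS0
  · intro z hz
    obtain ⟨t', ht', htW⟩ := hpt z hz
    refine ⟨Bt.eval z, left_ne_zero_of_mul hz, t', ht', fun i => ?_⟩
    rw [hfe z i]
    unfold pm
    rw [Finset.mul_sum]
    exact Finset.sum_congr rfl fun j _ => (htW j i).symm

end Pool.Agent.Q33.SP
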