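import Pool.Agent.Q33.SP.HullP2

/-!
The hull is the image of a torus with finitely many monomials.
-/

set_option autoImplicit false

namespace Pool.Agent.Q33.SP

open Filter Topology Pool.Agent.W603.BP MvPolynomial Pool.Agent.H159R3.NV FF Pool.Agent.W602.GT
open Pool.Agent.TH143.GT Pool.Agent.W603.GR Pool.Agent.W603.PV

variable {n r g : ℕ} {ι : Type}

theorem EntPol.diff {M : ℕ} {F : ι → MvPolynomial (Fin (n + 1)) ℂ} {f : ℂ → Fin (n + 1) → ℂ}
    (hf : EntPol r M F f) (i : Fin (n + 1)) : Differentiable ℂ fun z => f z i := by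
  obtain ⟨V, k, hk, hfe⟩ := hf.sum
  have h1 : (fun z => f z i) = fun z => ∑ j, (V j i).eval z * k j z ^ M := funext fun z => hfe z i
  rw [h1]
  exact Differentiable.fun_sum fun j _ => (V j i).differentiable.mul ((hk j).pow M)

/-- sums of powers with constant coefficients -/
theorem EntSp.pol {M : ℕ} {F : ι → MvPolynomial (Fin (n + 1)) ℂ} {f : ℂ → Fin (n + 1) → ℂ}
    (hf : EntSp r M F 1 f) : EntPol r M F f := by
  obtain ⟨v, k, hk, hfe⟩ := hf.sum
  refine ⟨⟨fun j i => Polynomial.C (v j i), k, hk, fun z i => ?_⟩, fun z i => (hf.on z).1 i,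
    hf.nonconst⟩
  rw [hfe z i]
  exact Finset.sum_congr rfl fun j _ => by rw [Polynomial.eval_C]

/-- **The hull as the image of a torus.** -/
theorem hull_pol_tor {D M : ℕ} (hr : 0 < r) (F : ι → MvPolynomial (Fin (n + 1)) ℂ)
    (hF : ∀ i, ∃ d, d ≤ D ∧ (F i).IsHomogeneous d) (hM : ((r + D - 1).choose D) ^ 2 ≤ M)
    (f : ℂ → Fin (n + 1) → ℂ) (hf : EntPol r M F f) :
    ∃ (s g : ℕ) (Φ : (Fin g → ℂ) → Fin (n + 1) → ℂ), TorSp s g F 1 Φ ∧
      ∃ S : ℂ → ℂ, Differentiable ℂ S ∧ S ≠ 0 ∧ ∀ z, S z ≠ 0 →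
        ∃ c : ℂ, c ≠ 0 ∧ ∃ t : Fin g → ℂ, (∀ b, t b ≠ 0) ∧ ∀ i, c * f z i = Φ t i := by
  classical
  obtain ⟨g, W, e, hon, S, hSd, hS0, himg⟩ := hull_pol hr F hF hM f hf
  let N : ℕ := (Finset.univ.sup fun p : Fin r × Fin (n + 1) => (W p.1 p.2).natDegree) + 1
  have hN : ∀ j i, (W j i).natDegree < N := by
    intro j i
    have := Finset.le_sup (f := fun p : Fin r × Fin (n + 1) => (W p.1 p.2).natDegree)
      (Finset.mem_univ (j, i))
    simp only at this
    omega
  let Φ : (Fin (g + 1) → ℂ) → Fin (n + 1) → ℂ := fun t => pm W e (t 0) fun b => t b.succ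
  have hsum : ∀ t : Fin (g + 1) → ℂ, ∀ i, Φ t i =
      ∑ p : Fin r × Fin N, (W p.1 i).coeff p.2 *
        ∏ a, t a ^ (Fin.cons ((p.2 : ℕ) : ℤ) (fun b => e b p.1) : Fin (g + 1) → ℤ) a := by
    intro t i
    change ∑ j, (W j i).eval (t 0) * tm (fun b => t b.succ) (fun b => e b j) = _
    rw [Fintype.sum_prod_type]
    refine Finset.sum_congr rfl fun j _ => ?_
    rw [Polynomial.eval_eq_sum_range' (hN j i), Finset.sum_mul,
      Finset.sum_range (fun m => (W j i).coeff m * t 0 ^ m * tm (fun b => t b.succ) fun b => e b j)]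
    refine Finset.sum_congr rfl fun m _ => ?_
    rw [Fin.prod_univ_succ, Fin.cons_zero, zpow_natCast, mul_assoc]
    congr 2
  have h0S : ∀ z, (z * S z) ≠ 0 → ∃ c : ℂ, c ≠ 0 ∧ ∃ t : Fin (g + 1) → ℂ, (∀ b, t b ≠ 0) ∧
      ∀ i, c * f z i = Φ t i := by
    intro z hz
    obtain ⟨c, hc, t, ht, htf⟩ := himg z (right_ne_zero_of_mul hz)
    refine ⟨c, hc, Fin.cons z t, fun b => ?_, fun i => ?_⟩
    · refine Fin.cases ?_ (fun b => ?_) b
      · rw [Fin.cons_zero]
        exact left_ne_zero_of_mul hz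
      · rw [Fin.cons_succ]
        exact ht b
    · rw [htf i]
      change _ = pm W e ((Fin.cons z t : Fin (g + 1) → ℂ) 0)
        (fun b => (Fin.cons z t : Fin (g + 1) → ℂ) b.succ) i
      rw [Fin.cons_zero]
      simp only [Fin.cons_succ]
  have hTd : Differentiable ℂ fun z => z * S z := differentiable_id.mul hSd
  have hT0 : (fun z => z * S z) ≠ 0 := by
    intro h0
    rcases ent_eq_zero_or differentiable_id hSd (fun z => congrFun h0 z) with h1 | h1
    · exact one_ne_zero (congrFun h1 1)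
    · exact hS0 h1
  let σ : Fin (r * N) ≃ Fin r × Fin N := finProdFinEquiv.symm
  refine ⟨r * N, g + 1, Φ, ⟨⟨fun j i => (W (σ j).1 i).coeff (σ j).2, fun j =>
    Fin.cons (((σ j).2 : ℕ) : ℤ) (fun b => e b (σ j).1), fun t i => ?_⟩, fun t ht =>
    ⟨fun i => hon _ _ (fun b => ht b.succ) i, ?_⟩, ?_⟩, fun z => z * S z, hTd, hT0, h0S⟩
  · rw [hsum t i, ← Equiv.sum_comp σ]
  · rw [map_one]
    exact one_ne_zero
  · by_contra hno
    push Not at hno
    obtain ⟨z, z', i, l, hne⟩ := hf.nonconst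
    apply hne
    have h1 : ∀ z z', z * S z ≠ 0 → z' * S z' ≠ 0 → f z i * f z' l = f z l * f z' i := by
      intro z z' hz hz'
      obtain ⟨c, hc, t, ht, htf⟩ := h0S z hz
      obtain ⟨c', hc', t', ht', htf'⟩ := h0S z' hz'
      have h2 := hno t t' ht ht' i l
      rw [← htf, ← htf, ← htf', ← htf'] at h2
      apply mul_left_cancel₀ (mul_ne_zero hc hc')
      linear_combination h2
    have h3 : ∀ z', z' * S z' ≠ 0 → ∀ z, f z i * f z' l = f z l * f z' i := by
      intro z' hz' z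
      have h4 : ∀ z, (f z i * f z' l - f z l * f z' i) * (z * S z) = 0 := by
        intro z
        by_cases hz : z * S z = 0
        · rw [hz, mul_zero]
        · rw [h1 z z' hz hz', sub_self, zero_mul]
      rcases ent_eq_zero_or (((hf.diff i).mul_const (f z' l)).sub
        ((hf.diff l).mul_const (f z' i))) hTd h4 with h5 | h5
      · exact sub_eq_zero.1 (congrFun h5 z)
      · exact absurd h5 hT0
    have h4 : ∀ z', (f z i * f z' l - f z l * f z' i) * (z' * S z') = 0 := by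
      intro z'
      by_cases hz : z' * S z' = 0
      · rw [hz, mul_zero]
      · rw [h3 z' hz z, sub_self, zero_mul]
    rcases ent_eq_zero_or (((hf.diff l).const_mul (f z i)).sub
      ((hf.diff i).const_mul (f z l))) hTd h4 with h5 | h5
    · exact sub_eq_zero.1 (congrFun h5 z')
    · exact absurd h5 hT0

/-- Zariski-dense entire curves with few terms and polynomial coefficients. -/
theorem tor_of_pol_dense {D M : ℕ} (hr : 0 < r) (F : ι → MvPolynomial (Fin (n + 1)) ℂ)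
    (hF : ∀ i, ∃ d, d ≤ D ∧ (F i).IsHomogeneous d) (hM : ((r + D - 1).choose D) ^ 2 ≤ M)
    (p : Ideal (MvPolynomial (Fin (n + 1)) ℂ))
    (f : ℂ → Fin (n + 1) → ℂ) (hf : EntPol r M F f) (hd : ZDense p f Set.univ) :
    ∃ (s g : ℕ) (Φ : (Fin g → ℂ) → Fin (n + 1) → ℂ), TorSp s g F 1 Φ ∧ TorDense p Φ := by
  obtain ⟨s, g, Φ, h1, S, hSd, hS0, himg⟩ := hull_pol_tor hr F hF hM f hf
  refine ⟨s, g, Φ, h1, fun H hH h0 => hd H hH fun z _ => ?_⟩
  have h2 : ∀ z, eval (f z) H * S z = 0 := by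
    intro z
    by_cases hz : S z = 0
    · rw [hz, mul_zero]
    · obtain ⟨c, hc, t, ht, htf⟩ := himg z hz
      obtain ⟨d, hHd⟩ := hH
      have h3 := h0 t ht
      have h4 : Φ t = fun i => c * f z i := funext fun i => (htf i).symm
      rw [h4, eval_scale hHd] at h3
      rw [(mul_eq_zero.1 h3).resolve_left (pow_ne_zero _ hc), zero_mul]
  rcases ent_eq_zero_or (diff_eval hf.diff H) hSd h2 with h5 | h5
  · exact congrFun h5 z
  · exact absurd h5 hS0

end Pool.Agent.Q33.SP
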