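import Pool.Agent.Q33.SP.Flat2
import Pool.Agent.Q33.SP.Alg2
import Pool.Agent.Q33.SP.Sets
import Pool.Agent.TH143.GT.Fin

/-!
Rational functions which are constant along covering families of rational curves, restricted to
curves with few terms.
-/

set_option autoImplicit false

namespace Pool.Agent.Q33.SP

open Filter Topology Pool.Agent.W603.BP MvPolynomial FF Pool.Agent.W602.GT Pool.Agent.TH143.GT
open Pool.Agent.H159R3.NV
open IntermediateField hiding val

variable {n r : ℕ} {ι : Type}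

/-- The rational function `s` is constant along all covering families of rational curves which meet
the boundary in at most two points. -/
def FlatFn {K : Type} [Field K] [Algebra ℂ K] (y : Fin (n + 1) → K)
    (Q : MvPolynomial (Fin (n + 1)) ℂ) (s : K) : Prop :=
  ∀ (M : Type) (_ : Field M) (_ : Algebra ℂ M) (m : ℕ) (W : Fin (n + 1) → Polynomial M) (l : ℕ),
    Algebra.trdeg ℂ M = m → Fam y Q W l → (Q = 1 → l = 0) → Flat ℂ y W s

/-- The restriction of the rational function `s` to the curve `f` is the function `ρ`, near the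
origin. -/
def RestrictsTo {K : Type} [Field K] [Algebra ℂ K] (y : Fin (n + 1) → K) (s : K)
    (f : ℂ → Fin (n + 1) → ℂ) (ρ : ℂ → ℂ) : Prop :=
  ∀ (d : ℕ) (g1 g0 : MvPolynomial (Fin (n + 1)) ℂ), g1.IsHomogeneous d → g0.IsHomogeneous d →
    W602.GT.val y g0 ≠ 0 → s = W602.GT.val y g1 / W602.GT.val y g0 →
    ∀ᶠ w in 𝓝[≠] (0 : ℂ), eval (f w) g1 = ρ w * eval (f w) g0

theorem pun_eval' {f : ℂ → Fin (n + 1) → ℂ} (hf : ∀ i, Pun (fun w => f w i))
    (G : MvPolynomial (Fin (n + 1)) ℂ) : Pun (fun w => eval (f w) G) := by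
  have h1 : ∀ᶠ w in 𝓝[≠] (0 : ℂ), ∀ i, AnalyticAt ℂ (fun w => f w i) w := by
    rw [Filter.eventually_all]
    exact hf
  filter_upwards [h1] with w hw
  exact an_aeval G hw

/-- **The restriction of a rational function to a curve with `r` terms.** -/
theorem mer_main {D q : ℕ} (hr : 0 < r) (F : ι → MvPolynomial (Fin (n + 1)) ℂ)
    (hF : ∀ i, ∃ d, d ≤ D ∧ (F i).IsHomogeneous d) (Q : MvPolynomial (Fin (n + 1)) ℂ)
    (hQ : Q.IsHomogeneous q) (hq : q ≤ D) {p : Ideal (MvPolynomial (Fin (n + 1)) ℂ)} [p.IsPrime]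
    (hcut : ∀ H ∈ p, ∀ x, OnX F Q x → eval x H = 0)
    {K : Type} [Field K] [Algebra ℂ K] {w : ℕ} {y : Fin (n + 1) → K} (hy : FunField p Q K w y)
    {s : K} (hs : FlatFn y Q s) :
    ∃ G : MvPolynomial (Fin (n + 1)) ℂ, IsForm G ∧ G ∉ p ∧
      ∀ M, ((r + D - 1).choose D) ^ 2 ≤ M → ∀ f : ℂ → Fin (n + 1) → ℂ, SumPow r M f →
        (∀ᶠ w in 𝓝[≠] (0 : ℂ), OnX F Q (f w)) → (¬ ∀ᶠ w in 𝓝[≠] (0 : ℂ), eval (f w) G = 0) →
        ∃ ρ : ℂ → ℂ, MeromorphicAt ρ 0 ∧ RestrictsTo y s f ρ := by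
  classical
  obtain ⟨d, g1, g0, hg1, hg0, hy0, hsg⟩ := exists_frac hy.sub.gen s
  obtain ⟨G0, hG1, hG2, hG3⟩ : ∃ G : MvPolynomial (Fin (n + 1)) ℂ, IsForm G ∧ G ∉ p ∧
      ∀ e ∈ Exps2 r (max D d), ∀ U : Fin r → Fin (n + 1) → ℂ,
      (∀ i, aeval (kc U e) (F i) = 0) →
      (∃ (c : ℂ) (m : ℕ), c ≠ 0 ∧ aeval (kc U e) Q = Polynomial.C c * Polynomial.X ^ m) →
      (∃ v, fco U e g0 g1 v ≠ 0) → aeval (fun i => (kc U e i).eval 1) G = 0 := by
    rcases excep2 (ι := ι) hQ (fun x h1 h2 H hH => hcut H hH x ⟨h1, h2⟩) hy.sub.mem hy.mem hg0 hg1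
      hy0 (Exps2 r (max D d)) with h | ⟨M, i1, i2, m', W, l', hm, hfam, hl, hnf⟩
    · exact h
    · exfalso
      apply hnf
      rw [← hsg]
      exact hs M i1 i2 m' W l' hm hfam hl
  obtain ⟨t, ht⟩ := hG1
  have hg0p : g0 ∉ p := fun h => hy0 (hy.sub.mem _ h)
  refine ⟨G0 * g0, ⟨t + d, ht.mul hg0⟩, fun h => ((inferInstance : p.IsPrime).mem_or_mem h).elim
    hG2 hg0p, fun M hM f hf hX hnv => ?_⟩
  obtain ⟨V, k, δ, m, hδ, hV, hk, hz, hall⟩ := germ2 (le_max_left D d) hr F hF Q hQ hq hM f hf hX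
  set e := ex2 (max D d) M k with he
  have hfan : ∀ w ∈ PB δ, ∀ i, AnalyticAt ℂ (fun w => f w i) w := by
    intro w hw i
    have h2 : AnalyticAt ℂ (fun w => ∑ j, V j i w * k j w ^ M) w :=
      Finset.analyticAt_fun_sum _ fun j _ =>
        ((hall w hw).1 j i).fun_mul (((hall w hw).2.1 j).fun_pow M)
    refine h2.congr ?_
    filter_upwards [(PB_open δ).mem_nhds hw] with z hz
    exact ((hall z hz).2.2.1 i).symm
  have hev : ∀ G : MvPolynomial (Fin (n + 1)) ℂ, AnalyticOnNhd ℂ (fun w => eval (f w) G) (PB δ) :=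
    fun G w hw => an_aeval G (hfan w hw)
  have hG0n : Nz (fun w => eval (f w) G0) := by
    intro h0
    apply hnv
    filter_upwards [h0] with w hw
    rw [map_mul, hw, zero_mul]
  have hg0n : Nz (fun w => eval (f w) g0) := by
    intro h0
    apply hnv
    filter_upwards [h0] with w hw
    rw [map_mul, hw, mul_zero]
  have hP1 : ∀ w ∈ PB δ, ∀ i, (cur (fun j i => V j i w * k j w ^ M) e i).eval 1 = f w i := by
    intro w hw i
    rw [(hall w hw).2.2.1 i]
    unfold cur
    rw [Polynomial.eval_finsetSum]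
    refine Finset.sum_congr rfl fun j _ => ?_
    rw [Polynomial.eval_mul, Polynomial.eval_C, Polynomial.eval_pow, Polynomial.eval_X, one_pow,
      mul_one]
  have hP1' : ∀ (G : MvPolynomial (Fin (n + 1)) ℂ), ∀ w ∈ PB δ,
      (aeval (cur (fun j i => V j i w * k j w ^ M) e) G : Polynomial ℂ).eval 1 =
        eval (f w) G := by
    intro G w hw
    rw [eval_aeval]
    have h1 : (fun i => (cur (fun j i => V j i w * k j w ^ M) e i).eval 1) = f w :=
      funext (hP1 w hw)
    rw [h1]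
    rfl
  -- flatness along the curves
  have hflat : ∀ w ∈ PB δ, eval (f w) G0 ≠ 0 →
      aeval (cur (fun j i => V j i w * k j w ^ M) e) g1 * Polynomial.C (eval (f w) g0) =
        aeval (cur (fun j i => V j i w * k j w ^ M) e) g0 * Polynomial.C (eval (f w) g1) := by
    intro w hw hne
    by_contra hcon
    apply hne
    have h1 := hG3 e (ex2_mem _ _ _) (fun j i => V j i w * k j w ^ M) (hall w hw).2.2.2.1
      ⟨_, m, (hall w hw).2.2.2.2⟩ (by
        by_contra hno
        push Not at hno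
        apply hcon
        have h2 : Polynomial.derivative (aeval (cur (fun j i => V j i w * k j w ^ M) e) g1) *
            aeval (cur (fun j i => V j i w * k j w ^ M) e) g0 =
            aeval (cur (fun j i => V j i w * k j w ^ M) e) g1 *
            Polynomial.derivative (aeval (cur (fun j i => V j i w * k j w ^ M) e) g0) := by
          rw [← sub_eq_zero]
          ext v
          exact hno v
        have h3 := flat_imp h2
        rw [hP1' g0 w hw, hP1' g1 w hw] at h3
        exact h3)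
    have h2 : (fun i => (kc (fun j i => V j i w * k j w ^ M) e i).eval 1) = f w :=
      funext (hP1 w hw)
    rw [h2] at h1
    exact h1
  have hflat' : ∀ w ∈ PB δ,
      aeval (cur (fun j i => V j i w * k j w ^ M) e) g1 * Polynomial.C (eval (f w) g0) =
        aeval (cur (fun j i => V j i w * k j w ^ M) e) g0 * Polynomial.C (eval (f w) g1) := by
    intro w hw
    rw [← sub_eq_zero]
    ext v
    have h1 : AnalyticOnNhd ℂ (fun w =>
        (aeval (cur (fun j i => V j i w * k j w ^ M) e) g1 * Polynomial.C (eval (f w) g0) -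
        aeval (cur (fun j i => V j i w * k j w ^ M) e) g0 *
          Polynomial.C (eval (f w) g1)).coeff v) (PB δ) := by
      intro w hw
      simp only [Polynomial.coeff_sub, Polynomial.coeff_mul_C]
      exact ((an_coeff (hall w hw).1 (hall w hw).2.1 e g1 v).fun_mul (hev g0 w hw)).fun_sub
        ((an_coeff (hall w hw).1 (hall w hw).2.1 e g0 v).fun_mul (hev g1 w hw))
    have h2 : ∀ᶠ w in 𝓝[≠] (0 : ℂ), eval (f w) G0 *
        (aeval (cur (fun j i => V j i w * k j w ^ M) e) g1 * Polynomial.C (eval (f w) g0) -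
        aeval (cur (fun j i => V j i w * k j w ^ M) e) g0 *
          Polynomial.C (eval (f w) g1)).coeff v = 0 := by
      filter_upwards [PB_mem hδ] with w hw
      by_cases h3 : eval (f w) G0 = 0
      · rw [h3, zero_mul]
      · rw [hflat w hw h3, sub_self, Polynomial.coeff_zero, mul_zero]
    have h3 := (pun_mul_zero (on_pun hδ (hev G0)) (on_pun hδ h1) h2).resolve_left hG0n
    exact eq_zero_on hδ h1 h3 w hw
  obtain ⟨ρ, hρ, hρe⟩ := flat_mero hV hk hz (ex2_cmp (max D d) M hk hz) (le_max_right D d) hg0 hg1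
    (ev_iff.2 ⟨δ, hδ, fun w hw => (hall w hw).2.2.1⟩)
    (ev_iff.2 ⟨δ, hδ, fun w hw => hflat' w hw⟩) hg0n
  refine ⟨ρ, hρ, fun d' h1 h0 hh1 hh0 hy0' hs' => ?_⟩
  have hrel : g1 * h0 - g0 * h1 ∈ p := by
    apply hy.mem _ ⟨d + d', (hg1.mul hh0).sub (hg0.mul hh1)⟩
    rw [hsg] at hs'
    unfold W602.GT.val at *
    rw [map_sub, map_mul, map_mul]
    rw [div_eq_div_iff hy0 hy0'] at hs'
    linear_combination hs'
  have hfP : ∀ G : MvPolynomial (Fin (n + 1)) ℂ, Pun (fun w => eval (f w) G) := fun G =>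
    on_pun hδ (hev G)
  have h2 : ∀ᶠ w in 𝓝[≠] (0 : ℂ), eval (f w) g0 * (eval (f w) h1 - ρ w * eval (f w) h0) = 0 := by
    filter_upwards [hρe, hX] with w h3 h4
    have h5 := hcut _ hrel _ h4
    rw [map_sub, map_mul, map_mul, h3] at h5
    linear_combination -h5
  have h3 : Pun (fun w => eval (f w) h1 - ρ w * eval (f w) h0) := by
    filter_upwards [hfP h1, (Pun.mero hρ).mul (hfP h0)] with w a1 a2
    exact a1.fun_sub a2
  filter_upwards [(pun_mul_zero (hfP g0) h3 h2).resolve_left hg0n] with w h4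
  linear_combination h4

/-- **The restriction of a rational function to an entire curve with `r` terms.** -/
theorem const_main {D q : ℕ} (hr : 0 < r) (F : ι → MvPolynomial (Fin (n + 1)) ℂ)
    (hF : ∀ i, ∃ d, d ≤ D ∧ (F i).IsHomogeneous d) (Q : MvPolynomial (Fin (n + 1)) ℂ)
    (hQ : Q.IsHomogeneous q) (hq : q ≤ D) {p : Ideal (MvPolynomial (Fin (n + 1)) ℂ)} [p.IsPrime]
    (hcut : ∀ H ∈ p, ∀ x, OnX F Q x → eval x H = 0)
    {K : Type} [Field K] [Algebra ℂ K] {w : ℕ} {y : Fin (n + 1) → K} (hy : FunField p Q K w y)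
    {s : K} (hs : FlatFn y Q s) :
    ∃ G : MvPolynomial (Fin (n + 1)) ℂ, IsForm G ∧ G ∉ p ∧
      ∀ M, ((r + D - 1).choose D) ^ 2 ≤ M →
        (∀ f, PunctSp r M F Q f → (∃ w : ℂ, w ≠ 0 ∧ ‖w‖ < 1 ∧ eval (f w) G ≠ 0) →
          ∃ ρ : ℂ → ℂ, MeromorphicAt ρ 0 ∧ RestrictsTo y s f ρ) ∧
        (∀ f, EntSp r M F Q f → (∃ z : ℂ, eval (f z) G ≠ 0) → ∃ c : ℂ,
          ∀ (d : ℕ) (g1 g0 : MvPolynomial (Fin (n + 1)) ℂ), g1.IsHomogeneous d →
            g0.IsHomogeneous d → W602.GT.val y g0 ≠ 0 →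
            s = W602.GT.val y g1 / W602.GT.val y g0 →
            ∀ z, eval (f z) g1 = c * eval (f z) g0) := by
  classical
  obtain ⟨G, hG1, hG2, hG3⟩ := mer_main hr F hF Q hQ hq hcut hy hs
  obtain ⟨d0, a1, a0, ha1, ha0, hya, hsa⟩ := exists_frac hy.sub.gen s
  have ha0p : a0 ∉ p := fun h => hya (hy.sub.mem _ h)
  obtain ⟨t, ht⟩ := hG1
  refine ⟨G * a0, ⟨t + d0, ht.mul ha0⟩, fun h => ((inferInstance : p.IsPrime).mem_or_mem h).elim
    hG2 ha0p, fun M hM => ⟨fun f hf hne => ?_, fun f hf hne => ?_⟩⟩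
  · refine hG3 M hM f hf.sum ?_ ?_
    · filter_upwards [PB_mem one_pos] with w hw
      exact hf.on w hw.1 hw.2
    · intro h0
      obtain ⟨w, hw0, hw1, hwG⟩ := hne
      apply hwG
      have h1 := eq_zero_on one_pos (eval_an (S := PB 1) hf.an G) h0 w ⟨hw0, hw1⟩
      rw [map_mul]
      change eval (f w) G * _ = 0
      rw [h1, zero_mul]
  · obtain ⟨z0, hz0⟩ := hne
    rw [map_mul] at hz0
    have hp := hf.punct
    have hdG : ∀ H : MvPolynomial (Fin (n + 1)) ℂ, Differentiable ℂ (fun z => eval (f z) H) :=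
      fun H z => (eval_an (S := Set.univ) (fun j z _ => (hf.diff j).analyticAt z) H z
        trivial).differentiableAt
    have hnz : ∀ H : MvPolynomial (Fin (n + 1)) ℂ, eval (f z0) H ≠ 0 →
        ¬ ∀ᶠ w in 𝓝[≠] (0 : ℂ), eval (f (Complex.exp w⁻¹)) H = 0 := by
      intro H hH h0
      apply hH
      apply zero_of_punctured (hdG H)
      intro t ht
      obtain ⟨w, -, hwt, hw⟩ := wn t ht
      obtain ⟨n, hn⟩ := (hw.eventually h0).exists
      rw [hwt n] at hn
      exact hn
    obtain ⟨ρ, hρ, hres⟩ := hG3 M hM _ hp.sum (by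
      filter_upwards [PB_mem one_pos] with w hw
      exact hp.on w hw.1 hw.2) (hnz G (left_ne_zero_of_mul hz0))
    have h1 := hres d0 a1 a0 ha1 ha0 hya hsa
    obtain ⟨c, hc⟩ := mero_exp hρ (a := fun z => eval (f z) a1) (b := fun z => eval (f z) a0) h1
    have ha0n : (fun z => eval (f z) a0) ≠ 0 := by
      intro h0
      exact right_ne_zero_of_mul hz0 (congrFun h0 z0)
    have hca : ∀ z, eval (f z) a1 = c * eval (f z) a0 := by
      have hd : Differentiable ℂ (fun z => eval (f z) a1 - c * eval (f z) a0) :=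
        (hdG a1).sub ((hdG a0).const_mul c)
      have hz : ∀ z, (eval (f z) a1 - c * eval (f z) a0) * eval (f z) a0 = 0 := by
        apply zero_of_punctured (hd.fun_mul (hdG a0))
        intro z hz
        by_cases h0 : eval (f z) a0 = 0
        · rw [h0, mul_zero]
        · rw [hc z hz h0, sub_self, zero_mul]
      rcases ent_eq_zero_or hd (hdG a0) hz with h | h
      · intro z
        exact sub_eq_zero.1 (congrFun h z)
      · exact absurd h ha0n
    refine ⟨c, fun d g1 g0 hg1 hg0 hy0 hs' z => ?_⟩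
    have hrel : a1 * g0 - a0 * g1 ∈ p := by
      apply hy.mem _ ⟨d0 + d, (ha1.mul hg0).sub (ha0.mul hg1)⟩
      rw [hsa] at hs'
      unfold W602.GT.val at *
      rw [map_sub, map_mul, map_mul]
      rw [div_eq_div_iff hya hy0] at hs'
      linear_combination hs'
    have hd : Differentiable ℂ (fun z => eval (f z) g1 - c * eval (f z) g0) :=
      (hdG g1).sub ((hdG g0).const_mul c)
    have hz' : ∀ z, (eval (f z) g1 - c * eval (f z) g0) * eval (f z) a0 = 0 := by
      intro z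
      have h5 := hcut _ hrel _ (hf.on z)
      rw [map_sub, map_mul, map_mul, hca z] at h5
      linear_combination -h5
    rcases ent_eq_zero_or hd (hdG a0) hz' with h | h
    · exact sub_eq_zero.1 (congrFun h z)
    · exact absurd h ha0n

end Pool.Agent.Q33.SP
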