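import Mathlib

/-!
Generic exponent vectors orthogonal to a set of integer vectors.
-/

set_option autoImplicit false

namespace Pool.Agent.Q33.SP

open Finset

variable {r : ℕ}

/-- the difference of two unit vectors -/
def dif (j k : Fin r) : Fin r → ℤ := fun i => (if i = j then 1 else 0) - (if i = k then 1 else 0)

/-- the vectors orthogonal to `A` -/
def perp (A : Set (Fin r → ℤ)) : Submodule ℚ (Fin r → ℚ) where
  carrier := {q | ∀ v ∈ A, ∑ j, (v j : ℚ) * q j = 0}
  add_mem' := by
    intro a b ha hb v hv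
    have e : ∑ j, (v j : ℚ) * (a + b) j = ∑ j, (v j : ℚ) * a j + ∑ j, (v j : ℚ) * b j := by
      rw [← Finset.sum_add_distrib]
      refine Finset.sum_congr rfl fun j _ => ?_
      rw [Pi.add_apply, mul_add]
    rw [e, ha v hv, hb v hv, add_zero]
  zero_mem' := by
    intro v _
    simp
  smul_mem' := by
    intro c a ha v hv
    have e : ∑ j, (v j : ℚ) * (c • a) j = c * ∑ j, (v j : ℚ) * a j := by
      rw [Finset.mul_sum]
      refine Finset.sum_congr rfl fun j _ => ?_
      rw [Pi.smul_apply, smul_eq_mul]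
      ring
    rw [e, ha v hv, mul_zero]

theorem span_closure (A : Set (Fin r → ℤ)) {x : Fin r → ℚ}
    (hx : x ∈ Submodule.span ℚ ((fun v : Fin r → ℤ => fun i => (v i : ℚ)) '' A)) :
    ∃ N : ℕ, 0 < N ∧ ∃ u ∈ AddSubgroup.closure A, ∀ i, (N : ℚ) * x i = u i := by
  induction hx using Submodule.span_induction with
  | mem y hy =>
    obtain ⟨v, hv, rfl⟩ := hy
    exact ⟨1, one_pos, v, AddSubgroup.subset_closure hv, fun i => by simp⟩
  | zero => exact ⟨1, one_pos, 0, AddSubgroup.zero_mem _, fun i => by simp⟩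
  | add y z _ _ hy hz =>
    obtain ⟨N, hN, u, hu, h1⟩ := hy
    obtain ⟨M, hM, w, hw, h2⟩ := hz
    refine ⟨N * M, Nat.mul_pos hN hM, M • u + N • w,
      AddSubgroup.add_mem _ (AddSubgroup.nsmul_mem _ hu _) (AddSubgroup.nsmul_mem _ hw _),
      fun i => ?_⟩
    have e : (M • u + N • w) i = M * u i + N * w i := by simp
    rw [e, Pi.add_apply]
    push_cast
    rw [← h1 i, ← h2 i]
    ring
  | smul q y _ hy =>
    obtain ⟨N, hN, u, hu, h1⟩ := hy
    refine ⟨N * q.den, Nat.mul_pos hN q.pos, q.num • u, AddSubgroup.zsmul_mem _ hu _, fun i => ?_⟩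
    have e : (q.num • u) i = q.num * u i := by simp
    rw [e, Pi.smul_apply, smul_eq_mul]
    push_cast
    rw [← h1 i]
    have h3 : (q.den : ℚ) * q = q.num := by
      rw [mul_comm]
      exact Rat.mul_den_eq_num q
    rw [← h3]
    ring

/-- The functional which separates two coordinates on the vectors orthogonal to `A`, or a relation. -/
theorem sep (A : Set (Fin r → ℤ)) (j k : Fin r) (h : ∀ q ∈ perp A, q j = q k) :
    ∃ N : ℕ, 0 < N ∧ (N • dif j k) ∈ AddSubgroup.closure A := by
  classical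
  set W := Submodule.span ℚ ((fun v : Fin r → ℤ => fun i => (v i : ℚ)) '' A) with hW
  have hmem : (fun i => (dif j k i : ℚ)) ∈ W := by
    by_contra hno
    obtain ⟨φ, hφ1, hφ2⟩ := Submodule.exists_le_ker_of_notMem hno
    let q : Fin r → ℚ := fun i => φ (Pi.single i 1)
    have hφ : ∀ x : Fin r → ℚ, φ x = ∑ i, x i * q i := by
      intro x
      rw [LinearMap.pi_apply_eq_sum_univ φ x]
      refine Finset.sum_congr rfl fun i _ => ?_
      rw [smul_eq_mul]
      congr 2
      funext l
      by_cases hl : i = l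
      · subst hl; simp
      · rw [if_neg hl, Pi.single_eq_of_ne (Ne.symm hl)]
    have hq : q ∈ perp A := by
      intro v hv
      have h1 : φ (fun i => (v i : ℚ)) = 0 := by
        have h2 : (fun i => (v i : ℚ)) ∈ W := Submodule.subset_span ⟨v, hv, rfl⟩
        exact hφ2 h2
      rw [hφ] at h1
      exact h1
    apply hφ1
    rw [hφ]
    have h1 := h q hq
    have h2 : ∑ i, (dif j k i : ℚ) * q i = q j - q k := by
      unfold dif
      push_cast
      simp only [sub_mul, Finset.sum_sub_distrib, ite_mul, one_mul, zero_mul, Finset.sum_ite_eq',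
        Finset.mem_univ, if_true]
    rw [h2, h1, sub_self]
  obtain ⟨N, hN, u, hu, h1⟩ := span_closure A hmem
  refine ⟨N, hN, ?_⟩
  have h2 : N • dif j k = u := by
    funext i
    have h3 := h1 i
    have h4 : ((N * dif j k i : ℤ) : ℚ) = u i := by push_cast; exact h3
    simp only [Pi.smul_apply, nsmul_eq_mul]
    exact_mod_cast h4
  rw [h2]
  exact hu

/-- A generic vector of natural numbers orthogonal to `A`: two coordinates are equal only if they
are equal for all vectors orthogonal to `A`. -/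
theorem exists_generic (A : Set (Fin r → ℤ)) (hA : ∀ v ∈ A, ∑ j, v j = 0) :
    ∃ e : Fin r → ℕ, (∀ v ∈ A, ∑ j, v j * (e j : ℤ) = 0) ∧
      ∀ j k, e j = e k → ∃ N : ℕ, 0 < N ∧ (N • dif j k) ∈ AddSubgroup.closure A := by
  classical
  let P := perp A
  let bad : Finset (Fin r × Fin r) := Finset.univ.filter fun p => ∃ q ∈ P, q p.1 ≠ q p.2
  let S : Fin r × Fin r → Subspace ℚ P := fun p =>
    { carrier := {q | (q : Fin r → ℚ) p.1 = (q : Fin r → ℚ) p.2}
      add_mem' := by
        intro a b ha hb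
        change (a + b : Fin r → ℚ) p.1 = (a + b : Fin r → ℚ) p.2
        rw [Pi.add_apply, Pi.add_apply]
        exact congrArg₂ _ ha hb
      zero_mem' := rfl
      smul_mem' := by
        intro c a ha
        change (c • (a : Fin r → ℚ)) p.1 = (c • (a : Fin r → ℚ)) p.2
        rw [Pi.smul_apply, Pi.smul_apply]
        exact congrArg _ ha }
  have htop : (⊤ : Subspace ℚ P) ∉ bad.image S := by
    intro h
    obtain ⟨p, hp, hpe⟩ := Finset.mem_image.1 h
    obtain ⟨q, hq, hne⟩ := (Finset.mem_filter.1 hp).2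
    apply hne
    have h1 : (⟨q, hq⟩ : P) ∈ S p := by rw [hpe]; trivial
    exact h1
  have hne := Subspace.biUnion_ne_univ_of_top_notMem htop
  obtain ⟨q, hq⟩ := (Set.ne_univ_iff_exists_notMem _).1 hne
  have hqb : ∀ j k, (q : Fin r → ℚ) j = (q : Fin r → ℚ) k → ∀ q' ∈ P, q' j = q' k := by
    intro j k hjk
    by_contra hno
    push Not at hno
    obtain ⟨q', hq', hne'⟩ := hno
    apply hq
    simp only [Set.mem_iUnion]
    exact ⟨S (j, k), Finset.mem_image.2 ⟨(j, k), Finset.mem_filter.2 ⟨Finset.mem_univ _,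
      q', hq', hne'⟩, rfl⟩, hjk⟩
  -- clear denominators
  let d : ℕ := ∏ j, ((q : Fin r → ℚ) j).den
  have hd : 0 < d := Finset.prod_pos fun j _ => ((q : Fin r → ℚ) j).pos
  have hint : ∀ j, ∃ m : ℤ, (m : ℚ) = d * (q : Fin r → ℚ) j := by
    intro j
    refine ⟨((q : Fin r → ℚ) j).num * ∏ i ∈ Finset.univ.erase j, (((q : Fin r → ℚ) i).den : ℤ), ?_⟩
    have h1 : (d : ℚ) = ((q : Fin r → ℚ) j).den *
        ∏ i ∈ Finset.univ.erase j, (((q : Fin r → ℚ) i).den : ℚ) := by
      simp only [d]
      push_cast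
      exact (Finset.mul_prod_erase _ _ (Finset.mem_univ j)).symm
    rw [h1]
    push_cast
    have h3 : (q : Fin r → ℚ) j * (((q : Fin r → ℚ) j).den : ℚ) = ((q : Fin r → ℚ) j).num :=
      Rat.mul_den_eq_num _
    rw [← h3]
    ring
  choose m hm using hint
  let K : ℕ := ∑ j, (m j).natAbs
  have hK : ∀ j, 0 ≤ m j + K := by
    intro j
    have h1 : (m j).natAbs ≤ K := Finset.single_le_sum (f := fun j => (m j).natAbs)
      (fun _ _ => Nat.zero_le _) (Finset.mem_univ j)
    omega
  refine ⟨fun j => (m j + K).toNat, ?_, ?_⟩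
  · intro v hv
    have h1 : ∀ j, (((m j + K).toNat : ℕ) : ℤ) = m j + K := fun j => Int.toNat_of_nonneg (hK j)
    simp only [h1, mul_add, Finset.sum_add_distrib, ← Finset.sum_mul, hA v hv, zero_mul, add_zero]
    have h2 : ∑ j, (v j : ℚ) * (q : Fin r → ℚ) j = 0 := q.2 v hv
    have h3 : ((∑ j, v j * m j : ℤ) : ℚ) = 0 := by
      push_cast
      simp only [hm]
      have : ∑ j, (v j : ℚ) * (d * (q : Fin r → ℚ) j) = d * ∑ j, (v j : ℚ) * (q : Fin r → ℚ) j := by
        rw [Finset.mul_sum]
        exact Finset.sum_congr rfl fun j _ => by ring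
      rw [this, h2, mul_zero]
    exact_mod_cast h3
  · intro j k hjk
    have h1 : ∀ j, (((m j + K).toNat : ℕ) : ℤ) = m j + K := fun j => Int.toNat_of_nonneg (hK j)
    have h2 : m j = m k := by
      have h3 := congrArg (fun n : ℕ => (n : ℤ)) hjk
      simp only [h1] at h3
      omega
    have h3 : (q : Fin r → ℚ) j = (q : Fin r → ℚ) k := by
      have h4 : (m j : ℚ) = m k := by rw [h2]
      rw [hm, hm] at h4
      have hd' : (d : ℚ) ≠ 0 := by exact_mod_cast hd.ne'
      exact mul_left_cancel₀ hd' h4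
    exact sep A j k (hqb j k h3)

end Pool.Agent.Q33.SP
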