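import Pool.Agent.Q33.SP.Core

/-!
Exponent vectors which are generic for a finite set of differences.
-/

set_option autoImplicit false

namespace Pool.Agent.Q33.SP

open Finset

variable {r : ℕ}

theorem sep2 (A : Set (Fin r → ℤ)) (u : Fin r → ℤ)
    (h : ∀ q ∈ perp A, ∑ i, (u i : ℚ) * q i = 0) :
    ∃ N : ℕ, 0 < N ∧ (N • u) ∈ AddSubgroup.closure A := by
  classical
  set W := Submodule.span ℚ ((fun v : Fin r → ℤ => fun i => (v i : ℚ)) '' A) with hW
  have hmem : (fun i => (u i : ℚ)) ∈ W := by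
    by_contra hno
    obtain ⟨φ, hφ1, hφ2⟩ := Submodule.exists_le_ker_of_notMem hno
    let q : Fin r → ℚ := fun i => φ (Pi.single i 1)
    have hφ : ∀ x : Fin r → ℚ, φ x = ∑ i, x i * q i := by
      intro x
      rw [LinearMap.pi_apply_eq_sum_univ φ x]
      refine Finset.sum_congr rfl fun i _ => ?_
      rw [smul_eq_mul]
      congr 2
      funext l
      by_cases hl : i = l
      · subst hl; simp
      · rw [if_neg hl, Pi.single_eq_of_ne (Ne.symm hl)]
    have hq : q ∈ perp A := by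
      intro v hv
      have h1 : φ (fun i => (v i : ℚ)) = 0 := by
        have h2 : (fun i => (v i : ℚ)) ∈ W := Submodule.subset_span ⟨v, hv, rfl⟩
        exact hφ2 h2
      rw [hφ] at h1
      exact h1
    apply hφ1
    rw [hφ]
    exact h q hq
  obtain ⟨N, hN, x, hx, h1⟩ := span_closure A hmem
  refine ⟨N, hN, ?_⟩
  have h2 : N • u = x := by
    funext i
    have h3 := h1 i
    have h4 : ((N * u i : ℤ) : ℚ) = x i := by push_cast; exact h3
    simp only [Pi.smul_apply, nsmul_eq_mul]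
    exact_mod_cast h4
  rw [h2]
  exact hx

/-- A vector of natural numbers orthogonal to `A`, and to no vector of `S` unless a multiple of it
is a combination of vectors of `A`. -/
theorem exists_generic2 (A : Set (Fin r → ℤ)) (hA : ∀ v ∈ A, ∑ j, v j = 0)
    (S : Finset (Fin r → ℤ)) (hS : ∀ v ∈ S, ∑ j, v j = 0) :
    ∃ e : Fin r → ℕ, (∀ v ∈ A, ∑ j, v j * (e j : ℤ) = 0) ∧
      ∀ u ∈ S, ∑ j, u j * (e j : ℤ) = 0 → ∃ N : ℕ, 0 < N ∧ (N • u) ∈ AddSubgroup.closure A := by
  classical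
  let P := perp A
  let bad : Finset (Fin r → ℤ) := S.filter fun u => ∃ q ∈ P, ∑ i, (u i : ℚ) * q i ≠ 0
  let H : (Fin r → ℤ) → Subspace ℚ P := fun u =>
    { carrier := {q | ∑ i, (u i : ℚ) * (q : Fin r → ℚ) i = 0}
      add_mem' := by
        intro a b ha hb
        change ∑ i, (u i : ℚ) * (a + b : Fin r → ℚ) i = 0
        have e : ∑ i, (u i : ℚ) * (a + b : Fin r → ℚ) i =
            ∑ i, (u i : ℚ) * (a : Fin r → ℚ) i + ∑ i, (u i : ℚ) * (b : Fin r → ℚ) i := by
          rw [← Finset.sum_add_distrib]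
          refine Finset.sum_congr rfl fun i _ => ?_
          rw [Pi.add_apply, mul_add]
        rw [e]
        have ha' : ∑ i, (u i : ℚ) * (a : Fin r → ℚ) i = 0 := ha
        have hb' : ∑ i, (u i : ℚ) * (b : Fin r → ℚ) i = 0 := hb
        rw [ha', hb', add_zero]
      zero_mem' := by
        change ∑ i, (u i : ℚ) * (0 : Fin r → ℚ) i = 0
        simp
      smul_mem' := by
        intro c a ha
        change ∑ i, (u i : ℚ) * (c • (a : Fin r → ℚ)) i = 0
        have e : ∑ i, (u i : ℚ) * (c • (a : Fin r → ℚ)) i = c * ∑ i, (u i : ℚ) * (a : Fin r → ℚ) i := by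
          rw [Finset.mul_sum]
          refine Finset.sum_congr rfl fun i _ => ?_
          rw [Pi.smul_apply, smul_eq_mul]
          ring
        have ha' : ∑ i, (u i : ℚ) * (a : Fin r → ℚ) i = 0 := ha
        rw [e, ha', mul_zero] }
  have htop : (⊤ : Subspace ℚ P) ∉ bad.image H := by
    intro h
    obtain ⟨p, hp, hpe⟩ := Finset.mem_image.1 h
    obtain ⟨q, hq, hne⟩ := (Finset.mem_filter.1 hp).2
    apply hne
    have h1 : (⟨q, hq⟩ : P) ∈ H p := by rw [hpe]; trivial
    exact h1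
  have hne := Subspace.biUnion_ne_univ_of_top_notMem htop
  obtain ⟨q, hq⟩ := (Set.ne_univ_iff_exists_notMem _).1 hne
  have hqb : ∀ u ∈ S, ∑ i, (u i : ℚ) * (q : Fin r → ℚ) i = 0 →
      ∀ q' ∈ P, ∑ i, (u i : ℚ) * q' i = 0 := by
    intro u hu huq
    by_contra hno
    push Not at hno
    obtain ⟨q', hq', hne'⟩ := hno
    apply hq
    simp only [Set.mem_iUnion]
    exact ⟨H u, Finset.mem_image.2 ⟨u, Finset.mem_filter.2 ⟨hu, q', hq', hne'⟩, rfl⟩, huq⟩
  -- clear denominators
  let d : ℕ := ∏ j, ((q : Fin r → ℚ) j).den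
  have hd : 0 < d := Finset.prod_pos fun j _ => ((q : Fin r → ℚ) j).pos
  have hint : ∀ j, ∃ m : ℤ, (m : ℚ) = d * (q : Fin r → ℚ) j := by
    intro j
    refine ⟨((q : Fin r → ℚ) j).num * ∏ i ∈ Finset.univ.erase j, (((q : Fin r → ℚ) i).den : ℤ), ?_⟩
    have h1 : (d : ℚ) = ((q : Fin r → ℚ) j).den *
        ∏ i ∈ Finset.univ.erase j, (((q : Fin r → ℚ) i).den : ℚ) := by
      simp only [d]
      push_cast
      exact (Finset.mul_prod_erase _ _ (Finset.mem_univ j)).symm
    rw [h1]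
    push_cast
    have h3 : (q : Fin r → ℚ) j * (((q : Fin r → ℚ) j).den : ℚ) = ((q : Fin r → ℚ) j).num :=
      Rat.mul_den_eq_num _
    rw [← h3]
    ring
  choose m hm using hint
  let K : ℕ := ∑ j, (m j).natAbs
  have hK : ∀ j, 0 ≤ m j + K := by
    intro j
    have h1 : (m j).natAbs ≤ K := Finset.single_le_sum (f := fun j => (m j).natAbs)
      (fun _ _ => Nat.zero_le _) (Finset.mem_univ j)
    omega
  have hcomb : ∀ v : Fin r → ℤ, ∑ j, v j = 0 →
      ((∑ j, v j * (((m j + K).toNat : ℕ) : ℤ) : ℤ) : ℚ) =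
        d * ∑ j, (v j : ℚ) * (q : Fin r → ℚ) j := by
    intro v hv
    have h1 : ∀ j, (((m j + K).toNat : ℕ) : ℤ) = m j + K := fun j => Int.toNat_of_nonneg (hK j)
    have h2 : ∑ j, v j * (((m j + K).toNat : ℕ) : ℤ) = ∑ j, v j * m j := by
      simp only [h1, mul_add, Finset.sum_add_distrib, ← Finset.sum_mul, hv, zero_mul, add_zero]
    rw [h2, Finset.mul_sum]
    push_cast
    refine Finset.sum_congr rfl fun j _ => ?_
    rw [hm]
    ring
  refine ⟨fun j => (m j + K).toNat, ?_, ?_⟩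
  · intro v hv
    have h1 := hcomb v (hA v hv)
    have h2 : ∑ j, (v j : ℚ) * (q : Fin r → ℚ) j = 0 := q.2 v hv
    rw [h2, mul_zero] at h1
    exact_mod_cast h1
  · intro u hu huz
    have h1 := hcomb u (hS u hu)
    rw [huz] at h1
    have hd' : (d : ℚ) ≠ 0 := by exact_mod_cast hd.ne'
    have h2 : ∑ j, (u j : ℚ) * (q : Fin r → ℚ) j = 0 := by
      have h3 : (d : ℚ) * ∑ j, (u j : ℚ) * (q : Fin r → ℚ) j = 0 := by
        rw [← h1]
        simp
      exact (mul_eq_zero.1 h3).resolve_left hd'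
    exact sep2 A u (hqb u hu h2)

theorem diffs_sum {D : ℕ} : ∀ v ∈ diffs r D, ∑ j, v j = 0 := by
  classical
  intro v hv
  unfold diffs at hv
  exact (Finset.mem_filter.1 hv).2

/-- a generic vector orthogonal to `A`, relative to the differences of degree `D` -/
noncomputable def gen2 (D : ℕ) (A : Finset (Fin r → ℤ)) : Fin r → ℕ := by
  classical
  exact if h : ∀ v ∈ (A : Set (Fin r → ℤ)), ∑ j, v j = 0 then
    (exists_generic2 _ h (diffs r D) diffs_sum).choose else 0

theorem gen2_spec (D : ℕ) (A : Finset (Fin r → ℤ))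
    (h : ∀ v ∈ (A : Set (Fin r → ℤ)), ∑ j, v j = 0) :
    (∀ v ∈ A, ∑ j, v j * (gen2 D A j : ℤ) = 0) ∧
      ∀ u ∈ diffs r D, ∑ j, u j * (gen2 D A j : ℤ) = 0 →
        ∃ N : ℕ, 0 < N ∧ (N • u) ∈ AddSubgroup.closure (A : Set (Fin r → ℤ)) := by
  unfold gen2
  rw [dif_pos h]
  exact (exists_generic2 _ h (diffs r D) diffs_sum).choose_spec

/-- the finite set of the exponent vectors of the curves -/
noncomputable def Exps2 (r D : ℕ) : Finset (Fin r → ℕ) := by
  classical
  exact (diffs r D).powerset.image (gen2 D)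

/-- the exponents of the curves through the points of the curve -/
noncomputable def ex2 (D M : ℕ) (k : Fin r → ℂ → ℂ) : Fin r → ℕ := gen2 D (rels D M k)

theorem ex2_mem (D M : ℕ) (k : Fin r → ℂ → ℂ) : ex2 D M k ∈ Exps2 r D := by
  classical
  unfold Exps2 ex2
  refine Finset.mem_image.2 ⟨_, Finset.mem_powerset.2 ?_, rfl⟩
  unfold rels
  exact Finset.filter_subset _ _

end Pool.Agent.Q33.SP
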