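import Pool.Agent.Q33.SP.Hull
import Pool.Agent.Q33.SP.SpanInt

/-!
Projections to saturated sublattices and points of tori.
-/

set_option autoImplicit false

namespace Pool.Agent.Q33.SP

open Module

variable {r g : ℕ}

/-- A saturated sublattice is a direct summand. -/
theorem exists_proj (N : Submodule ℤ (Fin r → ℤ))
    (hsat : ∀ (c : ℤ) (l : Fin r → ℤ), c ≠ 0 → c • l ∈ N → l ∈ N) :
    ∃ π : (Fin r → ℤ) →ₗ[ℤ] (Fin r → ℤ), (∀ x, π x ∈ N) ∧ ∀ x ∈ N, π x = x := by
  have htf : Module.IsTorsionFree ℤ ((Fin r → ℤ) ⧸ N) := by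
    refine Module.IsTorsionFree.of_smul_eq_zero fun c x hx => ?_
    obtain ⟨l, rfl⟩ := N.mkQ_surjective x
    by_cases hc : c = 0
    · exact Or.inl hc
    · right
      rw [← map_smul] at hx
      have h1 : c • l ∈ N := by
        rwa [Submodule.mkQ_apply, Submodule.Quotient.mk_eq_zero] at hx
      rw [Submodule.mkQ_apply, Submodule.Quotient.mk_eq_zero]
      exact hsat c l hc h1
  have hfree : Module.Free ℤ ((Fin r → ℤ) ⧸ N) := Module.free_of_finite_type_torsion_free'
  obtain ⟨s, hs⟩ := Module.projective_lifting_property N.mkQ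
    (LinearMap.id : ((Fin r → ℤ) ⧸ N) →ₗ[ℤ] _) N.mkQ_surjective
  refine ⟨LinearMap.id - s.comp N.mkQ, fun x => ?_, fun x hx => ?_⟩
  · rw [← Submodule.Quotient.mk_eq_zero N, ← Submodule.mkQ_apply, LinearMap.sub_apply, map_sub]
    have h1 : N.mkQ ((s.comp N.mkQ) x) = N.mkQ x := by
      have := LinearMap.congr_fun hs (N.mkQ x)
      exact this
    rw [h1, LinearMap.id_apply, sub_self]
  · rw [LinearMap.sub_apply, LinearMap.id_apply, LinearMap.comp_apply]
    have h1 : N.mkQ x = 0 := by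
      rwa [Submodule.mkQ_apply, Submodule.Quotient.mk_eq_zero]
    rw [h1, map_zero, sub_zero]

/-- a linear map is given by the images of the unit vectors -/
theorem proj_sum (π : (Fin r → ℤ) →ₗ[ℤ] (Fin r → ℤ)) (l : Fin r → ℤ) (i : Fin r) :
    π l i = ∑ j, l j * π (Pi.single j 1) i := by
  classical
  have h1 : l = ∑ j, l j • (Pi.single j (1 : ℤ) : Fin r → ℤ) := by
    funext i
    rw [Finset.sum_apply]
    simp only [Pi.smul_apply, smul_eq_mul, Pi.single_apply, mul_ite, mul_one, mul_zero,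
      Finset.sum_ite_eq, Finset.mem_univ, if_true]
  conv_lhs => rw [h1]
  rw [map_sum, Finset.sum_apply]
  refine Finset.sum_congr rfl fun j _ => ?_
  rw [map_smul, Pi.smul_apply, smul_eq_mul]

theorem prod_zpow_sum {K : Type} [Field K] (x : K) (hx : x ≠ 0) (a : Fin r → ℤ) :
    ∏ j, x ^ a j = x ^ ∑ j, a j := by
  classical
  have h : ∀ s : Finset (Fin r), ∏ j ∈ s, x ^ a j = x ^ ∑ j ∈ s, a j := by
    intro s
    induction s using Finset.induction_on with
    | empty => simp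
    | insert j s hj ih => rw [Finset.prod_insert hj, ih, Finset.sum_insert hj, zpow_add₀ hx]
  exact h _

/-- **Points of the torus.** -/
theorem torus_pt {N : Submodule ℤ (Fin r → ℤ)} {π : (Fin r → ℤ) →ₗ[ℤ] (Fin r → ℤ)}
    (h1 : ∀ x, π x ∈ N) (h2 : ∀ x ∈ N, π x = x) {e : Fin g → Fin r → ℤ}
    (hspan : ∀ x : Fin r → ℂ, (∀ l ∈ N, ∑ j, (l j : ℂ) * x j = 0) →
      ∃ s : Fin g → ℂ, ∀ j, x j = ∑ a, s a * (e a j : ℂ))
    {x : Fin r → ℂ} (hx0 : ∀ j, x j ≠ 0) (hx : ∀ l ∈ N, ∏ j, x j ^ l j = 1) :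
    ∃ t : Fin g → ℂ, (∀ a, t a ≠ 0) ∧ ∀ j, tm t (fun b => e b j) = x j := by
  classical
  let L : Fin r → ℂ := fun j => Complex.log (x j)
  have hL : ∀ j, Complex.exp (L j) = x j := fun j => Complex.exp_log (hx0 j)
  let y : Fin r → ℂ := fun j => L j - ∑ i, (π (Pi.single j 1) i : ℂ) * L i
  have hy : ∀ l ∈ N, ∑ j, (l j : ℂ) * y j = 0 := by
    intro l hl
    have e1 : ∑ j, (l j : ℂ) * y j =
        ∑ i, (l i : ℂ) * L i - ∑ i, (π l i : ℂ) * L i := by
      simp only [y, mul_sub, Finset.sum_sub_distrib]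
      congr 1
      simp only [Finset.mul_sum]
      rw [Finset.sum_comm]
      refine Finset.sum_congr rfl fun i _ => ?_
      rw [proj_sum π l i]
      push_cast
      rw [Finset.sum_mul]
      exact Finset.sum_congr rfl fun j _ => by ring
    rw [e1, h2 l hl, sub_self]
  obtain ⟨s, hs⟩ := hspan y hy
  refine ⟨fun a => Complex.exp (s a), fun a => Complex.exp_ne_zero _, fun j => ?_⟩
  have e2 : tm (fun a => Complex.exp (s a)) (fun b => e b j) = Complex.exp (y j) := by
    rw [hs j, Complex.exp_sum]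
    unfold tm
    refine Finset.prod_congr rfl fun b _ => ?_
    rw [← Complex.exp_int_mul, mul_comm]
  rw [e2]
  change Complex.exp (L j - ∑ i, (π (Pi.single j 1) i : ℂ) * L i) = x j
  rw [Complex.exp_sub, hL, Complex.exp_sum]
  have e3 : ∏ i, Complex.exp ((π (Pi.single j 1) i : ℂ) * L i) = 1 := by
    rw [← hx _ (h1 (Pi.single j 1))]
    refine Finset.prod_congr rfl fun i _ => ?_
    rw [Complex.exp_int_mul, hL]
  rw [e3, div_one]

end Pool.Agent.Q33.SP
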