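import Pool.Agent.Q33.SP.HullP3

/-!
Meromorphic vectors define holomorphic maps to projective space; maps from elliptic curves.
-/

set_option autoImplicit false

namespace Pool.Agent.Q33.SP

open Filter Topology MvPolynomial

variable {n r g : ℕ} {ι : Type}

/-- two nonzero vectors with vanishing minors are proportional -/
theorem mk_eq_of_cross {v w : Fin (n + 1) → ℂ} (hv : v ≠ 0) (hw : w ≠ 0)
    (h : ∀ i l, v i * w l = v l * w i) :
    Projectivization.mk ℂ v hv = Projectivization.mk ℂ w hw := by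
  rw [Projectivization.mk_eq_mk_iff']
  obtain ⟨l, hl⟩ : ∃ l, w l ≠ 0 := by
    by_contra hno
    push Not at hno
    exact hw (funext hno)
  refine ⟨v l / w l, funext fun i => ?_⟩
  rw [Pi.smul_apply, smul_eq_mul, div_mul_eq_mul_div, div_eq_iff hl, h i l]

theorem cross_of_mk_eq {v w : Fin (n + 1) → ℂ} {hv : v ≠ 0} {hw : w ≠ 0}
    (h : Projectivization.mk ℂ v hv = Projectivization.mk ℂ w hw) (i l : Fin (n + 1)) :
    v i * w l = v l * w i := by
  rw [Projectivization.mk_eq_mk_iff'] at h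
  obtain ⟨a, rfl⟩ := h
  simp only [Pi.smul_apply, smul_eq_mul]
  ring

/-- the map with the local lift `h` -/
structure Lift (q : ℂ → Fin (n + 1) → ℂ) (z0 : ℂ) (h : ℂ → Fin (n + 1) → ℂ) : Prop where
  an : ∀ i, AnalyticAt ℂ (fun z => h z i) z0
  ne : h z0 ≠ 0
  eq : ∃ m : ℤ, ∀ᶠ z in 𝓝[≠] z0, ∀ i, q z i = (z - z0) ^ m * h z i

theorem exists_lift {q : ℂ → Fin (n + 1) → ℂ} {z0 : ℂ}
    (hq : ∀ i, MeromorphicAt (fun z => q z i) z0)
    (hne : ∃ i, meromorphicOrderAt (fun z => q z i) z0 ≠ ⊤) : ∃ h, Lift q z0 h := by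
  classical
  obtain ⟨i0, -, hi0⟩ := Finset.exists_min_image Finset.univ
    (fun i => meromorphicOrderAt (fun z => q z i) z0) ⟨0, Finset.mem_univ _⟩
  have h0 : meromorphicOrderAt (fun z => q z i0) z0 ≠ ⊤ := by
    intro h
    obtain ⟨i, hi⟩ := hne
    have h1 := hi0 i (Finset.mem_univ i)
    rw [h] at h1
    exact hi (top_le_iff.1 h1)
  obtain ⟨m, hm⟩ := WithTop.ne_top_iff_exists.1 h0
  have hall : ∀ i, ∃ u : ℂ → ℂ, AnalyticAt ℂ u z0 ∧ (∀ᶠ z in 𝓝[≠] z0, q z i = (z - z0) ^ m * u z) ∧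
      (i = i0 → u z0 ≠ 0) := by
    intro i
    by_cases h : meromorphicOrderAt (fun z => q z i) z0 = ⊤
    · refine ⟨fun _ => 0, analyticAt_const, ?_, ?_⟩
      · filter_upwards [meromorphicOrderAt_eq_top_iff.1 h] with z hz
        rw [hz, mul_zero]
      · rintro rfl
        exact absurd h h0
    · obtain ⟨k, hk⟩ := WithTop.ne_top_iff_exists.1 h
      obtain ⟨u, hu, hu0, hue⟩ := (meromorphicOrderAt_eq_int_iff (hq i)).1 hk.symm
      have hmk : m ≤ k := by
        have h1 := hi0 i (Finset.mem_univ i)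
        rw [← hm, ← hk] at h1
        exact WithTop.coe_le_coe.1 h1
      refine ⟨fun z => (z - z0) ^ (k - m).toNat * u z, ?_, ?_, ?_⟩
      · exact ((analyticAt_id.sub analyticAt_const).pow _).mul hu
      · filter_upwards [hue, self_mem_nhdsWithin] with z hz hz0
        have hz1 : z - z0 ≠ 0 := sub_ne_zero.2 hz0
        rw [hz, smul_eq_mul, ← mul_assoc, ← zpow_natCast, ← zpow_add₀ hz1]
        congr 2
        omega
      · rintro rfl
        have h2 : m = k := by
          have := hm.trans hk.symm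
          exact WithTop.coe_injective this
        change (z0 - z0) ^ (k - m).toNat * u z0 ≠ 0
        rw [h2, sub_self, sub_self, Int.toNat_zero, pow_zero, one_mul]
        exact hu0
  choose u hu1 hu2 hu3 using hall
  refine ⟨fun z i => u i z, hu1, fun h => hu3 i0 rfl (congrFun h i0), m, ?_⟩
  rw [Filter.eventually_all]
  exact hu2

/-- two lifts at nearby points define the same point -/
theorem Lift.cross {q : ℂ → Fin (n + 1) → ℂ} {z0 z1 : ℂ} {h h' : ℂ → Fin (n + 1) → ℂ}
    {b : ℂ} (han : ∀ i, AnalyticAt ℂ (fun z => h z i) z1)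
    (heq : ∃ m : ℤ, ∀ᶠ z in 𝓝[≠] z1, ∀ i, q z i = (z - z0) ^ m * h z i)
    (hper : ∀ z i, q (z + b) i = q z i) (h1 : Lift q (z1 + b) h') (i l : Fin (n + 1)) :
    h z1 i * h' (z1 + b) l = h z1 l * h' (z1 + b) i := by
  obtain ⟨m, hm⟩ := heq
  obtain ⟨m', hm'⟩ := h1.eq
  have hsh : Tendsto (fun z : ℂ => z + b) (𝓝[≠] z1) (𝓝[≠] (z1 + b)) := by
    refine tendsto_nhdsWithin_iff.2 ⟨?_, ?_⟩
    · exact ((continuous_id.add continuous_const).tendsto z1).mono_left nhdsWithin_le_nhds
    · filter_upwards [self_mem_nhdsWithin] with z hz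
      intro h0
      exact hz (add_right_cancel h0)
  have hz0 : ∀ᶠ z in 𝓝[≠] z1, z - z0 ≠ 0 := by
    by_cases h0 : z1 = z0
    · rw [h0]
      filter_upwards [self_mem_nhdsWithin] with z hz
      exact sub_ne_zero.2 hz
    · have h2 : ContinuousAt (fun z : ℂ => z - z0) z1 := (continuous_id.sub continuous_const).continuousAt
      exact (h2.eventually_ne (sub_ne_zero.2 h0)).filter_mono nhdsWithin_le_nhds
  have hev : ∀ᶠ z in 𝓝[≠] z1, h z i * h' (z + b) l - h z l * h' (z + b) i = 0 := by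
    filter_upwards [hm, hsh.eventually hm', hz0, self_mem_nhdsWithin] with z e1 e2 e3 e4
    have e5 : z + b - (z1 + b) ≠ 0 := by
      rw [add_sub_add_right_eq_sub]
      exact sub_ne_zero.2 e4
    have a1 := e1 i
    have a2 := e1 l
    have a3 := e2 i
    have a4 := e2 l
    rw [hper] at a3 a4
    have c1 : (z - z0) ^ m ≠ 0 := zpow_ne_zero _ e3
    have c2 : (z + b - (z1 + b)) ^ m' ≠ 0 := zpow_ne_zero _ e5
    apply mul_left_cancel₀ (mul_ne_zero c1 c2)
    rw [mul_zero]
    have e6 : ((z - z0) ^ m * h z i) * ((z + b - (z1 + b)) ^ m' * h' (z + b) l) =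
        ((z - z0) ^ m * h z l) * ((z + b - (z1 + b)) ^ m' * h' (z + b) i) := by
      rw [← a1, ← a2, ← a3, ← a4]
      ring
    linear_combination e6
  have hc : ContinuousAt (fun z => h z i * h' (z + b) l - h z l * h' (z + b) i) z1 := by
    have c1 : ∀ i, ContinuousAt (fun z => h z i) z1 := fun i => (han i).continuousAt
    have c2 : ∀ i, ContinuousAt (fun z => h' (z + b) i) z1 := fun i =>
      ContinuousAt.comp (f := fun z : ℂ => z + b) (g := fun z => h' z i)
        (h1.an i).continuousAt (continuous_id.add continuous_const).continuousAt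
    exact ((c1 i).mul (c2 l)).sub ((c1 l).mul (c2 i))
  have h3 : Tendsto (fun z => h z i * h' (z + b) l - h z l * h' (z + b) i) (𝓝[≠] z1)
      (𝓝 (h z1 i * h' (z1 + b) l - h z1 l * h' (z1 + b) i)) := hc.tendsto.mono_left nhdsWithin_le_nhds
  have h4 : Tendsto (fun z => h z i * h' (z + b) l - h z l * h' (z + b) i) (𝓝[≠] z1) (𝓝 0) :=
    tendsto_const_nhds.congr' (hev.mono fun z hz => hz.symm)
  exact sub_eq_zero.1 (tendsto_nhds_unique h3 h4)

/-- A holomorphic map from the elliptic curve `ℂ / Λ` to the projective variety `F = 0`: a map to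
projective space which is invariant under `Λ` and is locally given by holomorphic functions without
common zeros which satisfy the equations. -/
structure EllMap (L : PeriodPair) (F : ι → MvPolynomial (Fin (n + 1)) ℂ)
    (φ : ℂ → Projectivization ℂ (Fin (n + 1) → ℂ)) : Prop where
  periodic : ∀ l ∈ L.lattice, ∀ z, φ (z + l) = φ z
  holo : ∀ z0, ∃ h : ℂ → Fin (n + 1) → ℂ, (∀ i, AnalyticAt ℂ (fun z => h z i) z0) ∧
    ∀ᶠ z in 𝓝 z0, (∀ i, eval (h z) (F i) = 0) ∧ ∃ h0 : h z ≠ 0, φ z = Projectivization.mk ℂ (h z) h0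

/-- **Periodic meromorphic vectors define holomorphic maps.** -/
theorem exists_ellMap (L : PeriodPair) {F : ι → MvPolynomial (Fin (n + 1)) ℂ}
    (hF : ∀ i, ∃ d, (F i).IsHomogeneous d) {q : ℂ → Fin (n + 1) → ℂ}
    (hq : ∀ z0 i, MeromorphicAt (fun z => q z i) z0)
    (hne : ∀ z0, ∃ i, meromorphicOrderAt (fun z => q z i) z0 ≠ ⊤)
    (hper : ∀ l ∈ L.lattice, ∀ z i, q (z + l) i = q z i) (hon : ∀ z i, eval (q z) (F i) = 0) :
    ∃ φ, EllMap L F φ ∧ ∀ z0 (h : ℂ → Fin (n + 1) → ℂ), Lift q z0 h →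
      ∃ h0 : h z0 ≠ 0, φ z0 = Projectivization.mk ℂ (h z0) h0 := by
  classical
  choose h hh using fun z0 => exists_lift (hq z0) (hne z0)
  let φ : ℂ → Projectivization ℂ (Fin (n + 1) → ℂ) := fun z0 =>
    Projectivization.mk ℂ (h z0 z0) (hh z0).ne
  refine ⟨φ, ⟨fun l hl z => ?_, fun z0 => ⟨h z0, (hh z0).an, ?_⟩⟩, fun z0 k hk => ⟨hk.ne, ?_⟩⟩
  · apply mk_eq_of_cross
    intro i j
    have h1 := Lift.cross (q := q) (z0 := z) (z1 := z) (b := l) (hh z).an (hh z).eq (hper l hl) (hh (z + l)) j i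
    linear_combination h1
  · obtain ⟨m, hm⟩ := (hh z0).eq
    have hne1 : ∀ᶠ z in 𝓝 z0, h z0 z ≠ 0 := by
      obtain ⟨i, hi⟩ : ∃ i, h z0 z0 i ≠ 0 := by
        by_contra hno
        push Not at hno
        exact (hh z0).ne (funext hno)
      filter_upwards [((hh z0).an i).continuousAt.eventually_ne hi] with z hz h0
      exact hz (congrFun h0 i)
    have hon1 : ∀ᶠ z in 𝓝[≠] z0, ∀ i, eval (h z0 z) (F i) = 0 := by
      filter_upwards [hm, self_mem_nhdsWithin] with z hz hz0 i
      obtain ⟨d, hd⟩ := hF i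
      have h1 := hon z i
      have h2 : q z = fun i => (z - z0) ^ m * h z0 z i := funext hz
      rw [h2, eval_scale hd] at h1
      exact (mul_eq_zero.1 h1).resolve_left (pow_ne_zero _ (zpow_ne_zero _ (sub_ne_zero.2 hz0)))
    have hon2 : ∀ i, eval (h z0 z0) (F i) = 0 := by
      intro i
      have hc : ContinuousAt (fun z => eval (h z0 z) (F i)) z0 := by
        have h1 := eval_an (f := h z0) (S := {z0}) (fun i z hz => by
          rw [Set.mem_singleton_iff.1 hz]
          exact (hh z0).an i) (F i) z0 rfl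
        exact h1.continuousAt
      have h3 : Tendsto (fun z => eval (h z0 z) (F i)) (𝓝[≠] z0) (𝓝 (eval (h z0 z0) (F i))) :=
        hc.tendsto.mono_left nhdsWithin_le_nhds
      have h4 : Tendsto (fun z => eval (h z0 z) (F i)) (𝓝[≠] z0) (𝓝 0) :=
        tendsto_const_nhds.congr' (hon1.mono fun z hz => (hz i).symm)
      exact tendsto_nhds_unique h3 h4
    have han : ∀ᶠ z in 𝓝 z0, ∀ i, AnalyticAt ℂ (fun z => h z0 z i) z := by
      rw [Filter.eventually_all]
      exact fun i => ((hh z0).an i).eventually_analyticAt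
    have hm2 : ∀ᶠ z in 𝓝 z0, z ≠ z0 → ∀ᶠ y in 𝓝 z, ∀ i, q y i = (y - z0) ^ m * h z0 y i := by
      rw [eventually_nhdsWithin_iff] at hm
      have h1 := eventually_eventually_nhds.2 hm
      filter_upwards [h1] with z hz hne
      filter_upwards [hz, isOpen_ne.mem_nhds hne] with y hy hy0
      exact hy hy0
    rw [eventually_nhdsWithin_iff] at hon1
    filter_upwards [hne1, hon1, han, hm2] with z e1 e2 e3 e4
    by_cases hz : z = z0
    · rw [hz]
      exact ⟨hon2, (hh z0).ne, rfl⟩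
    · refine ⟨e2 hz, e1, ?_⟩
      apply mk_eq_of_cross
      intro i j
      have h1 := Lift.cross (q := q) (z0 := z0) (z1 := z) (b := 0) (h := h z0) (h' := h z) e3
        ⟨m, (e4 hz).filter_mono nhdsWithin_le_nhds⟩ (fun z i => by rw [add_zero]) (by
          rw [add_zero]
          exact hh z) j i
      rw [add_zero] at h1
      linear_combination h1
  · apply mk_eq_of_cross
    intro i j
    have h1 := Lift.cross (q := q) (z0 := z0) (z1 := z0) (b := 0) (hh z0).an (hh z0).eq
      (fun z i => by rw [add_zero]) (h' := k) (by rw [add_zero]; exact hk) i j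
    rw [add_zero] at h1
    exact h1

end Pool.Agent.Q33.SP
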