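import Pool.Agent.Q33.SP.LatProj
import Pool.Agent.Q33.SP.Hull2
import Pool.Agent.Y31.GG.Rat1

/-!
Multiplicative relations of entire functions modulo rational functions.
-/

set_option autoImplicit false

namespace Pool.Agent.Q33.SP

open Filter Topology Pool.Agent.W603.BP MvPolynomial Pool.Agent.H159R3.NV

variable {n r g : ℕ} {ι : Type}

theorem ent_eventually_ne {Q : ℂ → ℂ} (hQ : Differentiable ℂ Q) (hQ0 : Q ≠ 0) (t : ℂ) :
    ∀ᶠ z in 𝓝[≠] t, Q z ≠ 0 := by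
  rcases (hQ.analyticAt t).eventually_eq_zero_or_eventually_ne_zero with h | h
  · exfalso
    apply hQ0
    exact (hQ.differentiableOn.analyticOnNhd isOpen_univ).eq_of_eventuallyEq
      ((differentiable_const (0 : ℂ)).differentiableOn.analyticOnNhd isOpen_univ) h
  · exact h

/-- entire functions which agree near infinity -/
theorem ent_eq_of_inv {f h : ℂ → ℂ} (hf : Differentiable ℂ f) (hh : Differentiable ℂ h)
    (heq : ∀ᶠ w in 𝓝[≠] (0 : ℂ), f w⁻¹ = h w⁻¹) : f = h := by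
  obtain ⟨δ, hδ, hall⟩ := ev_iff.1 heq
  have hz : ∀ z : ℂ, δ⁻¹ < ‖z‖ → f z = h z := by
    intro z hz
    have hz0 : 0 < ‖z‖ := (inv_pos.2 hδ).trans hz
    have hz1 : z ≠ 0 := norm_pos_iff.1 hz0
    have h1 := hall z⁻¹ ⟨inv_ne_zero hz1, by rw [norm_inv]; exact inv_lt_of_inv_lt₀ hδ hz⟩
    rwa [inv_inv] at h1
  have hmem : δ⁻¹ < ‖((δ⁻¹ + 1 : ℝ) : ℂ)‖ := by
    rw [Complex.norm_real, Real.norm_of_nonneg (by positivity)]
    linarith
  refine (hf.differentiableOn.analyticOnNhd isOpen_univ).eq_of_eventuallyEq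
    (hh.differentiableOn.analyticOnNhd isOpen_univ) (z₀ := ((δ⁻¹ + 1 : ℝ) : ℂ)) ?_
  have ho : IsOpen {z : ℂ | δ⁻¹ < ‖z‖} := isOpen_lt continuous_const continuous_norm
  filter_upwards [ho.mem_nhds hmem] with z hz'
  exact hz z hz'

theorem poly_fun_ne {A : Polynomial ℂ} (hA : A ≠ 0) : (fun z => A.eval z) ≠ 0 := by
  intro h
  apply hA
  exact Polynomial.funext fun z => by rw [Polynomial.eval_zero]; exact congrFun h z

/-- a quotient of entire functions which is meromorphic at infinity is rational -/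
theorem rat_of_mrel {P Q : ℂ → ℂ} (hP : Differentiable ℂ P) (hQ : Differentiable ℂ Q)
    (hP0 : P ≠ 0) (hQ0 : Q ≠ 0) (h : MRel (fun w => P w⁻¹) (fun w => Q w⁻¹)) :
    ∃ A B : Polynomial ℂ, A ≠ 0 ∧ B ≠ 0 ∧ ∀ z, B.eval z * P z = A.eval z * Q z := by
  classical
  obtain ⟨ρ, hρ, hρe⟩ := h
  obtain ⟨δ, hδ, hall⟩ := ev_iff.1 hρe
  have hz : ∀ z : ℂ, δ⁻¹ < ‖z‖ → P z = ρ z⁻¹ * Q z := by
    intro z hz
    have hz0 : 0 < ‖z‖ := (inv_pos.2 hδ).trans hz
    have hz1 : z ≠ 0 := norm_pos_iff.1 hz0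
    have h1 := hall z⁻¹ ⟨inv_ne_zero hz1, by rw [norm_inv]; exact inv_lt_of_inv_lt₀ hδ hz⟩
    simp only [inv_inv] at h1
    exact h1
  let H : ℂ → ℂ := fun z => if δ⁻¹ < ‖z‖ then ρ z⁻¹ else P z / Q z
  have hHeq : ∀ t : ℂ, ∀ᶠ z in 𝓝[≠] t, P z / Q z = H z := by
    intro t
    filter_upwards [ent_eventually_ne hQ hQ0 t] with z hz1
    change _ = if δ⁻¹ < ‖z‖ then ρ z⁻¹ else P z / Q z
    by_cases h : δ⁻¹ < ‖z‖
    · rw [if_pos h, hz z h]
      field_simp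
    · rw [if_neg h]
  have hPQ : ∀ t, MeromorphicAt (fun z => P z / Q z) t := fun t =>
    (hP.analyticAt t).meromorphicAt.fun_div (hQ.analyticAt t).meromorphicAt
  have hm : ∀ t, MeromorphicAt H t := fun t => (hPQ t).congr (hHeq t)
  have hne : ∀ t, meromorphicOrderAt H t ≠ ⊤ := by
    intro t
    rw [meromorphicOrderAt_ne_top_iff_eventually_ne_zero (hm t)]
    filter_upwards [hHeq t, ent_eventually_ne hQ hQ0 t, ent_eventually_ne hP hP0 t] with z h1 h2 h3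
    rw [← h1]
    exact div_ne_zero h3 h2
  have hHinf : ∀ᶠ w in 𝓝[≠] (0 : ℂ), ρ w = H w⁻¹ := by
    refine ev_iff.2 ⟨δ, hδ, fun w hw => ?_⟩
    change ρ w = if δ⁻¹ < ‖w⁻¹‖ then ρ w⁻¹⁻¹ else _
    rw [if_pos, inv_inv]
    rw [norm_inv]
    exact inv_strictAnti₀ (norm_pos_iff.2 hw.1) hw.2
  have hinf : MeromorphicAt (fun w => H w⁻¹) 0 := hρ.congr hHinf
  obtain ⟨A, B, hB, hAB⟩ := Pool.Agent.Y31.GG.rational_of_mero hm hne hinf
  have hid : (fun z => B.eval z * P z) = fun z => A.eval z * Q z := by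
    apply ent_eq_of_inv (B.differentiable.mul hP) (A.differentiable.mul hQ)
    filter_upwards [hAB, hHinf, hρe] with w h1 h2 h3
    rw [← h2] at h1
    change B.eval w⁻¹ * P w⁻¹ = A.eval w⁻¹ * Q w⁻¹
    change P w⁻¹ = ρ w * Q w⁻¹ at h3
    rw [← h1, h3]
    ring
  refine ⟨A, B, ?_, hB, fun z => congrFun hid z⟩
  rintro rfl
  have h1 : ∀ z, B.eval z * P z = 0 := fun z => by
    have := congrFun hid z
    simpa using this
  rcases ent_eq_zero_or B.differentiable hP h1 with h2 | h2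
  · exact poly_fun_ne hB h2
  · exact hP0 h2

/-- germs at infinity of rational functions -/
theorem mrel_of_rat {P Q : ℂ → ℂ} {A B : Polynomial ℂ} (hB : B ≠ 0)
    (h : ∀ z, B.eval z * P z = A.eval z * Q z) : MRel (fun w => P w⁻¹) (fun w => Q w⁻¹) := by
  have hmer : ∀ C : Polynomial ℂ, MeromorphicAt (fun w : ℂ => C.eval w⁻¹) 0 := by
    intro C
    have h1 : MeromorphicAt (fun w : ℂ => w⁻¹) 0 := (MeromorphicAt.id 0).inv
    have h2 : (fun w : ℂ => C.eval w⁻¹) = fun w => ∑ i ∈ Finset.range (C.natDegree + 1),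
        C.coeff i * (w⁻¹) ^ i := funext fun w => Polynomial.eval_eq_sum_range _
    rw [h2]
    exact MeromorphicAt.fun_sum fun i _ => (MeromorphicAt.const _ _).fun_mul (h1.fun_pow i)
  have hne : ∀ᶠ w in 𝓝[≠] (0 : ℂ), B.eval w⁻¹ ≠ 0 := by
    rcases (hmer B).eventually_eq_zero_or_eventually_ne_zero with h1 | h1
    · exfalso
      have h2 := ent_eq_of_inv B.differentiable (differentiable_const (0 : ℂ)) h1
      exact poly_fun_ne hB h2
    · exact h1
  refine ⟨fun w => A.eval w⁻¹ / B.eval w⁻¹, (hmer A).fun_div (hmer B), ?_⟩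
  filter_upwards [hne] with w hw
  have h1 := h w⁻¹
  change P w⁻¹ = A.eval w⁻¹ / B.eval w⁻¹ * Q w⁻¹
  rw [div_mul_eq_mul_div, eq_div_iff hw, ← h1, mul_comm]

end Pool.Agent.Q33.SP
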